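import Mathlib

/-!
# Finite rooted trees up to isomorphism, coded by natural numbers

`RT` is the type of finite rooted trees up to isomorphism. `nd s` is the rooted tree whose root has the
multiset `s` of branches, `br t` the multiset of the branches of `t`. Basic API: `br_nd`, `nd_br`,
the induction principle `RT.ind`, the number of vertices `size`.
-/

set_option autoImplicit false

namespace Pool.Agent.N203.DR

/-- finite rooted trees up to isomorphism -/
structure RT where
  code : ℕ
deriving DecidableEq

theorem RT.code_inj {a b : RT} (h : a.code = b.code) : a = b := by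
  cases a; cases b; simp_all

/-- the branches at the root -/
def br (t : RT) : Multiset RT :=
  (((Denumerable.eqv (Multiset ℕ)).symm t.code).map RT.mk)

/-- the tree with given branches at the root -/
def nd (s : Multiset RT) : RT := ⟨Denumerable.eqv (Multiset ℕ) (s.map RT.code)⟩

@[simp] theorem br_nd (s : Multiset RT) : br (nd s) = s := by
  unfold br nd
  simp only [Equiv.symm_apply_apply, Multiset.map_map]
  conv_rhs => rw [← Multiset.map_id s]
  apply Multiset.map_congr rfl
  intro x _
  rfl

@[simp] theorem nd_br (t : RT) : nd (br t) = t := by
  apply RT.code_inj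
  unfold br nd
  simp only [Multiset.map_map]
  have : Multiset.map (RT.code ∘ RT.mk) ((Denumerable.eqv (Multiset ℕ)).symm t.code) =
      (Denumerable.eqv (Multiset ℕ)).symm t.code := by
    conv_rhs => rw [← Multiset.map_id ((Denumerable.eqv (Multiset ℕ)).symm t.code)]
    apply Multiset.map_congr rfl
    intro x _
    rfl
  rw [this, Equiv.apply_symm_apply]

theorem nd_inj {s s' : Multiset RT} (h : nd s = nd s') : s = s' := by
  rw [← br_nd s, h, br_nd]

@[simp] theorem nd_eq_nd {s s' : Multiset RT} : nd s = nd s' ↔ s = s' :=
  ⟨nd_inj, fun h => by rw [h]⟩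

theorem br_inj {t t' : RT} (h : br t = br t') : t = t' := by
  rw [← nd_br t, h, nd_br]

theorem raise_le (l : List ℕ) : ∀ (k : ℕ), ∀ b ∈ Denumerable.raise l k, b ≤ l.sum + k := by
  induction l with
  | nil => intro k b hb; simp [Denumerable.raise] at hb
  | cons a l ih =>
    intro k b hb
    simp only [Denumerable.raise, List.mem_cons] at hb
    rw [List.sum_cons]
    rcases hb with rfl | hb
    · omega
    · have := ih (a + k) b hb
      omega

theorem sum_lt_encode (l : List ℕ) : l.sum ≤ Encodable.encode l := by
  induction l with
  | nil => simp
  | cons a l ih =>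
    rw [List.sum_cons, Encodable.encode_list_cons]
    have := Nat.add_le_pair (Encodable.encode a) (Encodable.encode l)
    simp only [Encodable.encode_nat] at this ⊢
    omega

theorem code_lt {b t : RT} (h : b ∈ br t) : b.code < t.code := by
  unfold br at h
  rw [Multiset.mem_map] at h
  obtain ⟨x, hx, rfl⟩ := h
  show x < t.code
  set n := t.code with hn
  have e : (Denumerable.eqv (Multiset ℕ)).symm n =
      ((Denumerable.raise (Denumerable.ofNat (List ℕ) n) 0 : List ℕ) : Multiset ℕ) := by
    have : (Denumerable.eqv (Multiset ℕ)).symm n =
      Multiset.map (Denumerable.ofNat ℕ) (Denumerable.raise (Denumerable.ofNat (List ℕ) n) 0) := by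
      simp [Denumerable.eqv, Denumerable.ofNat, Encodable.decode]
    rw [this]
    conv_rhs => rw [← Multiset.map_id ((Denumerable.raise (Denumerable.ofNat (List ℕ) n) 0 : List ℕ) : Multiset ℕ)]
    apply Multiset.map_congr rfl
    intro y _
    simp
  rw [e, Multiset.mem_coe] at hx
  set l := Denumerable.ofNat (List ℕ) n with hl
  have hle := raise_le l 0 x hx
  have hen : Encodable.encode l = n := by rw [hl, Denumerable.encode_ofNat]
  cases hl' : l with
  | nil => rw [hl'] at hx; simp [Denumerable.raise] at hx
  | cons a l' =>
    rw [hl'] at hle hen
    rw [Encodable.encode_list_cons] at hen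
    rw [List.sum_cons] at hle
    have h1 := Nat.add_le_pair (Encodable.encode a) (Encodable.encode l')
    have h2 := sum_lt_encode l'
    simp only [Encodable.encode_nat] at h1 hen
    omega

/-- induction principle for rooted trees -/
theorem RT.ind {P : RT → Prop} (h : ∀ s : Multiset RT, (∀ b ∈ s, P b) → P (nd s)) (t : RT) : P t := by
  induction hn : t.code using Nat.strong_induction_on generalizing t with
  | _ n ih =>
    rw [← nd_br t]
    apply h
    intro b hb
    exact ih b.code (hn ▸ code_lt hb) b rfl

/-- number of vertices -/
def size (t : RT) : ℕ := 1 + ((br t).attach.map fun b => size b.1).sum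
termination_by t.code
decreasing_by exact code_lt b.2

theorem size_eq (t : RT) : size t = 1 + ((br t).map size).sum := by
  conv_lhs => rw [size]
  congr 2
  exact Multiset.attach_map_val' (br t) size

@[simp] theorem size_nd (s : Multiset RT) : size (nd s) = 1 + (s.map size).sum := by
  rw [size_eq, br_nd]

theorem size_pos (t : RT) : 0 < size t := by rw [size_eq]; omega

end Pool.Agent.N203.DR
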