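import Pool.Agent.N203.DR.Stm

/-!
# The case distinction
-/

set_option autoImplicit false

namespace Pool.Agent.N203.DR

open Multiset

/-- the conclusion for the free tree of `t` -/
def Good (t : RT) : Prop := ∃ t1 t2, Fr t t1 ∧ Det t1 t2

theorem Good.fr {a b : RT} (h : Fr a b) (hb : Good b) : Good a := by
  obtain ⟨t1, t2, h1, h2⟩ := hb
  exact ⟨t1, t2, h.trans' h1, h2⟩

private theorem core_size_pos (t : RT) : 1 ≤ size t := by
  rw [DR.size_eq t]; omega

private theorem core_size_one {t : RT} (h : size t = 1) : t = nd 0 := by
  have h1 := DR.size_eq t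
  have h2 : ((br t).map size).sum = 0 := by omega
  have h3 : br t = 0 := by
    rcases Multiset.empty_or_exists_mem (br t) with h | ⟨a, ha⟩
    · exact h
    · exfalso
      obtain ⟨s, hs⟩ := Multiset.exists_cons_of_mem ha
      rw [hs, Multiset.map_cons, Multiset.sum_cons] at h2
      have := core_size_pos a
      omega
  rw [← nd_br t, h3]

private theorem core_sum_le (s : Multiset RT) (k : ℕ) (h : ∀ b ∈ s, size b ≤ k) :
    (s.map size).sum ≤ card s * k := by
  induction s using Multiset.induction_on with
  | empty => simp
  | cons a s ih =>
    rw [Multiset.map_cons, Multiset.sum_cons, Multiset.card_cons, Nat.succ_mul]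
    have := ih fun b hb => h b (Multiset.mem_cons_of_mem hb)
    have := h a (Multiset.mem_cons_self a s)
    omega

theorem core (cen1 : S_CEN1) (lld : S_LLD) (r2 : S_R2) (i : S_I) (iip1 : S_IIp1) (iip2 : S_IIp2)
    (ii1 : S_II1) (ii1s : S_II1s) (x6 : S_X6) (ii2 : S_II2) (ii2e : S_II2e) (ii2p : S_II2p)
    (iii : S_III) (iiie : S_IIIe) (iiip : S_IIIp) (x1 : S_X1) (x2 : S_X2) (x3a : S_X3a)
    (x3b : S_X3b) (x3c : S_X3c) (x4 : S_X4) (x4r : S_X4r) (x5 : S_X5) :
    ∀ t : RT, 40 ≤ size t → Good t := by
  intro t ht
  obtain ⟨c, hc, hcen⟩ := cen1 t
  have hsz : size t = size c := hc.size_eq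
  have hc40 : 40 ≤ size c := hsz ▸ ht
  refine Good.fr hc ?_
  clear hc hsz ht t
  have ll : ∀ t a1 a2, 3 ≤ size t → LL t a1 a2 → Good t := fun t a1 a2 h h' => lld t a1 a2 h h'
  have sum_c := DR.size_eq c
  -- robust case
  have rob : (∀ b ∈ br c, 2 * size b + 3 ≤ size c) → Good c := by
    intro hb
    rcases r2 c with hex | ⟨a1, a2, ha⟩
    · refine x1 c hex ?_ (by omega)
      by_contra hcard
      have h1 := core_sum_le (br c) ((size c - 3) / 2) (fun b h => by have := hb b h; omega)
      have h2 : card (br c) * ((size c - 3) / 2) ≤ 2 * ((size c - 3) / 2) :=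
        Nat.mul_le_mul_right _ (by omega)
      omega
    · exact ll c a1 a2 (by omega) (i c a1 a2 hb ha)
  rcases Nat.even_or_odd' (size c) with ⟨m, hm | hm⟩
  · -- even
    by_cases hbi : ∃ b ∈ br c, size b = m
    · obtain ⟨R, hR, hRm⟩ := hbi
      obtain ⟨s, hs⟩ := Multiset.exists_cons_of_mem hR
      obtain ⟨L, hL⟩ : ∃ L, L = nd s := ⟨_, rfl⟩
      have hcL : c = nd (R ::ₘ br L) := by rw [hL, br_nd, ← hs, nd_br]
      have hLm : size L = m := by
        rw [hL, size_nd]
        rw [hs, Multiset.map_cons, Multiset.sum_cons] at sum_c
        omega
      have hflip : Fr c (nd (L ::ₘ br R)) := by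
        have := Stp.mk R (br L)
        rw [nd_br] at this
        rw [hcL]; exact Fr.of this
      have key : ∀ K : RT, size K = m → K ≠ P (m - 1) → Fr c (nd (P (m - 1) ::ₘ br K)) →
          Good c := by
        intro K hK hKP hcK
        by_cases hd : Del (P (m - 2)) K
        · obtain ⟨-, j, k, hjk, hf⟩ := x4r m K (by omega) hK hKP hd
          exact Good.fr (hcK.trans' hf) (x4 j k (by omega))
        · obtain ⟨a1, a2, h⟩ := iiip m K (by omega) hK hKP hd
          exact Good.fr hcK (ll _ a1 a2 (by rw [← hcK.size_eq]; omega) h)
      by_cases hLR : L = R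
      · subst hLR
        by_cases hex : Ex L
        · have hcard : card (br L) = 0 ∨ card (br L) = 1 ∨ card (br L) = 2 ∨ 3 ≤ card (br L) := by
            omega
          rw [hcL]
          rcases hcard with h0 | h1 | h2 | h3
          · exfalso
            have := DR.size_eq L
            rw [Multiset.card_eq_zero.1 h0] at this
            simp at this
            omega
          · exact x3a L hex h1 (by omega)
          · exact x3c L hex h2 (by omega)
          · exact x3b L hex h3 (by omega)
        · by_cases h5 : L = nd {P (m - 3), nd 0}
          · rw [hcL, h5, br_nd]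
            exact x5 m (by omega)
          · obtain ⟨a1, a2, h⟩ := iiie m L (by omega) hLm hex h5 r2
            rw [hcL]
            exact ll _ a1 a2 (by rw [← hcL]; omega) h
      · by_cases hLP : L = P (m - 1)
        · refine key R hRm (fun h => hLR (hLP.trans h.symm)) ?_
          rw [← hLP]; exact hflip
        · by_cases hRP : R = P (m - 1)
          · refine key L hLm hLP ?_
            rw [← hRP, ← hcL]; exact Fr.refl' _
          · obtain ⟨a1, a2, h⟩ := iii m L R (by omega) hLm hRm hLR hLP hRP
            rw [hcL]
            exact ll _ a1 a2 (by rw [← hcL]; omega) h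
    · push Not at hbi
      by_cases hrob : ∀ b ∈ br c, 2 * size b + 3 ≤ size c
      · exact rob hrob
      · push Not at hrob
        obtain ⟨A, hA, hA1⟩ := hrob
        have hA2 := hcen A hA
        have hA3 := hbi A hA
        have hAm : size A + 1 = m := by omega
        obtain ⟨S, hS⟩ := Multiset.exists_cons_of_mem hA
        have hcS : c = nd (A ::ₘ S) := by rw [← hS, nd_br]
        rw [hS, Multiset.map_cons, Multiset.sum_cons] at sum_c
        by_cases hB : ∃ B ∈ S, size B + 1 = m
        · obtain ⟨B, hB, hBm⟩ := hB
          obtain ⟨S', hS'⟩ := Multiset.exists_cons_of_mem hB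
          rw [hS', Multiset.map_cons, Multiset.sum_cons] at sum_c
          have hsum : (S'.map size).sum = 1 := by omega
          have hS0 : S' = {nd 0} := by
            rcases Multiset.empty_or_exists_mem S' with h | ⟨a, ha⟩
            · rw [h] at hsum; simp at hsum
            · obtain ⟨s, hs⟩ := Multiset.exists_cons_of_mem ha
              rw [hs, Multiset.map_cons, Multiset.sum_cons] at hsum
              have ha1 := core_size_pos a
              have ha2 : size a = 1 := by omega
              have hs0 : s = 0 := by
                rcases Multiset.empty_or_exists_mem s with h | ⟨b, hb⟩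
                · exact h
                · exfalso
                  obtain ⟨s', hs'⟩ := Multiset.exists_cons_of_mem hb
                  rw [hs', Multiset.map_cons, Multiset.sum_cons] at hsum
                  have := core_size_pos b
                  omega
              rw [hs, hs0, core_size_one ha2]; rfl
          have hcc : c = nd {A, B, nd 0} := by
            rw [hcS, hS', hS0]; rfl
          by_cases hAP : A = P (m - 2)
          · by_cases hBP : B = P (m - 2)
            · have : c = nd {nd 0, P (m - 2), P (m - 2)} := by
                rw [hcc, hAP, hBP]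
                congr 1
                show P (m - 2) ::ₘ P (m - 2) ::ₘ {nd 0} = nd 0 ::ₘ P (m - 2) ::ₘ {P (m - 2)}
                rw [← Multiset.cons_zero (nd 0), Multiset.cons_swap (P (m-2)) (nd 0) 0,
                  Multiset.cons_swap (P (m-2)) (nd 0)]
                rfl
              rw [this]
              exact x4 _ _ (by omega)
            · obtain ⟨a1, a2, h⟩ := iip2 m B A (by omega) hBm hAm hBP
              have hcB : c = nd {B, A, nd 0} := by
                rw [hcc]
                congr 1
                exact Multiset.cons_swap A B {nd 0}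
              rw [hcB]
              exact ll _ a1 a2 (by rw [← hcB]; omega) h
          · obtain ⟨a1, a2, h⟩ := iip2 m A B (by omega) hAm hBm hAP
            rw [hcc]
            exact ll _ a1 a2 (by rw [← hcc]; omega) h
        · push Not at hB
          rcases Multiset.empty_or_exists_mem S with h | ⟨C, hC⟩
          · exfalso
            rw [h] at sum_c
            simp at sum_c
            omega
          · obtain ⟨S', hS'⟩ := Multiset.exists_cons_of_mem hC
            have hall : ∀ b ∈ C ::ₘ S', size b < size A := by
              intro b hb
              rw [← hS'] at hb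
              have hb' : b ∈ br c := by rw [hS]; exact Multiset.mem_cons_of_mem hb
              have h1 := hcen b hb'
              have h2 := hbi b hb'
              have h3 := hB b hb
              omega
            have hcc : c = nd (A ::ₘ C ::ₘ S') := by rw [hcS, hS']
            obtain ⟨a1, a2, h⟩ := iip1 m A C S' (by omega) hAm (by rw [← hcc]; exact hm) hall
            rw [hcc]
            exact ll _ a1 a2 (by rw [← hcc]; omega) h
  · -- odd
    by_cases hrob : ∀ b ∈ br c, 2 * size b + 3 ≤ size c
    · exact rob hrob
    · push Not at hrob
      obtain ⟨A, hA, hA1⟩ := hrob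
      have hA2 := hcen A hA
      have hAm : size A = m := by omega
      obtain ⟨S, hS⟩ := Multiset.exists_cons_of_mem hA
      have hcS : c = nd (A ::ₘ S) := by rw [← hS, nd_br]
      rw [hS, Multiset.map_cons, Multiset.sum_cons] at sum_c
      have hcard : card S = 0 ∨ card S = 1 ∨ 2 ≤ card S := by omega
      rcases hcard with h0 | h1 | h2
      · exfalso
        rw [Multiset.card_eq_zero.1 h0] at sum_c
        simp at sum_c
        omega
      · obtain ⟨C, hC⟩ := Multiset.card_eq_one.1 h1
        have hCm : size C = m := by
          rw [hC] at sum_c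
          simp at sum_c
          omega
        have hcc : c = nd {A, C} := by rw [hcS, hC]; rfl
        have key : ∀ K : RT, size K = m → K ≠ P (m - 1) → c = nd {K, P (m - 1)} → Good c := by
          intro K hK hKP hcK
          by_cases hd : Del (P (m - 2)) K
          · obtain ⟨⟨j, k, hjk, hf⟩, -⟩ := x4r m K (by omega) hK hKP hd
            rw [hcK]
            exact Good.fr hf (x4 j k (by omega))
          · obtain ⟨a1, a2, h⟩ := ii2p m K (by omega) hK hKP hd
            rw [hcK]
            exact ll _ a1 a2 (by rw [← hcK]; omega) h
        by_cases hAC : A = C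
        · subst hAC
          rcases r2 A with hex | ⟨a1, a2, ha⟩
          · rw [hcc]; exact x2 A hex (by omega)
          · rw [hcc]
            exact ll _ _ _ (by rw [← hcc]; omega) (ii2e m A a1 a2 (by omega) hAm ha)
        · by_cases hAP : A = P (m - 1)
          · refine key C hCm (fun h => hAC (hAP.trans h.symm)) ?_
            rw [hcc, hAP]
            congr 1
            exact Multiset.pair_comm _ _
          · by_cases hCP : C = P (m - 1)
            · refine key A hAm hAP ?_
              rw [hcc, hCP]
            · obtain ⟨a1, a2, h⟩ := ii2 m A C (by omega) hAm hCm hAC hAP hCP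
              rw [hcc]
              exact ll _ a1 a2 (by rw [← hcc]; omega) h
      · by_cases hs : ∃ C, S = {C, nd 0}
        · obtain ⟨C, hC⟩ := hs
          have hCm : size C + 1 = m := by
            rw [hC] at sum_c
            simp at sum_c
            omega
          have hcc : c = nd {A, C, nd 0} := by rw [hcS, hC]; rfl
          by_cases h6 : A = nd {P (m - 3), nd 0} ∧ C = P (m - 2)
          · obtain ⟨a1, a2, h⟩ := x6 m (by omega)
            have hcc' : c = nd {nd {P (m - 3), nd 0}, P (m - 2), nd 0} := by
              rw [hcc, h6.2, h6.1]
            rw [hcc']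
            exact ll _ a1 a2 (by rw [← hcc']; omega) h
          · obtain ⟨a1, a2, h⟩ := ii1s m A C (by omega) hAm hCm h6
            rw [hcc]
            exact ll _ a1 a2 (by rw [← hcc]; omega) h
        · push Not at hs
          have hSm : size (nd S) = m + 1 := by rw [size_nd]; omega
          obtain ⟨a1, a2, h⟩ := ii1 m A S (by omega) hAm hSm h2 hs
          rw [hcS]
          exact ll _ a1 a2 (by rw [← hcS]; omega) h

end Pool.Agent.N203.DR
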