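import Pool.Agent.N203.DR.Basic

/-!
# Free trees, deletion of leaves, attached limbs: definitions and first lemmas
-/

set_option autoImplicit false

namespace Pool.Agent.N203.DR

open Multiset

/-- one step of re-rooting: from the root to the root of the branch `A` -/
inductive Stp : RT → RT → Prop
  | mk (A : RT) (s : Multiset RT) : Stp (nd (A ::ₘ s)) (nd (nd s ::ₘ br A))

/-- the same free tree (rooted at some other vertex) -/
def Fr : RT → RT → Prop := Relation.ReflTransGen Stp

/-- free trees -/
def FT : Type := Quot Stp

/-- the multiset of free trees underlying a multiset of rooted trees -/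
def fc (s : Multiset RT) : Multiset FT := s.map (Quot.mk Stp)

/-- `Att G t t'`: `t'` is obtained from `t` by attaching the limb `G` (by its root) to some vertex
of `t`; same root -/
inductive Att (G : RT) : RT → RT → Prop
  | root (s : Multiset RT) : Att G (nd s) (nd (G ::ₘ s))
  | step (s : Multiset RT) (b b' : RT) : Att G b b' → Att G (nd (b ::ₘ s)) (nd (b' ::ₘ s))

/-- `t'` is obtained from `t` by deleting a leaf different from the root -/
def Del (t' t : RT) : Prop := Att (nd 0) t' t

/-- no branch has more than half of the vertices: the root is a centroid -/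
def Cen (t : RT) : Prop := ∀ b ∈ br t, 2 * size b ≤ size t

/-- the path with `k + 1` vertices, rooted at an end -/
def P : ℕ → RT
  | 0 => nd 0
  | k + 1 => nd {P k}

/-- the path with `k + 1` vertices, rooted at an end, with two leaves at the other end
(`k + 3` vertices) -/
def Yc : ℕ → RT
  | 0 => nd {nd 0, nd 0}
  | k + 1 => nd {Yc k}

/-- the exceptional rooted trees -/
inductive Ex : RT → Prop
  | zero : Ex (nd 0)
  | rep (n : ℕ) (b : RT) : Ex b → Ex (nd (replicate n b))
  | mix (k : ℕ) (s : Multiset RT) : (∀ b ∈ s, b = P (k + 2) ∨ b = Yc k) → Ex (nd s)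

/-- `t` is determined as a rooted tree by its two leaf deletions `a1`, `a2` -/
def RDet (t a1 a2 : RT) : Prop :=
  Del a1 t ∧ Del a2 t ∧ a1 ≠ a2 ∧ ∀ h, Del a1 h → Del a2 h → h = t

/-- `t` is determined as a free tree by its two leaf deletions `a1`, `a2` -/
def LL (t a1 a2 : RT) : Prop :=
  Del a1 t ∧ Del a2 t ∧ ¬ Fr a1 a2 ∧
    ∀ h h1 h2, Cen h → Del h1 h → Del h2 h → Fr h1 a1 → Fr h2 a2 → Fr t h

/-- the free tree is determined by the cards at two vertices, from which its codes are `t1`, `t2` -/
def Det (t1 t2 : RT) : Prop :=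
  Fr t1 t2 ∧ t1 ≠ t2 ∧
    (card (br t1) = 1 ∨ card (br t2) = 1 ∨ ∀ a ∈ br t1, ∀ b ∈ br t2, size a ≠ size b) ∧
    ∀ h1 h2, Fr h1 h2 → fc (br h1) = fc (br t1) → fc (br h2) = fc (br t2) → Fr t1 h1

/-- `Pos c X t`: `t` is the tree seen from some vertex of the branch `X`, where `c` is the
limb seen from the root of `X` upwards -/
inductive Pos : RT → RT → RT → Prop
  | root (c : RT) (s : Multiset RT) : Pos c (nd s) (nd (c ::ₘ s))
  | step (c X : RT) (s : Multiset RT) (t : RT) : Pos (nd (c ::ₘ s)) X t → Pos c (nd (X ::ₘ s)) t

theorem Stp.symm' {a b : RT} (h : Stp a b) : Stp b a := by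
  cases h with
  | mk A s =>
    have := Stp.mk (nd s) (br A)
    rwa [nd_br, br_nd] at this

theorem Fr.refl' (a : RT) : Fr a a := Relation.ReflTransGen.refl

theorem Fr.trans' {a b c : RT} (h : Fr a b) (h' : Fr b c) : Fr a c := Relation.ReflTransGen.trans h h'

theorem Fr.of {a b : RT} (h : Stp a b) : Fr a b := Relation.ReflTransGen.single h

theorem Fr.symm' {a b : RT} (h : Fr a b) : Fr b a := by
  induction h with
  | refl => exact Fr.refl' _
  | tail _ h ih => exact Fr.trans' (Fr.of h.symm') ih

theorem eqv_fr {a b : RT} (h : Relation.EqvGen Stp a b) : Fr a b := by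
  induction h with
  | rel _ _ h => exact Fr.of h
  | refl _ => exact Fr.refl' _
  | symm _ _ _ ih => exact ih.symm'
  | trans _ _ _ _ _ ih1 ih2 => exact ih1.trans' ih2

theorem mk_eq {a b : RT} : (Quot.mk Stp a : FT) = Quot.mk Stp b ↔ Fr a b := by
  constructor
  · intro h
    exact eqv_fr (Quot.eqvGen_exact h)
  · intro h
    induction h with
    | refl => rfl
    | tail _ h ih => exact ih.trans (Quot.sound h)

theorem Stp.size_eq {a b : RT} (h : Stp a b) : size a = size b := by
  cases h with
  | mk A s =>
    rw [size_nd, size_nd, Multiset.map_cons, Multiset.sum_cons, Multiset.map_cons,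
      Multiset.sum_cons, size_nd, DR.size_eq A]
    omega

theorem Fr.size_eq {a b : RT} (h : Fr a b) : size a = size b := by
  induction h with
  | refl => rfl
  | tail _ h ih => rw [ih, h.size_eq]

theorem Att.size_eq {G t t' : RT} (h : Att G t t') : size t' = size t + size G := by
  induction h with
  | root s => rw [size_nd, size_nd, Multiset.map_cons, Multiset.sum_cons]; omega
  | step s b b' _ ih =>
    rw [size_nd, size_nd, Multiset.map_cons, Multiset.sum_cons, Multiset.map_cons,
      Multiset.sum_cons, ih]; omega

theorem size_zero : size (nd 0) = 1 := by simp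

theorem Del.size_eq {t' t : RT} (h : Del t' t) : size t = size t' + 1 := by
  have := Att.size_eq h
  rwa [size_zero] at this

theorem size_P (k : ℕ) : size (P k) = k + 1 := by
  induction k with
  | zero => simp [P]
  | succ k ih => simp [P, ih]; omega

theorem size_Yc (k : ℕ) : size (Yc k) = k + 3 := by
  induction k with
  | zero => simp [Yc]
  | succ k ih => simp [Yc, ih]; omega

end Pool.Agent.N203.DR
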