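import Pool.Agent.N203.DR.Core

/-!
# From codes to graphs
-/

set_option autoImplicit false

namespace Pool.Agent.N203.DR

open Multiset

private theorem fin_real (real : S_REAL) {V : Type} [Fintype V] (G : SimpleGraph V)
    (hG : G.IsAcyclic) (u : V) {t : RT} (h : Fr (code G u) t) : ∃ v, code G v = t := by
  induction h with
  | refl => exact ⟨u, rfl⟩
  | tail _ h ih =>
    obtain ⟨v, hv⟩ := ih
    rw [← hv] at h
    obtain ⟨w, -, hw⟩ := real V G v _ hG h
    exact ⟨w, hw⟩

private theorem fin_root (root : S_ROOT) {V : Type} [Fintype V] (G : SimpleGraph V)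
    (hG : G.IsAcyclic) {u v : V} (p : G.Walk u v) : Fr (code G u) (code G v) := by
  induction p with
  | nil => exact Fr.refl' _
  | cons h _ ih => exact (Fr.of (root V G _ _ hG h)).trans' ih

theorem final (good : ∀ t : RT, 40 ≤ size t → Good t) (iso : S_ISO) (root : S_ROOT)
    (real : S_REAL) (hsize : S_SIZE) (cci : S_CCI) (ccx : S_CCX) (conn : S_CONN) :
    ∃ N : ℕ, ∀ n : ℕ, N ≤ n → ∀ T : SimpleGraph (Fin n), T.IsTree →
      ∃ u v : Fin n, u ≠ v ∧
        ∀ H : SimpleGraph (Fin n), ∀ x y : Fin n, x ≠ y →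
          Nonempty (T.induce ({u}ᶜ : Set (Fin n)) ≃g H.induce ({x}ᶜ : Set (Fin n))) →
          (T.neighborSet u).ncard = (H.neighborSet x).ncard →
          Nonempty (T.induce ({v}ᶜ : Set (Fin n)) ≃g H.induce ({y}ᶜ : Set (Fin n))) →
          (T.neighborSet v).ncard = (H.neighborSet y).ncard →
          Nonempty (T ≃g H) := by
  refine ⟨40, fun n hn T hT => ?_⟩
  have hac : T.IsAcyclic := hT.2
  let r : Fin n := ⟨0, by omega⟩
  have hsz : size (code T r) = n := by
    rw [hsize (Fin n) T r hac]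
    have : {v : Fin n | T.Reachable r v} = Set.univ := by
      ext v
      simp only [Set.mem_ofPred_eq, Set.mem_univ, iff_true]
      exact hT.1.preconnected r v
    rw [this, Set.ncard_univ]
    simp
  obtain ⟨t1, t2, h1, hdet⟩ := good (code T r) (by omega)
  obtain ⟨u, hu⟩ := fin_real real T hac r h1
  obtain ⟨v, hv⟩ := fin_real real T hac r (h1.trans' hdet.1)
  refine ⟨u, v, ?_, ?_⟩
  · intro huv
    apply hdet.2.1
    rw [← hu, ← hv, huv]
  · intro H x y hxy i1 d1 i2 d2
    obtain ⟨h12, hne, hbr, hd⟩ := hdet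
    have hH : H.IsTree := by
      refine conn n T H u v x y hT hxy i1 d1 i2 d2 ?_
      rw [hu, hv]; exact hbr
    have e1 : fc (br (code H x)) = fc (br t1) := by
      rw [← hu, ← ccx (Fin n) H x hH, ← ccx (Fin n) T u hT]
      convert (@cci _ _ _ _ _ _ (hac.induce _) i1).symm
    have e2 : fc (br (code H y)) = fc (br t2) := by
      rw [← hv, ← ccx (Fin n) H y hH, ← ccx (Fin n) T v hT]
      convert (@cci _ _ _ _ _ _ (hac.induce _) i2).symm
    obtain ⟨p⟩ := hH.1.preconnected x y
    have hfr := hd _ _ (fin_root root H hH.2 p) e1 e2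
    rw [← hu] at hfr
    obtain ⟨w, hw⟩ := fin_real real T hac u hfr
    exact iso _ _ T H w x hT hH hw

end Pool.Agent.N203.DR
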