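import Pool.Agent.N203.DR.Stm

/-!
# DR/ATTFR (helper751): attaching a limb is compatible with re-rooting
-/

set_option autoImplicit false

namespace Pool.Agent.N203.DR

open Multiset

private theorem attfr_inv {G t c1 : RT} (h : Att G t c1) :
    c1 = nd (G ::ₘ br t) ∨ ∃ (b : RT) (s1 : Multiset RT) (b' : RT),
      br t = b ::ₘ s1 ∧ Att G b b' ∧ c1 = nd (b' ::ₘ s1) := by
  cases h with
  | root s => left; rw [br_nd]
  | step s b b' h => right; exact ⟨b, s, b', by rw [br_nd], h, rfl⟩

private theorem attfr_step {G c d : RT} (h : Stp c d) {c1 : RT} (hc : Att G c c1) :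
    ∃ d', Att G d d' ∧ Fr c1 d' := by
  cases h with
  | mk A s =>
    rcases attfr_inv hc with e | ⟨b, s1, b', hb, hat, e⟩
    · rw [br_nd] at e
      subst e
      refine ⟨nd (nd (G ::ₘ s) ::ₘ br A), Att.step (br A) (nd s) (nd (G ::ₘ s)) (Att.root s), ?_⟩
      rw [Multiset.cons_swap]
      exact Fr.of (Stp.mk A (G ::ₘ s))
    · rw [br_nd] at hb
      subst e
      rcases Multiset.cons_eq_cons.1 hb with ⟨rfl, rfl⟩ | ⟨-, cs, rfl, rfl⟩
      · rcases attfr_inv hat with e | ⟨x, y, x', hx, hxt, e⟩
        · subst e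
          refine ⟨nd (G ::ₘ (nd s ::ₘ br A)), Att.root _, ?_⟩
          have := Stp.mk (nd (G ::ₘ br A)) s
          rw [br_nd, Multiset.cons_swap] at this
          exact Fr.of this
        · subst e
          refine ⟨nd (x' ::ₘ (nd s ::ₘ y)), ?_, ?_⟩
          · rw [hx, Multiset.cons_swap]
            exact Att.step _ x x' hxt
          · have := Stp.mk (nd (x' ::ₘ y)) s
            rw [br_nd, Multiset.cons_swap] at this
            exact Fr.of this
      · refine ⟨nd (nd (b' ::ₘ cs) ::ₘ br A),
          Att.step (br A) _ _ (Att.step cs b b' hat), ?_⟩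
        rw [Multiset.cons_swap]
        exact Fr.of (Stp.mk A (b' ::ₘ cs))

theorem holds_ATTFR : S_ATTFR := by
  intro G B c h
  induction h with
  | refl =>
    refine ⟨nd (G ::ₘ br B), ?_, ?_⟩
    · have := Att.root (G := G) (br B)
      rwa [nd_br] at this
    · have := Stp.mk B (br G)
      rw [nd_br] at this
      exact Fr.of this
  | tail _ hs ih =>
    obtain ⟨c1, h1, h2⟩ := ih
    obtain ⟨d', h3, h4⟩ := attfr_step hs h1
    exact ⟨d', h3, h2.trans' h4⟩

end Pool.Agent.N203.DR
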