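import Pool.Agent.N203.DR.Stm

/-!
# DR/CCI: the free trees of the components of isomorphic forests

Author: helper488 (project DR of helper203, page MP_b148a6_co).
-/

set_option autoImplicit false

namespace Pool.Agent.N203.DR

open Multiset

private theorem cci_walk (root : S_ROOT) {V : Type} [Fintype V] {F : SimpleGraph V}
    (hF : F.IsAcyclic) {a b : V} (w : F.Walk a b) : Fr (code F a) (code F b) := by
  induction w with
  | nil => exact Fr.refl' _
  | cons h _ ih => exact (Fr.of (root V F _ _ hF h)).trans' ih

theorem holds_CCI (root : S_ROOT) (inv : S_INV) : S_CCI := by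
  classical
  rintro V V' _ _ F F' hF ⟨e⟩
  have hF' : F'.IsAcyclic := e.isAcyclic_iff.1 hF
  let ε : F.ConnectedComponent ≃ F'.ConnectedComponent := e.connectedComponentEquiv
  have h : ∀ c : F.ConnectedComponent, (Quot.mk Stp (code F c.out) : FT) =
      Quot.mk Stp (code F' (ε c).out) := by
    intro c
    rw [mk_eq, ← inv V V' F F' e c.out]
    have h1 : F'.connectedComponentMk (e c.out) = F'.connectedComponentMk (ε c).out := by
      have h2 : F'.connectedComponentMk (ε c).out = ε c := Quot.out_eq (ε c)
      have h3 : F.connectedComponentMk c.out = c := Quot.out_eq c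
      rw [h2]
      conv_rhs => rw [← h3]
      rfl
    obtain ⟨w⟩ := SimpleGraph.ConnectedComponent.exact h1
    exact cci_walk root hF' w
  unfold cc
  refine (Multiset.map_congr rfl (fun c _ => h c)).trans ?_
  rw [← Multiset.map_univ_val_equiv ε]
  exact (Multiset.map_map (fun c : F'.ConnectedComponent => (Quot.mk Stp (code F' c.out) : FT))
    ε Finset.univ.val).symm

end Pool.Agent.N203.DR
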