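import Pool.Agent.N203.DR.Stm

/-!
# The components of a tree with a vertex removed are the branches at the vertex
-/

set_option autoImplicit false

namespace Pool.Agent.N203.DR

open Multiset

private theorem ccx_mem {α : Type} [Fintype α] {Q : α → Prop} {inst : DecidablePred Q} {a : α} :
    a ∈ (@Finset.filter α Q inst Finset.univ).val ↔ Q a := by
  simp

private theorem ccx_univ {α : Type} {i : Fintype α} (a : α) : a ∈ (@Finset.univ α i).val :=
  @Finset.mem_univ α i a

/-- the codes of vertices in one component of a forest give the same free tree -/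
private theorem ccx_reach (root : S_ROOT) {V : Type} [Fintype V] (F : SimpleGraph V)
    (hF : F.IsAcyclic) (a b : V) (h : F.Reachable a b) :
    (Quot.mk Stp (code F a) : FT) = Quot.mk Stp (code F b) := by
  obtain ⟨p⟩ := h
  induction p with
  | nil => rfl
  | @cons u v w hadj _ ih => exact (Quot.sound (root V F u v hF hadj)).trans ih

/-- going away from `x`, the codes in `T` and in `T - x` agree -/
private theorem ccx_cod {V : Type} [Fintype V] (T : SimpleGraph V) (x : V) (hT : T.IsAcyclic)
    [Fintype ({x}ᶜ : Set V)] (k : ℕ) :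
    ∀ (p v : ({x}ᶜ : Set V)) (q : T.Walk x v.1), q.IsPath → q.penultimate = p.1 →
      cod (T.induce ({x}ᶜ : Set V)) k p v = cod T k p.1 v.1 := by
  induction k with
  | zero => intro p v q _ _; rfl
  | succ k ih =>
    intro p v q hq hp
    rw [cod, cod]
    congr 1
    have key : ∀ z : V, T.Adj v.1 z → z ≠ p.1 → z ∉ q.support := by
      intro z hz hzp hmem
      exact hzp ((hT.eq_penultimate_of_adj_end hq hz hmem).trans hp)
    refine Multiset.map_eq_map_of_bij_of_nodup _ _ (Finset.nodup _) (Finset.nodup _)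
      (fun z _ => z.1) ?_ ?_ ?_ ?_
    · intro z hz
      have hz' := ccx_mem.1 hz
      exact ccx_mem.2 ⟨hz'.1, fun h => hz'.2 (Subtype.ext h)⟩
    · intro z _ z' _ h
      exact Subtype.ext h
    · intro z hz
      have hz' := ccx_mem.1 hz
      have hzx : z ∈ ({x}ᶜ : Set V) := by
        intro h
        have hx : z = x := h
        exact key z hz'.1 hz'.2 (hx ▸ q.start_mem_support)
      exact ⟨⟨z, hzx⟩, ccx_mem.2 ⟨hz'.1, fun h => hz'.2 (congrArg Subtype.val h)⟩, rfl⟩
    · intro z hz
      have hz' := ccx_mem.1 hz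
      have hadj : T.Adj v.1 z.1 := hz'.1
      have hzp : z.1 ≠ p.1 := fun h => hz'.2 (Subtype.ext h)
      exact ih v z (q.concat hadj) (hq.concat (key z.1 hadj hzp) hadj)
        (SimpleGraph.Walk.penultimate_concat _ _)

/-- the branch of `T` at the neighbour `w` of `x` is the code of `T - x` at `w` -/
private theorem ccx_branch {V : Type} [Fintype V] (T : SimpleGraph V) (x : V) (hT : T.IsAcyclic)
    [Fintype ({x}ᶜ : Set V)] (w : ({x}ᶜ : Set V)) (hw : T.Adj x w.1) :
    code (T.induce ({x}ᶜ : Set V)) w = cod T (Fintype.card V) x w.1 := by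
  have hcard : Fintype.card V = Fintype.card ({x}ᶜ : Set V) + 1 := by
    have h1 := Set.ncard_add_ncard_compl ({x} : Set V)
    rw [Set.ncard_singleton, Nat.card_eq_fintype_card, ← Nat.card_coe_set_eq,
      Nat.card_eq_fintype_card] at h1
    omega
  rw [hcard, cod, code]
  congr 1
  refine Multiset.map_eq_map_of_bij_of_nodup _ _ (Finset.nodup _) (Finset.nodup _)
    (fun z _ => z.1) ?_ ?_ ?_ ?_
  · intro z hz
    have hz' := ccx_mem.1 hz
    exact ccx_mem.2 ⟨hz', z.2⟩
  · intro z _ z' _ h
    exact Subtype.ext h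
  · intro z hz
    have hz' := ccx_mem.1 hz
    exact ⟨⟨z, hz'.2⟩, ccx_mem.2 hz'.1, rfl⟩
  · intro z hz
    have hz' := ccx_mem.1 hz
    have hadj : T.Adj w.1 z.1 := hz'
    have hzx : z.1 ≠ x := z.2
    have hwx : w.1 ≠ x := w.2
    have hp : (hw.toWalk).IsPath := by
      simp [hwx.symm]
    refine ccx_cod T x hT _ w z ((hw.toWalk).concat hadj) (hp.concat ?_ hadj)
      (SimpleGraph.Walk.penultimate_concat _ _)
    simp [hzx, hadj.ne.symm]

/-- a path from `x` gives a walk in `T - x` from its second vertex -/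
private theorem ccx_tail {V : Type} (T : SimpleGraph V) (x : V) {w y : V} (p : T.Walk w y)
    (hp : x ∉ p.support) (hw : w ∈ ({x}ᶜ : Set V)) (hy : y ∈ ({x}ᶜ : Set V)) :
    (T.induce ({x}ᶜ : Set V)).Reachable ⟨w, hw⟩ ⟨y, hy⟩ := by
  induction p with
  | nil => exact SimpleGraph.Reachable.refl _
  | @cons u v w' hadj p ih =>
    rw [SimpleGraph.Walk.support_cons, List.mem_cons, not_or] at hp
    have hv : v ∈ ({x}ᶜ : Set V) := by
      intro h
      have h' : v = x := h
      exact hp.2 (h' ▸ p.start_mem_support)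
    have h1 : (T.induce ({x}ᶜ : Set V)).Adj ⟨u, hw⟩ ⟨v, hv⟩ := hadj
    exact h1.reachable.trans (ih hp.2 hv hy)

private theorem ccx_map {V : Type} (T : SimpleGraph V) (x : V) (a b : ({x}ᶜ : Set V))
    (p : (T.induce ({x}ᶜ : Set V)).Walk a b) : ∃ q : T.Walk a.1 b.1, x ∉ q.support := by
  induction p with
  | @nil u =>
    refine ⟨SimpleGraph.Walk.nil, ?_⟩
    rw [SimpleGraph.Walk.support_nil, List.mem_singleton]
    exact fun h => u.2 h.symm
  | @cons u v w hadj _ ih =>
    obtain ⟨q, hq⟩ := ih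
    have h1 : T.Adj u.1 v.1 := hadj
    refine ⟨SimpleGraph.Walk.cons h1 q, ?_⟩
    rw [SimpleGraph.Walk.support_cons, List.mem_cons, not_or]
    exact ⟨fun h => u.2 h.symm, hq⟩

private theorem ccx_first {V : Type} (T : SimpleGraph V) (x y : V) (hy : y ≠ x)
    (h : T.Reachable x y) : ∃ w, T.Adj x w ∧ ∃ q : T.Walk w y, x ∉ q.support := by
  obtain ⟨p, hp⟩ := h.exists_isPath
  cases p with
  | nil => exact absurd rfl hy
  | @cons _ w _ hadj p =>
    rw [SimpleGraph.Walk.cons_isPath_iff] at hp
    exact ⟨w, hadj, p, hp.2⟩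

private theorem ccx_inj {V : Type} (T : SimpleGraph V) (x w w' : V) (hac : T.IsAcyclic)
    (hx : T.Adj x w) (hx' : T.Adj x w') (q : T.Walk w w') (hq : x ∉ q.support) : w = w' := by
  classical
  by_contra hne
  have hq' : x ∉ (q.toPath : T.Walk w w').support := fun h =>
    hq (SimpleGraph.Walk.support_toPath_subset_support _ h)
  have hpath : (hx.symm.toWalk.concat hx').IsPath := by
    refine SimpleGraph.Walk.IsPath.concat (by simp [hx.ne']) ?_ hx'
    simp [hx'.ne', Ne.symm hne]
  have he := (hac.subsingleton_path w w').elim ⟨_, hpath⟩ q.toPath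
  apply hq'
  rw [← he]
  simp

private theorem ccx_main (root : S_ROOT) {V : Type} [Fintype V] (T : SimpleGraph V) (x : V)
    (hT : T.IsTree) (inst : Fintype ({x}ᶜ : Set V)) :
    cc (T.induce ({x}ᶜ : Set V)) = fc (br (code T x)) := by
  have hac : T.IsAcyclic := hT.2
  have hFac := hac.induce ({x}ᶜ : Set V)
  have e : fc (br (code T x)) = Multiset.map (fun w => (Quot.mk Stp (cod T (Fintype.card V) x w) : FT))
      (@Finset.filter V (fun w => T.Adj x w) (fun _ => Classical.propDecidable _)
        Finset.univ).val := by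
    unfold fc code
    rw [br_nd]
    exact Multiset.map_map _ _ _
  rw [e]
  symm
  refine Multiset.map_eq_map_of_bij_of_nodup _ _ (Finset.nodup _) (Finset.nodup _)
    (fun w hw => (T.induce ({x}ᶜ : Set V)).connectedComponentMk ⟨w, (ccx_mem.1 hw).ne'⟩) ?_ ?_ ?_ ?_
  · intro w hw
    exact ccx_univ _
  · intro w hw w' hw' h
    have hx := ccx_mem.1 hw
    have hx' := ccx_mem.1 hw'
    obtain ⟨p⟩ := SimpleGraph.ConnectedComponent.exact h
    obtain ⟨q, hq⟩ := ccx_map T x _ _ p
    exact ccx_inj T x w w' hac hx hx' q hq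
  · intro c _
    induction c using SimpleGraph.ConnectedComponent.ind with
    | h y =>
      obtain ⟨w, hw, q, hq⟩ := ccx_first T x y.1 y.2 (hT.1.preconnected x y.1)
      exact ⟨w, ccx_mem.2 hw, SimpleGraph.ConnectedComponent.sound (ccx_tail T x q hq _ _)⟩
  · intro w hw
    have hx := ccx_mem.1 hw
    have hb := ccx_branch T x hac ⟨w, hx.ne'⟩ hx
    have hb' : cod T (Fintype.card V) x w = code (T.induce ({x}ᶜ : Set V)) ⟨w, hx.ne'⟩ := hb.symm
    have h2 := ccx_reach root (T.induce ({x}ᶜ : Set V)) hFac ⟨w, hx.ne'⟩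
      (Quot.out ((T.induce ({x}ᶜ : Set V)).connectedComponentMk ⟨w, hx.ne'⟩))
      (SimpleGraph.ConnectedComponent.exact
        (Quot.out_eq ((T.induce ({x}ᶜ : Set V)).connectedComponentMk ⟨w, hx.ne'⟩)).symm)
    rw [← hb'] at h2
    exact h2

theorem holds_CCX (root : S_ROOT) : S_CCX := by
  intro V _ T x hT
  exact ccx_main root T x hT _

end Pool.Agent.N203.DR
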