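import Pool.Agent.N203.DR.Stm

set_option autoImplicit false

namespace Pool.Agent.N203.DR

open Multiset

theorem cen1_size_lt {A b : RT} (h : b ∈ br A) : size b < size A := by
  rw [size_eq A]
  have h1 : size b ∈ (br A).map size := Multiset.mem_map_of_mem size h
  have h2 := Multiset.le_sum_of_mem h1
  omega

theorem cen1_aux : ∀ (n : ℕ) (A : RT) (s : Multiset RT), size A ≤ n →
    size (nd (A ::ₘ s)) < 2 * size A → ∃ c, Fr (nd (A ::ₘ s)) c ∧ Cen c
  | 0, A, _, h, _ => absurd (size_pos A) (by omega)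
  | n + 1, A, s, h, h2 => by
    have hst := Stp.mk A s
    have hsz := hst.size_eq
    by_cases hc : Cen (nd (nd s ::ₘ br A))
    · exact ⟨_, Fr.of hst, hc⟩
    · unfold Cen at hc
      push Not at hc
      obtain ⟨b, hb, hb2⟩ := hc
      rw [br_nd] at hb
      have hA : size (nd (A ::ₘ s)) = size A + size (nd s) := by
        rw [size_nd, size_nd, Multiset.map_cons, Multiset.sum_cons]
        omega
      rcases Multiset.mem_cons.1 hb with h3 | h3
      · rw [h3] at hb2
        omega
      · obtain ⟨s', hs'⟩ := Multiset.exists_cons_of_mem hb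
        have h4 := cen1_size_lt h3
        rw [hs'] at hb2 hst
        obtain ⟨c, hc1, hc2⟩ := cen1_aux n b s' (by omega) hb2
        exact ⟨c, (Fr.of hst).trans' hc1, hc2⟩

theorem holds_CEN1 : S_CEN1 := by
  intro t
  by_cases hc : Cen t
  · exact ⟨t, Fr.refl' t, hc⟩
  · unfold Cen at hc
    push Not at hc
    obtain ⟨b, hb, hb2⟩ := hc
    obtain ⟨s, hs⟩ := Multiset.exists_cons_of_mem hb
    have ht : t = nd (b ::ₘ s) := by rw [← hs, nd_br]
    rw [ht] at hb2 ⊢
    exact cen1_aux (size b) b s le_rfl hb2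

end Pool.Agent.N203.DR
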