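import Pool.Agent.N203.DR.Stm

/-!
# Two centroids of the same free tree
-/

set_option autoImplicit false

namespace Pool.Agent.N203.DR

open Multiset

theorem cen2_pb {u X t : RT} (h : Pos u X t) :
    t = nd (u ::ₘ br X) ∨ ∃ b ∈ br t, size u + 1 ≤ size b := by
  induction h with
  | root c s =>
    left
    rw [br_nd]
  | step c X s t _ ih =>
    right
    have h1 : size c + 1 ≤ size (nd (c ::ₘ s)) := by
      rw [size_nd, Multiset.map_cons, Multiset.sum_cons]
      omega
    rcases ih with h2 | ⟨b, hb, h2⟩
    · refine ⟨nd (c ::ₘ s), ?_, h1⟩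
      rw [h2, br_nd]
      exact Multiset.mem_cons_self _ _
    · exact ⟨b, hb, by omega⟩

theorem holds_CEN2 (pos : S_POS) : S_CEN2 := by
  intro c c' h hc hc'
  rcases pos c c' h with h1 | ⟨X, s, h1, h2⟩
  · exact Or.inl h1.symm
  · right
    have hs : size c' = size c := (Fr.size_eq h).symm
    have hX : X ∈ br c := by
      rw [h1, br_nd]
      exact Multiset.mem_cons_self _ _
    have h3 := hc X hX
    have h4 : size c = size X + size (nd s) := by
      rw [h1, size_nd, size_nd, Multiset.map_cons, Multiset.sum_cons]
      omega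
    rcases cen2_pb h2 with h5 | ⟨b, hb, h5⟩
    · have hm : nd s ∈ br c' := by
        rw [h5, br_nd]
        exact Multiset.mem_cons_self _ _
      have h6 := hc' (nd s) hm
      exact ⟨X, s, h1, h5, by omega⟩
    · have h6 := hc' b hb
      omega

end Pool.Agent.N203.DR
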