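import Pool.Agent.N203.DR.Stm

set_option autoImplicit false

namespace Pool.Agent.N203.DR

open Multiset

theorem cen2b_pb {u X t : RT} (h : Pos u X t) :
    t = nd (u ::ₘ br X) ∨ ∃ b ∈ br t, size u + 1 ≤ size b := by
  induction h with
  | root c s => left; rw [br_nd]
  | step c X s t _ ih =>
    right
    have hc : size c + 1 ≤ size (nd (c ::ₘ s)) := by
      rw [size_nd, Multiset.map_cons, Multiset.sum_cons]; omega
    rcases ih with h | ⟨b, hb, hb'⟩
    · refine ⟨nd (c ::ₘ s), ?_, hc⟩
      rw [h, br_nd]; exact Multiset.mem_cons_self _ _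
    · exact ⟨b, hb, by omega⟩

theorem holds_CEN2b (pos : S_POS) : S_CEN2 := by
  intro c c' hf hc hc'
  rcases pos c c' hf with h | ⟨A, s, hA, hp⟩
  · exact Or.inl h.symm
  · right
    refine ⟨A, s, hA, ?_⟩
    have hA2 : 2 * size A ≤ size c := hc A (by rw [hA, br_nd]; exact Multiset.mem_cons_self _ _)
    have hsz : size c = size A + size (nd s) := by
      rw [hA, size_nd, size_nd, Multiset.map_cons, Multiset.sum_cons]; omega
    have hcc := hf.size_eq
    rcases cen2b_pb hp with h | ⟨b, hb, hb'⟩
    · refine ⟨h, ?_⟩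
      have := hc' (nd s) (by rw [h, br_nd]; exact Multiset.mem_cons_self _ _)
      omega
    · exfalso
      have := hc' b hb
      omega

end Pool.Agent.N203.DR
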