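import Pool.Agent.N203.DR.Stm

/-! # CONN: the graph `H` is a tree (helper344) -/

set_option autoImplicit false

namespace Pool.Agent.N203.DR

open Multiset

section conn

variable {n : ℕ}

/-- the number of edges -/
private theorem conn_edges (G : SimpleGraph (Fin n)) (x : Fin n) :
    Nat.card G.edgeSet = Nat.card (G.induce ({x}ᶜ : Set (Fin n))).edgeSet +
      (G.neighborSet x).ncard := by
  classical
  have h1 : (G.induce ({x}ᶜ : Set (Fin n))).edgeFinset.card =
      (G.deleteIncidenceSet x).edgeFinset.card := G.card_edgeFinset_induce_compl_singleton x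
  have h2 := G.card_edgeFinset_deleteIncidenceSet x
  have h3 : G.degree x ≤ G.edgeFinset.card := by
    rw [← G.card_incidenceFinset_eq_degree x]
    exact Finset.card_le_card (G.incidenceFinset_subset x)
  have h4 : (G.neighborSet x).ncard = G.degree x := by
    rw [← G.card_neighborSet_eq_degree x, ← Nat.card_eq_fintype_card]
    rfl
  rw [Nat.card_eq_fintype_card, Nat.card_eq_fintype_card, ← SimpleGraph.edgeFinset_card,
    ← SimpleGraph.edgeFinset_card, h4]
  omega

private theorem conn_card (T H : SimpleGraph (Fin n)) (u x : Fin n) (hT : T.IsTree)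
    (e : T.induce ({u}ᶜ : Set (Fin n)) ≃g H.induce ({x}ᶜ : Set (Fin n)))
    (hd : (T.neighborSet u).ncard = (H.neighborSet x).ncard) :
    Nat.card H.edgeSet + 1 = Nat.card (Fin n) := by
  have h1 := conn_edges T u
  have h2 := conn_edges H x
  have h3 : Nat.card (T.induce ({u}ᶜ : Set (Fin n))).edgeSet =
      Nat.card (H.induce ({x}ᶜ : Set (Fin n))).edgeSet := Nat.card_congr e.mapEdgeSet
  have h4 := (SimpleGraph.isTree_iff_connected_and_card.1 hT).2
  omega

/-- an acyclic graph with the right number of edges is a tree -/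
private theorem conn_acyc (H : SimpleGraph (Fin n)) (x : Fin n)
    (hc : Nat.card H.edgeSet + 1 = Nat.card (Fin n)) (ha : H.IsAcyclic) : H.IsTree := by
  have : Nonempty (Fin n) := ⟨x⟩
  obtain ⟨F, h1, -, h2⟩ := (SimpleGraph.connected_top (V := Fin n)).exists_isTree_le_of_le_of_isAcyclic
    (H := H) le_top ha
  have h3 := (SimpleGraph.isTree_iff_connected_and_card.1 h2).2
  have h4 : H.edgeSet = F.edgeSet := by
    refine Set.eq_of_subset_of_ncard_le (SimpleGraph.edgeSet_mono h1) ?_ (Set.toFinite _)
    have h5 : F.edgeSet.ncard = Nat.card F.edgeSet := rfl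
    have h6 : H.edgeSet.ncard = Nat.card H.edgeSet := rfl
    omega
  rw [SimpleGraph.edgeSet_inj.1 h4]
  exact h2

/-- walks avoiding a vertex -/
private theorem conn_cycle (H : SimpleGraph (Fin n)) (x : Fin n)
    (ha : (H.induce ({x}ᶜ : Set (Fin n))).IsAcyclic) {w : Fin n} (c : H.Walk w w)
    (hc : c.IsCycle) (hx : x ∉ c.support) : False := by
  have hs : ∀ z ∈ c.support, z ∈ ({x}ᶜ : Set (Fin n)) := by
    intro z hz h
    rw [Set.mem_singleton_iff] at h
    rw [h] at hz
    exact hx hz
  refine ha (c.induce _ hs) ?_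
  have h1 := SimpleGraph.Walk.map_induce c hs
  rw [← SimpleGraph.Walk.isCycle_map_iff_of_injective
    (f := (SimpleGraph.Embedding.induce (G := H) ({x}ᶜ : Set (Fin n))).toHom)
    (SimpleGraph.Embedding.induce (G := H) ({x}ᶜ : Set (Fin n))).injective, h1]
  exact hc

private theorem conn_reach (H : SimpleGraph (Fin n)) (x : Fin n) {w v : Fin n}
    (hw : ¬ H.Reachable w x) (h : H.Reachable w v) (h1 : w ∈ ({x}ᶜ : Set (Fin n)))
    (h2 : v ∈ ({x}ᶜ : Set (Fin n))) :
    (H.induce ({x}ᶜ : Set (Fin n))).Reachable ⟨w, h1⟩ ⟨v, h2⟩ := by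
  classical
  obtain ⟨p⟩ := h
  have hs : ∀ z ∈ p.support, z ∈ ({x}ᶜ : Set (Fin n)) := by
    intro z hz h
    rw [Set.mem_singleton_iff] at h
    rw [h] at hz
    exact hw ⟨p.takeUntil x hz⟩
  exact ⟨p.induce _ hs⟩

private theorem conn_acy (T H : SimpleGraph (Fin n)) (u x : Fin n) (hT : T.IsTree)
    (e : T.induce ({u}ᶜ : Set (Fin n)) ≃g H.induce ({x}ᶜ : Set (Fin n))) :
    (H.induce ({x}ᶜ : Set (Fin n))).IsAcyclic :=
  (hT.isAcyclic.induce _).comap e.symm.toHom e.symm.injective

private theorem conn_mu {α : Type} (i : Fintype α) (c : α) :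
    c ∈ (@Finset.univ α i).val := by
  rw [Finset.mem_val]
  exact Finset.mem_univ c

private theorem conn_cu {α : Type} (i : Fintype α) :
    card (@Finset.univ α i).val = Nat.card α := Nat.card_eq_fintype_card.symm

private theorem conn_inst {V : Type} (i1 i2 : Fintype V) (F : SimpleGraph V) :
    @cc V i1 F = @cc V i2 F := congrArg (fun i => @cc V i F) (Subsingleton.elim i1 i2)

/-- the components of `H` without `x` -/
private theorem conn_comp (ccx : S_CCX) (cci : S_CCI) (hsize : S_SIZE)
    (T H : SimpleGraph (Fin n)) (u x : Fin n) (hT : T.IsTree)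
    (e : T.induce ({u}ᶜ : Set (Fin n)) ≃g H.induce ({x}ᶜ : Set (Fin n))) (w : Fin n)
    (hw : ¬ H.Reachable w x) :
    ∃ b ∈ br (code T u), size b = {v | H.Reachable w v}.ncard := by
  classical
  have hwx : w ∈ ({x}ᶜ : Set (Fin n)) := by
    intro h
    rw [Set.mem_singleton_iff] at h
    exact hw (h ▸ SimpleGraph.Reachable.refl _)
  have hac := conn_acy T H u x hT e
  have hcc : fc (br (code T u)) = cc (H.induce ({x}ᶜ : Set (Fin n))) :=
    (ccx _ T u hT).symm.trans ((conn_inst _ _ _).trans (cci _ _ _ _ (hT.isAcyclic.induce _) ⟨e⟩))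
  set F := H.induce ({x}ᶜ : Set (Fin n)) with hF
  set c := F.connectedComponentMk ⟨w, hwx⟩ with hc
  have hmem : (Quot.mk Stp (code F c.out) : FT) ∈ fc (br (code T u)) := by
    rw [hcc]
    unfold cc
    exact Multiset.mem_map.2 ⟨c, conn_mu _ c, rfl⟩
  unfold fc at hmem
  obtain ⟨b, hb, hb2⟩ := Multiset.mem_map.1 hmem
  refine ⟨b, hb, ?_⟩
  rw [(mk_eq.1 hb2).size_eq, hsize _ F c.out hac]
  have hout : F.Reachable c.out ⟨w, hwx⟩ := by
    rw [← SimpleGraph.ConnectedComponent.eq]
    exact Quot.out_eq c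
  have himg : {v | H.Reachable w v} = Subtype.val '' {v | F.Reachable c.out v} := by
    ext v
    constructor
    · intro hv
      have hvx : v ∈ ({x}ᶜ : Set (Fin n)) := by
        intro h
        rw [Set.mem_singleton_iff] at h
        exact hw (h ▸ hv)
      exact ⟨⟨v, hvx⟩, hout.trans (conn_reach H x hw hv hwx hvx), rfl⟩
    · rintro ⟨v', hv', rfl⟩
      have h1 : F.Reachable ⟨w, hwx⟩ v' := hout.symm.trans hv'
      exact h1.map (SimpleGraph.Embedding.induce ({x}ᶜ : Set (Fin n))).toHom
  rw [himg, Set.ncard_image_of_injective _ Subtype.val_injective]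

private theorem conn_deg (T : SimpleGraph (Fin n)) (u : Fin n) :
    card (br (code T u)) = (T.neighborSet u).ncard := by
  classical
  unfold code
  rw [br_nd, Multiset.card_map]
  change (Finset.univ.filter fun w => T.Adj u w).card = _
  rw [← Set.ncard_coe_finset]
  congr 1
  ext w
  simp

/-- a vertex of degree one -/
private theorem conn_one (ccx : S_CCX) (cci : S_CCI) (T H : SimpleGraph (Fin n)) (u x : Fin n)
    (hT : T.IsTree)
    (e : T.induce ({u}ᶜ : Set (Fin n)) ≃g H.induce ({x}ᶜ : Set (Fin n)))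
    (hd : (T.neighborSet u).ncard = (H.neighborSet x).ncard) (h1 : card (br (code T u)) = 1) :
    H.Connected := by
  classical
  have hcc : fc (br (code T u)) = cc (H.induce ({x}ᶜ : Set (Fin n))) :=
    (ccx _ T u hT).symm.trans ((conn_inst _ _ _).trans (cci _ _ _ _ (hT.isAcyclic.induce _) ⟨e⟩))
  have hcard := congrArg Multiset.card hcc
  have hc1 : card (fc (br (code T u))) = card (br (code T u)) := Multiset.card_map _ _
  have hc2 : card (cc (H.induce ({x}ᶜ : Set (Fin n)))) =
      Nat.card (H.induce ({x}ᶜ : Set (Fin n))).ConnectedComponent := by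
    unfold cc
    refine (Multiset.card_map _ _).trans ?_
    exact conn_cu _
  rw [hc1, hc2, h1] at hcard
  have hsub : Subsingleton (H.induce ({x}ᶜ : Set (Fin n))).ConnectedComponent := by
    rw [← Finite.card_le_one_iff_subsingleton]
    exact hcard.symm.le
  have hdeg : (H.neighborSet x).ncard = 1 := by
    rw [← hd, ← conn_deg, h1]
  obtain ⟨z, hz⟩ := Set.ncard_eq_one.1 hdeg
  have hxz : H.Adj x z := by
    have : z ∈ H.neighborSet x := by rw [hz]; exact Set.mem_singleton _
    exact this
  have hall : ∀ a, H.Reachable z a := by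
    intro a
    by_cases ha : a = x
    · rw [ha]
      exact hxz.symm.reachable
    · have hr : (H.induce ({x}ᶜ : Set (Fin n))).Reachable ⟨z, hxz.ne'⟩ ⟨a, ha⟩ := by
        rw [← SimpleGraph.ConnectedComponent.eq]
        exact Subsingleton.elim _ _
      exact hr.map (SimpleGraph.Embedding.induce ({x}ᶜ : Set (Fin n))).toHom
  have : Nonempty (Fin n) := ⟨x⟩
  exact ⟨fun a b => (hall a).symm.trans (hall b)⟩

end conn

theorem holds_CONN (ccx : S_CCX) (cci : S_CCI) (size : S_SIZE) : S_CONN := by
  classical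
  intro n T H u v x y hT hxy ⟨e1⟩ hd1 ⟨e2⟩ hd2 halt
  have hcard := conn_card T H u x hT e1 hd1
  rcases halt with h | h | h
  · exact SimpleGraph.isTree_iff_connected_and_card.2
      ⟨conn_one ccx cci T H u x hT e1 hd1 h, hcard⟩
  · exact SimpleGraph.isTree_iff_connected_and_card.2
      ⟨conn_one ccx cci T H v y hT e2 hd2 h, hcard⟩
  · by_cases hr : H.Reachable x y
    · refine SimpleGraph.isTree_iff_connected_and_card.2 ⟨?_, hcard⟩
      have hall : ∀ w, H.Reachable w x := by
        intro w
        by_contra hw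
        have hw2 : ¬ H.Reachable w y := fun h2 => hw (h2.trans hr.symm)
        obtain ⟨a, ha, ha2⟩ := conn_comp ccx cci size T H u x hT e1 w hw
        obtain ⟨b, hb, hb2⟩ := conn_comp ccx cci size T H v y hT e2 w hw2
        exact h a ha b hb (ha2.trans hb2.symm)
      have : Nonempty (Fin n) := ⟨x⟩
      exact ⟨fun a b => (hall a).trans (hall b).symm⟩
    · refine conn_acyc H x hcard fun w c hc => ?_
      by_cases hx : x ∈ c.support
      · by_cases hy : y ∈ c.support
        · have hx' : H.Reachable w x := ⟨c.takeUntil x hx⟩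
          have hy' : H.Reachable w y := ⟨c.takeUntil y hy⟩
          exact hr (hx'.symm.trans hy')
        · exact conn_cycle H y (conn_acy T H v y hT e2) c hc hy
      · exact conn_cycle H x (conn_acy T H u x hT e1) c hc hx

end Pool.Agent.N203.DR
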