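import Pool.Agent.N203.DR.Stm

/-!
# Deleting an attached limb: the limb is glued to the rest, re-rooted where the limb is attached
-/

set_option autoImplicit false

namespace Pool.Agent.N203.DR

open Multiset

private theorem dellf_gen (G b b' : RT) (h : Att G b b') : ∀ U : Multiset RT,
    ∃ B, Fr (nd (U + br b)) B ∧ Fr (nd (U + br b')) (nd (B ::ₘ br G)) := by
  induction h with
  | root s =>
    intro U
    refine ⟨nd (U + s), ?_, ?_⟩
    · rw [br_nd]; exact Fr.refl' _
    · rw [br_nd, Multiset.add_cons]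
      exact Fr.of (Stp.mk G (U + s))
  | step s b1 b1' _ ih =>
    intro U
    obtain ⟨B, h1, h2⟩ := ih {nd (U + s)}
    refine ⟨B, ?_, ?_⟩
    · rw [br_nd, Multiset.add_cons]
      refine Fr.trans' (Fr.of (Stp.mk b1 (U + s))) ?_
      rw [← Multiset.singleton_add]
      exact h1
    · rw [br_nd, Multiset.add_cons]
      refine Fr.trans' (Fr.of (Stp.mk b1' (U + s))) ?_
      rw [← Multiset.singleton_add]
      exact h2

theorem holds_DELLF : S_DELLF := by
  intro G c c' h
  obtain ⟨B, h1, h2⟩ := dellf_gen G c c' h 0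
  rw [zero_add, nd_br] at h1 h2
  exact ⟨B, h1.symm', h2.symm'⟩

end Pool.Agent.N203.DR
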