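import Pool.Agent.N203.DR.Stm

set_option autoImplicit false

namespace Pool.Agent.N203.DR

open Multiset

private theorem evenv_inv {t' t : RT} (h : Del t' t) :
    (∃ s, t = nd (nd 0 ::ₘ s) ∧ t' = nd s) ∨
      ∃ b b' s, Del b' b ∧ t = nd (b ::ₘ s) ∧ t' = nd (b' ::ₘ s) := by
  unfold Del at h
  cases h with
  | root s => exact Or.inl ⟨s, rfl, rfl⟩
  | step s b b' h => exact Or.inr ⟨b', b, s, h, rfl, rfl⟩

private theorem evenv_lt {b t : RT} (h : b ∈ br t) : size b + 1 ≤ size t := by
  rw [size_eq t]
  have := Multiset.single_le_sum (s := (br t).map size) (fun x _ => Nat.zero_le x) _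
    (Multiset.mem_map_of_mem size h)
  omega

private theorem evenv_key (cen2 : S_CEN2) {m : ℕ} {c a : RT} (hm : 1 ≤ m) (h : Fr c a) (ha : Cen a)
    (hc : ∀ b ∈ br c, size b + 1 ≤ m) (hs : size c + 1 = 2 * m) : a = c := by
  have hcen : Cen c := fun b hb => by have := hc b hb; omega
  rcases cen2 c a h hcen ha with h | ⟨A, s, _, _, h3⟩
  · exact h.symm
  · omega

theorem holds_EVENV (cen2 : S_CEN2) : S_EVENV := by
  intro m h h1 h2 a1 a2 hs hm hc ha1 ha2 hd1 hd2 hf1 hf2
  by_cases hall : ∀ b ∈ br h, size b < m
  · left
    have key : ∀ h' a, Del h' h → Fr h' a → Cen a → Del a h := by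
      intro h' a hd hf ha
      have hs' := hd.size_eq
      have : a = h' := by
        refine evenv_key cen2 (m := m) (by omega) hf ha ?_ (by omega)
        intro b hb
        rcases evenv_inv hd with ⟨s, e1, e2⟩ | ⟨c, c', s, hdc, e1, e2⟩
        · rw [e2, br_nd] at hb
          have := hall b (by rw [e1, br_nd]; exact Multiset.mem_cons_of_mem hb)
          omega
        · rw [e2, br_nd, Multiset.mem_cons] at hb
          rcases hb with rfl | hb
          · have h3 := hall c (by rw [e1, br_nd]; exact Multiset.mem_cons_self _ _)
            have h4 := hdc.size_eq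
            omega
          · have := hall b (by rw [e1, br_nd]; exact Multiset.mem_cons_of_mem hb)
            omega
      rw [this]
      exact hd
    exact ⟨hall, key h1 a1 hd1 hf1 ha1, key h2 a2 hd2 hf2 ha2⟩
  · right
    push Not at hall
    obtain ⟨R, hR, hRm⟩ := hall
    have hR2 := hc R hR
    have hRs : size R = m := by omega
    obtain ⟨s, hbr⟩ := Multiset.exists_cons_of_mem hR
    have hh : h = nd (R ::ₘ s) := by rw [← hbr, nd_br]
    have hL : size (nd s) = m := by
      rw [hh, size_nd, Multiset.map_cons, Multiset.sum_cons] at hs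
      rw [size_nd]
      omega
    have key : ∀ h' a, Del h' h → Fr h' a → Cen a → Crd (nd s) R a := by
      intro h' a hd hf ha
      -- a deletion in `L`
      have dL : ∀ L1, Del L1 (nd s) → h' = nd (R ::ₘ br L1) → Crd (nd s) R a := by
        intro L1 hL1 e
        have hsL := hL1.size_eq
        left
        refine ⟨L1, hL1, ?_⟩
        have hst : Stp (nd (L1 ::ₘ br R)) h' := by
          rw [e]
          have := (Stp.mk R (br L1)).symm'
          rwa [nd_br] at this
        refine evenv_key cen2 (m := m) (by omega) ((Fr.of hst).trans' hf) ha ?_ ?_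
        · intro b hb
          rw [br_nd, Multiset.mem_cons] at hb
          rcases hb with rfl | hb
          · omega
          · have := evenv_lt hb
            omega
        · rw [hst.size_eq]
          have := hd.size_eq
          omega
      rcases evenv_inv hd with ⟨s0, e1, e2⟩ | ⟨b, b', s0, hdb, e1, e2⟩
      · rw [hh] at e1
        have e3 := nd_inj e1
        rw [Multiset.cons_eq_cons] at e3
        rcases e3 with ⟨e4, _⟩ | ⟨_, cs, e5, e6⟩
        · rw [e4, size_zero] at hRs
          omega
        · refine dL (nd cs) ?_ ?_
          · rw [e5]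
            exact Att.root cs
          · rw [e2, e6, br_nd]
      · rw [hh] at e1
        have e3 := nd_inj e1
        rw [Multiset.cons_eq_cons] at e3
        rcases e3 with ⟨e4, e5⟩ | ⟨_, cs, e5, e6⟩
        · right
          refine ⟨b', by rw [e4]; exact hdb, ?_⟩
          have hsb := hdb.size_eq
          rw [← e4] at hsb
          have e7 : h' = nd (b' ::ₘ br (nd s)) := by rw [e2, br_nd, e5]
          rw [e7] at hf
          refine evenv_key cen2 (m := m) (by omega) hf ha ?_ ?_
          · intro c hb
            rw [br_nd, Multiset.mem_cons] at hb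
            rcases hb with rfl | hb
            · omega
            · have := evenv_lt hb
              omega
          · rw [← e7]
            have := hd.size_eq
            omega
        · refine dL (nd (b' ::ₘ cs)) ?_ ?_
          · rw [e5]
            exact Att.step cs b' b hdb
          · rw [e2, e6, br_nd, Multiset.cons_swap]
    refine ⟨nd s, R, hL, hRs, by rw [br_nd]; exact hh, key h1 a1 hd1 hf1 ha1, key h2 a2 hd2 hf2 ha2⟩

end Pool.Agent.N203.DR
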