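import Pool.Agent.N203.DR.Stm

set_option autoImplicit false

namespace Pool.Agent.N203.DR

open Multiset

private theorem exb_one (b : RT) (h : Ex b) : Ex (nd {b}) := by
  have := Ex.rep 1 b h
  rwa [Multiset.replicate_one] at this

private theorem exb_P (k : ℕ) : Ex (P k) := by
  induction k with
  | zero => exact Ex.zero
  | succ k ih => exact exb_one _ ih

private theorem exb_Yc (k : ℕ) : Ex (Yc k) := by
  induction k with
  | zero => exact Ex.rep 2 (nd 0) Ex.zero
  | succ k ih => exact exb_one _ ih

theorem holds_EXB : S_EXB := by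
  intro t ht
  cases ht with
  | zero => rw [br_nd]; exact ⟨fun b hb => by simp at hb, 0, fun b hb => by simp at hb⟩
  | rep n b hb =>
    rw [br_nd]
    exact ⟨fun c hc => by rw [Multiset.eq_of_mem_replicate hc]; exact hb, size b,
      fun c hc => by rw [Multiset.eq_of_mem_replicate hc]⟩
  | mix k s hs =>
    rw [br_nd]
    refine ⟨fun c hc => ?_, k + 3, fun c hc => ?_⟩
    · rcases hs c hc with h | h
      · rw [h]; exact exb_P _
      · rw [h]; exact exb_Yc _
    · rcases hs c hc with h | h
      · rw [h, size_P]
      · rw [h, size_Yc]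

end Pool.Agent.N203.DR
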