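import Pool.Agent.N203.DR.Stm

/-!
# Exceptional trees are determined by the branches at the root (part EXD)
-/

set_option autoImplicit false

namespace Pool.Agent.N203.DR

open Multiset

private theorem exd_sum {s : Multiset RT} {w : ℕ} (h : ∀ b ∈ s, size b = w) :
    size (nd s) = 1 + card s * w := by
  rw [size_nd, Multiset.map_congr rfl h, Multiset.map_const', Multiset.sum_replicate, smul_eq_mul]

private theorem exd_cen {s : Multiset RT} {w : ℕ} (h : ∀ b ∈ s, size b = w) (hc : 2 ≤ card s) :
    Cen (nd s) := by
  intro b hb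
  rw [br_nd] at hb
  rw [h b hb, exd_sum h]
  have : 2 * w ≤ card s * w := Nat.mul_le_mul_right w hc
  omega

theorem holds_EXD (hpg : S_HPG) (cen2 : S_CEN2) (exb : S_EXB) : S_EXD := by
  intro C s hC hF hfc
  obtain ⟨-, w, hw⟩ := exb C hC
  have hcard : card s = card (br C) := by
    exact (Multiset.card_map _ s).symm.trans ((congrArg card hfc).trans (Multiset.card_map _ _))
  have hs : ∀ b ∈ s, size b = w := by
    intro b hb
    have h1 : (Quot.mk Stp b : FT) ∈ fc s := Multiset.mem_map_of_mem _ hb
    rw [hfc] at h1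
    obtain ⟨b', hb', he⟩ := Multiset.mem_map.1 h1
    rw [← hw b' hb']
    exact (mk_eq.1 he).size_eq.symm
  rcases Nat.lt_or_ge (card s) 2 with h | h
  · rcases Nat.lt_or_ge (card s) 1 with h0 | h1
    · have h2 : s = 0 := Multiset.card_eq_zero.1 (by omega)
      have h3 : br C = 0 := Multiset.card_eq_zero.1 (by omega)
      rw [h2, ← h3, nd_br]
    · obtain ⟨B', hB'⟩ := Multiset.card_eq_one.1 (show card s = 1 by omega)
      obtain ⟨B, hB⟩ := Multiset.card_eq_one.1 (show card (br C) = 1 by omega)
      rw [hB, hB'] at hfc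
      have h2 : Fr B' B := by
        apply mk_eq.1
        have h5 : ({(Quot.mk Stp B' : FT)} : Multiset FT) = {(Quot.mk Stp B : FT)} := hfc
        exact Multiset.singleton_inj.1 h5
      have h3 : Fr (nd (B' ::ₘ br (nd 0))) (nd (B ::ₘ br (nd 0))) := by
        rw [br_nd]
        have e : nd (B ::ₘ 0) = C := by
          rw [← nd_br C, hB]
          rfl
        rw [e]
        rw [hB'] at hF
        exact hF
      have h4 := hpg (nd 0) B' B h2 h3
      rw [hB', h4, ← hB, nd_br]
  · have hC2 : Cen C := by
      rw [← nd_br C]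
      exact exd_cen hw (by omega)
    rcases cen2 (nd s) C hF (exd_cen hs h) hC2 with h1 | ⟨A, s', h1, -, h3⟩
    · exact h1
    · exfalso
      have h4 := nd_inj h1
      have h5 : size A = w := hs A (by rw [h4]; exact Multiset.mem_cons_self _ _)
      rw [exd_sum hs, h5] at h3
      have : 2 * w ≤ card s * w := Nat.mul_le_mul_right w h
      omega

end Pool.Agent.N203.DR
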