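import Pool.Agent.N203.DR.Stm

set_option autoImplicit false

namespace Pool.Agent.N203.DR

open Multiset

private theorem fuel_step {V : Type} {G : SimpleGraph V} (hG : G.IsAcyclic)
    {x p v w : V} (q : G.Walk x p) (hq : q.IsPath) (hv : v ∉ q.support) (h : G.Adj p v)
    (hw : G.Adj v w) (hwp : w ≠ p) : w ∉ (q.concat h).support := by
  classical
  rw [SimpleGraph.Walk.support_concat]
  intro hmem
  rw [List.mem_append, List.mem_singleton] at hmem
  rcases hmem with hmem | rfl
  · have hr : (q.dropUntil w hmem).IsPath := hq.dropUntil hmem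
    have hv' : v ∉ (q.dropUntil w hmem).support := fun h' =>
      hv (q.support_dropUntil_subset_support hmem h')
    have hr' : ((q.dropUntil w hmem).concat h).IsPath := hr.concat hv' h
    have he : (SimpleGraph.Walk.cons hw.symm SimpleGraph.Walk.nil : G.Walk w v).IsPath := by
      rw [SimpleGraph.Walk.cons_isPath_iff]
      refine ⟨SimpleGraph.Walk.IsPath.nil, ?_⟩
      simp only [SimpleGraph.Walk.support_nil, List.mem_singleton]
      exact hw.symm.ne
    have hu := hG.path_unique ⟨_, hr'⟩ ⟨_, he⟩
    have hl := congrArg (fun y : G.Path w v => y.1.length) hu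
    simp only [SimpleGraph.Walk.length_concat, SimpleGraph.Walk.length_cons,
      SimpleGraph.Walk.length_nil] at hl
    exact hwp (SimpleGraph.Walk.eq_of_length_eq_zero (by omega : (q.dropUntil w hmem).length = 0))
  · exact hw.ne rfl

private theorem fuel_main {V : Type} [Fintype V] {G : SimpleGraph V} (hG : G.IsAcyclic) (x : V)
    (k : ℕ) : ∀ (p v : V) (q : G.Walk x p), q.IsPath → v ∉ q.support → G.Adj p v →
      Fintype.card V ≤ k + q.length + 1 → cod G (k + 1) p v = cod G k p v := by
  induction k with
  | zero =>
    intro p v q hq hv h hc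
    exfalso
    have hr : (q.concat h).IsPath := hq.concat hv h
    have := hr.length_lt
    rw [SimpleGraph.Walk.length_concat] at this
    omega
  | succ k ih =>
    intro p v q hq hv h hc
    rw [cod, cod]
    congr 1
    apply Multiset.map_congr rfl
    intro w hw
    simp only [Finset.mem_val, Finset.mem_filter, Finset.mem_univ, true_and] at hw
    refine ih v w (q.concat h) (hq.concat hv h) (fuel_step hG q hq hv h hw.1 hw.2) hw.1 ?_
    rw [SimpleGraph.Walk.length_concat]
    omega

theorem holds_FUEL : S_FUEL := by
  intro V _ G p v k hG h hc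
  refine fuel_main hG p k p v SimpleGraph.Walk.nil SimpleGraph.Walk.IsPath.nil ?_ h ?_
  · simp only [SimpleGraph.Walk.support_nil, List.mem_singleton]
    exact h.symm.ne
  · simpa using hc

end Pool.Agent.N203.DR
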