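import Pool.Agent.N203.DR.Stm

/-!
# DR/HOM (helper491): two trees of the same size all of whose leaf deletions are the same tree
-/

set_option autoImplicit false

namespace Pool.Agent.N203.DR

open Multiset

private theorem hom_inv {t' t : RT} (h : Del t' t) :
    (∃ s, t' = nd s ∧ t = nd (nd 0 ::ₘ s)) ∨
      ∃ s b b', Del b b' ∧ t' = nd (b ::ₘ s) ∧ t = nd (b' ::ₘ s) := by
  unfold Del at h
  cases h with
  | root s => exact Or.inl ⟨s, rfl, rfl⟩
  | step s b b' h => exact Or.inr ⟨s, b, b', h, rfl, rfl⟩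

private theorem hom_zero {t : RT} (h : size t = 1) : t = nd 0 := by
  rw [size_eq] at h
  have h0 : br t = 0 := by
    by_contra hne
    obtain ⟨b, hb⟩ := Multiset.exists_mem_of_ne_zero hne
    have h1 : size b ≤ ((br t).map size).sum := Multiset.le_sum_of_mem (Multiset.mem_map_of_mem _ hb)
    have := size_pos b
    omega
  rw [← nd_br t, h0]

private theorem hom_ex (t : RT) : t ≠ nd 0 → ∃ d, Del d t := by
  induction t using RT.ind with
  | h s ih =>
    intro hne
    have hs : s ≠ 0 := fun h => hne (by rw [h])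
    obtain ⟨b, hb⟩ := Multiset.exists_mem_of_ne_zero hs
    obtain ⟨s', rfl⟩ := Multiset.exists_cons_of_mem hb
    by_cases h0 : b = nd 0
    · subst h0
      exact ⟨nd s', Att.root s'⟩
    · obtain ⟨d, hd⟩ := ih b hb h0
      exact ⟨nd (d ::ₘ s'), Att.step s' d b hd⟩

private theorem hom_pair {b1 b2 : RT} {s : Multiset RT}
    (h : ∀ D D', Del D (nd (b1 ::ₘ b2 ::ₘ s)) → Del D' (nd (b1 ::ₘ b2 ::ₘ s)) → D = D') :
    b1 = b2 := by
  by_cases h1 : b1 = nd 0
  · by_cases h2 : b2 = nd 0
    · rw [h1, h2]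
    · exfalso
      obtain ⟨d, hd⟩ := hom_ex b2 h2
      have e1 : Del (nd (b2 ::ₘ s)) (nd (b1 ::ₘ b2 ::ₘ s)) := by
        rw [h1]
        exact Att.root _
      have e2 : Del (nd (d ::ₘ b1 ::ₘ s)) (nd (b1 ::ₘ b2 ::ₘ s)) := by
        rw [Multiset.cons_swap b1 b2]
        exact Att.step _ _ _ hd
      have e3 := congrArg Multiset.card (nd_inj (h _ _ e1 e2))
      simp at e3
  · obtain ⟨d1, hd1⟩ := hom_ex b1 h1
    have e1 : Del (nd (d1 ::ₘ b2 ::ₘ s)) (nd (b1 ::ₘ b2 ::ₘ s)) := Att.step _ _ _ hd1
    by_cases h2 : b2 = nd 0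
    · exfalso
      have e2 : Del (nd (b1 ::ₘ s)) (nd (b1 ::ₘ b2 ::ₘ s)) := by
        rw [Multiset.cons_swap b1 b2, h2]
        exact Att.root _
      have e3 := congrArg Multiset.card (nd_inj (h _ _ e1 e2))
      simp at e3
    · obtain ⟨d2, hd2⟩ := hom_ex b2 h2
      have e2 : Del (nd (d2 ::ₘ b1 ::ₘ s)) (nd (b1 ::ₘ b2 ::ₘ s)) := by
        rw [Multiset.cons_swap b1 b2]
        exact Att.step _ _ _ hd2
      have e3 := nd_inj (h _ _ e1 e2)
      by_contra hne
      have hne' : b1 ≠ d1 := by
        intro h5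
        have h6 := Del.size_eq hd1
        rw [← h5] at h6
        omega
      have h7 := congrArg (Multiset.count b1) e3
      rw [Multiset.count_cons_of_ne hne', Multiset.count_cons_of_ne hne] at h7
      have h8 := Multiset.count_le_count_cons b1 d2 (b1 ::ₘ s)
      rw [Multiset.count_cons_self] at h8
      omega

private theorem hom_rep {C : RT} (hC : C ≠ nd 0) (h : ∀ D D', Del D C → Del D' C → D = D') :
    ∃ (n : ℕ) (b : RT), C = nd (replicate (n + 1) b) := by
  have hs : br C ≠ 0 := fun h0 => hC (by rw [← nd_br C, h0])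
  obtain ⟨b, hb⟩ := Multiset.exists_mem_of_ne_zero hs
  obtain ⟨s, hs'⟩ := Multiset.exists_cons_of_mem hb
  refine ⟨card s, b, ?_⟩
  have hall : ∀ c ∈ s, c = b := by
    intro c hc
    obtain ⟨s', rfl⟩ := Multiset.exists_cons_of_mem hc
    have hCe : C = nd (b ::ₘ c ::ₘ s') := by rw [← hs', nd_br]
    refine (hom_pair (b1 := b) (b2 := c) (s := s') ?_).symm
    rw [← hCe]
    exact h
  have h2 : s = replicate (card s) b := Multiset.eq_replicate.2 ⟨rfl, hall⟩
  rw [Multiset.replicate_succ, ← h2, ← hs', nd_br]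

private theorem hom_size (n : ℕ) (b : RT) : size (nd (replicate n b)) = 1 + n * size b := by
  rw [size_nd, Multiset.map_replicate, Multiset.sum_replicate, smul_eq_mul]

/-- star against a homogeneous tree with larger branches -/
private theorem hom_star {n1 n2 : ℕ} {b2 : RT} (hb2 : b2 ≠ nd 0)
    (h : ∀ D1 D2, Del D1 (nd (replicate (n1 + 1) (nd 0))) → Del D2 (nd (replicate (n2 + 1) b2)) →
      D1 = D2) : nd (replicate (n1 + 1) (nd 0)) = Yc 0 ∧ nd (replicate (n2 + 1) b2) = P 2 := by
  obtain ⟨d, hd⟩ := hom_ex b2 hb2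
  have e1 : Del (nd (replicate n1 (nd 0))) (nd (replicate (n1 + 1) (nd 0))) := by
    rw [Multiset.replicate_succ]
    exact Att.root _
  have e2 : Del (nd (d ::ₘ replicate n2 b2)) (nd (replicate (n2 + 1) b2)) := by
    rw [Multiset.replicate_succ]
    exact Att.step _ _ _ hd
  have e3 := nd_inj (h _ _ e1 e2)
  have hn2 : n2 = 0 := by
    by_contra hn
    apply hb2
    have hm : b2 ∈ d ::ₘ replicate n2 b2 :=
      Multiset.mem_cons_of_mem (Multiset.mem_replicate.2 ⟨hn, rfl⟩)
    rw [← e3] at hm
    exact Multiset.eq_of_mem_replicate hm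
  subst hn2
  rw [Multiset.replicate_zero] at e3
  have hc := congrArg Multiset.card e3
  rw [Multiset.card_replicate, Multiset.card_cons, Multiset.card_zero] at hc
  have hn1 : n1 = 1 := by omega
  subst hn1
  have hd0 : d = nd 0 := by
    have hm : d ∈ d ::ₘ (0 : Multiset RT) := Multiset.mem_cons_self _ _
    rw [← e3] at hm
    exact Multiset.eq_of_mem_replicate hm
  subst hd0
  constructor
  · rfl
  · have hb : b2 = P 1 := by
      rcases hom_inv hd with ⟨s, h1, h2⟩ | ⟨s, b, b', -, h1, -⟩
      · rw [h2, ← nd_inj h1]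
        rfl
      · exact absurd (nd_inj h1) (Multiset.zero_ne_cons)
    rw [hb]
    rfl

private theorem hom_main (n : ℕ) : ∀ C1 C2 : RT, size C1 = n → size C2 = n → C1 ≠ C2 →
    (∀ D1 D2, Del D1 C1 → Del D2 C2 → D1 = D2) →
    ∃ k, (C1 = P (k + 2) ∧ C2 = Yc k) ∨ (C1 = Yc k ∧ C2 = P (k + 2)) := by
  induction n using Nat.strong_induction_on with
  | _ n ih =>
    intro C1 C2 hs1 hs2 hne h
    have hC1 : C1 ≠ nd 0 := by
      rintro rfl
      rw [size_zero] at hs1
      exact hne (hom_zero (hs2.trans hs1.symm)).symm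
    have hC2 : C2 ≠ nd 0 := by
      rintro rfl
      rw [size_zero] at hs2
      exact hne (hom_zero (hs1.trans hs2.symm))
    obtain ⟨E1, hE1⟩ := hom_ex C1 hC1
    obtain ⟨E2, hE2⟩ := hom_ex C2 hC2
    obtain ⟨n1, b1, rfl⟩ := hom_rep hC1 fun D D' hD hD' => (h D E2 hD hE2).trans (h D' E2 hD' hE2).symm
    obtain ⟨n2, b2, rfl⟩ := hom_rep hC2 fun D D' hD hD' => (h E1 D hE1 hD).symm.trans (h E1 D' hE1 hD')
    rw [hom_size] at hs1 hs2
    by_cases h1 : b1 = nd 0
    · by_cases h2 : b2 = nd 0
      · exfalso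
        apply hne
        rw [h1, size_zero] at hs1
        rw [h2, size_zero] at hs2
        have : n1 = n2 := by omega
        rw [h1, h2, this]
      · subst h1
        have := hom_star h2 h
        exact ⟨0, Or.inr this⟩
    · by_cases h2 : b2 = nd 0
      · subst h2
        have := hom_star h1 fun D1 D2 hD1 hD2 => (h D2 D1 hD2 hD1).symm
        exact ⟨0, Or.inl ⟨this.2, this.1⟩⟩
      · obtain ⟨d1, hd1⟩ := hom_ex b1 h1
        obtain ⟨d2, hd2⟩ := hom_ex b2 h2
        have e1 : Del (nd (d1 ::ₘ replicate n1 b1)) (nd (replicate (n1 + 1) b1)) := by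
          rw [Multiset.replicate_succ]
          exact Att.step _ _ _ hd1
        have e2 : Del (nd (d2 ::ₘ replicate n2 b2)) (nd (replicate (n2 + 1) b2)) := by
          rw [Multiset.replicate_succ]
          exact Att.step _ _ _ hd2
        have e3 := nd_inj (h _ _ e1 e2)
        have hc := congrArg Multiset.card e3
        simp only [Multiset.card_cons, Multiset.card_replicate] at hc
        have hn : n1 = n2 := by omega
        subst hn
        have hsz : size b1 = size b2 := by
          have h3 : (n1 + 1) * size b1 = (n1 + 1) * size b2 := by omega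
          exact Nat.eq_of_mul_eq_mul_left (Nat.succ_pos _) h3
        have hbne : b1 ≠ b2 := by
          rintro rfl
          exact hne rfl
        by_cases hn0 : n1 = 0
        · subst hn0
          have key := ih (size b1) (by omega) b1 b2 rfl hsz.symm hbne (by
            intro D1 D2 hD1 hD2
            have f1 : Del (nd (D1 ::ₘ 0)) (nd (replicate (0 + 1) b1)) := Att.step _ _ _ hD1
            have f2 : Del (nd (D2 ::ₘ 0)) (nd (replicate (0 + 1) b2)) := Att.step _ _ _ hD2
            have f3 := nd_inj (h _ _ f1 f2)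
            exact Multiset.singleton_inj.1 f3)
          obtain ⟨k, ⟨k1, k2⟩ | ⟨k1, k2⟩⟩ := key
          · refine ⟨k + 1, Or.inl ⟨?_, ?_⟩⟩
            · rw [k1]
              rfl
            · rw [k2]
              rfl
          · refine ⟨k + 1, Or.inr ⟨?_, ?_⟩⟩
            · rw [k1]
              rfl
            · rw [k2]
              rfl
        · exfalso
          have hm : b1 ∈ d1 ::ₘ replicate n1 b1 :=
            Multiset.mem_cons_of_mem (Multiset.mem_replicate.2 ⟨hn0, rfl⟩)
          rw [e3, Multiset.mem_cons] at hm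
          rcases hm with hm | hm
          · have h5 := Del.size_eq hd2
            rw [← hm] at h5
            omega
          · exact hbne (Multiset.eq_of_mem_replicate hm)

theorem holds_HOM : S_HOM := fun C1 C2 hs hne h => hom_main (size C1) C1 C2 rfl hs.symm hne h

end Pool.Agent.N203.DR
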