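import Pool.Agent.N203.DR.Stm

/-!
# Attaching a limb at two dissimilar vertices gives different free trees (helper37)
-/

set_option autoImplicit false

namespace Pool.Agent.N203.DR

open Multiset

/-- a path whose vertices carry the branches in `l`, seen from its first vertex; `o` hangs at the end
of the path -/
def hpg_M (l : List (Multiset RT)) (o : Multiset RT) : Multiset RT :=
  l.foldr (fun s acc => {nd (s + acc)}) o

theorem hpg_M_nil (o : Multiset RT) : hpg_M [] o = o := rfl

theorem hpg_M_cons (s : Multiset RT) (l : List (Multiset RT)) (o : Multiset RT) :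
    hpg_M (s :: l) o = {nd (s + hpg_M l o)} := rfl

theorem hpg_M_append (l1 l2 : List (Multiset RT)) (o : Multiset RT) :
    hpg_M (l1 ++ l2) o = hpg_M l1 (hpg_M l2 o) := by
  simp [hpg_M, List.foldr_append]

theorem hpg_M_snoc (l : List (Multiset RT)) (b o : Multiset RT) :
    hpg_M (l ++ [b]) o = hpg_M l {nd (b + o)} := by
  rw [hpg_M_append, hpg_M_cons, hpg_M_nil]

theorem hpg_rev_cons (l : List (Multiset RT)) (b o : Multiset RT) :
    hpg_M (b :: l).reverse o = hpg_M l.reverse {nd (b + o)} := by
  rw [List.reverse_cons, hpg_M_snoc]

theorem hpg_single (l : List (Multiset RT)) (x : RT) : ∃ A, hpg_M l {x} = {A} ∧ size x ≤ size A ∧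
    (l ≠ [] → size x < size A) := by
  induction l with
  | nil => exact ⟨x, rfl, le_rfl, fun h => absurd rfl h⟩
  | cons s l ih =>
    obtain ⟨A, hA, h1, -⟩ := ih
    refine ⟨nd (s + {A}), by rw [hpg_M_cons, hA], ?_, fun _ => ?_⟩ <;>
    · rw [size_nd, Multiset.map_add, Multiset.sum_add, Multiset.map_singleton,
        Multiset.sum_singleton]
      omega

theorem hpg_le {b : RT} {s : Multiset RT} (h : b ∈ s) : size b ≤ (s.map size).sum :=
  Multiset.single_le_sum (fun _ _ => Nat.zero_le _) _ (Multiset.mem_map_of_mem size h)

theorem hpg_peel (l : List (Multiset RT)) : ∀ o o' : Multiset RT,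
    hpg_M l o = hpg_M l.reverse o' → o = o' ∧ l = l.reverse := by
  induction l using List.bidirectionalRec with
  | nil => exact fun o o' h => ⟨h, rfl⟩
  | singleton a =>
    intro o o' h
    rw [List.reverse_singleton, hpg_M_cons, hpg_M_cons, Multiset.singleton_inj, nd_eq_nd] at h
    exact ⟨add_left_cancel h, rfl⟩
  | cons_append a l b ih =>
    intro o o' h
    have e : (a :: (l ++ [b])).reverse = b :: (l.reverse ++ [a]) := by simp
    rw [e] at h ⊢
    rw [hpg_M_cons, hpg_M_cons, hpg_M_snoc, hpg_M_snoc, Multiset.singleton_inj, nd_eq_nd] at h
    obtain ⟨A, hA, hA1, -⟩ := hpg_single l (nd (b + o))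
    obtain ⟨B, hB, -⟩ := hpg_single l.reverse (nd (a + o'))
    rw [hA, hB] at h
    have h1 : A ∈ b + {B} := by
      rw [← h]
      simp
    have h2 : A ∉ b := by
      intro h3
      have h4 := hpg_le h3
      rw [size_nd, Multiset.map_add, Multiset.sum_add] at hA1
      omega
    have h3 : A = B := by
      rcases Multiset.mem_add.1 h1 with h3 | h3
      · exact absurd h3 h2
      · exact Multiset.mem_singleton.1 h3
    have h4 : a = b := by
      rw [h3] at h
      exact add_right_cancel h
    subst h4
    obtain ⟨h5, h6⟩ := ih {nd (a + o)} {nd (a + o')} (by rw [hA, hB, h3])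
    rw [Multiset.singleton_inj, nd_eq_nd] at h5
    refine ⟨add_left_cancel h5, ?_⟩
    rw [← h6]

/-- moving the root to the end of the path -/
theorem hpg_fr (r : List (Multiset RT)) : ∀ (w : Multiset RT) (B : RT),
    hpg_M r.reverse {nd w} = {B} → Fr (nd (w + hpg_M r 0)) B := by
  induction r with
  | nil =>
    intro w B h
    rw [List.reverse_nil, hpg_M_nil, Multiset.singleton_inj] at h
    rw [hpg_M_nil, add_zero, h]
    exact Fr.refl' _
  | cons s r ih =>
    intro w B h
    rw [hpg_rev_cons] at h
    have h1 := ih _ _ h
    rw [hpg_M_cons]
    refine Fr.trans' (Fr.of ?_) h1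
    have h2 := Stp.mk (nd (s + hpg_M r 0)) w
    rw [br_nd] at h2
    have e1 : w + {nd (s + hpg_M r 0)} = nd (s + hpg_M r 0) ::ₘ w := by
      rw [add_comm, Multiset.singleton_add]
    have e2 : s + {nd w} + hpg_M r 0 = nd w ::ₘ (s + hpg_M r 0) := by
      rw [← Multiset.singleton_add]
      abel
    rw [e1, e2]
    exact h2

theorem hpg_frrev (l : List (Multiset RT)) (A B : RT) (hA : hpg_M l 0 = {A})
    (hB : hpg_M l.reverse 0 = {B}) : Fr A B := by
  cases l with
  | nil =>
    rw [hpg_M_nil] at hA
    exact absurd hA.symm (Multiset.singleton_ne_zero A)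
  | cons s r =>
    rw [hpg_rev_cons, add_zero] at hB
    rw [hpg_M_cons, Multiset.singleton_inj] at hA
    rw [← hA]
    exact hpg_fr r s B hB

/-- the tree `t` has an edge whose far side is `A` and whose near side is `B` -/
def hpg_E (A B t : RT) : Prop :=
  ∃ l : List (Multiset RT), hpg_M l {A} = {t} ∧ hpg_M l.reverse 0 = {B}

theorem hpg_stp {t t' : RT} (h : Stp t t') {A B : RT} (hE : hpg_E A B t) :
    hpg_E A B t' ∨ hpg_E B A t' := by
  obtain ⟨l, h1, h2⟩ := hE
  cases h with
  | mk C s =>
    cases l with
    | nil =>
      rw [List.reverse_nil, hpg_M_nil] at h2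
      exact absurd h2.symm (Multiset.singleton_ne_zero B)
    | cons s0 l =>
      rw [hpg_rev_cons, add_zero] at h2
      rw [hpg_M_cons, Multiset.singleton_inj, nd_eq_nd] at h1
      obtain ⟨D, hD, -⟩ := hpg_single l A
      by_cases hC : C = D
      · subst hC
        rw [hD, add_comm, Multiset.singleton_add] at h1
        have hs : s0 = s := by
          exact (Multiset.cons_inj_right C).1 h1
        subst hs
        cases l with
        | nil =>
          right
          rw [hpg_M_nil, Multiset.singleton_inj] at hD
          subst hD
          rw [List.reverse_nil, hpg_M_nil, Multiset.singleton_inj] at h2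
          subst h2
          refine ⟨[br A], ?_, ?_⟩
          · rw [hpg_M_cons, hpg_M_nil, add_comm, Multiset.singleton_add]
          · rw [List.reverse_singleton, hpg_M_cons, hpg_M_nil, add_zero, nd_br]
        | cons s1 l =>
          left
          rw [hpg_M_cons, Multiset.singleton_inj] at hD
          rw [hpg_rev_cons] at h2
          refine ⟨(s1 + {nd s0}) :: l, ?_, ?_⟩
          · rw [hpg_M_cons, ← hD, br_nd, Multiset.singleton_inj, nd_eq_nd, ← Multiset.singleton_add]
            abel
          · rw [hpg_rev_cons, add_zero]
            exact h2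
      · left
        rw [hD] at h1
        have hC1 : C ∈ s0 := by
          have h3 : C ∈ s0 + {D} := by
            rw [h1]
            exact Multiset.mem_cons_self C s
          rcases Multiset.mem_add.1 h3 with h4 | h4
          · exact h4
          · exact absurd (Multiset.mem_singleton.1 h4) hC
        obtain ⟨s0', rfl⟩ := Multiset.exists_cons_of_mem hC1
        have hs : s = s0' + {D} := by
          rw [Multiset.cons_add] at h1
          exact ((Multiset.cons_inj_right C).1 h1).symm
        refine ⟨br C :: s0' :: l, ?_, ?_⟩
        · rw [hpg_M_cons, hpg_M_cons, hD, ← hs, add_comm, Multiset.singleton_add]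
        · rw [hpg_rev_cons, hpg_rev_cons, add_zero, nd_br, add_comm, Multiset.singleton_add]
          exact h2

theorem hpg_frE {t t' : RT} (h : Fr t t') {A B : RT} (hE : hpg_E A B t ∨ hpg_E B A t) :
    hpg_E A B t' ∨ hpg_E B A t' := by
  induction h with
  | refl => exact hE
  | tail _ h ih =>
    rcases ih with h1 | h1
    · exact hpg_stp h h1
    · exact (hpg_stp h h1).symm

/-- the free tree with `G` attached at the first vertex of the path -/
theorem hpg_att (G : RT) (l : List (Multiset RT)) (Z X : RT) (hZ : hpg_M l 0 = {Z})
    (hX : hpg_M l.reverse {G} = {X}) : Fr (nd (Z ::ₘ br G)) X := by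
  cases l with
  | nil =>
    rw [hpg_M_nil] at hZ
    exact absurd hZ.symm (Multiset.singleton_ne_zero Z)
  | cons s r =>
    rw [hpg_M_cons, Multiset.singleton_inj] at hZ
    rw [hpg_rev_cons] at hX
    refine Fr.trans' (Fr.of (Stp.mk Z (br G))) ?_
    rw [nd_br, ← hZ, br_nd]
    have h1 := hpg_fr r (s + {G}) X hX
    have e : s + {G} + hpg_M r 0 = G ::ₘ (s + hpg_M r 0) := by
      rw [← Multiset.singleton_add]
      abel
    rwa [e] at h1

theorem hpg_sz (l : List (Multiset RT)) (o : Multiset RT) :
    ((hpg_M l o).map size).sum = ((hpg_M l 0).map size).sum + (o.map size).sum := by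
  induction l with
  | nil => simp [hpg_M_nil]
  | cons s l ih =>
    rw [hpg_M_cons, hpg_M_cons]
    simp only [Multiset.map_singleton, Multiset.sum_singleton, size_nd, Multiset.map_add,
      Multiset.sum_add]
    omega

theorem holds_HPG : S_HPG := by
  intro G X
  induction hn : size X using Nat.strong_induction_on generalizing X with
  | _ n ih =>
    intro X' hfr hfr2
    subst hn
    have hsz := hfr.size_eq
    have h0 : hpg_E X G (nd (X ::ₘ br G)) := by
      refine ⟨[br G], ?_, ?_⟩
      · rw [hpg_M_cons, hpg_M_nil, add_comm, Multiset.singleton_add]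
      · rw [List.reverse_singleton, hpg_M_cons, hpg_M_nil, add_zero, nd_br]
    rcases hpg_frE hfr2 (Or.inl h0) with ⟨l, h1, h2⟩ | ⟨l, h1, h2⟩
    · -- the edge has far side `X` and near side `G`
      cases l with
      | nil =>
        rw [List.reverse_nil, hpg_M_nil] at h2
        exact absurd h2.symm (Multiset.singleton_ne_zero G)
      | cons s0 l =>
        rw [hpg_rev_cons, add_zero] at h2
        rw [hpg_M_cons, Multiset.singleton_inj, nd_eq_nd] at h1
        obtain ⟨D, hD, hD1, hD2⟩ := hpg_single l X
        by_cases hC : X' = D
        · subst hC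
          have hl : l = [] := by
            by_contra hl
            have := hD2 hl
            omega
          subst hl
          rw [hpg_M_nil, Multiset.singleton_inj] at hD
          exact hD
        · rw [hD] at h1
          have hC1 : X' ∈ s0 := by
            have h3 : X' ∈ s0 + {D} := by
              rw [h1]
              exact Multiset.mem_cons_self X' _
            rcases Multiset.mem_add.1 h3 with h4 | h4
            · exact h4
            · exact absurd (Multiset.mem_singleton.1 h4) hC
          obtain ⟨s0', rfl⟩ := Multiset.exists_cons_of_mem hC1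
          have hs : br G = s0' + {D} := by
            rw [Multiset.cons_add] at h1
            exact ((Multiset.cons_inj_right X').1 h1).symm
          have h5 : hpg_M (s0' :: l) {X} = {G} := by
            rw [hpg_M_cons, hD, ← hs, nd_br]
          have h6 : hpg_M (s0' :: l).reverse {X'} = {G} := by
            rw [hpg_rev_cons, add_comm, Multiset.singleton_add]
            exact h2
          have h7 := (hpg_peel _ _ _ (h5.trans h6.symm)).1
          exact Multiset.singleton_inj.1 h7
    · -- the edge has far side `G` and near side `X`
      cases l with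
      | nil =>
        rw [List.reverse_nil, hpg_M_nil] at h2
        exact absurd h2.symm (Multiset.singleton_ne_zero X)
      | cons s0 l =>
        rw [hpg_rev_cons, add_zero] at h2
        rw [hpg_M_cons, Multiset.singleton_inj, nd_eq_nd] at h1
        obtain ⟨D, hD, hD1, hD2⟩ := hpg_single l G
        by_cases hC : X' = D
        · subst hC
          rw [hD, add_comm, Multiset.singleton_add] at h1
          have hs : s0 = br G := (Multiset.cons_inj_right X').1 h1
          subst hs
          rw [nd_br] at h2
          cases l with
          | nil =>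
            rw [hpg_M_nil, Multiset.singleton_inj] at hD
            rw [List.reverse_nil, hpg_M_nil, Multiset.singleton_inj] at h2
            rw [← hD, ← h2]
          | cons s l =>
            set L := s :: l with hL
            have hZ : ∃ Z, hpg_M L 0 = {Z} := ⟨_, hpg_M_cons s l 0⟩
            obtain ⟨Z, hZ⟩ := hZ
            have hY : ∃ Y, hpg_M L.reverse 0 = {Y} := by
              rw [hL, hpg_rev_cons]
              obtain ⟨Y, hY, -⟩ := hpg_single l.reverse (nd (s + 0))
              exact ⟨Y, hY⟩
            obtain ⟨Y, hY⟩ := hY
            have f1 : Fr Z Y := hpg_frrev L Z Y hZ hY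
            have f2 : Fr (nd (Z ::ₘ br G)) X := hpg_att G L Z X hZ h2
            have f3 : Fr (nd (Y ::ₘ br G)) X' := by
              refine hpg_att G L.reverse Y X' hY ?_
              rw [List.reverse_reverse]
              exact hD
            have hlt : size Z < size X := by
              have h3 := hpg_sz L {G}
              rw [hD, hZ] at h3
              simp only [Multiset.map_singleton, Multiset.sum_singleton] at h3
              have := size_pos G
              omega
            have h4 := ih (size Z) hlt Z rfl Y f1 (f2.trans' (hfr.trans' f3.symm'))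
            subst h4
            have h5 := (hpg_peel L 0 0 (hZ.trans hY.symm)).2
            rw [← h5, hD, Multiset.singleton_inj] at h2
            exact h2.symm
        · exfalso
          rw [hD] at h1
          have hC1 : X' ∈ s0 := by
            have h3 : X' ∈ s0 + {D} := by
              rw [h1]
              exact Multiset.mem_cons_self X' _
            rcases Multiset.mem_add.1 h3 with h4 | h4
            · exact h4
            · exact absurd (Multiset.mem_singleton.1 h4) hC
          obtain ⟨s0', rfl⟩ := Multiset.exists_cons_of_mem hC1
          have hs : br G = s0' + {D} := by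
            rw [Multiset.cons_add] at h1
            exact ((Multiset.cons_inj_right X').1 h1).symm
          have h5 := size_eq G
          rw [hs, Multiset.map_add, Multiset.sum_add, Multiset.map_singleton,
            Multiset.sum_singleton] at h5
          omega

end Pool.Agent.N203.DR
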