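import Pool.Agent.N203.DR.Stm

/-!
# Attaching a limb at two vertices of a tree gives different trees unless the vertices are similar

Leaf HPGb of the project DR of helper203; proof by helper787 (chains of branches between the two
attaching edges).
-/

set_option autoImplicit false

namespace Pool.Agent.N203.DR

open Multiset

/-- the tree seen from the first vertex of a path, the vertices of the path have the branches
`m` and (last vertex) `y` outside the path -/
def hpgb_R : List (Multiset RT) → Multiset RT → RT
  | [], y => nd y
  | s :: m, y => nd (hpgb_R m y ::ₘ s)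

theorem hpgb_R_cons (s : Multiset RT) (m : List (Multiset RT)) (y : Multiset RT) :
    hpgb_R (s :: m) y = nd (hpgb_R m y ::ₘ s) := rfl

theorem hpgb_R_append (m : List (Multiset RT)) (w y : Multiset RT) :
    hpgb_R (m ++ [w]) y = hpgb_R m (nd y ::ₘ w) := by
  induction m with
  | nil => rfl
  | cons s m ih => rw [List.cons_append, hpgb_R_cons, hpgb_R_cons, ih]

theorem hpgb_fr (m : List (Multiset RT)) (s y : Multiset RT) :
    Fr (hpgb_R (s :: m) y) (hpgb_R (y :: m.reverse) s) := by
  induction m generalizing s with
  | nil =>
    have h := Stp.mk (nd y) s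
    rw [br_nd] at h
    exact Fr.of h
  | cons w m ih =>
    have h := Stp.mk (hpgb_R (w :: m) y) s
    rw [hpgb_R_cons w m y, br_nd, Multiset.cons_swap] at h
    have h2 := ih (nd s ::ₘ w)
    have h3 : hpgb_R (y :: m.reverse) (nd s ::ₘ w) = hpgb_R (y :: (w :: m).reverse) s := by
      rw [List.reverse_cons, ← hpgb_R_append]; rfl
    rw [h3] at h2
    exact (Fr.of h).trans' h2

theorem hpgb_path {c t : RT} (h : Fr c t) : c = t ∨ ∃ (s : Multiset RT)
    (m : List (Multiset RT)) (y : Multiset RT), c = hpgb_R (s :: m) y ∧
      t = hpgb_R (y :: m.reverse) s := by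
  induction h with
  | refl => exact Or.inl rfl
  | @tail t t' _ hs ih =>
    rcases ih with rfl | ⟨s, m, y, hc, ht⟩
    · cases hs with
      | mk A s =>
        refine Or.inr ⟨s, [], br A, ?_, ?_⟩
        · show nd (A ::ₘ s) = nd (nd (br A) ::ₘ s)
          rw [nd_br]
        · rfl
    · cases hs with
      | mk A u =>
        have h1 : A ::ₘ u = hpgb_R m.reverse s ::ₘ y := nd_inj ht
        rcases Multiset.cons_eq_cons.1 h1 with ⟨hA, hu⟩ | ⟨_, v, hv1, hv2⟩
        · subst hu
          rcases List.eq_nil_or_concat m with rfl | ⟨m', w, rfl⟩
          · left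
            rw [hc, hA]
            show nd (nd u ::ₘ s) = nd (nd u ::ₘ br (nd s))
            rw [br_nd]
          · right
            rw [List.concat_eq_append] at hA hc
            refine ⟨s, m', nd u ::ₘ w, ?_, ?_⟩
            · rw [hc, ← List.cons_append, hpgb_R_append]
            · rw [hA, List.reverse_append, List.reverse_singleton, List.singleton_append,
                hpgb_R_cons, br_nd, hpgb_R_cons, Multiset.cons_swap]
        · right
          subst hv1
          subst hv2
          refine ⟨s, m ++ [v], br A, ?_, ?_⟩
          · rw [hc, ← List.cons_append, hpgb_R_append, nd_br]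
          · rw [List.reverse_append, List.reverse_singleton, List.singleton_append,
              hpgb_R_cons, hpgb_R_cons]

theorem hpgb_sz (m : List (Multiset RT)) (y : Multiset RT) :
    (y.map size).sum < size (hpgb_R m y) := by
  induction m with
  | nil => show _ < size (nd y); rw [size_nd]; omega
  | cons s m ih =>
    rw [hpgb_R_cons, size_nd, Multiset.map_cons, Multiset.sum_cons]; omega

theorem hpgb_mem {a : RT} {w : Multiset RT} (h : a ∈ w) : size a ≤ (w.map size).sum :=
  Multiset.le_sum_of_mem (Multiset.mem_map_of_mem size h)

theorem hpgb_cons {C D : RT} {a b : Multiset RT} (h : C ::ₘ a = D ::ₘ b)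
    (hC : (b.map size).sum < size C) : C = D ∧ a = b := by
  rcases Multiset.cons_eq_cons.1 h with h1 | ⟨_, v, _, hv⟩
  · exact h1
  · exfalso
    have : C ∈ b := by rw [hv]; exact Multiset.mem_cons_self _ _
    have := hpgb_mem this
    omega

theorem hpgb_pal (n : ℕ) : ∀ m : List (Multiset RT), m.length ≤ n → ∀ y y' : Multiset RT,
    hpgb_R m y' = hpgb_R m.reverse y → m.reverse = m ∧ y = y' := by
  induction n with
  | zero =>
    intro m hm y y' h
    have : m = [] := List.length_eq_zero_iff.1 (by omega)
    subst this
    exact ⟨rfl, (nd_inj h).symm⟩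
  | succ n ih =>
    intro m hm y y' h
    cases m with
    | nil => exact ⟨rfl, (nd_inj h).symm⟩
    | cons s t =>
      rcases List.eq_nil_or_concat t with rfl | ⟨m', w, rfl⟩
      · have h1 : nd y' ::ₘ s = nd y ::ₘ s := nd_inj h
        exact ⟨rfl, (nd_inj ((Multiset.cons_inj_left s).1 h1)).symm⟩
      · rw [List.concat_eq_append] at *
        have hrev : (s :: (m' ++ [w])).reverse = w :: (m'.reverse ++ [s]) := by simp
        rw [hrev, hpgb_R_cons, hpgb_R_cons, hpgb_R_append, hpgb_R_append] at h
        have h1 := nd_inj h
        have h2 := hpgb_sz m' (nd y' ::ₘ w)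
        rw [Multiset.map_cons, Multiset.sum_cons] at h2
        obtain ⟨h3, h4⟩ := hpgb_cons h1 (by omega)
        subst h4
        have hl : m'.length ≤ n := by
          simp only [List.length_cons, List.length_append] at hm
          omega
        obtain ⟨h5, h6⟩ := ih m' hl _ _ h3
        refine ⟨?_, nd_inj ((Multiset.cons_inj_left s).1 h6)⟩
        rw [hrev, h5]

theorem holds_HPGb : S_HPG := by
  intro G X
  induction hn : size X using Nat.strong_induction_on generalizing X with
  | _ n ih =>
  intro X' hXX' hT
  rcases hpgb_path hT with h | ⟨s, m, s', h1, h2⟩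
  · exact (Multiset.cons_inj_left _).1 (nd_inj h)
  · have h1' : X ::ₘ br G = hpgb_R m s' ::ₘ s := nd_inj h1
    have h2' : X' ::ₘ br G = hpgb_R m.reverse s ::ₘ s' := nd_inj h2
    rcases Multiset.cons_eq_cons.1 h1' with ⟨hX, hs⟩ | ⟨_, c, hc1, hc2⟩
    · rcases Multiset.cons_eq_cons.1 h2' with ⟨hX', hs'⟩ | ⟨_, c', hc1', hc2'⟩
      · subst hs
        subst hs'
        cases m with
        | nil => rw [hX, hX']; rfl
        | cons a t =>
          rcases List.eq_nil_or_concat t with rfl | ⟨m', b, rfl⟩
          · rw [hX, hX']; rfl
          · rw [List.concat_eq_append] at hX hX'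
            have hrev : (a :: (m' ++ [b])).reverse = b :: (m'.reverse ++ [a]) := by simp
            rw [hrev] at hX'
            have f1 : Fr X (nd (hpgb_R (b :: m'.reverse) a ::ₘ br G)) := by
              have := hpgb_fr (m' ++ [b]) a (br G)
              rw [← hX, List.reverse_append, List.reverse_singleton, List.singleton_append,
                hpgb_R_cons] at this
              exact this
            have f2 : Fr X' (nd (hpgb_R (a :: m') b ::ₘ br G)) := by
              have := hpgb_fr (m'.reverse ++ [a]) b (br G)
              rw [← hX', List.reverse_append, List.reverse_singleton, List.singleton_append,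
                List.reverse_reverse, hpgb_R_cons] at this
              exact this
            have f3 := hpgb_fr m' a b
            have hsz : size (hpgb_R (b :: m'.reverse) a) < n := by
              have := f1.size_eq
              rw [size_nd, Multiset.map_cons, Multiset.sum_cons] at this
              omega
            have h3 := ih _ hsz _ rfl _ f3.symm' ((f1.symm'.trans' hXX').trans' f2)
            have h4 : hpgb_R m' b ::ₘ a = hpgb_R m'.reverse a ::ₘ b := nd_inj h3.symm
            obtain ⟨h5, h6⟩ := hpgb_cons h4 (hpgb_sz _ _)
            subst h6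
            obtain ⟨h7, _⟩ := hpgb_pal m'.length m' le_rfl _ _ h5
            rw [hX, hX', h7]
      · exfalso
        have h3 := hpgb_sz m.reverse s
        have h4 : hpgb_R m.reverse s ∈ br G := by
          rw [hc1']; exact Multiset.mem_cons_self _ _
        rw [hs] at h4
        have := hpgb_mem h4
        omega
    · rcases Multiset.cons_eq_cons.1 h2' with ⟨hX', hs'⟩ | ⟨_, c', hc1', hc2'⟩
      · exfalso
        have h3 := hpgb_sz m s'
        have h4 : hpgb_R m s' ∈ br G := by
          rw [hc1]; exact Multiset.mem_cons_self _ _
        rw [hs'] at h4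
        have := hpgb_mem h4
        omega
      · have h3 : hpgb_R m s' ::ₘ c = hpgb_R m.reverse s ::ₘ c' := by rw [← hc1, ← hc1']
        have h4 := hpgb_sz m s'
        have h5 : (c'.map size).sum ≤ (s'.map size).sum := by
          rw [hc2', Multiset.map_cons, Multiset.sum_cons]; omega
        obtain ⟨h6, h7⟩ := hpgb_cons h3 (by omega)
        obtain ⟨_, h8⟩ := hpgb_pal m.length m le_rfl _ _ h6
        rw [hc2, hc2', h7] at h8
        exact (Multiset.cons_inj_left _).1 h8

end Pool.Agent.N203.DR
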