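import Pool.Agent.N203.DR.Stm

/-!
Project DR (helper203), part II1 (helper971): an odd number of vertices, a branch `A` with `m`
vertices, at least two other branches.
-/

set_option autoImplicit false

namespace Pool.Agent.N203.DR

open Multiset

private theorem ii1_inv {t' t : RT} (h : Del t' t) :
    (∃ s, t = nd (nd 0 ::ₘ s) ∧ t' = nd s) ∨
      ∃ b b' s, Del b' b ∧ t = nd (b ::ₘ s) ∧ t' = nd (b' ::ₘ s) := by
  unfold Del at h
  cases h with
  | root s => exact Or.inl ⟨s, rfl, rfl⟩
  | step s b b' h => exact Or.inr ⟨b', b, s, h, rfl, rfl⟩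

private theorem ii1_zero {s : Multiset RT} (h : (s.map size).sum = 0) : s = 0 := by
  rw [Multiset.eq_zero_iff_forall_notMem]
  intro x hx
  have h4 : size x ≤ (s.map size).sum :=
    Multiset.le_sum_of_mem (Multiset.mem_map_of_mem size hx)
  have h5 := size_pos x
  omega

private theorem ii1_one {b : RT} (h : size b ≤ 1) : b = nd 0 := by
  have h1 := size_eq b
  have h2 : ((br b).map size).sum = 0 := by omega
  rw [← nd_br b, ii1_zero h2]

private theorem ii1_ex (t : RT) : 2 ≤ size t → ∃ t', Del t' t := by
  refine RT.ind (P := fun t => 2 ≤ size t → ∃ t', Del t' t) ?_ t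
  intro s ih hs
  have hne : s ≠ 0 := by
    rintro rfl
    rw [size_zero] at hs
    omega
  obtain ⟨b, hb⟩ := Multiset.exists_mem_of_ne_zero hne
  obtain ⟨s', rfl⟩ := Multiset.exists_cons_of_mem hb
  by_cases h2 : 2 ≤ size b
  · obtain ⟨b', hb'⟩ := ih b hb h2
    exact ⟨_, Att.step s' b' b hb'⟩
  · have h1 : b = nd 0 := ii1_one (by omega)
    subst h1
    exact ⟨_, Att.root s'⟩

private theorem ii1_cons (A : RT) {S2 S : Multiset RT} (h : Del (nd S2) (nd S)) :
    Del (nd (A ::ₘ S2)) (nd (A ::ₘ S)) := by
  rcases ii1_inv h with ⟨s, e1, e2⟩ | ⟨b, b', s, hb, e1, e2⟩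
  · rw [nd_inj e1, nd_inj e2, Multiset.cons_swap]
    exact Att.root _
  · rw [nd_inj e1, nd_inj e2, Multiset.cons_swap A b, Multiset.cons_swap A b']
    exact Att.step _ _ _ hb

theorem holds_II1 (cen2 : S_CEN2) (oddv : S_ODDV) : S_II1 := by
  intro m A S hm hA hS hc hC
  have hS' := hS
  rw [size_nd] at hS'
  have hsum : (S.map size).sum = m := by omega
  -- the branches in `S` are small
  have hmem2 : ∀ x ∈ S, size x + 2 ≤ m := by
    intro x hx
    obtain ⟨S', hS1⟩ := Multiset.exists_cons_of_mem hx
    have h1 : size x + (S'.map size).sum = m := by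
      rw [← hsum, hS1, Multiset.map_cons, Multiset.sum_cons]
    have h2 : S' ≠ 0 := by
      rintro rfl
      rw [hS1] at hc
      simp at hc
    obtain ⟨y, hy⟩ := Multiset.exists_mem_of_ne_zero h2
    obtain ⟨S'', hS2⟩ := Multiset.exists_cons_of_mem hy
    have h3 : (S'.map size).sum = size y + (S''.map size).sum := by
      rw [hS2, Multiset.map_cons, Multiset.sum_cons]
    have h4 := size_pos y
    by_contra hcon
    have h5 : size y ≤ 1 := by omega
    have h6 : (S''.map size).sum = 0 := by omega
    apply hC x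
    rw [hS1, hS2, ii1_zero h6, ii1_one h5]
    rfl
  obtain ⟨A1, hA1⟩ := ii1_ex A (by omega)
  have hsA1 := hA1.size_eq
  obtain ⟨S2, hS2, hS2c⟩ : ∃ S2, Del (nd S2) (nd S) ∧ (Del A (nd S) → nd S2 = A) := by
    by_cases h : Del A (nd S)
    · exact ⟨br A, by rw [nd_br]; exact h, fun _ => nd_br A⟩
    · obtain ⟨t', ht'⟩ := ii1_ex (nd S) (by omega)
      exact ⟨br t', by rw [nd_br]; exact ht', fun h' => absurd h' h⟩
  have hsS2 := hS2.size_eq
  have hsS2' : size (nd S2) = m := by omega
  have hb1 : ∀ x ∈ A1 ::ₘ S, size x + 1 ≤ m := by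
    intro x hx
    rcases Multiset.mem_cons.1 hx with rfl | hx
    · omega
    · have := hmem2 x hx
      omega
  have hb2 : ∀ x ∈ S2, size x + 1 ≤ m := by
    intro x hx
    have h1 : size x ≤ (S2.map size).sum :=
      Multiset.le_sum_of_mem (Multiset.mem_map_of_mem size hx)
    rw [size_nd] at hsS2'
    omega
  have hsa1 : size (nd (A1 ::ₘ S)) = 2 * m := by
    rw [size_nd, Multiset.map_cons, Multiset.sum_cons]
    omega
  have hsa2 : size (nd (A ::ₘ S2)) = 2 * m := by
    rw [size_nd] at hsS2'
    rw [size_nd, Multiset.map_cons, Multiset.sum_cons]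
    omega
  have hcen1 : Cen (nd (A1 ::ₘ S)) := by
    intro x hx
    rw [br_nd] at hx
    have := hb1 x hx
    omega
  have hcen2 : Cen (nd (A ::ₘ S2)) := by
    intro x hx
    rw [br_nd] at hx
    rcases Multiset.mem_cons.1 hx with rfl | hx
    · omega
    · have := hb2 x hx
      omega
  refine ⟨nd (A1 ::ₘ S), nd (A ::ₘ S2), Att.step S A1 A hA1, ii1_cons A hS2, ?_, ?_⟩
  · intro hF
    rcases cen2 _ _ hF hcen1 hcen2 with h | ⟨B, s, h1, -, h3⟩
    · have h4 : A ∈ A1 ::ₘ S := by
        rw [nd_inj h]
        exact Multiset.mem_cons_self A S2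
      have := hb1 A h4
      omega
    · have h4 : B ∈ A1 ::ₘ S := by
        rw [nd_inj h1]
        exact Multiset.mem_cons_self B s
      have := hb1 B h4
      omega
  · intro h h1 h2 hCh hd1 hd2 hf1 hf2
    have hsz : size h = 2 * m + 1 := by
      rw [hd1.size_eq, hf1.size_eq, hsa1]
    have hbr : ∀ x ∈ br h, size x ≤ m := by
      intro x hx
      have := hCh x hx
      omega
    have hD1 : Del (nd (A1 ::ₘ S)) h := by
      rcases oddv m h h1 _ hsz hCh hcen1 hd1 hf1 with h3 | ⟨W, s, hW, h3, -⟩
      · exact h3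
      · have h4 : W ∈ A1 ::ₘ S := by
          rw [nd_inj h3]
          exact Multiset.mem_cons_self W s
        have := hb1 W h4
        omega
    have key : ∀ B ∈ br h, size B = m → h = nd (B ::ₘ S) := by
      intro B hB hBm
      rcases ii1_inv hD1 with ⟨s, e1, e2⟩ | ⟨x, x', s, hx, e1, e2⟩
      · rw [e1, br_nd, ← nd_inj e2] at hB
        rcases Multiset.mem_cons.1 hB with rfl | hB
        · rw [size_zero] at hBm
          omega
        · have := hb1 B hB
          omega
      · have e3 := nd_inj e2
        have hsx := hx.size_eq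
        rw [e1, br_nd] at hB
        rcases Multiset.mem_cons.1 hB with rfl | hB
        · rcases Multiset.cons_eq_cons.1 e3 with ⟨e4, e5⟩ | ⟨-, cs, e4, e5⟩
          · rw [e1, e5]
          · have h5 : x' ∈ S := by
              rw [e4]
              exact Multiset.mem_cons_self x' cs
            have := hmem2 x' h5
            omega
        · have h5 : B ∈ A1 ::ₘ S := by
            rw [e3]
            exact Multiset.mem_cons_of_mem hB
          have := hb1 B h5
          omega
    rcases oddv m h h2 _ hsz hCh hcen2 hd2 hf2 with h3 | ⟨W, s, hW, h3, h4⟩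
    · -- the root is the same
      have hAh : A ∈ br h := by
        rcases ii1_inv h3 with ⟨s, e1, e2⟩ | ⟨x, x', s, hx, e1, e2⟩
        · rw [e1, br_nd, ← nd_inj e2]
          exact Multiset.mem_cons_of_mem (Multiset.mem_cons_self A S2)
        · have hsx := hx.size_eq
          rcases Multiset.cons_eq_cons.1 (nd_inj e2) with ⟨e4, -⟩ | ⟨-, cs, e4, e5⟩
          · have h5 := hbr x (by
              rw [e1, br_nd]
              exact Multiset.mem_cons_self x s)
            rw [← e4] at hsx
            omega
          · rw [e1, br_nd, e5]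
            exact Multiset.mem_cons_of_mem (Multiset.mem_cons_self A cs)
      rw [key A hAh hA]
      exact Fr.refl' _
    · -- the root is moved
      have e3 := nd_inj h3
      have hWs : W = A ∧ s = S2 := by
        rcases Multiset.cons_eq_cons.1 e3 with ⟨e4, e5⟩ | ⟨-, cs, e4, e5⟩
        · exact ⟨e4.symm, e5.symm⟩
        · have h5 : W ∈ S2 := by
            rw [e4]
            exact Multiset.mem_cons_self W cs
          have := hb2 W h5
          omega
      obtain ⟨rfl, rfl⟩ := hWs
      obtain ⟨Z, hZ, hWZ⟩ : ∃ Z, h = nd (nd s ::ₘ Z) ∧ Del W (nd Z) := by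
        rcases ii1_inv h4 with ⟨s', e1, e2⟩ | ⟨x, x', s', hx, e1, e2⟩
        · refine ⟨nd 0 ::ₘ br W, ?_, ?_⟩
          · rw [e1, ← nd_inj e2, Multiset.cons_swap]
          · have h5 := Att.root (G := nd 0) (br W)
            rw [nd_br] at h5
            exact h5
        · have hsx := hx.size_eq
          rcases Multiset.cons_eq_cons.1 (nd_inj e2) with ⟨e4, -⟩ | ⟨-, cs, e4, e5⟩
          · have h5 := hbr x (by
              rw [e1, br_nd]
              exact Multiset.mem_cons_self x s')
            rw [← e4] at hsx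
            omega
          · refine ⟨x ::ₘ cs, ?_, ?_⟩
            · rw [e1, e5, Multiset.cons_swap]
            · have h5 := Att.step (G := nd 0) cs x' x hx
              rw [← e4, nd_br] at h5
              exact h5
      have h5 := key (nd s) (by
        rw [hZ, br_nd]
        exact Multiset.mem_cons_self _ _) hsS2'
      rw [hZ] at h5
      have h6 : Z = S := (Multiset.cons_inj_right (nd s)).1 (nd_inj h5)
      rw [h6] at hWZ
      rw [hZ, h6, hS2c hWZ]
      exact Fr.refl' _

end Pool.Agent.N203.DR
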