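import Pool.Agent.N203.DR.Stm

/-!
# Project DR, part II1s

(project of helper203; this part by helper170)
-/

set_option autoImplicit false

namespace Pool.Agent.N203.DR

open Multiset

theorem ii1s_del {t' t : RT} (h : Del t' t) : (∃ s, t = nd (nd 0 ::ₘ s) ∧ t' = nd s) ∨
    (∃ b b' s, Del b' b ∧ t = nd (b ::ₘ s) ∧ t' = nd (b' ::ₘ s)) := by
  unfold Del at h
  cases h with
  | root s => exact Or.inl ⟨s, rfl, rfl⟩
  | step s b b' h => exact Or.inr ⟨b', b, s, h, rfl, rfl⟩

theorem ii1s_root (s : Multiset RT) : Del (nd s) (nd (nd 0 ::ₘ s)) := Att.root s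

theorem ii1s_step {b' b : RT} (h : Del b' b) (s : Multiset RT) :
    Del (nd (b' ::ₘ s)) (nd (b ::ₘ s)) := Att.step s b' b h

theorem ii1s_inv2 {x y b : RT} {s : Multiset RT} (h : ({x, y} : Multiset RT) = b ::ₘ s) :
    (b = x ∧ s = {y}) ∨ (b = y ∧ s = {x}) := by
  have hb : b ∈ ({x, y} : Multiset RT) := by rw [h]; exact mem_cons_self _ _
  rw [insert_eq_cons] at h
  rw [insert_eq_cons, mem_cons, mem_singleton] at hb
  rcases hb with rfl | rfl
  · left
    exact ⟨rfl, ((cons_inj_right _).1 h).symm⟩
  · right
    refine ⟨rfl, ?_⟩
    have h1 : x ::ₘ ({b} : Multiset RT) = b ::ₘ {x} := pair_comm x b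
    rw [h1] at h
    exact ((cons_inj_right _).1 h).symm

theorem ii1s_inv3 {x y z b : RT} {s : Multiset RT} (h : ({x, y, z} : Multiset RT) = b ::ₘ s) :
    (b = x ∧ s = {y, z}) ∨ (b = y ∧ s = {x, z}) ∨ (b = z ∧ s = {x, y}) := by
  have hb : b ∈ ({x, y, z} : Multiset RT) := by rw [h]; exact mem_cons_self _ _
  rw [insert_eq_cons, insert_eq_cons, mem_cons, mem_cons, mem_singleton] at hb
  simp only [insert_eq_cons] at h ⊢
  rcases hb with rfl | rfl | rfl
  · left
    exact ⟨rfl, ((cons_inj_right _).1 h).symm⟩
  · right; left
    refine ⟨rfl, ?_⟩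
    rw [cons_swap] at h
    exact ((cons_inj_right _).1 h).symm
  · right; right
    refine ⟨rfl, ?_⟩
    have h1 : y ::ₘ ({b} : Multiset RT) = b ::ₘ {y} := pair_comm y b
    rw [h1, cons_swap] at h
    exact ((cons_inj_right _).1 h).symm

theorem ii1s_ex (t : RT) : t ≠ nd 0 → ∃ t', Del t' t := by
  induction t using RT.ind with
  | h s ih =>
    intro hs
    have hs0 : s ≠ 0 := fun h0 => hs (by rw [h0])
    obtain ⟨b, hb⟩ := exists_mem_of_ne_zero hs0
    obtain ⟨r, rfl⟩ := exists_cons_of_mem hb
    by_cases hb0 : b = nd 0
    · rw [hb0]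
      exact ⟨_, ii1s_root r⟩
    · obtain ⟨b', hb'⟩ := ih b hb hb0
      exact ⟨_, ii1s_step hb' r⟩

theorem ii1s_not_del {x : RT} (h : Del x (nd 0)) : False := by
  have h1 := Del.size_eq h
  rw [size_zero] at h1
  have := size_pos x
  omega

theorem ii1s_path {x : RT} (k : ℕ) (h : Del x (P (k + 1))) : x = P k := by
  induction k generalizing x with
  | zero =>
    have h1 := Del.size_eq h
    rw [size_P] at h1
    rcases ii1s_del h with ⟨s, h2, rfl⟩ | ⟨b, b', s, h2, h3, rfl⟩
    · have h4 := nd_inj (show nd {P 0} = nd (nd 0 ::ₘ s) from h2)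
      have h5 : nd 0 = P 0 ∧ s = 0 := by
        have := congrArg card h4
        rw [card_singleton, card_cons] at this
        have h6 : s = 0 := card_eq_zero.1 (by omega)
        exact ⟨rfl, h6⟩
      rw [h5.2]
      rfl
    · exfalso
      have h4 := nd_inj (show nd {P 0} = nd (b ::ₘ s) from h3)
      have h5 : b ∈ ({P 0} : Multiset RT) := by rw [h4]; exact mem_cons_self _ _
      rw [mem_singleton] at h5
      rw [h5] at h2
      exact ii1s_not_del h2
  | succ k ih =>
    rcases ii1s_del h with ⟨s, h2, rfl⟩ | ⟨b, b', s, h2, h3, rfl⟩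
    · exfalso
      have h4 := nd_inj (show nd {P (k + 1)} = nd (nd 0 ::ₘ s) from h2)
      have h5 : nd 0 ∈ ({P (k + 1)} : Multiset RT) := by rw [h4]; exact mem_cons_self _ _
      rw [mem_singleton] at h5
      have h6 := congrArg size h5
      rw [size_P, size_zero] at h6
      omega
    · have h4 := nd_inj (show nd {P (k + 1)} = nd (b ::ₘ s) from h3)
      have h5 : b ∈ ({P (k + 1)} : Multiset RT) := by rw [h4]; exact mem_cons_self _ _
      rw [mem_singleton] at h5
      have h6 : s = 0 := by
        have := congrArg card h4
        rw [card_singleton, card_cons] at this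
        exact card_eq_zero.1 (by omega)
      rw [h5] at h2
      rw [h6, ih h2]
      rfl

theorem ii1s_path' (k : ℕ) : Del (P k) (P (k + 1)) := by
  induction k with
  | zero => exact ii1s_root 0
  | succ k ih => exact ii1s_step ih 0

/-- the choice of the deletion of `A` -/
theorem ii1s_choice (m : ℕ) (A C : RT) (hm : 10 ≤ m) (hA : size A = m) : ∃ A1, Del A1 A ∧
    (∀ E, A = nd {E, nd 0} → Del E C → card (br A1) = 2) ∧
    (∀ E, A = nd {E, nd 0} → ¬ Del E C → A1 = nd {E}) := by
  have uniq : ∀ E E' : RT, A = nd {E, nd 0} → A = nd {E', nd 0} → E = E' := by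
    intro E E' h h'
    have h1 := nd_inj (h.symm.trans h')
    rcases ii1s_inv2 (show ({E, nd 0} : Multiset RT) = E' ::ₘ {nd 0} from h1) with ⟨h2, _⟩ | ⟨h2, h3⟩
    · exact h2.symm
    · rw [h2]
      exact (singleton_inj.1 h3).symm
  by_cases h1 : ∃ E, A = nd {E, nd 0}
  · obtain ⟨E, hE⟩ := h1
    have hsE : size E + 2 = m := by
      rw [← hA, hE, size_nd, insert_eq_cons, map_cons, sum_cons, map_singleton, sum_singleton,
        size_zero]
      omega
    by_cases h2 : Del E C
    · have hE0 : E ≠ nd 0 := by
        rintro rfl
        rw [size_zero] at hsE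
        omega
      obtain ⟨E', hE'⟩ := ii1s_ex E hE0
      refine ⟨nd {E', nd 0}, ?_, fun F hF _ => ?_, fun F hF h3 => ?_⟩
      · rw [hE]
        exact ii1s_step hE' _
      · rw [br_nd]
        rfl
      · rw [uniq F E hF hE] at h3
        exact absurd h2 h3
    · refine ⟨nd {E}, ?_, fun F hF h3 => ?_, fun F hF h3 => ?_⟩
      · rw [hE, insert_eq_cons, show E ::ₘ ({nd 0} : Multiset RT) = nd 0 ::ₘ {E} from pair_comm _ _]
        exact ii1s_root _
      · rw [uniq F E hF hE] at h3
        exact absurd h3 h2
      · rw [uniq F E hF hE]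
  · have hA0 : A ≠ nd 0 := by
      rintro rfl
      rw [size_zero] at hA
      omega
    obtain ⟨A1, hA1⟩ := ii1s_ex A hA0
    exact ⟨A1, hA1, fun E hE _ => absurd ⟨E, hE⟩ h1, fun E hE _ => absurd ⟨E, hE⟩ h1⟩

theorem holds_II1s (cen2 : S_CEN2) (oddv : S_ODDV) (pth : S_PTH) : S_II1s := by
  intro m A C hm hA hC hne
  obtain ⟨A1, hA1, hch1, hch2⟩ := ii1s_choice m A C hm hA
  have sA1 : size A1 + 1 = m := by rw [← Del.size_eq hA1]; exact hA
  have s0 : size (nd 0) = 1 := size_zero
  have st : size (nd {A, C, nd 0}) = 2 * m + 1 := by
    simp only [insert_eq_cons, size_nd, map_cons, sum_cons, map_singleton, sum_singleton] at s0 ⊢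
    simp only [map_zero, sum_zero]
    omega
  have sa1 : size (nd {A1, C, nd 0}) = 2 * m := by
    simp only [insert_eq_cons, size_nd, map_cons, sum_cons, map_singleton, sum_singleton] at s0 ⊢
    simp only [map_zero, sum_zero]
    omega
  have sa2 : size (nd {A, C}) = 2 * m := by
    simp only [insert_eq_cons, size_nd, map_cons, sum_cons, map_singleton, sum_singleton] at s0 ⊢
    omega
  have cen1 : Cen (nd {A1, C, nd 0}) := by
    intro b hb
    rw [sa1]
    rw [br_nd, insert_eq_cons, insert_eq_cons, mem_cons, mem_cons, mem_singleton] at hb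
    rcases hb with rfl | rfl | rfl <;> omega
  have cen2' : Cen (nd {A, C}) := by
    intro b hb
    rw [sa2]
    rw [br_nd, insert_eq_cons, mem_cons, mem_singleton] at hb
    rcases hb with rfl | rfl <;> omega
  have hd1 : Del (nd {A1, C, nd 0}) (nd {A, C, nd 0}) := ii1s_step hA1 _
  have hd2 : Del (nd {A, C}) (nd {A, C, nd 0}) := by
    have h1 : ({A, C, nd 0} : Multiset RT) = nd 0 ::ₘ {A, C} := by
      simp only [insert_eq_cons]
      rw [show C ::ₘ ({nd 0} : Multiset RT) = nd 0 ::ₘ {C} from pair_comm _ _, cons_swap]
    rw [h1]
    exact ii1s_root _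
  refine ⟨nd {A1, C, nd 0}, nd {A, C}, hd1, hd2, ?_, ?_⟩
  · intro hfr
    rcases cen2 _ _ hfr cen1 cen2' with h | ⟨W, s, h1, _, h2⟩
    · have h3 := congrArg card (nd_inj h)
      simp only [insert_eq_cons, card_cons, card_singleton] at h3
      omega
    · rw [sa1] at h2
      rcases ii1s_inv3 (nd_inj h1) with ⟨h3, _⟩ | ⟨h3, _⟩ | ⟨h3, _⟩ <;> rw [h3] at h2 <;> omega
  · intro h h1 h2 hcen hh1 hh2 hf1 hf2
    have sh : size h = 2 * m + 1 := by rw [Del.size_eq hh1, Fr.size_eq hf1, sa1]
    have hbr : ∀ b ∈ br h, size b ≤ m := by
      intro b hb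
      have := hcen b hb
      omega
    -- the first card
    have hD1 : Del (nd {A1, C, nd 0}) h := by
      rcases oddv m h h1 _ sh hcen cen1 hh1 hf1 with h3 | ⟨W, s, hW, h3, _⟩
      · exact h3
      · exfalso
        rcases ii1s_inv3 (nd_inj h3) with ⟨h4, _⟩ | ⟨h4, _⟩ | ⟨h4, _⟩ <;> rw [h4] at hW <;> omega
    have hcard : 3 ≤ card (br h) := by
      rcases ii1s_del hD1 with ⟨s, h3, h4⟩ | ⟨b, b', s, _, h3, h4⟩
      · have h5 := congrArg card (nd_inj h4)
        simp only [insert_eq_cons, card_cons, card_singleton] at h5
        rw [h3, br_nd, card_cons]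
        omega
      · have h5 := congrArg card (nd_inj h4)
        simp only [insert_eq_cons, card_cons, card_singleton] at h5
        rw [h3, br_nd, card_cons]
        omega
    -- the second card
    rcases oddv m h h2 _ sh hcen cen2' hh2 hf2 with h3 | ⟨W, s, hW, h3, h4⟩
    · -- case x
      rcases ii1s_del h3 with ⟨s, h4, h5⟩ | ⟨b, b', s, h6, h4, h5⟩
      · have h7 := nd_inj h5
        rw [h4, ← h7]
        have h8 : ({A, C, nd 0} : Multiset RT) = nd 0 ::ₘ {A, C} := by
          simp only [insert_eq_cons]
          rw [show C ::ₘ ({nd 0} : Multiset RT) = nd 0 ::ₘ {C} from pair_comm _ _, cons_swap]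
        rw [h8]
        exact Fr.refl' _
      · exfalso
        have h7 := congrArg card (nd_inj h5)
        simp only [insert_eq_cons, card_cons, card_singleton] at h7
        rw [h4, br_nd, card_cons] at hcard
        omega
    · -- case y
      have hWs : W = A ∧ s = {C} := by
        rcases ii1s_inv2 (nd_inj h3) with h5 | ⟨h5, _⟩
        · exact h5
        · exfalso
          rw [h5] at hW
          omega
      rw [hWs.1, hWs.2] at h4
      have sC : size (nd {C}) = m := by
        rw [size_nd, map_singleton, sum_singleton]
        omega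
      -- the structure of h
      obtain ⟨q, hq, hAq⟩ : ∃ q, br h = nd {C} ::ₘ q ∧ Del A (nd q) := by
        rcases ii1s_del h4 with ⟨s, h5, h6⟩ | ⟨b, b', s, h7, h5, h6⟩
        · refine ⟨nd 0 ::ₘ br A, ?_, ?_⟩
          · rw [h5, br_nd, ← nd_inj h6, cons_swap]
          · have := ii1s_root (br A)
            rwa [nd_br] at this
        · have h8 := nd_inj h6
          rcases cons_eq_cons.1 h8 with ⟨h9, h10⟩ | ⟨h9, r, h10, h11⟩
          · exfalso
            have h12 := Del.size_eq h7
            rw [← h9, sC] at h12
            have h13 := hbr b (by rw [h5, br_nd]; exact mem_cons_self _ _)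
            omega
          · refine ⟨b ::ₘ r, ?_, ?_⟩
            · rw [h5, br_nd, h11, cons_swap]
            · have := ii1s_step h7 r
              rw [← h10, nd_br] at this
              exact this
      have hh : h = nd (nd {C} ::ₘ q) := by rw [← hq, nd_br]
      -- comparison with the first card
      rcases ii1s_del hD1 with ⟨s, h5, h6⟩ | ⟨b, b', s, h7, h5, h6⟩
      · exfalso
        have h8 := nd_inj h6
        have h9 : nd {C} ∈ nd 0 ::ₘ s := by
          have : br h = nd 0 ::ₘ s := by rw [h5, br_nd]
          rw [← this, hq]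
          exact mem_cons_self _ _
        rw [← h8] at h9
        simp only [insert_eq_cons, mem_cons, mem_singleton] at h9
        rcases h9 with h9 | h9 | h9 | h9 <;> rw [h9] at sC <;> omega
      · have h8 := nd_inj h6
        have hbs : br h = b ::ₘ s := by rw [h5, br_nd]
        have h9 : nd {C} ∈ b ::ₘ s := by
          rw [← hbs, hq]
          exact mem_cons_self _ _
        have hsmall : ∀ x ∈ s, size x < m := by
          intro x hx
          have h10 : x ∈ ({A1, C, nd 0} : Multiset RT) := by
            rw [h8]
            exact mem_cons_of_mem hx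
          simp only [insert_eq_cons, mem_cons, mem_singleton] at h10
          rcases h10 with rfl | rfl | rfl <;> omega
        have hb : b = nd {C} := by
          rcases mem_cons.1 h9 with h10 | h10
          · exact h10.symm
          · exfalso
            have := hsmall _ h10
            omega
        have hqs : q = s := by
          rw [hq, hb] at hbs
          exact (cons_inj_right _).1 hbs
        rw [hb] at h7
        have hsb' := Del.size_eq h7
        rcases ii1s_inv3 h8 with ⟨h10, h11⟩ | ⟨h10, h11⟩ | ⟨h10, h11⟩
        · -- y1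
          rw [h10] at h7
          rw [hqs, h11] at hAq
          rcases ii1s_del hAq with ⟨u, h12, h13⟩ | ⟨c, c', u, h14, h12, h13⟩
          · have h15 : u = {C} := by
              have h16 := nd_inj h12
              rw [insert_eq_cons, show C ::ₘ ({nd 0} : Multiset RT) = nd 0 ::ₘ {C} from
                pair_comm _ _] at h16
              exact ((cons_inj_right _).1 h16).symm
            rw [h15] at h13
            rw [hh, hqs, h11, ← h13]
            exact Fr.refl' _
          · exfalso
            rcases ii1s_inv2 (nd_inj h12) with ⟨h15, h16⟩ | ⟨h15, h16⟩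
            · rw [h15] at h14
              rw [h16] at h13
              have h17 := hch1 c' h13 h14
              rcases ii1s_del h7 with ⟨v, h18, h19⟩ | ⟨d, d', v, _, h18, h19⟩
              · have h20 := nd_inj h18
                have h21 := congrArg card h20
                rw [card_singleton, card_cons] at h21
                rw [h19, br_nd] at h17
                omega
              · have h20 := nd_inj h18
                have h21 := congrArg card h20
                rw [card_singleton, card_cons] at h21
                rw [h19, br_nd, card_cons] at h17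
                omega
            · rw [h15] at h14
              exact ii1s_not_del h14
        · -- y2
          rw [h10] at h7
          have hCP : C = P (m - 2) := by
            have := pth C h7
            rwa [show size C - 1 = m - 2 by omega] at this
          rw [hqs, h11] at hAq
          rcases ii1s_del hAq with ⟨u, h12, h13⟩ | ⟨c, c', u, h14, h12, h13⟩
          · have h15 : u = {A1} := by
              have h16 := nd_inj h12
              rw [insert_eq_cons, show A1 ::ₘ ({nd 0} : Multiset RT) = nd 0 ::ₘ {A1} from
                pair_comm _ _] at h16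
              exact ((cons_inj_right _).1 h16).symm
            rw [h15] at h13
            have h16 : A1 = P (m - 2) := by
              have h17 := hA1
              rw [h13] at h17
              have := pth A1 h17
              rwa [show size A1 - 1 = m - 2 by omega] at this
            have h17 : A1 = C := h16.trans hCP.symm
            rw [hh, hqs, h11, h17, h13, h17]
            exact Fr.refl' _
          · exfalso
            rcases ii1s_inv2 (nd_inj h12) with ⟨h15, h16⟩ | ⟨h15, h16⟩
            · rw [h15] at h14
              rw [h16] at h13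
              by_cases h17 : Del c' C
              · have h18 : c' = P (m - 3) := by
                  rw [hCP, show m - 2 = (m - 3) + 1 by omega] at h17
                  exact ii1s_path _ h17
                exact hne ⟨by rw [h13, h18]; rfl, hCP⟩
              · have h18 := hch2 c' h13 h17
                have h19 := h14
                rw [h18] at h19
                have h20 := pth c' h19
                have h21 := Del.size_eq h14
                rw [show size c' - 1 = m - 3 by omega] at h20
                apply h17
                rw [h20, hCP, show m - 2 = (m - 3) + 1 by omega]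
                exact ii1s_path' _
            · rw [h15] at h14
              exact ii1s_not_del h14
        · exfalso
          rw [h10, s0] at hsb'
          omega

end Pool.Agent.N203.DR
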