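import Pool.Agent.N203.DR.Stm

/-!
# Two leaf cards, odd number of vertices, two branches of the same size
-/

set_option autoImplicit false

namespace Pool.Agent.N203.DR

open Multiset

private theorem ii2_inv {t' t : RT} (h : Del t' t) :
    (∃ s, t = nd (nd 0 ::ₘ s) ∧ t' = nd s) ∨
      ∃ b b' s, Del b' b ∧ t = nd (b ::ₘ s) ∧ t' = nd (b' ::ₘ s) := by
  unfold Del at h
  cases h with
  | root s => exact Or.inl ⟨s, rfl, rfl⟩
  | step s b b' hb => exact Or.inr ⟨b', b, s, hb, rfl, rfl⟩

private theorem ii2_ex (A : RT) : 2 ≤ size A → ∃ A1, Del A1 A := by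
  induction A using RT.ind with
  | h s ih =>
    intro hs
    rcases s.empty_or_exists_mem with rfl | ⟨b, hb⟩
    · rw [size_zero] at hs; omega
    · obtain ⟨s', rfl⟩ := Multiset.exists_cons_of_mem hb
      by_cases h1 : b = nd 0
      · subst h1
        exact ⟨nd s', Att.root s'⟩
      · have h2 : 2 ≤ size b := by
          by_contra h3
          apply h1
          rw [← nd_br b]
          congr 1
          rcases (br b).empty_or_exists_mem with h4 | ⟨c, hc⟩
          · exact h4
          · exfalso
            obtain ⟨u, hu⟩ := Multiset.exists_cons_of_mem hc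
            have := size_eq b
            rw [hu, Multiset.map_cons, Multiset.sum_cons] at this
            have := size_pos c
            omega
        obtain ⟨b1, hb1⟩ := ih b (Multiset.mem_cons_self b s') h2
        exact ⟨nd (b1 ::ₘ s'), Att.step s' b1 b hb1⟩

private theorem ii2_two {m : ℕ} {H : Multiset RT} {X Y : RT} (hH : (H.map size).sum = 2 * m)
    (hX : X ∈ H) (hY : Y ∈ H) (hXY : X ≠ Y) (sX : size X = m) (sY : size Y = m) : H = {X, Y} := by
  obtain ⟨H1, rfl⟩ := Multiset.exists_cons_of_mem hX
  rw [Multiset.mem_cons] at hY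
  rcases hY with hY | hY
  · exact absurd hY.symm hXY
  · obtain ⟨H2, rfl⟩ := Multiset.exists_cons_of_mem hY
    have h2 : H2 = 0 := by
      rcases H2.empty_or_exists_mem with h4 | ⟨c, hc⟩
      · exact h4
      · exfalso
        obtain ⟨u, rfl⟩ := Multiset.exists_cons_of_mem hc
        simp only [Multiset.map_cons, Multiset.sum_cons] at hH
        have := size_pos c
        omega
    rw [h2]
    rfl

private theorem ii2_mem {m : ℕ} {S H : Multiset RT} {X : RT} (h : Del (nd S) (nd H)) (hX : X ∈ S)
    (sX : size X = m) (hH : ∀ b ∈ H, size b ≤ m) : X ∈ H := by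
  rcases ii2_inv h with ⟨s, h1, h2⟩ | ⟨b, b', s, hb, h1, h2⟩
  · rw [nd_eq_nd] at h1 h2
    subst h1 h2
    exact Multiset.mem_cons_of_mem hX
  · rw [nd_eq_nd] at h1 h2
    subst h1 h2
    rcases Multiset.mem_cons.1 hX with rfl | hX
    · exfalso
      have h3 := hb.size_eq
      have h4 := hH b (Multiset.mem_cons_self b s)
      omega
    · exact Multiset.mem_cons_of_mem hX

private theorem ii2_pair {m : ℕ} (hm : 2 ≤ m) {S : Multiset RT} {X Y : RT}
    (h : Del (nd (X ::ₘ S)) (nd {X, Y})) (hXY : X ≠ Y) (sX : size X = m) (sY : size Y = m) :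
    ∃ b', S = {b'} ∧ Del b' Y := by
  rcases ii2_inv h with ⟨s, h1, h2⟩ | ⟨b, b', s, hb, h1, h2⟩
  · exfalso
    rw [nd_eq_nd] at h1 h2
    subst h2
    rw [Multiset.cons_swap, Multiset.insert_eq_cons, Multiset.cons_inj_right] at h1
    have h3 : nd 0 ∈ ({Y} : Multiset RT) := by rw [h1]; exact Multiset.mem_cons_self _ _
    rw [Multiset.mem_singleton] at h3
    rw [← h3, size_zero] at sY
    omega
  · rw [nd_eq_nd] at h1 h2
    have h3 := hb.size_eq
    have h4 : b ∈ ({X, Y} : Multiset RT) := by rw [h1]; exact Multiset.mem_cons_self _ _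
    have h5 : size b = m := by
      simp only [Multiset.insert_eq_cons, Multiset.mem_cons, Multiset.mem_singleton] at h4
      rcases h4 with rfl | rfl
      · exact sX
      · exact sY
    have h6 : X ∈ s := by
      have : X ∈ b' ::ₘ s := by rw [← h2]; exact Multiset.mem_cons_self _ _
      rcases Multiset.mem_cons.1 this with h7 | h7
      · exfalso
        rw [← h7] at h3
        omega
      · exact h7
    simp only [Multiset.insert_eq_cons, Multiset.mem_cons, Multiset.mem_singleton] at h4
    rcases h4 with rfl | rfl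
    · exfalso
      rw [Multiset.insert_eq_cons, Multiset.cons_inj_right] at h1
      rw [← h1, Multiset.mem_singleton] at h6
      exact hXY h6
    · rw [Multiset.pair_comm, Multiset.insert_eq_cons, Multiset.cons_inj_right] at h1
      refine ⟨b', ?_, hb⟩
      rw [← h1, ← Multiset.insert_eq_cons b', Multiset.pair_comm, Multiset.insert_eq_cons,
        Multiset.cons_inj_right] at h2
      exact h2

private theorem ii2_choice (pth : S_PTH) (hom : S_HOM) {m : ℕ} {A C : RT} (hm : 10 ≤ m)
    (sA : size A = m) (sC : size C = m) (hAC : A ≠ C) (hA : A ≠ P (m - 1)) (hC : C ≠ P (m - 1)) :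
    ∃ A1 C2, Del A1 A ∧ Del C2 C ∧ A1 ≠ C2 ∧ (∀ A', A = nd {A'} → Del A' C → C2 = A') ∧
      ∀ C', C = nd {C'} → Del C' A → A1 = C' := by
  have key : ∀ B B' : RT, size B = m → B ≠ P (m - 1) → B = nd {B'} → ¬ Del B' B := by
    intro B B' h1 h2 h3 h4
    rw [h3] at h4
    have h5 := pth B' h4
    have h6 : size B' = m - 1 := by
      have := h4.size_eq
      rw [← h3, h1] at this
      omega
    apply h2
    rw [h3, h5, h6]
    obtain ⟨k, rfl⟩ : ∃ k, m = k + 2 := ⟨m - 2, by omega⟩
    rfl
  by_cases fA : ∃ A', A = nd {A'} ∧ Del A' C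
  · obtain ⟨A', hA', dA'⟩ := fA
    by_cases fC : ∃ C', C = nd {C'} ∧ Del C' A
    · obtain ⟨C', hC', dC'⟩ := fC
      refine ⟨C', A', dC', dA', ?_, ?_, ?_⟩
      · rintro rfl
        exact hAC (hA'.trans hC'.symm)
      · intro A'' h1 _
        rw [h1, nd_eq_nd, Multiset.singleton_inj] at hA'
        exact hA'.symm
      · intro C'' h1 _
        rw [h1, nd_eq_nd, Multiset.singleton_inj] at hC'
        exact hC'.symm
    · obtain ⟨A1, hA1⟩ := ii2_ex A (by omega)
      refine ⟨A1, A', hA1, dA', ?_, ?_, ?_⟩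
      · rintro rfl
        exact key A A1 sA hA hA' hA1
      · intro A'' h1 _
        rw [h1, nd_eq_nd, Multiset.singleton_inj] at hA'
        exact hA'.symm
      · intro C'' h1 h2
        exact absurd ⟨C'', h1, h2⟩ fC
  · by_cases fC : ∃ C', C = nd {C'} ∧ Del C' A
    · obtain ⟨C', hC', dC'⟩ := fC
      obtain ⟨C2, hC2⟩ := ii2_ex C (by omega)
      refine ⟨C', C2, dC', hC2, ?_, ?_, ?_⟩
      · rintro rfl
        exact key C C' sC hC hC' hC2
      · intro A'' h1 h2
        exact absurd ⟨A'', h1, h2⟩ fA
      · intro C'' h1 _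
        rw [h1, nd_eq_nd, Multiset.singleton_inj] at hC'
        exact hC'.symm
    · by_cases hh : ∀ D1 D2, Del D1 A → Del D2 C → D1 = D2
      · exfalso
        obtain ⟨k, ⟨h1, h2⟩ | ⟨h1, h2⟩⟩ := hom A C (by omega) hAC hh
        · apply hA
          have : size A = k + 3 := by rw [h1, size_P]
          rw [h1]
          congr 1
          omega
        · apply hC
          have : size C = k + 3 := by rw [h2, size_P]
          rw [h2]
          congr 1
          omega
      · push Not at hh
        obtain ⟨D1, D2, h1, h2, h3⟩ := hh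
        exact ⟨D1, D2, h1, h2, h3, fun A' h4 h5 => absurd ⟨A', h4, h5⟩ fA,
          fun C' h4 h5 => absurd ⟨C', h4, h5⟩ fC⟩

private theorem ii2_split {m : ℕ} {X Y W : RT} {s : Multiset RT} (h : nd {X, Y} = nd (W ::ₘ s))
    (sX : size X + 1 = m) (sW : size W = m) : W = Y ∧ s = {X} := by
  rw [nd_eq_nd] at h
  have h1 : W ∈ ({X, Y} : Multiset RT) := by rw [h]; exact Multiset.mem_cons_self _ _
  simp only [Multiset.insert_eq_cons, Multiset.mem_cons, Multiset.mem_singleton] at h1
  rcases h1 with rfl | rfl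
  · exfalso; omega
  · rw [Multiset.pair_comm, Multiset.insert_eq_cons, Multiset.cons_inj_right] at h
    exact ⟨rfl, h.symm⟩

theorem holds_II2 (cen2 : S_CEN2) (oddv : S_ODDV) (pth : S_PTH) (pth2 : S_PTH2) (hom : S_HOM) :
    S_II2 := by
  intro m A C hm sA sC hAC hA hC
  obtain ⟨A1, C2, dA, dC, hne, k0, k1⟩ := ii2_choice pth hom hm sA sC hAC hA hC
  have sA1 : size A1 + 1 = m := by rw [← sA]; exact dA.size_eq.symm
  have sC2 : size C2 + 1 = m := by rw [← sC]; exact dC.size_eq.symm
  have key : ∀ B B' : RT, size B = m → B ≠ P (m - 1) → Del B' B → B ≠ nd {B'} := by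
    intro B B' h1 h2 h4 h3
    rw [h3] at h4
    have h5 := pth B' h4
    have h6 : size B' = m - 1 := by
      have := h4.size_eq
      rw [← h3, h1] at this
      omega
    apply h2
    rw [h3, h5, h6]
    obtain ⟨k, rfl⟩ : ∃ k, m = k + 2 := ⟨m - 2, by omega⟩
    rfl
  have nA : A ≠ nd {A1} := key A A1 sA hA dA
  have nC : C ≠ nd {C2} := key C C2 sC hC dC
  have sz1 : size (nd {A1, C}) = 2 * m := by
    rw [size_nd]
    simp only [Multiset.insert_eq_cons, Multiset.map_cons, Multiset.sum_cons,
      Multiset.map_singleton, Multiset.sum_singleton]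
    omega
  have sz2 : size (nd {C2, A}) = 2 * m := by
    rw [size_nd]
    simp only [Multiset.insert_eq_cons, Multiset.map_cons, Multiset.sum_cons,
      Multiset.map_singleton, Multiset.sum_singleton]
    omega
  have cen_1 : Cen (nd {A1, C}) := by
    intro b hb
    rw [sz1]
    simp only [br_nd, Multiset.insert_eq_cons, Multiset.mem_cons, Multiset.mem_singleton] at hb
    rcases hb with rfl | rfl <;> omega
  have cen_2 : Cen (nd {C2, A}) := by
    intro b hb
    rw [sz2]
    simp only [br_nd, Multiset.insert_eq_cons, Multiset.mem_cons, Multiset.mem_singleton] at hb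
    rcases hb with rfl | rfl <;> omega
  have s1 : size (nd {A1}) = m := by
    rw [size_nd, Multiset.map_singleton, Multiset.sum_singleton]; omega
  have s2 : size (nd {C2}) = m := by
    rw [size_nd, Multiset.map_singleton, Multiset.sum_singleton]; omega
  refine ⟨nd {A1, C}, nd {C2, A}, Att.step {C} A1 A dA, ?_, ?_, ?_⟩
  · have : ({A, C} : Multiset RT) = C ::ₘ {A} := by
      rw [Multiset.pair_comm, Multiset.insert_eq_cons]
    rw [this]
    exact Att.step {A} C2 C dC
  · intro hfr
    rcases cen2 _ _ hfr cen_1 cen_2 with h | ⟨W, s, h1, h2, h3⟩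
    · rw [nd_eq_nd] at h
      have h1 : C ∈ ({C2, A} : Multiset RT) := by rw [← h]; simp
      simp only [Multiset.insert_eq_cons, Multiset.mem_cons, Multiset.mem_singleton] at h1
      rcases h1 with rfl | rfl
      · omega
      · exact hAC rfl
    · rw [sz1] at h3
      obtain ⟨rfl, rfl⟩ := ii2_split h1 sA1 (by omega)
      rw [nd_eq_nd] at h2
      have h4 : nd {A1} ∈ ({C2, A} : Multiset RT) := by
        rw [h2]; exact Multiset.mem_cons_self _ _
      simp only [Multiset.insert_eq_cons, Multiset.mem_cons, Multiset.mem_singleton] at h4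
      rcases h4 with h4 | h4
      · rw [h4] at s1; omega
      · exact nA h4.symm
  · intro h h1 h2 ch d1 d2 f1 f2
    have sh : size h = 2 * m + 1 := by
      rw [d1.size_eq, f1.size_eq, sz1]
    have v1 := oddv m h h1 _ sh ch cen_1 d1 f1
    have v2 := oddv m h h2 _ sh ch cen_2 d2 f2
    obtain ⟨H, rfl⟩ : ∃ H, h = nd H := ⟨br h, (nd_br h).symm⟩
    have hH : (H.map size).sum = 2 * m := by
      rw [size_nd] at sh; omega
    have hb : ∀ b ∈ H, size b ≤ m := by
      intro b hb
      have := ch b (by rw [br_nd]; exact hb)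
      omega
    have fin : H = {A, C} → Fr (nd {A, C}) (nd H) := by
      rintro rfl
      exact Fr.refl' _
    have w1 : Del (nd {A1, C}) (nd H) ∨ Del (nd (nd {A1} ::ₘ br C)) (nd H) := by
      rcases v1 with v1 | ⟨W, s, hW, e1, v1⟩
      · exact Or.inl v1
      · obtain ⟨rfl, rfl⟩ := ii2_split e1 sA1 hW
        exact Or.inr v1
    have w2 : Del (nd {C2, A}) (nd H) ∨ Del (nd (nd {C2} ::ₘ br A)) (nd H) := by
      rcases v2 with v2 | ⟨W, s, hW, e1, v2⟩
      · exact Or.inl v2
      · obtain ⟨rfl, rfl⟩ := ii2_split e1 sC2 hW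
        exact Or.inr v2
    apply fin
    rcases w1 with w1 | w1
    · have mC : C ∈ H := ii2_mem w1 (by simp) sC hb
      rcases w2 with w2 | w2
      · have mA : A ∈ H := ii2_mem w2 (by simp) sA hb
        exact ii2_two hH mA mC hAC sA sC
      · have m2 : nd {C2} ∈ H := ii2_mem w2 (Multiset.mem_cons_self _ _) s2 hb
        have e := ii2_two hH m2 mC nC.symm s2 sC
        rw [e] at w2
        obtain ⟨b', e1, e2⟩ := ii2_pair (by omega) w2 nC.symm s2 sC
        have e3 : A = nd {b'} := by rw [← e1, nd_br]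
        have e4 := k0 b' e3 e2
        rw [e, e4, ← e3]
    · have m1 : nd {A1} ∈ H := ii2_mem w1 (Multiset.mem_cons_self _ _) s1 hb
      rcases w2 with w2 | w2
      · have mA : A ∈ H := ii2_mem w2 (by simp) sA hb
        have e := ii2_two hH m1 mA nA.symm s1 sA
        rw [e] at w1
        obtain ⟨b', e1, e2⟩ := ii2_pair (by omega) w1 nA.symm s1 sA
        have e3 : C = nd {b'} := by rw [← e1, nd_br]
        have e4 := k1 b' e3 e2
        rw [e, e4, ← e3, Multiset.pair_comm]
      · exfalso
        have m2 : nd {C2} ∈ H := ii2_mem w2 (Multiset.mem_cons_self _ _) s2 hb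
        have n12 : nd {A1} ≠ nd {C2} := by
          intro h
          rw [nd_eq_nd, Multiset.singleton_inj] at h
          exact hne h
        have e := ii2_two hH m1 m2 n12 s1 s2
        rw [e] at w1
        obtain ⟨b', e1, e2⟩ := ii2_pair (by omega) w1 n12 s1 s2
        have e3 : C = nd {b'} := by rw [← e1, nd_br]
        have e4 : Del C (nd {nd {C2}}) := by
          rw [e3]
          exact Att.step 0 b' (nd {C2}) e2
        have e5 := pth2 C C2 e4 dC
        rw [sC] at e5
        exact hC e5

end Pool.Agent.N203.DR
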