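import Pool.Agent.N203.DR.Stm

/-! DR/II2e (helper36): two equal branches. -/

set_option autoImplicit false

namespace Pool.Agent.N203.DR

open Multiset

/-- inversion, from the smaller tree -/
theorem ii2e_inv {T : Multiset RT} {h : RT} (H : Del (nd T) h) :
    h = nd (nd 0 ::ₘ T) ∨ ∃ (b b' : RT) (s : Multiset RT), T = b ::ₘ s ∧ Del b b' ∧
      h = nd (b' ::ₘ s) := by
  unfold Del at H
  generalize hx : nd T = x at H
  cases H with
  | root s =>
    left
    rw [nd_inj hx]
  | step s b b' hb =>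
    right
    exact ⟨b, b', s, nd_inj hx, hb, rfl⟩

/-- inversion, from the larger tree -/
theorem ii2e_inv' {T : Multiset RT} {h : RT} (H : Del h (nd T)) :
    (∃ s : Multiset RT, T = nd 0 ::ₘ s ∧ h = nd s) ∨ ∃ (b b' : RT) (s : Multiset RT),
      T = b' ::ₘ s ∧ Del b b' ∧ h = nd (b ::ₘ s) := by
  unfold Del at H
  generalize hx : nd T = x at H
  cases H with
  | root s =>
    left
    exact ⟨s, nd_inj hx, rfl⟩
  | step s b b' hb =>
    right
    exact ⟨b, b', s, nd_inj hx, hb, rfl⟩

theorem ii2e_cons {Z : RT} {T : Multiset RT} {h : RT} (H : Del (nd (Z ::ₘ T)) h) :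
    (∃ Z', Del Z Z' ∧ h = nd (Z' ::ₘ T)) ∨ ∃ U, Del (nd T) (nd U) ∧ h = nd (Z ::ₘ U) := by
  rcases ii2e_inv H with h1 | ⟨b, b', s, h1, h2, h3⟩
  · right
    exact ⟨nd 0 ::ₘ T, Att.root T, by rw [h1, Multiset.cons_swap]⟩
  · rcases Multiset.cons_eq_cons.1 h1 with ⟨e1, e2⟩ | ⟨_, cs, e1, e2⟩
    · left
      exact ⟨b', e1 ▸ h2, by rw [h3, e2]⟩
    · right
      refine ⟨b' ::ₘ cs, ?_, ?_⟩
      · rw [e1]
        exact Att.step cs b b' h2
      · rw [h3, e2, Multiset.cons_swap]

theorem ii2e_cen {m : ℕ} {Z : RT} {T : Multiset RT} {h : RT} (hh : size h = 2 * m + 1)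
    (hc : Cen h) (hZ : size Z = m) (H : Del (nd (Z ::ₘ T)) h) :
    ∃ U, Del (nd T) (nd U) ∧ h = nd (Z ::ₘ U) := by
  rcases ii2e_cons H with ⟨Z', h1, h2⟩ | h1
  · exfalso
    have h3 := hc Z' (by rw [h2, br_nd]; exact Multiset.mem_cons_self _ _)
    have h4 := Del.size_eq h1
    omega
  · exact h1

theorem ii2e_zero {U : Multiset RT} (H : Del (nd 0) (nd U)) : U = {nd 0} := by
  rcases ii2e_inv H with h | ⟨b, b', s, h, _, _⟩
  · exact nd_inj h
  · exact absurd h.symm (Multiset.cons_ne_zero)

theorem ii2e_single {a : RT} {U : Multiset RT} (H : Del (nd {a}) (nd U)) :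
    (∃ x, Del a x ∧ U = {x}) ∨ U = {a, nd 0} := by
  have H' : Del (nd (a ::ₘ 0)) (nd U) := H
  rcases ii2e_cons H' with ⟨x, h1, h2⟩ | ⟨V, h1, h2⟩
  · left
    exact ⟨x, h1, nd_inj h2⟩
  · right
    rw [ii2e_zero h1] at h2
    exact nd_inj h2

theorem ii2e_path (k : ℕ) : ∀ X : RT, Del X (P (k + 1)) → X = P k := by
  induction k with
  | zero =>
    intro X h
    have h' : Del X (nd {nd 0}) := h
    rcases ii2e_inv' h' with ⟨s, h1, h2⟩ | ⟨b, b', s, h1, h2, _⟩
    · have h3 : s = 0 := by
        have := congrArg Multiset.card h1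
        rw [Multiset.card_singleton, Multiset.card_cons] at this
        exact Multiset.card_eq_zero.1 (by omega)
      rw [h2, h3]
      rfl
    · have h3 := congrArg (fun t => size (nd t)) h1
      simp only [size_nd, Multiset.map_cons, Multiset.sum_cons, Multiset.map_singleton,
        Multiset.sum_singleton, Multiset.map_zero, Multiset.sum_zero] at h3
      have h4 := Del.size_eq h2
      have h5 := size_pos b
      omega
  | succ k ih =>
    intro X h
    have h' : Del X (nd {P (k + 1)}) := h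
    rcases ii2e_inv' h' with ⟨s, h1, h2⟩ | ⟨b, b', s, h1, h2, h3⟩
    · exfalso
      rcases Multiset.cons_eq_cons.1 (show P (k + 1) ::ₘ 0 = nd 0 ::ₘ s from h1) with
        ⟨e1, _⟩ | ⟨_, cs, e1, _⟩
      · have := congrArg size e1
        rw [size_P, size_zero] at this
        omega
      · exact absurd e1.symm Multiset.cons_ne_zero
    · rcases Multiset.cons_eq_cons.1 (show P (k + 1) ::ₘ 0 = b' ::ₘ s from h1) with
        ⟨e1, e2⟩ | ⟨_, cs, e1, _⟩
      · rw [← e1] at h2
        rw [h3, ← e2, ih b h2]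
        rfl
      · exact absurd e1.symm Multiset.cons_ne_zero

theorem ii2e_sum {s : Multiset RT} (h : (s.map size).sum = 0) : s = 0 := by
  rcases s.empty_or_exists_mem with h0 | ⟨b, hb⟩
  · exact h0
  · exfalso
    obtain ⟨t, rfl⟩ := Multiset.exists_cons_of_mem hb
    rw [Multiset.map_cons, Multiset.sum_cons] at h
    have := size_pos b
    omega

theorem ii2e_rest {m : ℕ} {Z X : RT} {cs : Multiset RT} (hZ : size Z = m) (hX : size X = m)
    (H : Del X (nd (Z ::ₘ cs))) : cs = 0 := by
  have h1 := Del.size_eq H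
  rw [size_nd, Multiset.map_cons, Multiset.sum_cons] at h1
  exact ii2e_sum (by omega)

theorem holds_II2e (cen2 : S_CEN2) (oddv : S_ODDV) (pth : S_PTH) (pth2 : S_PTH2) : S_II2e := by
  intro m A a1 a2 hm hA ⟨d1, d2, hne, huniq⟩
  have s1 := Del.size_eq d1
  have s2 := Del.size_eq d2
  have hs1 : size (nd {a1}) = m := by
    rw [size_nd, Multiset.map_singleton, Multiset.sum_singleton]; omega
  have hs2 : size (nd {a2}) = m := by
    rw [size_nd, Multiset.map_singleton, Multiset.sum_singleton]; omega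
  -- no path
  have hnp : A ≠ P (size A - 1) := by
    intro h
    obtain ⟨k, hk⟩ : ∃ k, size A - 1 = k + 1 := ⟨size A - 2, by omega⟩
    rw [hk] at h
    rw [h] at d1 d2
    exact hne ((ii2e_path k a1 d1).trans (ii2e_path k a2 d2).symm)
  have hnp' : ∀ a, Del a A → A ≠ nd {a} := by
    intro a ha h
    have h1 : a = P (size a - 1) := pth a (by rw [← h]; exact ha)
    apply hnp
    have h2 := Del.size_eq ha
    have h3 : size A - 1 = (size a - 1) + 1 := by omega
    rw [h3]
    show A = nd {P (size a - 1)}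
    rw [← h1]
    exact h
  have hcomm : ({A, a2} : Multiset RT) = a2 ::ₘ {A} := Multiset.pair_comm A a2
  have c1 : Cen (nd {a1, A}) := by
    intro b hb
    rw [br_nd] at hb
    have hsz : size (nd {a1, A}) = 2 * m := by
      rw [size_nd, Multiset.insert_eq_cons, Multiset.map_cons, Multiset.sum_cons,
        Multiset.map_singleton, Multiset.sum_singleton]; omega
    rw [hsz]
    rcases Multiset.mem_cons.1 hb with rfl | hb
    · omega
    · rw [Multiset.mem_singleton] at hb
      rw [hb]; omega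
  have hsz1 : size (nd {a1, A}) = 2 * m := by
    rw [size_nd, Multiset.insert_eq_cons, Multiset.map_cons, Multiset.sum_cons,
      Multiset.map_singleton, Multiset.sum_singleton]; omega
  have c2 : Cen (nd {A, a2}) := by
    intro b hb
    rw [br_nd] at hb
    have hsz : size (nd {A, a2}) = 2 * m := by
      rw [size_nd, Multiset.insert_eq_cons, Multiset.map_cons, Multiset.sum_cons,
        Multiset.map_singleton, Multiset.sum_singleton]; omega
    rw [hsz]
    rcases Multiset.mem_cons.1 hb with rfl | hb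
    · omega
    · rw [Multiset.mem_singleton] at hb
      rw [hb]; omega
  -- the half of `b1`, `b2`
  have hhalf1 : ∀ (W : RT) (s : Multiset RT), size W = m → nd {a1, A} = nd (W ::ₘ s) →
      W = A ∧ s = {a1} := by
    intro W s hW h
    have h' : a1 ::ₘ {A} = W ::ₘ s := nd_inj h
    rcases Multiset.cons_eq_cons.1 h' with ⟨e1, _⟩ | ⟨_, cs, e1, e2⟩
    · rw [← e1] at hW; omega
    · rcases Multiset.cons_eq_cons.1 (show A ::ₘ 0 = W ::ₘ cs from e1) with ⟨f1, f2⟩ | ⟨_, ds, f1, _⟩
      · refine ⟨f1.symm, ?_⟩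
        rw [e2, ← f2]
        rfl
      · exact absurd f1.symm Multiset.cons_ne_zero
  have hhalf2 : ∀ (W : RT) (s : Multiset RT), size W = m → nd {A, a2} = nd (W ::ₘ s) →
      W = A ∧ s = {a2} := by
    intro W s hW h
    have h' : a2 ::ₘ {A} = W ::ₘ s := by rw [← hcomm]; exact nd_inj h
    rcases Multiset.cons_eq_cons.1 h' with ⟨e1, _⟩ | ⟨_, cs, e1, e2⟩
    · rw [← e1] at hW; omega
    · rcases Multiset.cons_eq_cons.1 (show A ::ₘ 0 = W ::ₘ cs from e1) with ⟨f1, f2⟩ | ⟨_, ds, f1, _⟩
      · refine ⟨f1.symm, ?_⟩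
        rw [e2, ← f2]
        rfl
      · exact absurd f1.symm Multiset.cons_ne_zero
  refine ⟨Att.step {A} a1 A d1, ?_, ?_, ?_⟩
  · rw [hcomm]
    exact Att.step {A} a2 A d2
  · intro hfr
    rcases cen2 _ _ hfr c1 c2 with h | ⟨W, s, h1, h2, h3⟩
    · have h' : a1 ::ₘ {A} = a2 ::ₘ {A} := by rw [← hcomm]; exact nd_inj h
      exact hne (Multiset.cons_inj_left _ |>.1 h')
    · obtain ⟨rfl, rfl⟩ := hhalf1 W s (by omega) h1
      obtain ⟨e1, e2⟩ := hhalf2 _ _ hs1 h2
      exact hnp' a1 d1 e1.symm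
  · intro h h1 h2 hc e1 e2 f1 f2
    have hsz : size h = 2 * m + 1 := by
      rw [Del.size_eq e1, Fr.size_eq f1, hsz1]
    have k1 := oddv m h h1 _ hsz hc c1 e1 f1
    have k2 := oddv m h h2 _ hsz hc c2 e2 f2
    have g1 : (∃ U, Del (nd {a1}) (nd U) ∧ h = nd (A ::ₘ U)) ∨
        ∃ U, Del A (nd U) ∧ h = nd (nd {a1} ::ₘ U) := by
      rcases k1 with k | ⟨W, s, w1, w2, w3⟩
      · left
        refine ii2e_cen hsz hc hA ?_
        rw [show (A ::ₘ {a1} : Multiset RT) = {a1, A} from Multiset.pair_comm A a1]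
        exact k
      · right
        obtain ⟨rfl, rfl⟩ := hhalf1 W s w1 w2
        obtain ⟨U, u1, u2⟩ := ii2e_cen hsz hc hs1 w3
        rw [nd_br] at u1
        exact ⟨U, u1, u2⟩
    have g2 : (∃ U, Del (nd {a2}) (nd U) ∧ h = nd (A ::ₘ U)) ∨
        ∃ U, Del A (nd U) ∧ h = nd (nd {a2} ::ₘ U) := by
      rcases k2 with k | ⟨W, s, w1, w2, w3⟩
      · left
        exact ii2e_cen hsz hc hA k
      · right
        obtain ⟨rfl, rfl⟩ := hhalf2 W s w1 w2
        obtain ⟨U, u1, u2⟩ := ii2e_cen hsz hc hs2 w3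
        rw [nd_br] at u1
        exact ⟨U, u1, u2⟩
    rcases g1 with ⟨U, u1, u2⟩ | ⟨U, u1, u2⟩
    · rcases g2 with ⟨U', v1, v2⟩ | ⟨U', v1, v2⟩
      · have e : U = U' := by
          have := nd_inj (u2.symm.trans v2)
          exact (Multiset.cons_inj_right A).1 this
        rw [← e] at v1
        rcases ii2e_single u1 with ⟨x, x1, x2⟩ | x2
        · rcases ii2e_single v1 with ⟨y, y1, y2⟩ | y2
          · have e3 : x = y := Multiset.singleton_inj.1 (x2.symm.trans y2)
            rw [← e3] at y1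
            have e4 := huniq x x1 y1
            rw [u2, x2, e4]
            exact Fr.refl' _
          · exfalso
            have := congrArg Multiset.card (x2.symm.trans y2)
            rw [Multiset.card_singleton, Multiset.insert_eq_cons, Multiset.card_cons,
              Multiset.card_singleton] at this
            omega
        · exfalso
          rcases ii2e_single v1 with ⟨y, y1, y2⟩ | y2
          · have := congrArg Multiset.card (x2.symm.trans y2)
            rw [Multiset.card_singleton, Multiset.insert_eq_cons, Multiset.card_cons,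
              Multiset.card_singleton] at this
            omega
          · have h5 : a1 ::ₘ {nd 0} = a2 ::ₘ {nd 0} := x2.symm.trans y2
            exact hne (Multiset.cons_inj_left _ |>.1 h5)
      · exfalso
        rcases Multiset.cons_eq_cons.1 (nd_inj (u2.symm.trans v2)) with ⟨w1, _⟩ | ⟨_, cs, w1, w2⟩
        · exact hnp' a2 d2 w1
        · rw [w1] at u1
          have hz := ii2e_rest hs2 hs1 u1
          rw [w2, hz] at v1
          exact hnp (pth A v1)
    · exfalso
      rcases g2 with ⟨U', v1, v2⟩ | ⟨U', v1, v2⟩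
      · rcases Multiset.cons_eq_cons.1 (nd_inj (u2.symm.trans v2)) with ⟨w1, _⟩ | ⟨_, cs, w1, w2⟩
        · exact hnp' a1 d1 w1.symm
        · rw [w2] at v1
          have hz := ii2e_rest hs1 hs2 v1
          rw [w1, hz] at u1
          exact hnp (pth A u1)
      · rcases Multiset.cons_eq_cons.1 (nd_inj (u2.symm.trans v2)) with ⟨w1, _⟩ | ⟨_, cs, w1, w2⟩
        · exact hne (Multiset.singleton_inj.1 (nd_inj w1))
        · rw [w1] at u1
          have hz := ii2e_rest hs2 hA u1
          rw [hz] at u1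
          exact hnp (pth2 A a2 u1 d2)

end Pool.Agent.N203.DR

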