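import Pool.Agent.N203.DR.Stm

/-!
# Project DR (helper203), part II2p (helper914)
-/

set_option autoImplicit false

namespace Pool.Agent.N203.DR

open Multiset

private theorem ii2p_inv {t' h : RT} (hd : Del t' h) :
    br h = nd 0 ::ₘ br t' ∨ ∃ b b' r, Del b' b ∧ br t' = b' ::ₘ r ∧ br h = b ::ₘ r := by
  unfold Del at hd
  cases hd with
  | root s => left; simp
  | step s b b' hb => exact Or.inr ⟨b', b, s, hb, by simp, by simp⟩

private theorem ii2p_cons {c h : RT} {S : Multiset RT} (hd : Del (nd (c ::ₘ S)) h) :
    (∃ b, Del c b ∧ br h = b ::ₘ S) ∨ ∃ Z, br h = c ::ₘ Z ∧ Del (nd S) (nd Z) := by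
  rcases ii2p_inv hd with h1 | ⟨b, b', r, h1, h2, h3⟩
  · rw [br_nd] at h1
    refine Or.inr ⟨nd 0 ::ₘ S, ?_, Att.root S⟩
    rw [h1, cons_swap]
  · rw [br_nd, cons_eq_cons] at h2
    rcases h2 with ⟨h4, h5⟩ | ⟨-, cs, h4, h5⟩
    · exact Or.inl ⟨b, h4 ▸ h1, by rw [h3, h5]⟩
    · refine Or.inr ⟨b ::ₘ cs, ?_, ?_⟩
      · rw [h3, h5, cons_swap]
      · rw [h4]
        exact Att.step cs b' b h1

private theorem ii2p_zero {Z : Multiset RT} (hd : Del (nd 0) (nd Z)) : Z = {nd 0} := by
  rcases ii2p_inv hd with h1 | ⟨b, b', r, _, h2, _⟩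
  · rw [br_nd, br_nd] at h1
    exact h1
  · rw [br_nd] at h2
    exact absurd h2.symm (cons_ne_zero)

private theorem ii2p_one {c : RT} {Z : Multiset RT} (hd : Del (nd {c}) (nd Z)) :
    (∃ b, Del c b ∧ Z = {b}) ∨ Z = c ::ₘ {nd 0} := by
  rcases ii2p_cons (S := 0) hd with ⟨b, h1, h2⟩ | ⟨Z', h1, h2⟩
  · rw [br_nd] at h2
    exact Or.inl ⟨b, h1, h2⟩
  · rw [br_nd] at h1
    right
    rw [h1, ii2p_zero h2]

private theorem ii2p_path (k : ℕ) : Del (P k) (P (k + 1)) := by
  induction k with
  | zero => exact Att.root 0
  | succ k ih => exact Att.step 0 _ _ ih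

theorem holds_II2p (cen2 : S_CEN2) (oddv : S_ODDV) (pth : S_PTH) (pth2 : S_PTH2) (sel : S_SEL) :
    S_II2p := by
  intro m A hm hA hne hnd
  obtain ⟨n, rfl⟩ : ∃ n, m = n + 2 := ⟨m - 2, by omega⟩
  have e1 : n + 2 - 1 = n + 1 := rfl
  have e2 : n + 2 - 2 = n := rfl
  rw [e1] at hne ⊢
  rw [e2] at hnd
  have hP : ∀ k, A ≠ P k := by
    rintro k rfl
    rw [size_P] at hA
    have : k = n + 1 := by omega
    exact hne (by rw [this])
  have hD : ∀ k, ¬ Del (P k) A := by
    intro k hk
    have h1 := hk.size_eq
    rw [size_P] at h1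
    have h2 : k = n := by omega
    rw [h2] at hk
    exact hnd hk
  obtain ⟨A1, hA1, s1, s2⟩ := sel A hP hD
  have hs1 := hA1.size_eq
  have hsC : size (P (n + 1)) = n + 2 := by rw [size_P]
  have hsn : size (P n) = n + 1 := by rw [size_P]
  have hAA : A ≠ nd {A1} := by
    intro h
    have h1 : Del A1 (nd {A1}) := by rw [← h]; exact hA1
    have h2 := pth A1 h1
    refine hP (size A1 - 1 + 1) ?_
    rw [h]
    show nd {A1} = nd {P (size A1 - 1)}
    rw [← h2]
  have hA1P : P (n + 1) ≠ nd {A1} := by
    intro h
    have h1 : P n = A1 := by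
      have h2 : ({P n} : Multiset RT) = {A1} := nd_inj h
      exact singleton_inj.1 h2
    exact hnd (h1 ▸ hA1)
  have hsz : size (nd {A, P (n + 1)}) = 2 * (n + 2) + 1 := by
    rw [size_nd, insert_eq_cons, map_cons, sum_cons, map_singleton, sum_singleton, hA, hsC]
    omega
  have hsa1 : size (nd (P (n + 1) ::ₘ {A1})) = 2 * (n + 2) := by
    rw [size_nd, map_cons, sum_cons, map_singleton, sum_singleton, hsC]
    omega
  have hsa2 : size (nd (A ::ₘ {P n})) = 2 * (n + 2) := by
    rw [size_nd, map_cons, sum_cons, map_singleton, sum_singleton, hsn, hA]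
    omega
  have hc1 : Cen (nd (P (n + 1) ::ₘ {A1})) := by
    intro b hb
    rw [br_nd, mem_cons, mem_singleton] at hb
    rw [hsa1]
    rcases hb with rfl | rfl
    · omega
    · omega
  have hc2 : Cen (nd (A ::ₘ {P n})) := by
    intro b hb
    rw [br_nd, mem_cons, mem_singleton] at hb
    rw [hsa2]
    rcases hb with rfl | rfl
    · omega
    · omega
  refine ⟨nd (P (n + 1) ::ₘ {A1}), nd (A ::ₘ {P n}), ?_, ?_, ?_, ?_⟩
  · have h1 : Del (nd (A1 ::ₘ {P (n + 1)})) (nd (A ::ₘ {P (n + 1)})) := Att.step _ _ _ hA1
    have h2 : (P (n + 1) ::ₘ {A1} : Multiset RT) = A1 ::ₘ {P (n + 1)} := pair_comm _ _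
    rw [h2]
    exact h1
  · have h1 : Del (nd (P n ::ₘ {A})) (nd (P (n + 1) ::ₘ {A})) := Att.step _ _ _ (ii2p_path n)
    have h2 : (A ::ₘ {P n} : Multiset RT) = P n ::ₘ {A} := pair_comm _ _
    have h3 : ({A, P (n + 1)} : Multiset RT) = P (n + 1) ::ₘ {A} := pair_comm _ _
    rw [h2, h3]
    exact h1
  · intro hF
    rcases cen2 _ _ hF hc1 hc2 with h | ⟨A0, s, h1, h2, h3⟩
    · have h4 := nd_inj h
      have h5 : P (n + 1) ∈ (A ::ₘ {P n} : Multiset RT) := by
        rw [← h4]
        exact mem_cons_self _ _
      rw [mem_cons, mem_singleton] at h5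
      rcases h5 with h5 | h5
      · exact hP _ h5.symm
      · rw [h5] at hsC
        omega
    · rw [hsa1] at h3
      have h4 := nd_inj h1
      have h5 := nd_inj h2
      rw [cons_eq_cons] at h4
      rcases h4 with ⟨h6, h7⟩ | ⟨-, cs, h6, h7⟩
      · rw [← h6, ← h7] at h5
        have h8 : br (P (n + 1)) = {P n} := by
          show br (nd {P n}) = _
          rw [br_nd]
        rw [h8, cons_inj_left] at h5
        exact hAA h5
      · have h8 : A0 ∈ ({A1} : Multiset RT) := by
          rw [h6]
          exact mem_cons_self _ _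
        rw [mem_singleton] at h8
        rw [h8] at h3
        omega
  · intro h h1 h2 hcen hd1 hd2 hf1 hf2
    have hsh : size h = 2 * (n + 2) + 1 := by
      rw [hd1.size_eq, hf1.size_eq, hsa1]
    have hle : ∀ b ∈ br h, size b ≤ n + 2 := by
      intro b hb
      have := hcen b hb
      omega
    have hbr : br (P (n + 1)) = {P n} := by
      show br (nd {P n}) = _
      rw [br_nd]
    -- the card `a1`
    have F1 : (∃ Z, br h = P (n + 1) ::ₘ Z ∧ ((∃ b, Del A1 b ∧ Z = {b}) ∨ Z = A1 ::ₘ {nd 0})) ∨
        ∃ Z, br h = nd {A1} ::ₘ Z ∧ ((∃ b, Del (P n) b ∧ Z = {b}) ∨ Z = P n ::ₘ {nd 0}) := by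
      rcases oddv (n + 2) h h1 _ hsh hcen hc1 hd1 hf1 with hd | ⟨W, s, hW, hs, hd⟩
      · left
        rcases ii2p_cons hd with ⟨b, h3, h4⟩ | ⟨Z, h3, h4⟩
        · exfalso
          have h5 := h3.size_eq
          have h6 := hle b (by rw [h4]; exact mem_cons_self _ _)
          omega
        · exact ⟨Z, h3, ii2p_one h4⟩
      · right
        have h4 := nd_inj hs
        rw [cons_eq_cons] at h4
        rcases h4 with ⟨h6, h7⟩ | ⟨-, cs, h6, h7⟩
        · rw [← h6, ← h7, hbr] at hd
          rcases ii2p_cons hd with ⟨b, h3, h4⟩ | ⟨Z, h3, h4⟩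
          · exfalso
            have h5 := h3.size_eq
            have h6 := hle b (by rw [h4]; exact mem_cons_self _ _)
            rw [size_nd, map_singleton, sum_singleton] at h5
            omega
          · exact ⟨Z, h3, ii2p_one h4⟩
        · exfalso
          have h8 : W ∈ ({A1} : Multiset RT) := by
            rw [h6]
            exact mem_cons_self _ _
          rw [mem_singleton] at h8
          rw [h8] at hW
          omega
    -- the card `a2`
    have F2 : (∃ Z, br h = A ::ₘ Z) ∨ ∃ Z, br h = P (n + 1) ::ₘ Z ∧ Del A (nd Z) := by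
      rcases oddv (n + 2) h h2 _ hsh hcen hc2 hd2 hf2 with hd | ⟨W, s, hW, hs, hd⟩
      · left
        rcases ii2p_cons hd with ⟨b, h3, h4⟩ | ⟨Z, h3, h4⟩
        · exfalso
          have h5 := h3.size_eq
          have h6 := hle b (by rw [h4]; exact mem_cons_self _ _)
          omega
        · exact ⟨Z, h3⟩
      · right
        have h4 := nd_inj hs
        rw [cons_eq_cons] at h4
        rcases h4 with ⟨h6, h7⟩ | ⟨-, cs, h6, h7⟩
        · rw [← h6, ← h7] at hd
          have hd' : Del (nd (P (n + 1) ::ₘ br A)) h := hd
          rcases ii2p_cons hd' with ⟨b, h3, h4⟩ | ⟨Z, h3, h4⟩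
          · exfalso
            have h5 := h3.size_eq
            have h6 := hle b (by rw [h4]; exact mem_cons_self _ _)
            omega
          · rw [nd_br] at h4
            exact ⟨Z, h3, h4⟩
        · exfalso
          have h8 : W ∈ ({P n} : Multiset RT) := by
            rw [h6]
            exact mem_cons_self _ _
          rw [mem_singleton] at h8
          rw [h8] at hW
          omega
    have hfin : br h = P (n + 1) ::ₘ {A} → Fr (nd {A, P (n + 1)}) h := by
      intro h3
      have h4 : ({A, P (n + 1)} : Multiset RT) = P (n + 1) ::ₘ {A} := pair_comm _ _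
      rw [h4, ← h3, nd_br]
      exact Fr.refl' _
    have hA0 : size (nd 0) = 1 := size_zero
    rcases F1 with ⟨Z, hZ, hz⟩ | ⟨Z, hZ, hz⟩
    · rcases F2 with ⟨Z', hZ'⟩ | ⟨Z', hZ', hdA⟩
      · -- case 1
        rw [hZ', cons_eq_cons] at hZ
        rcases hZ with ⟨h3, -⟩ | ⟨-, cs, h3, h4⟩
        · exact absurd h3 (hP _)
        · rcases hz with ⟨b, -, hb⟩ | hb
          · rw [h4] at hb
            have h5 : A ::ₘ cs = A ::ₘ 0 := by
              have h6 : A = b := by
                have : A ∈ ({b} : Multiset RT) := by rw [← hb]; exact mem_cons_self _ _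
                exact mem_singleton.1 this
              rw [hb, h6]
              rfl
            have h6 : cs = 0 := (cons_inj_right A).1 h5
            apply hfin
            rw [hZ', h3, h6]
            exact pair_comm _ _
          · exfalso
            have h5 : A ∈ (A1 ::ₘ {nd 0} : Multiset RT) := by
              rw [← hb, h4]
              exact mem_cons_self _ _
            rw [mem_cons, mem_singleton] at h5
            rcases h5 with h5 | h5
            · rw [h5] at hs1
              omega
            · exact hP 0 h5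
      · -- case 2
        rw [hZ'] at hZ
        have h3 : Z' = Z := (cons_inj_right _).1 hZ
        rw [h3] at hdA hZ'
        rcases hz with ⟨b, hb1, hb⟩ | hb
        · rw [hb] at hdA
          rcases ii2p_inv hdA with h4 | ⟨x, x', r, h4, h5, h6⟩
          · exfalso
            rw [br_nd] at h4
            have h5 : b = nd 0 := by
              have : nd 0 ∈ ({b} : Multiset RT) := by rw [h4]; exact mem_cons_self _ _
              exact (mem_singleton.1 this).symm
            have h6 := hb1.size_eq
            rw [h5] at h6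
            omega
          · rw [br_nd] at h6
            have h7 : b = x := by
              have : x ∈ ({b} : Multiset RT) := by rw [h6]; exact mem_cons_self _ _
              exact (mem_singleton.1 this).symm
            have h8 : r = 0 := by
              rw [h7] at h6
              have h9 : x ::ₘ r = x ::ₘ 0 := h6.symm
              exact (cons_inj_right x).1 h9
            rw [h8] at h5
            have h9 : A = nd {x'} := by
              rw [← nd_br A, h5]
              rfl
            have h10 := s1 x' b h9 (h7 ▸ h4) hb1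
            apply hfin
            rw [hZ', hb, h10]
        · exfalso
          rw [hb] at hdA
          rcases ii2p_inv hdA with h4 | ⟨x, x', r, h4, h5, h6⟩
          · rw [br_nd] at h4
            have h5 : (A1 ::ₘ {nd 0} : Multiset RT) = nd 0 ::ₘ {A1} := pair_comm _ _
            rw [h5] at h4
            have h6 : ({A1} : Multiset RT) = br A := (cons_inj_right _).1 h4
            exact hAA (by rw [h6, nd_br])
          · rw [br_nd, cons_eq_cons] at h6
            rcases h6 with ⟨h7, h8⟩ | ⟨-, cs, h7, h8⟩
            · refine s2 x' ?_ (h7 ▸ h4)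
              rw [← nd_br A, h5, ← h8]
              rfl
            · have h9 : x ∈ ({nd 0} : Multiset RT) := by rw [h7]; exact mem_cons_self _ _
              rw [mem_singleton] at h9
              have h10 := h4.size_eq
              rw [h9] at h10
              have h11 := size_pos x'
              omega
    · rcases F2 with ⟨Z', hZ'⟩ | ⟨Z', hZ', hdA⟩
      · -- case 3
        exfalso
        rw [hZ', cons_eq_cons] at hZ
        rcases hZ with ⟨h3, -⟩ | ⟨-, cs, h3, h4⟩
        · exact hAA h3
        · rcases hz with ⟨b, hb1, hb⟩ | hb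
          · have h6 : A = b := by
              have : A ∈ ({b} : Multiset RT) := by rw [← hb, h4]; exact mem_cons_self _ _
              exact mem_singleton.1 this
            exact hnd (h6 ▸ hb1)
          · have h5 : A ∈ (P n ::ₘ {nd 0} : Multiset RT) := by
              rw [← hb, h4]
              exact mem_cons_self _ _
            rw [mem_cons, mem_singleton] at h5
            rcases h5 with h5 | h5
            · exact hP _ h5
            · exact hP 0 h5
      · -- case 4
        exfalso
        rw [hZ', cons_eq_cons] at hZ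
        rcases hZ with ⟨h3, -⟩ | ⟨-, cs, h3, h4⟩
        · exact hA1P h3
        · rcases hz with ⟨b, hb1, hb⟩ | hb
          · have h6 : P (n + 1) = b := by
              have : P (n + 1) ∈ ({b} : Multiset RT) := by rw [← hb, h4]; exact mem_cons_self _ _
              exact mem_singleton.1 this
            have h7 : cs = 0 := by
              rw [hb, ← h6] at h4
              have h9 : P (n + 1) ::ₘ cs = P (n + 1) ::ₘ 0 := h4.symm
              exact (cons_inj_right _).1 h9
            rw [h3, h7] at hdA
            have h8 := pth2 A A1 hdA hA1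
            exact hP _ h8
          · have h5 : P (n + 1) ∈ (P n ::ₘ {nd 0} : Multiset RT) := by
              rw [← hb, h4]
              exact mem_cons_self _ _
            rw [mem_cons, mem_singleton] at h5
            rcases h5 with h5 | h5
            · rw [h5] at hsC
              omega
            · rw [h5] at hsC
              omega

end Pool.Agent.N203.DR
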