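import Pool.Agent.N203.DR.Stm

/-!
# Two halves of the same size joined by an edge: two leaf cards suffice
-/

set_option autoImplicit false

namespace Pool.Agent.N203.DR

open Multiset

private theorem iii_inv {t' t : RT} (h : Del t' t) :
    (∃ s : Multiset RT, t = nd (nd 0 ::ₘ s) ∧ t' = nd s) ∨
      ∃ (b b' : RT) (s : Multiset RT), Del b' b ∧ t = nd (b ::ₘ s) ∧ t' = nd (b' ::ₘ s) := by
  unfold Del at h
  cases h with
  | root s => exact Or.inl ⟨s, rfl, rfl⟩
  | step s b b' hb => exact Or.inr ⟨b', b, s, hb, rfl, rfl⟩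

private theorem iii_root (s : Multiset RT) : Del (nd s) (nd (nd 0 ::ₘ s)) := Att.root s

private theorem iii_step {b b' : RT} (s : Multiset RT) (h : Del b' b) :
    Del (nd (b' ::ₘ s)) (nd (b ::ₘ s)) := Att.step s b' b h

private theorem iii_cons {t' t : RT} (X : RT) (h : Del t' t) :
    Del (nd (X ::ₘ br t')) (nd (X ::ₘ br t)) := by
  rcases iii_inv h with ⟨s, rfl, rfl⟩ | ⟨b, b', s, hb, rfl, rfl⟩
  · rw [br_nd, br_nd, Multiset.cons_swap]
    exact iii_root _
  · rw [br_nd, br_nd, Multiset.cons_swap X b' s, Multiset.cons_swap X b s]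
    exact iii_step _ hb

private theorem iii_sum_zero {u : Multiset RT} (h : (u.map size).sum = 0) : u = 0 := by
  by_contra h0
  obtain ⟨a, ha⟩ := Multiset.exists_mem_of_ne_zero h0
  have h1 : size a ≤ (u.map size).sum :=
    Multiset.le_sum_of_mem (Multiset.mem_map_of_mem size ha)
  have := size_pos a
  omega

private theorem iii_leaf {a : RT} (h : size a = 1) : a = nd 0 := by
  rw [DR.size_eq] at h
  have h1 : br a = 0 := iii_sum_zero (by omega)
  rw [← nd_br a, h1]

private theorem iii_sum_one {u : Multiset RT} (h : (u.map size).sum = 1) : u = {nd 0} := by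
  have h0 : u ≠ 0 := by
    rintro rfl
    simp at h
  obtain ⟨a, ha⟩ := Multiset.exists_mem_of_ne_zero h0
  obtain ⟨v, rfl⟩ := Multiset.exists_cons_of_mem ha
  rw [Multiset.map_cons, Multiset.sum_cons] at h
  have := size_pos a
  have hv : v = 0 := iii_sum_zero (by omega)
  subst hv
  rw [Multiset.map_zero, Multiset.sum_zero] at h
  rw [iii_leaf (a := a) (by omega)]
  rfl

private theorem iii_single {X Q : RT} (hX : X ∈ br Q) (hs : size Q = size X + 1) :
    Q = nd {X} := by
  obtain ⟨u, hu⟩ := Multiset.exists_cons_of_mem hX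
  have h1 := DR.size_eq Q
  rw [hu, Multiset.map_cons, Multiset.sum_cons] at h1
  have hu0 : u = 0 := iii_sum_zero (by omega)
  subst hu0
  rw [← nd_br Q, hu]
  rfl

private theorem iii_eq {m : ℕ} {X Y R Q : RT} (h : X ::ₘ br R = Y ::ₘ br Q)
    (hX : size X + 1 = m) (hY : size Y + 1 = m) (hR : size R = m) (hQ : size Q = m) :
    (X = Y ∧ R = Q) ∨ (Q = nd {X} ∧ R = nd {Y}) := by
  by_cases hXY : X = Y
  · subst hXY
    exact Or.inl ⟨rfl, br_inj ((Multiset.cons_inj_right X).1 h)⟩
  · right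
    constructor
    · have h1 : X ∈ Y ::ₘ br Q := h ▸ Multiset.mem_cons_self X _
      rcases Multiset.mem_cons.1 h1 with h2 | h2
      · exact absurd h2 hXY
      · exact iii_single h2 (by omega)
    · have h1 : Y ∈ X ::ₘ br R := h ▸ Multiset.mem_cons_self Y _
      rcases Multiset.mem_cons.1 h1 with h2 | h2
      · exact absurd h2.symm hXY
      · exact iii_single h2 (by omega)

private theorem iii_nd1 {X Y : RT} (h : nd {X} = nd {Y}) : X = Y :=
  Multiset.singleton_inj.1 (nd_inj h)

private theorem iii_ex : ∀ t : RT, 2 ≤ size t → ∃ t', Del t' t := by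
  intro t
  induction t using RT.ind with
  | h s ih =>
    intro h
    rw [size_nd] at h
    have hs : s ≠ 0 := by
      rintro rfl
      simp at h
    obtain ⟨b, hb⟩ := Multiset.exists_mem_of_ne_zero hs
    obtain ⟨u, rfl⟩ := Multiset.exists_cons_of_mem hb
    by_cases h1 : size b = 1
    · rw [iii_leaf h1]
      exact ⟨nd u, iii_root u⟩
    · have := size_pos b
      obtain ⟨b', hb'⟩ := ih b hb (by omega)
      exact ⟨_, iii_step u hb'⟩

private theorem iii_path (pth : S_PTH) {m : ℕ} {A R : RT} (hR : R = nd {A}) (h : Del A R)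
    (hs : size R = m) (hp : R ≠ P (m - 1)) (hm : 10 ≤ m) : False := by
  subst hR
  have h1 := pth A h
  have h2 : size (nd {A}) = size A + 1 := h.size_eq
  apply hp
  have h3 : m - 1 = (size A - 1) + 1 := by
    have := size_pos A
    omega
  rw [h3]
  show nd {A} = nd {P (size A - 1)}
  rw [← h1]

/-- the choice of the two cards -/
private theorem iii_choice (pth : S_PTH) (hom : S_HOM) {m : ℕ} {L R : RT} (hm : 10 ≤ m)
    (hL : size L = m) (hR : size R = m) (hne : L ≠ R) (hLp : L ≠ P (m - 1)) (hRp : R ≠ P (m - 1)) :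
    ∃ L1 R2 : RT, Del L1 L ∧ Del R2 R ∧ L1 ≠ R2 ∧
      (∀ L', L = nd {L'} → Del L' R → R2 = L') ∧
      (∀ R', R = nd {R'} → Del R' L → L1 = R') ∧
      ∀ E F, L = nd {E, nd 0} → R = nd {F, nd 0} →
        (E ≠ P (size E - 1) → L1 = nd {E}) ∧ (E = P (size E - 1) → R2 = nd {F}) := by
  have card1 : ∀ X Y Z : RT, nd {X} = nd {Y, Z} → False := by
    intro X Y Z h
    have := congrArg Multiset.card (nd_inj h)
    simp at this
  by_cases hC : ∃ E F, L = nd {E, nd 0} ∧ R = nd {F, nd 0}
  · obtain ⟨E, F, hE, hF⟩ := hC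
    have hsE : size E + 2 = m := by
      rw [hE] at hL
      simp at hL
      omega
    have hsF : size F + 2 = m := by
      rw [hF] at hR
      simp at hR
      omega
    have hcomm : ∀ X : RT, ({X, nd 0} : Multiset RT) = nd 0 ::ₘ {X} := fun X =>
      Multiset.pair_comm _ _
    have huE : ∀ E', L = nd {E', nd 0} → E' = E := by
      intro E' h
      rw [hE] at h
      have h1 := nd_inj h
      have h2 : nd 0 ::ₘ ({E} : Multiset RT) = nd 0 ::ₘ {E'} := by
        rw [← hcomm, ← hcomm]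
        exact h1
      exact (Multiset.singleton_inj.1 ((Multiset.cons_inj_right _).1 h2)).symm
    have huF : ∀ F', R = nd {F', nd 0} → F' = F := by
      intro F' h
      rw [hF] at h
      have h1 := nd_inj h
      have h2 : nd 0 ::ₘ ({F} : Multiset RT) = nd 0 ::ₘ {F'} := by
        rw [← hcomm, ← hcomm]
        exact h1
      exact (Multiset.singleton_inj.1 ((Multiset.cons_inj_right _).1 h2)).symm
    by_cases hp : E = P (size E - 1)
    · obtain ⟨E1, hE1⟩ := iii_ex E (by omega)
      refine ⟨nd {E1, nd 0}, nd {F}, ?_, ?_, ?_, ?_, ?_, ?_⟩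
      · rw [hE]
        exact iii_step _ hE1
      · rw [hF]
        rw [hcomm]
        exact iii_root {F}
      · exact fun h => card1 _ _ _ h.symm
      · intro L' h
        exact absurd (h.symm.trans hE) (fun h => card1 _ _ _ h)
      · intro R' h
        exact absurd (h.symm.trans hF) (fun h => card1 _ _ _ h)
      · intro E' F' h1 h2
        rw [huE E' h1, huF F' h2]
        exact ⟨fun h => absurd hp h, fun _ => rfl⟩
    · obtain ⟨F1, hF1⟩ := iii_ex F (by omega)
      refine ⟨nd {E}, nd {F1, nd 0}, ?_, ?_, ?_, ?_, ?_, ?_⟩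
      · rw [hE]
        rw [hcomm]
        exact iii_root {E}
      · rw [hF]
        exact iii_step _ hF1
      · exact fun h => card1 _ _ _ h
      · intro L' h
        exact absurd (h.symm.trans hE) (fun h => card1 _ _ _ h)
      · intro R' h
        exact absurd (h.symm.trans hF) (fun h => card1 _ _ _ h)
      · intro E' F' h1 h2
        rw [huE E' h1, huF F' h2]
        exact ⟨fun _ => rfl, fun h => absurd h hp⟩
  · by_cases hA : ∃ L', L = nd {L'} ∧ Del L' R
    · obtain ⟨L', hL', hd⟩ := hA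
      have hrA : ∀ L'', L = nd {L''} → Del L'' R → L' = L'' := fun L'' h _ =>
        iii_nd1 (hL'.symm.trans h)
      have hrC : ∀ E F, L = nd {E, nd 0} → R = nd {F, nd 0} → False := fun E F h _ =>
        card1 _ _ _ (hL'.symm.trans h)
      by_cases hB : ∃ R', R = nd {R'} ∧ Del R' L
      · obtain ⟨R', hR', hd'⟩ := hB
        refine ⟨R', L', hd', hd, ?_, hrA, ?_, fun E F h1 h2 => (hrC E F h1 h2).elim⟩
        · intro h
          apply hne
          rw [hL', hR', h]
        · intro R'' h _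
          exact iii_nd1 (hR'.symm.trans h)
      · obtain ⟨L1, hL1⟩ := iii_ex L (by omega)
        refine ⟨L1, L', hL1, hd, ?_, hrA, ?_, fun E F h1 h2 => (hrC E F h1 h2).elim⟩
        · rintro rfl
          exact iii_path pth hL' hL1 hL hLp hm
        · intro R'' h h'
          exact (hB ⟨R'', h, h'⟩).elim
    · by_cases hB : ∃ R', R = nd {R'} ∧ Del R' L
      · obtain ⟨R', hR', hd'⟩ := hB
        obtain ⟨R2, hR2⟩ := iii_ex R (by omega)
        refine ⟨R', R2, hd', hR2, ?_, ?_, ?_, ?_⟩
        · rintro rfl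
          exact iii_path pth hR' hR2 hR hRp hm
        · intro L'' h h'
          exact (hA ⟨L'', h, h'⟩).elim
        · intro R'' h _
          exact iii_nd1 (hR'.symm.trans h)
        · intro E F _ h2
          exact (card1 _ _ _ (hR'.symm.trans h2)).elim
      · have hfree : ∃ D1 D2, Del D1 L ∧ Del D2 R ∧ D1 ≠ D2 := by
          by_contra hcon
          have h1 := hom L R (hL.trans hR.symm) hne (by
            intro D1 D2 h1 h2
            by_contra h3
            exact hcon ⟨D1, D2, h1, h2, h3⟩)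
          obtain ⟨k, ⟨h2, -⟩ | ⟨-, h2⟩⟩ := h1
          · apply hLp
            have h3 := size_P (k + 2)
            rw [← h2, hL] at h3
            rw [h2]
            congr 1
            omega
          · apply hRp
            have h3 := size_P (k + 2)
            rw [← h2, hR] at h3
            rw [h2]
            congr 1
            omega
        obtain ⟨D1, D2, h1, h2, h3⟩ := hfree
        exact ⟨D1, D2, h1, h2, h3, fun L' h h' => (hA ⟨L', h, h'⟩).elim,
          fun R' h h' => (hB ⟨R', h, h'⟩).elim, fun E F h h' => (hC ⟨E, F, h, h'⟩).elim⟩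

private theorem iii_delP : ∀ (k : ℕ) (X : RT), Del X (P (k + 1)) → X = P k := by
  intro k
  induction k with
  | zero =>
    intro X h
    have h1 := h.size_eq
    rw [size_P] at h1
    exact iii_leaf (by omega)
  | succ k ih =>
    intro X h
    rcases iii_inv h with ⟨s, h1, h2⟩ | ⟨b, b', s, hb, h1, h2⟩
    · have h3 : ({P (k + 1)} : Multiset RT) = nd 0 ::ₘ s := nd_inj h1
      have h4 : (nd 0 : RT) ∈ ({P (k + 1)} : Multiset RT) := h3 ▸ Multiset.mem_cons_self _ _
      rw [Multiset.mem_singleton] at h4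
      have h5 := congrArg size h4
      rw [size_P, size_zero] at h5
      omega
    · have h3 : ({P (k + 1)} : Multiset RT) = b ::ₘ s := nd_inj h1
      have h4 : b ∈ ({P (k + 1)} : Multiset RT) := h3 ▸ Multiset.mem_cons_self _ _
      rw [Multiset.mem_singleton] at h4
      subst h4
      have h5 : s = 0 := by
        have := congrArg Multiset.card h3
        rw [Multiset.card_singleton, Multiset.card_cons] at this
        exact Multiset.card_eq_zero.1 (by omega)
      subst h5
      rw [h2, ih b' hb]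
      rfl

/-- deletion in a tree with one branch -/
private theorem iii_inv1 {X B : RT} (h : Del X (nd {B})) (hB : 2 ≤ size B) :
    ∃ x, X = nd {x} ∧ Del x B := by
  rcases iii_inv h with ⟨s, h1, h2⟩ | ⟨b, b', s, hb, h1, h2⟩
  · have h3 := nd_inj h1
    have h4 : (nd 0 : RT) ∈ ({B} : Multiset RT) := h3 ▸ Multiset.mem_cons_self _ _
    rw [Multiset.mem_singleton] at h4
    have h5 := congrArg size h4
    rw [size_zero] at h5
    omega
  · have h3 := nd_inj h1
    have h4 : b ∈ ({B} : Multiset RT) := h3 ▸ Multiset.mem_cons_self _ _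
    rw [Multiset.mem_singleton] at h4
    subst h4
    have h5 : s = 0 := by
      have := congrArg Multiset.card h3
      rw [Multiset.card_singleton, Multiset.card_cons] at this
      exact Multiset.card_eq_zero.1 (by omega)
    subst h5
    exact ⟨b', h2, hb⟩

private theorem iii_core (pth : S_PTH) (pth2 : S_PTH2) {m : ℕ} {L R L1 R2 K Q K1 : RT}
    (hm : 10 ≤ m) (hL : size L = m) (hR : size R = m) (hK : size K = m) (hQ : size Q = m)
    (hne : L ≠ R) (hLp : L ≠ P (m - 1)) (hRp : R ≠ P (m - 1))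
    (hL1 : Del L1 L) (hR2 : Del R2 R) (hN : L1 ≠ R2)
    (hA : ∀ L', L = nd {L'} → Del L' R → R2 = L')
    (hB : ∀ R', R = nd {R'} → Del R' L → L1 = R')
    (hK1 : Del K1 K) (e1 : L1 ::ₘ br R = K1 ::ₘ br Q)
    (h2 : (∃ K2, Del K2 K ∧ R2 ::ₘ br L = K2 ::ₘ br Q) ∨
      ∃ Q2, Del Q2 Q ∧ R2 ::ₘ br L = Q2 ::ₘ br K) : K = L ∧ Q = R := by
  have sL1 := hL1.size_eq
  have sR2 := hR2.size_eq
  have sK1 := hK1.size_eq
  rcases iii_eq (m := m) e1 (by omega) (by omega) hR hQ with ⟨a1, a2⟩ | ⟨a1, a2⟩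
  · rcases h2 with ⟨K2, hK2, e2⟩ | ⟨Q2, hQ2, e2⟩
    · have sK2 := hK2.size_eq
      rcases iii_eq (m := m) e2 (by omega) (by omega) hL hQ with ⟨b1, b2⟩ | ⟨b1, b2⟩
      · exact (hne (b2.trans a2.symm)).elim
      · exact (iii_path pth (a2.trans b1) hR2 hR hRp hm).elim
    · have sQ2 := hQ2.size_eq
      rcases iii_eq (m := m) e2 (by omega) (by omega) hL hK with ⟨b1, b2⟩ | ⟨b1, b2⟩
      · exact ⟨b2.symm, a2.symm⟩
      · have h3 := hA Q2 b2 (a2 ▸ hQ2)
        refine ⟨?_, a2.symm⟩
        rw [b1, b2, h3]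
  · rcases h2 with ⟨K2, hK2, e2⟩ | ⟨Q2, hQ2, e2⟩
    · have sK2 := hK2.size_eq
      rcases iii_eq (m := m) e2 (by omega) (by omega) hL hQ with ⟨b1, b2⟩ | ⟨b1, b2⟩
      · exact (iii_path pth (b2.trans a1) hL1 hL hLp hm).elim
      · exact (hN (iii_nd1 (a1.symm.trans b1))).elim
    · have sQ2 := hQ2.size_eq
      rcases iii_eq (m := m) e2 (by omega) (by omega) hL hK with ⟨b1, b2⟩ | ⟨b1, b2⟩
      · have h3 := hB K1 a2 (b2 ▸ hK1)
        refine ⟨b2.symm, ?_⟩
        rw [a1, a2, h3]
      · exfalso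
        rw [b2] at hL1
        rw [a1] at hQ2
        obtain ⟨x, -, -⟩ := iii_inv1 hL1 (by omega)
        obtain ⟨y, hy, hyd⟩ := iii_inv1 hQ2 (by omega)
        have h3 : L1 = P (size L1 - 1) := pth2 L1 y (by rw [← hy]; exact hL1) hyd
        have h4 : nd {L1} = P (m - 1) := by
          have : m - 1 = (size L1 - 1) + 1 := by omega
          rw [this]
          show nd {L1} = nd {P (size L1 - 1)}
          rw [← h3]
        rw [h4] at hQ2
        have h5 : m - 1 = (m - 2) + 1 := by omega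
        rw [h5] at hQ2
        have h6 := iii_delP _ _ hQ2
        apply hLp
        rw [b2, h6, h5]
        rfl

/-- a card which keeps a large branch -/
private theorem iii_al1 {m : ℕ} {X Y : RT} {H : Multiset RT} (h : Del (nd (X ::ₘ br Y)) (nd H))
    (hX : size X + 1 = m) (hH : ∀ b ∈ H, size b < m) : ∃ Z, H = X ::ₘ Z ∧ Del Y (nd Z) := by
  rcases iii_inv h with ⟨s, h1, h2⟩ | ⟨b, b', s, hb, h1, h2⟩
  · have h3 := nd_inj h1
    have h4 := nd_inj h2
    subst h4
    refine ⟨nd 0 ::ₘ br Y, by rw [h3, Multiset.cons_swap], ?_⟩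
    have := iii_root (br Y)
    rwa [nd_br] at this
  · have h3 := nd_inj h1
    have h4 := nd_inj h2
    have hbs := hb.size_eq
    have hbH : size b < m := hH b (h3 ▸ Multiset.mem_cons_self _ _)
    have hne : b' ≠ X := by
      rintro rfl
      omega
    have h5 : X ∈ b' ::ₘ s := h4 ▸ Multiset.mem_cons_self _ _
    have h6 : X ∈ s := by
      rcases Multiset.mem_cons.1 h5 with h6 | h6
      · exact absurd h6.symm hne
      · exact h6
    obtain ⟨s', rfl⟩ := Multiset.exists_cons_of_mem h6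
    refine ⟨b ::ₘ s', by rw [h3, Multiset.cons_swap], ?_⟩
    rw [Multiset.cons_swap] at h4
    have h7 : br Y = b' ::ₘ s' := (Multiset.cons_inj_right X).1 h4
    have h8 : Y = nd (b' ::ₘ s') := by rw [← h7, nd_br]
    rw [h8]
    exact iii_step _ hb

private theorem iii_al2 {X Y : RT} (h : Del Y (nd {X, nd 0})) :
    Y = nd {X} ∨ ∃ F, Del F X ∧ Y = nd {F, nd 0} := by
  have hcomm : ({X, nd 0} : Multiset RT) = nd 0 ::ₘ {X} := Multiset.pair_comm _ _
  rcases iii_inv h with ⟨s, h1, h2⟩ | ⟨b, b', s, hb, h1, h2⟩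
  · left
    have h3 := nd_inj h1
    rw [hcomm] at h3
    rw [h2, ← (Multiset.cons_inj_right _).1 h3]
  · right
    have h3 := nd_inj h1
    have h4 : b ∈ ({X, nd 0} : Multiset RT) := h3 ▸ Multiset.mem_cons_self _ _
    have hbs := hb.size_eq
    have hb' := size_pos b'
    rw [Multiset.insert_eq_cons, Multiset.mem_cons, Multiset.mem_singleton] at h4
    rcases h4 with rfl | rfl
    · rw [Multiset.insert_eq_cons] at h3
      have h5 := (Multiset.cons_inj_right _).1 h3
      exact ⟨b', hb, by rw [h2, ← h5]; rfl⟩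
    · rw [size_zero] at hbs
      omega

private theorem iii_alpha (pth : S_PTH) {m : ℕ} {L R L1 R2 h : RT}
    (hm : 10 ≤ m) (hL : size L = m) (hR : size R = m)
    (hne : L ≠ R) (hLp : L ≠ P (m - 1)) (hRp : R ≠ P (m - 1))
    (hL1 : Del L1 L) (hR2 : Del R2 R) (hN : L1 ≠ R2)
    (hC : ∀ E F, L = nd {E, nd 0} → R = nd {F, nd 0} →
        (E ≠ P (size E - 1) → L1 = nd {E}) ∧ (E = P (size E - 1) → R2 = nd {F}))
    (hh : ∀ b ∈ br h, size b < m) (h1 : Del (nd (L1 ::ₘ br R)) h) (h2 : Del (nd (R2 ::ₘ br L)) h) :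
    False := by
  have sL1 := hL1.size_eq
  have sR2 := hR2.size_eq
  rw [← nd_br h] at h1 h2
  obtain ⟨Z, hZ, hdZ⟩ := iii_al1 h1 (by omega) hh
  obtain ⟨Z', hZ', hdZ'⟩ := iii_al1 h2 (by omega) hh
  have e := hZ.symm.trans hZ'
  have h3 : R2 ∈ Z := by
    have h4 : R2 ∈ L1 ::ₘ Z := e ▸ Multiset.mem_cons_self _ _
    rcases Multiset.mem_cons.1 h4 with h5 | h5
    · exact absurd h5.symm hN
    · exact h5
  obtain ⟨W, rfl⟩ := Multiset.exists_cons_of_mem h3
  have h5 : Z' = L1 ::ₘ W := by
    rw [Multiset.cons_swap] at e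
    exact ((Multiset.cons_inj_right _).1 e).symm
  subst h5
  have sZ := hdZ.size_eq
  rw [size_nd, Multiset.map_cons, Multiset.sum_cons] at sZ
  have hW : W = {nd 0} := iii_sum_one (by omega)
  subst hW
  rcases iii_al2 hdZ with h6 | ⟨F, hF, hRF⟩
  · exact iii_path pth h6 hR2 hR hRp hm
  · rcases iii_al2 hdZ' with h7 | ⟨E, hE, hLE⟩
    · exact iii_path pth h7 hL1 hL hLp hm
    · obtain ⟨c1, c2⟩ := hC E F hLE hRF
      have sE := hE.size_eq
      have sF := hF.size_eq
      by_cases hp : E = P (size E - 1)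
      · have h8 := c2 hp
        rw [h8] at hF
        have h9 := pth F hF
        apply hne
        rw [hLE, hRF, hp, h9]
        have : size E = size F := by omega
        rw [this]
      · have h8 := c1 hp
        rw [h8] at hE
        exact hp (pth E hE)

theorem holds_III (cen2 : S_CEN2) (evenv : S_EVENV) (pth : S_PTH) (pth2 : S_PTH2) (hom : S_HOM) :
    S_III := by
  intro m L R hm hL hR hne hLp hRp
  obtain ⟨L1, R2, hL1, hR2, hN, hA, hB, hC⟩ := iii_choice pth hom hm hL hR hne hLp hRp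
  have sL1 := hL1.size_eq
  have sR2 := hR2.size_eq
  have sbr : ∀ {X b : RT}, size X = m → b ∈ br X → size b + 1 ≤ m := by
    intro X b hX hb
    have h1 : size b ≤ ((br X).map size).sum :=
      Multiset.le_sum_of_mem (Multiset.mem_map_of_mem size hb)
    have h2 := DR.size_eq X
    omega
  have scd : ∀ {X Y : RT}, size X + 1 = m → size Y = m → size (nd (X ::ₘ br Y)) = 2 * m - 1 := by
    intro X Y hX hY
    rw [size_nd, Multiset.map_cons, Multiset.sum_cons]
    have h2 := DR.size_eq Y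
    omega
  have ccd : ∀ {X Y : RT}, size X + 1 = m → size Y = m → Cen (nd (X ::ₘ br Y)) := by
    intro X Y hX hY b hb
    rw [scd hX hY]
    rw [br_nd, Multiset.mem_cons] at hb
    rcases hb with rfl | hb
    · omega
    · have := sbr hY hb
      omega
  have fr1 : Fr (nd (R ::ₘ br L1)) (nd (L1 ::ₘ br R)) := by
    have := Fr.of (Stp.mk R (br L1))
    rwa [nd_br] at this
  have hs1 : size (nd (L1 ::ₘ br R)) = 2 * m - 1 := scd (by omega) hR
  have hs2 : size (nd (R2 ::ₘ br L)) = 2 * m - 1 := scd (by omega) hL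
  have hc1 : Cen (nd (L1 ::ₘ br R)) := ccd (by omega) hR
  have hc2 : Cen (nd (R2 ::ₘ br L)) := ccd (by omega) hL
  refine ⟨nd (R ::ₘ br L1), nd (R2 ::ₘ br L), iii_cons R hL1, iii_step _ hR2, ?_, ?_⟩
  · intro hfr
    have hfr' : Fr (nd (L1 ::ₘ br R)) (nd (R2 ::ₘ br L)) := fr1.symm'.trans' hfr
    rcases cen2 _ _ hfr' hc1 hc2 with h1 | ⟨A, s, -, -, h3⟩
    · have h2 := nd_inj h1
      rcases iii_eq (m := m) h2 (by omega) (by omega) hR hL with ⟨h3, -⟩ | ⟨-, h3⟩
      · exact hN h3
      · exact iii_path pth h3 hR2 hR hRp hm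
    · omega
  · intro h h1 h2 hcen hd1 hd2 hf1 hf2
    have hsz : size h = 2 * m := by
      have h3 := hd2.size_eq
      have h4 := hf2.size_eq
      omega
    rcases evenv m h h1 h2 _ _ hsz (by omega) hcen hc1 hc2 hd1 hd2 (hf1.trans' fr1) hf2 with
      ⟨hh, d1, d2⟩ | ⟨K, Q, hK, hQ, hh, q1, q2⟩
    · exact (iii_alpha pth hm hL hR hne hLp hRp hL1 hR2 hN hC hh d1 d2).elim
    · rcases q1 with ⟨K1, hK1, e1⟩ | ⟨Q1, hQ1, e1⟩
      · have h3 := iii_core pth pth2 hm hL hR hK hQ hne hLp hRp hL1 hR2 hN hA hB hK1 (nd_inj e1)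
          (by
            rcases q2 with ⟨K2, hK2, e2⟩ | ⟨Q2, hQ2, e2⟩
            · exact Or.inl ⟨K2, hK2, nd_inj e2⟩
            · exact Or.inr ⟨Q2, hQ2, nd_inj e2⟩)
        rw [hh, h3.1, h3.2]
        exact Fr.refl' _
      · have h3 := iii_core pth pth2 hm hL hR hQ hK hne hLp hRp hL1 hR2 hN hA hB hQ1 (nd_inj e1)
          (by
            rcases q2 with ⟨K2, hK2, e2⟩ | ⟨Q2, hQ2, e2⟩
            · exact Or.inr ⟨K2, hK2, nd_inj e2⟩
            · exact Or.inl ⟨Q2, hQ2, nd_inj e2⟩)
        rw [hh, h3.1, h3.2]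
        have h4 := Fr.of (Stp.mk R (br L))
        rwa [nd_br] at h4

end Pool.Agent.N203.DR
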