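import Pool.Agent.N203.DR.Stm

/-!
# Two equal halves joined at their roots
-/

set_option autoImplicit false

namespace Pool.Agent.N203.DR

open Multiset

private theorem iiie_inv {t' t : RT} (h : Del t' t) :
    (∃ s, t = nd (nd 0 ::ₘ s) ∧ t' = nd s) ∨
      ∃ b b' s, Del b' b ∧ t = nd (b ::ₘ s) ∧ t' = nd (b' ::ₘ s) := by
  unfold Del at h
  cases h with
  | root s => exact Or.inl ⟨s, rfl, rfl⟩
  | step s b b' h => exact Or.inr ⟨b', b, s, h, rfl, rfl⟩

private theorem iiie_zero {s : Multiset RT} (h : (s.map size).sum = 0) : s = 0 := by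
  induction s using Multiset.induction_on with
  | empty => rfl
  | cons a s _ =>
    rw [Multiset.map_cons, Multiset.sum_cons] at h
    have := size_pos a
    omega

private theorem iiie_one {s : Multiset RT} (h : (s.map size).sum = 1) : s = {nd 0} := by
  induction s using Multiset.induction_on with
  | empty => simp at h
  | cons a s _ =>
    rw [Multiset.map_cons, Multiset.sum_cons] at h
    have h1 := size_pos a
    have h2 : s = 0 := iiie_zero (by omega)
    have h3 := size_eq a
    have h4 : br a = 0 := iiie_zero (by omega)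
    have h5 : a = nd 0 := by rw [← nd_br a, h4]
    rw [h2, h5]
    rfl

private theorem iiie_ex_P (k : ℕ) : Ex (P k) := by
  induction k with
  | zero => exact Ex.zero
  | succ k ih =>
    have h := Ex.rep 1 (P k) ih
    rwa [replicate_one] at h

private theorem iiie_no_del {x : RT} : ¬ Del x (nd 0) := by
  intro h
  have h1 := h.size_eq
  rw [size_zero] at h1
  have := size_pos x
  omega

private theorem iiie_single {b c : RT} {s : Multiset RT} (h : ({c} : Multiset RT) = b ::ₘ s) :
    b = c ∧ s = 0 := by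
  have h1 : c ::ₘ 0 = b ::ₘ s := h
  rcases Multiset.cons_eq_cons.1 h1 with ⟨h2, h3⟩ | ⟨_, cs, h3, _⟩
  · exact ⟨h2.symm, h3.symm⟩
  · exact absurd h3.symm (Multiset.cons_ne_zero)

/-- deletions of a tree with one branch -/
private theorem iiie_inv1 {x c : RT} (h : Del x (nd {c})) :
    (x = nd 0 ∧ c = nd 0) ∨ ∃ c', Del c' c ∧ x = nd {c'} := by
  rcases iiie_inv h with ⟨s, h1, h2⟩ | ⟨b, b', s, h1, h2, h3⟩
  · obtain ⟨h3, h4⟩ := iiie_single (nd_inj h1)
    left
    exact ⟨by rw [h2, h4], h3.symm⟩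
  · obtain ⟨h4, h5⟩ := iiie_single (nd_inj h2)
    right
    refine ⟨b', h4 ▸ h1, ?_⟩
    rw [h3, h5]
    rfl

private theorem iiie_del_P {k : ℕ} {x : RT} (h : Del x (P k)) : ∃ j, x = P j := by
  induction k generalizing x with
  | zero => exact absurd h iiie_no_del
  | succ k ih =>
    rcases iiie_inv1 h with ⟨h1, _⟩ | ⟨c', h1, h2⟩
    · exact ⟨0, h1⟩
    · obtain ⟨j, hj⟩ := ih h1
      exact ⟨j + 1, by rw [h2, hj]; rfl⟩

private theorem iiie_exists_del (t : RT) : 2 ≤ size t → ∃ t', Del t' t := by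
  induction t using RT.ind with
  | h s ih =>
    intro h
    have hs : s ≠ 0 := by
      rintro rfl
      rw [size_zero] at h
      omega
    obtain ⟨b, hb⟩ := Multiset.exists_mem_of_ne_zero hs
    obtain ⟨r, rfl⟩ := Multiset.exists_cons_of_mem hb
    by_cases h1 : 2 ≤ size b
    · obtain ⟨b', hb'⟩ := ih b hb h1
      exact ⟨_, Att.step r b' b hb'⟩
    · have h2 := size_pos b
      have h3 := size_eq b
      have h4 : br b = 0 := iiie_zero (by omega)
      have h5 : b = nd 0 := by rw [← nd_br b, h4]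
      rw [h5]
      exact ⟨_, Att.root r⟩

private theorem iiie_card {x t : RT} (h : Del x t) : card (br x) ≤ card (br t) := by
  rcases iiie_inv h with ⟨s, rfl, rfl⟩ | ⟨b, b', s, _, rfl, rfl⟩
  · simp
  · simp

/-- the choice of the two cards of the half -/
private theorem iiie_choice (L : RT) (hm : 10 ≤ size L) (hE : ¬ Ex L) (r2 : S_R2) :
    ∃ L1 L2, RDet L L1 L2 ∧ ∀ E, L = nd {E, nd 0} → L1 = nd {E} := by
  by_cases h : ∃ E, L = nd {E, nd 0}
  · obtain ⟨E, rfl⟩ := h
    have hs : 2 ≤ size E := by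
      have h1 : size (nd {E, nd 0}) = 1 + (size E + 1) := by
        rw [size_nd]
        simp
      omega
    obtain ⟨E', hE'⟩ := iiie_exists_del E hs
    refine ⟨nd {E}, nd {E', nd 0}, ⟨?_, ?_, ?_, ?_⟩, ?_⟩
    · have h1 := Att.root (G := nd 0) ({E} : Multiset RT)
      have h2 : (nd 0 ::ₘ {E} : Multiset RT) = {E, nd 0} := Multiset.cons_swap _ _ _
      rw [h2] at h1
      exact h1
    · exact Att.step {nd 0} E' E hE'
    · intro h1
      have h2 := congrArg card (nd_inj h1)
      simp at h2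
    · intro k h1 h2
      rcases iiie_inv h1 with ⟨s, h3, h4⟩ | ⟨b, b', s, h3, h4, h5⟩
      · have h5 := nd_inj h4
        rw [h3, ← h5]
        congr 1
        exact Multiset.cons_swap _ _ _
      · obtain ⟨_, h7⟩ := iiie_single (nd_inj h5)
        have h8 := iiie_card h2
        rw [h4, h7] at h8
        simp at h8
    · intro E2 h1
      have h2 := (Multiset.cons_inj_left _).1 (nd_inj h1)
      rw [h2]
  · rcases r2 L with h1 | ⟨a1, a2, h1⟩
    · exact absurd h1 hE
    · exact ⟨a1, a2, h1, fun E hE => absurd ⟨E, hE⟩ h⟩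

/-- comparison of the branches of a card -/
private theorem iiie_cmp {m : ℕ} {L Q L1 K1 : RT} (hL : size L = m) (hK1 : size K1 + 1 = m)
    (h : L1 ::ₘ br L = K1 ::ₘ br Q) : (L1 = K1 ∧ Q = L) ∨ (L = nd {K1} ∧ Q = nd {L1}) := by
  rcases Multiset.cons_eq_cons.1 h with ⟨h1, h2⟩ | ⟨_, cs, h1, h2⟩
  · exact Or.inl ⟨h1, (br_inj h2).symm⟩
  · right
    have h3 := size_eq L
    rw [h1, Multiset.map_cons, Multiset.sum_cons] at h3
    have h4 : cs = 0 := iiie_zero (by omega)
    subst h4
    exact ⟨by rw [← nd_br L, h1]; rfl, by rw [← nd_br Q, h2]; rfl⟩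

/-- the cards in the case (α) -/
private theorem iiie_alpha {m : ℕ} {L L1 h : RT} (hL1 : size L1 + 1 = m)
    (hb : ∀ b ∈ br h, size b < m) (hd : Del (nd (L1 ::ₘ br L)) h) : L1 ∈ br h := by
  rcases iiie_inv hd with ⟨s, h1, h2⟩ | ⟨b, b', s, h1, h2, h3⟩
  · rw [h1, br_nd, ← nd_inj h2]
    simp
  · rcases Multiset.cons_eq_cons.1 (nd_inj h3) with ⟨h4, _⟩ | ⟨_, cs, _, h5⟩
    · exfalso
      have h6 := hb b (by rw [h2, br_nd]; simp)
      have h7 := h1.size_eq
      rw [← h4] at h7
      omega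
    · rw [h2, br_nd, h5]
      simp

private theorem iiie_alpha2 {m : ℕ} {L L1 L2 : RT} (hL1 : size L1 + 1 = m)
    (hb : ∀ b ∈ ({L1, L2, nd 0} : Multiset RT), size b < m)
    (hd : Del (nd (L1 ::ₘ br L)) (nd {L1, L2, nd 0})) :
    L = nd {L2} ∨ ∃ F, L = nd {F, nd 0} ∧ Del F L2 := by
  rcases iiie_inv hd with ⟨s, h1, h2⟩ | ⟨b, b', s, h1, h2, h3⟩
  · left
    have h3 := nd_inj h1
    rw [← nd_inj h2] at h3
    have h4 : (L1 ::ₘ nd 0 ::ₘ ({L2} : Multiset RT)) = L1 ::ₘ nd 0 ::ₘ br L := by
      rw [Multiset.cons_swap L1 (nd 0) (br L), ← h3]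
      congr 1
      exact Multiset.cons_swap _ _ _
    have h5 := (Multiset.cons_inj_right _).1 ((Multiset.cons_inj_right _).1 h4)
    rw [← nd_br L, ← h5]
  · right
    rcases Multiset.cons_eq_cons.1 (nd_inj h3) with ⟨h4, _⟩ | ⟨_, cs, h4, h5⟩
    · exfalso
      have h6 := hb b (by rw [nd_inj h2]; simp)
      have h7 := h1.size_eq
      rw [← h4] at h7
      omega
    · have h6 := nd_inj h2
      rw [h5, Multiset.cons_swap] at h6
      have h7 := (Multiset.cons_inj_right _).1 h6
      have h8 : L2 ::ₘ ({nd 0} : Multiset RT) = b ::ₘ cs := h7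
      rcases Multiset.cons_eq_cons.1 h8 with ⟨h9, h10⟩ | ⟨_, ds, h9, _⟩
      · refine ⟨b', ?_, h9 ▸ h1⟩
        rw [← nd_br L, h4, ← h10]
        rfl
      · exfalso
        obtain ⟨h11, _⟩ := iiie_single h9
        rw [h11] at h1
        exact iiie_no_del h1

theorem holds_IIIe (cen2 : S_CEN2) (evenv : S_EVENV) (pth : S_PTH) (pth2 : S_PTH2) : S_IIIe := by
  intro m L hm hL hE hX r2
  obtain ⟨L1, L2, ⟨d1, d2, hne, huniq⟩, hsp⟩ := iiie_choice L (by omega) hE r2
  have s1 : size L1 + 1 = m := by rw [← hL, d1.size_eq]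
  have s2 : size L2 + 1 = m := by rw [← hL, d2.size_eq]
  -- `L` is not a path
  have hP : ∀ k, L ≠ P k := fun k hk => hE (hk ▸ iiie_ex_P k)
  have hpa : ∀ A, Del A L → L ≠ nd {A} := by
    intro A hA h
    rw [h] at hA
    have h1 := pth A hA
    exact hP (size A - 1 + 1) (by rw [h]; change nd {A} = nd {P (size A - 1)}; rw [← h1])
  have hsL := size_eq L
  have hbL : ∀ b ∈ br L, size b + 1 ≤ m := by
    intro b hb
    have h1 : size b ≤ ((br L).map size).sum :=
      Multiset.single_le_sum (fun _ _ => Nat.zero_le _) _ (Multiset.mem_map_of_mem size hb)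
    omega
  have sc : ∀ X : RT, size X + 1 = m → size (nd (X ::ₘ br L)) = 2 * m - 1 := by
    intro X hX
    rw [size_nd, Multiset.map_cons, Multiset.sum_cons]
    omega
  have cc : ∀ X : RT, size X + 1 = m → Cen (nd (X ::ₘ br L)) := by
    intro X hX b hb
    rw [sc X hX]
    rw [br_nd, Multiset.mem_cons] at hb
    rcases hb with rfl | hb
    · omega
    · have := hbL b hb
      omega
  refine ⟨nd (L1 ::ₘ br L), nd (L2 ::ₘ br L), Att.step _ _ _ d1, Att.step _ _ _ d2, ?_, ?_⟩
  · intro hfr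
    rcases cen2 _ _ hfr (cc L1 s1) (cc L2 s2) with h | ⟨A, s, _, _, h⟩
    · exact hne ((Multiset.cons_inj_left _).1 (nd_inj h))
    · rw [sc L1 s1] at h
      omega
  · intro h h1 h2 hC e1 e2 f1 f2
    have hsz : size h = 2 * m := by
      rw [e1.size_eq, f1.size_eq, sc L1 s1]
      omega
    rcases evenv m h h1 h2 _ _ hsz (by omega) hC (cc L1 s1) (cc L2 s2) e1 e2 f1 f2 with
      ⟨hb, c1, c2⟩ | ⟨K, Q, sK, sQ, rfl, k1, k2⟩
    · -- (α)
      exfalso
      have m1 := iiie_alpha (L := L) s1 hb c1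
      have m2 := iiie_alpha (L := L) s2 hb c2
      obtain ⟨r1, hr1⟩ := Multiset.exists_cons_of_mem m1
      rw [hr1, Multiset.mem_cons] at m2
      have m3 : L2 ∈ r1 := m2.resolve_left (fun h => hne h.symm)
      obtain ⟨r, rfl⟩ := Multiset.exists_cons_of_mem m3
      have h3 := size_eq h
      rw [hr1, Multiset.map_cons, Multiset.sum_cons, Multiset.map_cons, Multiset.sum_cons] at h3
      have h4 : r = {nd 0} := iiie_one (by omega)
      subst h4
      have h5 : h = nd {L1, L2, nd 0} := by rw [← nd_br h, hr1]; rfl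
      have hb' : ∀ b ∈ ({L1, L2, nd 0} : Multiset RT), size b < m := by
        intro b hb2
        apply hb
        rw [h5, br_nd]
        exact hb2
      have h6 : nd {L1, L2, nd 0} = nd {L2, L1, nd 0} := by
        congr 1
        exact Multiset.cons_swap _ _ _
      rw [h5] at c1 c2
      have a1 := iiie_alpha2 s1 hb' c1
      rw [h6] at c2
      have a2 := iiie_alpha2 s2 (fun b hb2 => hb' b (by
        have : ({L1, L2, nd 0} : Multiset RT) = {L2, L1, nd 0} := Multiset.cons_swap _ _ _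
        rw [this]
        exact hb2)) c2
      rcases a1 with a1 | ⟨F, a1, a3⟩
      · exact hpa L2 d2 a1
      rcases a2 with a2 | ⟨F', a2, a4⟩
      · exact hpa L1 d1 a2
      have h7 : F = F' := by
        have h8 := nd_inj (a1.symm.trans a2)
        exact (Multiset.cons_inj_left _).1 h8
      subst h7
      rw [hsp F a1] at a4
      have h8 := pth F a4
      have h9 : size F = m - 2 := by
        have h10 : size L = 1 + (size F + 1) := by
          rw [a1, size_nd]
          simp
        omega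
      apply hX
      rw [a1, h8, h9]
      have h10 : m - 2 - 1 = m - 3 := by omega
      rw [h10]
    · -- (β)
      have main : ∀ K Q K1 : RT, size K = m → size Q = m → Del K1 K →
          nd (L1 ::ₘ br L) = nd (K1 ::ₘ br Q) → Crd K Q (nd (L2 ::ₘ br L)) →
          K = L ∧ Q = L := by
        intro K Q K1 sK sQ dK hc hcr
        have sK1 : size K1 + 1 = m := by rw [← sK, dK.size_eq]
        rcases hcr with ⟨K2, dK2, hc2⟩ | ⟨Q2, dQ2, hc2⟩
        · have sK2 : size K2 + 1 = m := by rw [← sK, dK2.size_eq]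
          rcases iiie_cmp hL sK1 (nd_inj hc) with ⟨x1, x2⟩ | ⟨x1, x2⟩
          · rcases iiie_cmp hL sK2 (nd_inj hc2) with ⟨y1, y2⟩ | ⟨y1, y2⟩
            · exact ⟨huniq K (x1 ▸ dK) (y1 ▸ dK2), x2⟩
            · exact absurd (x2.symm.trans y2) (hpa L2 d2)
          · rcases iiie_cmp hL sK2 (nd_inj hc2) with ⟨y1, y2⟩ | ⟨y1, y2⟩
            · exact absurd (y2.symm.trans x2) (hpa L1 d1)
            · exfalso
              apply hne
              have h3 := nd_inj (x2.symm.trans y2)
              exact Multiset.singleton_inj.1 h3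
        · have sQ2 : size Q2 + 1 = m := by rw [← sQ, dQ2.size_eq]
          rcases iiie_cmp hL sK1 (nd_inj hc) with ⟨x1, x2⟩ | ⟨x1, x2⟩
          · rcases iiie_cmp hL sQ2 (nd_inj hc2) with ⟨y1, y2⟩ | ⟨y1, y2⟩
            · exact ⟨y2, x2⟩
            · exact absurd y1 (hpa Q2 (x2 ▸ dQ2))
          · rcases iiie_cmp hL sQ2 (nd_inj hc2) with ⟨y1, y2⟩ | ⟨y1, y2⟩
            · exact absurd x1 (hpa K1 (y2 ▸ dK))
            · exfalso
              -- `L = [L']`, `L' ⋖ [L1]`, `L1 ⋖ [L']`
              have h3 : K1 = Q2 := Multiset.singleton_inj.1 (nd_inj (x1.symm.trans y1))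
              subst h3
              rw [x2] at dQ2
              rcases iiie_inv1 dQ2 with ⟨h4, _⟩ | ⟨x, h4, h5⟩
              · rw [h4, size_zero] at sK1
                omega
              · rw [x1, h5] at d1
                have h6 := pth2 L1 x d1 h4
                rw [h6] at h4
                obtain ⟨j, hj⟩ := iiie_del_P h4
                exact hP (j + 2) (by rw [x1, h5, hj]; rfl)
      rcases k1 with ⟨K1, dK, hc⟩ | ⟨Q1, dQ, hc⟩
      · obtain ⟨h3, h4⟩ := main K Q K1 sK sQ dK hc k2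
        rw [h3, h4]
        exact Fr.refl' _
      · obtain ⟨h3, h4⟩ := main Q K Q1 sQ sK dQ hc k2.symm
        rw [h3, h4]
        exact Fr.refl' _

end Pool.Agent.N203.DR
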