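import Pool.Agent.N203.DR.Stm

/-!
# Project DR (helper203), part IIIp (helper952)
-/

set_option autoImplicit false

namespace Pool.Agent.N203.DR

open Multiset

private theorem iiip_inv {t' h : RT} (hd : Del t' h) :
    br h = nd 0 ::ₘ br t' ∨ ∃ b b' r, Del b' b ∧ br t' = b' ::ₘ r ∧ br h = b ::ₘ r := by
  unfold Del at hd
  cases hd with
  | root s => left; simp
  | step s b b' hb => exact Or.inr ⟨b', b, s, hb, by simp, by simp⟩

private theorem iiip_cons {c h : RT} {S : Multiset RT} (hd : Del (nd (c ::ₘ S)) h) :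
    (∃ b, Del c b ∧ br h = b ::ₘ S) ∨ ∃ Z, br h = c ::ₘ Z ∧ Del (nd S) (nd Z) := by
  rcases iiip_inv hd with h1 | ⟨b, b', r, h1, h2, h3⟩
  · rw [br_nd] at h1
    refine Or.inr ⟨nd 0 ::ₘ S, ?_, Att.root S⟩
    rw [h1, cons_swap]
  · rw [br_nd, cons_eq_cons] at h2
    rcases h2 with ⟨h4, h5⟩ | ⟨-, cs, h4, h5⟩
    · exact Or.inl ⟨b, h4 ▸ h1, by rw [h3, h5]⟩
    · refine Or.inr ⟨b ::ₘ cs, ?_, ?_⟩
      · rw [h3, h5, cons_swap]
      · rw [h4]
        exact Att.step cs b' b h1

private theorem iiip_zero {Z : Multiset RT} (hd : Del (nd 0) (nd Z)) : Z = {nd 0} := by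
  rcases iiip_inv hd with h1 | ⟨b, b', r, _, h2, _⟩
  · rw [br_nd, br_nd] at h1
    exact h1
  · rw [br_nd] at h2
    exact absurd h2.symm (cons_ne_zero)

private theorem iiip_one {c : RT} {Z : Multiset RT} (hd : Del (nd {c}) (nd Z)) :
    (∃ b, Del c b ∧ Z = {b}) ∨ Z = c ::ₘ {nd 0} := by
  rcases iiip_cons (S := 0) hd with ⟨b, h1, h2⟩ | ⟨Z', h1, h2⟩
  · rw [br_nd] at h2
    exact Or.inl ⟨b, h1, h2⟩
  · rw [br_nd] at h1
    right
    rw [h1, iiip_zero h2]

private theorem iiip_path (k : ℕ) : Del (P k) (P (k + 1)) := by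
  induction k with
  | zero => exact Att.root 0
  | succ k ih => exact Att.step 0 _ _ ih

private theorem iiip_nil {s : Multiset RT} (h : (s.map size).sum = 0) : s = 0 := by
  induction s using Multiset.induction_on with
  | empty => rfl
  | cons a s _ =>
    rw [Multiset.map_cons, Multiset.sum_cons] at h
    have := size_pos a
    omega

private theorem iiip_single {b c : RT} {s : Multiset RT} (h : ({c} : Multiset RT) = b ::ₘ s) :
    b = c ∧ s = 0 := by
  have h1 : c ::ₘ 0 = b ::ₘ s := h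
  rcases Multiset.cons_eq_cons.1 h1 with ⟨h2, h3⟩ | ⟨_, cs, h3, _⟩
  · exact ⟨h2.symm, h3.symm⟩
  · exact absurd h3.symm (Multiset.cons_ne_zero)

/-- deletions of a tree with one branch -/
private theorem iiip_inv1 {x c : RT} (h : Del x (nd {c})) :
    (x = nd 0 ∧ c = nd 0) ∨ ∃ c', Del c' c ∧ x = nd {c'} := by
  rcases iiip_inv h with h1 | ⟨b, b', r, h1, h2, h3⟩
  · rw [br_nd] at h1
    obtain ⟨h3, h4⟩ := iiip_single h1
    left
    exact ⟨by rw [← nd_br x, h4], h3.symm⟩
  · rw [br_nd] at h3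
    obtain ⟨h4, h5⟩ := iiip_single h3
    right
    refine ⟨b', h4 ▸ h1, ?_⟩
    rw [← nd_br x, h2, h5]
    rfl

private theorem iiip_del_P {k : ℕ} {x : RT} (h : Del x (P k)) : ∃ j, x = P j := by
  induction k generalizing x with
  | zero =>
    have h1 := h.size_eq
    have h2 := size_pos x
    rw [size_P] at h1
    omega
  | succ k ih =>
    rcases iiip_inv1 h with ⟨h1, _⟩ | ⟨c', h1, h2⟩
    · exact ⟨0, h1⟩
    · obtain ⟨j, hj⟩ := ih h1
      exact ⟨j + 1, by rw [h2, hj]; rfl⟩

private theorem iiip_add {R L1 L : RT} (h : Del L1 L) :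
    Del (nd (R ::ₘ br L1)) (nd (R ::ₘ br L)) := by
  rcases iiip_inv h with h1 | ⟨b, b', r, h1, h2, h3⟩
  · rw [h1, cons_swap]
    exact Att.root _
  · rw [h2, h3, cons_swap, cons_swap R b r]
    exact Att.step _ _ _ h1

/-- comparison of the branches of the card `nd (X ::ₘ br L)` -/
private theorem iiip_cmp {m : ℕ} {L Q X K1 : RT} (hL : size L = m) (hK1 : size K1 + 1 = m)
    (h : X ::ₘ br L = K1 ::ₘ br Q) : (X = K1 ∧ Q = L) ∨ (L = nd {K1} ∧ Q = nd {X}) := by
  rcases Multiset.cons_eq_cons.1 h with ⟨h1, h2⟩ | ⟨_, cs, h1, h2⟩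
  · exact Or.inl ⟨h1, (br_inj h2).symm⟩
  · right
    have h3 := size_eq L
    rw [h1, Multiset.map_cons, Multiset.sum_cons] at h3
    have h4 : cs = 0 := iiip_nil (by omega)
    subst h4
    exact ⟨by rw [← nd_br L, h1]; rfl, by rw [← nd_br Q, h2]; rfl⟩

theorem holds_IIIp (cen2 : S_CEN2) (evenv : S_EVENV) (pth : S_PTH) (pth2 : S_PTH2)
    (sel : S_SEL) : S_IIIp := by
  intro m L hm hL hne hnd
  obtain ⟨n, rfl⟩ : ∃ n, m = n + 2 := ⟨m - 2, by omega⟩
  have e1 : n + 2 - 1 = n + 1 := rfl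
  have e2 : n + 2 - 2 = n := rfl
  rw [e1] at hne ⊢
  rw [e2] at hnd
  have hP : ∀ k, L ≠ P k := by
    rintro k rfl
    rw [size_P] at hL
    have : k = n + 1 := by omega
    exact hne (by rw [this])
  have hD : ∀ k, ¬ Del (P k) L := by
    intro k hk
    have h1 := hk.size_eq
    rw [size_P] at h1
    have h2 : k = n := by omega
    rw [h2] at hk
    exact hnd hk
  obtain ⟨L1, hL1, s1, s2⟩ := sel L hP hD
  have hs1 := hL1.size_eq
  have hsL1 : size L1 + 1 = n + 2 := by omega
  have hsR : size (P (n + 1)) = n + 2 := by rw [size_P]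
  have hsn : size (P n) = n + 1 := by rw [size_P]
  have hbr : br (P (n + 1)) = {P n} := by
    show br (nd {P n}) = _
    rw [br_nd]
  have hR : P (n + 1) = nd {P n} := rfl
  -- `L` is not `[L1]`
  have hLL : ∀ X, Del X L → L ≠ nd {X} := by
    intro X hX h
    have h1 : Del X (nd {X}) := by rw [← h]; exact hX
    have h2 := pth X h1
    refine hP (size X - 1 + 1) ?_
    rw [h]
    show nd {X} = nd {P (size X - 1)}
    rw [← h2]
  have hL1P : ∀ k, L1 ≠ P k := fun k hk => hD k (hk ▸ hL1)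
  have hsL := size_eq L
  have hbL : ∀ b ∈ br L, size b + 1 ≤ n + 2 := by
    intro b hb
    have h1 : size b ≤ ((br L).map size).sum :=
      Multiset.single_le_sum (fun _ _ => Nat.zero_le _) _ (Multiset.mem_map_of_mem size hb)
    omega
  -- the cards
  have sc1 : size (nd (L1 ::ₘ {P n})) = 2 * (n + 2) - 1 := by
    rw [size_nd, map_cons, sum_cons, map_singleton, sum_singleton, hsn]
    omega
  have sc2 : size (nd (P n ::ₘ br L)) = 2 * (n + 2) - 1 := by
    rw [size_nd, map_cons, sum_cons, hsn]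
    omega
  have cc1 : Cen (nd (L1 ::ₘ {P n})) := by
    intro b hb
    rw [br_nd, mem_cons, mem_singleton] at hb
    rw [sc1]
    rcases hb with rfl | rfl
    · omega
    · omega
  have cc2 : Cen (nd (P n ::ₘ br L)) := by
    intro b hb
    rw [br_nd, mem_cons] at hb
    rw [sc2]
    rcases hb with rfl | hb
    · omega
    · have := hbL b hb
      omega
  have fr1 : Fr (nd (P (n + 1) ::ₘ br L1)) (nd (L1 ::ₘ {P n})) := by
    have h1 := Stp.mk (P (n + 1)) (br L1)
    rw [nd_br, hbr] at h1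
    exact Fr.of h1
  refine ⟨nd (P (n + 1) ::ₘ br L1), nd (P n ::ₘ br L), iiip_add hL1,
    Att.step _ _ _ (iiip_path n), ?_, ?_⟩
  · intro hfr
    rcases cen2 _ _ (fr1.symm'.trans' hfr) cc1 cc2 with h | ⟨A, s, _, _, h⟩
    · have h1 := nd_inj h
      rcases cons_eq_cons.1 h1 with ⟨h2, _⟩ | ⟨_, cs, h2, h3⟩
      · exact hL1P n h2
      · obtain ⟨_, h4⟩ := iiip_single h2
        rw [h4] at h3
        exact hLL L1 hL1 (by rw [← nd_br L, h3]; rfl)
    · rw [sc1] at h
      omega
  · intro h h1 h2 hC e1 e2 f1 f2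
    have g1 := f1.trans' fr1
    have hsz : size h = 2 * (n + 2) := by
      rw [e1.size_eq, g1.size_eq, sc1]
      omega
    rcases evenv (n + 2) h h1 h2 _ _ hsz (by omega) hC cc1 cc2 e1 e2 g1 f2 with
      ⟨hb, c1, c2⟩ | ⟨K, Q, sK, sQ, rfl, k1, k2⟩
    · -- (α)
      exfalso
      have hbr1 : br h = L1 ::ₘ P n ::ₘ {nd 0} := by
        rcases iiip_cons c1 with ⟨b, h3, h4⟩ | ⟨Z, h3, h4⟩
        · exfalso
          have h5 := h3.size_eq
          have h6 := hb b (by rw [h4]; exact mem_cons_self _ _)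
          omega
        · rcases iiip_one h4 with ⟨b, h5, h6⟩ | h5
          · exfalso
            have h7 := h5.size_eq
            have h8 := hb b (by
              rw [h3, h6]
              exact mem_cons_of_mem (mem_singleton_self b))
            omega
          · rw [h3, h5]
      rcases iiip_cons c2 with ⟨b, h3, h4⟩ | ⟨Z, h3, h4⟩
      · have h5 := h3.size_eq
        have h6 := hb b (by rw [h4]; exact mem_cons_self _ _)
        omega
      · rw [hbr1, cons_swap] at h3
        have h5 : L1 ::ₘ {nd 0} = Z := (cons_inj_right _).1 h3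
        rw [nd_br] at h4
        rw [← h5] at h4
        rcases iiip_inv h4 with h6 | ⟨x, x', r, h6, h7, h8⟩
        · rw [br_nd] at h6
          have h7 : (L1 ::ₘ {nd 0} : Multiset RT) = nd 0 ::ₘ {L1} := pair_comm _ _
          rw [h7] at h6
          have h8 : ({L1} : Multiset RT) = br L := (cons_inj_right _).1 h6
          exact hLL L1 hL1 (by rw [h8, nd_br])
        · rw [br_nd, cons_eq_cons] at h8
          rcases h8 with ⟨h9, h10⟩ | ⟨-, cs, h9, h10⟩
          · refine s2 x' ?_ (h9 ▸ h6)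
            rw [← nd_br L, h7, ← h10]
            rfl
          · have h11 : x ∈ ({nd 0} : Multiset RT) := by rw [h9]; exact mem_cons_self _ _
            rw [mem_singleton] at h11
            have h12 := h6.size_eq
            rw [h11, size_zero] at h12
            have h13 := size_pos x'
            omega
    · -- (β)
      have main : ∀ K Q K1 : RT, size K = n + 2 → size Q = n + 2 → Del K1 K →
          nd (L1 ::ₘ {P n}) = nd (K1 ::ₘ br Q) → Crd K Q (nd (P n ::ₘ br L)) →
          K = L ∧ Q = P (n + 1) := by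
        intro K Q K1 sK sQ dK hc hcr
        have sK1 : size K1 + 1 = n + 2 := by rw [← sK, dK.size_eq]
        have x : (K1 = L1 ∧ Q = P (n + 1)) ∨ (K1 = P n ∧ Q = nd {L1}) := by
          rcases cons_eq_cons.1 (nd_inj hc) with ⟨h3, h4⟩ | ⟨_, cs, h3, h4⟩
          · exact Or.inl ⟨h3.symm, by rw [← nd_br Q, ← h4, hR]⟩
          · obtain ⟨h5, h6⟩ := iiip_single h3
            rw [h6] at h4
            exact Or.inr ⟨h5, by rw [← nd_br Q, h4]; rfl⟩
        rcases hcr with ⟨K2, dK2, hc2⟩ | ⟨Q2, dQ2, hc2⟩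
        · -- (y2)
          have sK2 : size K2 + 1 = n + 2 := by rw [← sK, dK2.size_eq]
          rcases iiip_cmp hL sK2 (nd_inj hc2) with ⟨_, y2⟩ | ⟨y1, y2⟩
          · exfalso
            rcases x with ⟨_, x2⟩ | ⟨_, x2⟩
            · exact hP (n + 1) (y2.symm.trans x2)
            · exact hLL L1 hL1 (y2.symm.trans x2)
          · rcases x with ⟨x1, x2⟩ | ⟨_, x2⟩
            · exact ⟨s1 K2 K y1 dK2 (x1 ▸ dK), x2⟩
            · exfalso
              have h3 := nd_inj (x2.symm.trans y2)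
              exact hL1P n (Multiset.singleton_inj.1 h3)
        · -- (y1)
          have sQ2 : size Q2 + 1 = n + 2 := by rw [← sQ, dQ2.size_eq]
          rcases iiip_cmp hL sQ2 (nd_inj hc2) with ⟨_, y2⟩ | ⟨y1, y2⟩
          · rcases x with ⟨_, x2⟩ | ⟨x1, _⟩
            · exact ⟨y2, x2⟩
            · exfalso
              rw [x1, y2] at dK
              exact hnd dK
          · exfalso
            rcases x with ⟨x1, _⟩ | ⟨_, x2⟩
            · rw [x1, y2] at dK
              obtain ⟨j, hj⟩ := iiip_del_P (k := n + 1) dK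
              exact hL1P j hj
            · rw [x2] at dQ2
              rcases iiip_inv1 dQ2 with ⟨_, h4⟩ | ⟨z, h4, h5⟩
              · rw [h4, size_zero] at hsL1
                omega
              · have h6 : Del L1 (nd {nd {z}}) := by
                  rw [← h5, ← y1]
                  exact hL1
                exact hL1P _ (pth2 L1 z h6 h4)
      rcases k1 with ⟨K1, dK, hc⟩ | ⟨Q1, dQ, hc⟩
      · obtain ⟨h3, h4⟩ := main K Q K1 sK sQ dK hc k2
        rw [h3, h4]
        exact Fr.refl' _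
      · obtain ⟨h3, h4⟩ := main Q K Q1 sQ sK dQ hc k2.symm
        rw [h3, h4]
        have h5 := Stp.mk (P (n + 1)) (br L)
        rw [nd_br] at h5
        exact Fr.of h5

end Pool.Agent.N203.DR
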