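import Pool.Agent.N203.DR.Stm

/-!
# Two leaf cards: even number of vertices, one branch with `m - 1` vertices, all others smaller
-/

set_option autoImplicit false

namespace Pool.Agent.N203.DR

open Multiset

/-- inversion of `Del` -/
private theorem iip1_inv {t' t : RT} (h : Del t' t) :
    (∃ s, t = nd (nd 0 ::ₘ s) ∧ t' = nd s) ∨
      ∃ b b' s, Del b' b ∧ t = nd (b ::ₘ s) ∧ t' = nd (b' ::ₘ s) := by
  unfold Del at h
  cases h with
  | root s => exact Or.inl ⟨s, rfl, rfl⟩
  | step s b b' hb => exact Or.inr ⟨b', b, s, hb, rfl, rfl⟩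

private theorem iip1_le {s : Multiset RT} {x : RT} (hx : x ∈ s) : size x ≤ (s.map size).sum := by
  obtain ⟨s', rfl⟩ := Multiset.exists_cons_of_mem hx
  rw [Multiset.map_cons, Multiset.sum_cons]
  omega

private theorem iip1_le2 {s : Multiset RT} {x y : RT} (hx : x ∈ s) (hy : y ∈ s) (hxy : y ≠ x) :
    size x + size y ≤ (s.map size).sum := by
  obtain ⟨s', rfl⟩ := Multiset.exists_cons_of_mem hx
  have hy' : y ∈ s' := by
    rcases Multiset.mem_cons.1 hy with h | h
    · exact absurd h hxy
    · exact h
  have := iip1_le hy'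
  rw [Multiset.map_cons, Multiset.sum_cons]
  omega

private theorem iip1_one {b : RT} (h : size b ≤ 1) : b = nd 0 := by
  have h0 : br b = 0 := by
    apply Multiset.eq_zero_of_forall_notMem
    intro x hx
    have h1 := iip1_le hx
    have h2 := size_pos x
    rw [size_eq] at h
    omega
  rw [← nd_br b, h0]

private theorem iip1_ex (t : RT) : 2 ≤ size t → ∃ t', Del t' t := by
  refine RT.ind (P := fun t => 2 ≤ size t → ∃ t', Del t' t) ?_ t
  intro s ih h
  rcases Multiset.empty_or_exists_mem s with rfl | ⟨b, hb⟩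
  · rw [size_zero] at h
    omega
  · obtain ⟨s', rfl⟩ := Multiset.exists_cons_of_mem hb
    by_cases hb2 : 2 ≤ size b
    · obtain ⟨b', hb'⟩ := ih b hb hb2
      exact ⟨nd (b' ::ₘ s'), Att.step s' b' b hb'⟩
    · have hb0 : b = nd 0 := iip1_one (by omega)
      subst hb0
      exact ⟨nd s', Att.root s'⟩

private theorem iip1_cons (A : RT) {T2 T : Multiset RT} (h : Del (nd T2) (nd T)) :
    Del (nd (A ::ₘ T2)) (nd (A ::ₘ T)) := by
  rcases iip1_inv h with ⟨s, h1, h2⟩ | ⟨b, b', s, hb, h1, h2⟩
  · have e1 := nd_inj h1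
    have e2 := nd_inj h2
    subst e1 e2
    rw [Multiset.cons_swap A (nd 0)]
    exact Att.root _
  · have e1 := nd_inj h1
    have e2 := nd_inj h2
    subst e1 e2
    rw [Multiset.cons_swap A b, Multiset.cons_swap A b']
    exact Att.step _ _ _ hb

theorem holds_IIp1 (cen2 : S_CEN2) (evenv : S_EVENV) : S_IIp1 := by
  intro m A C S hm hA ht hlt
  obtain ⟨T, hT⟩ : ∃ T, T = C ::ₘ S := ⟨_, rfl⟩
  rw [← hT] at ht hlt ⊢
  have hsum : (T.map size).sum = m := by
    rw [size_nd, Multiset.map_cons, Multiset.sum_cons] at ht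
    omega
  obtain ⟨A1, hA1, hA1c⟩ : ∃ A1, Del A1 A ∧ ∀ b ∈ T, Del b A → b = A1 := by
    by_cases hex : ∃ b ∈ T, Del b A
    · obtain ⟨b, hb, hbA⟩ := hex
      refine ⟨b, hbA, fun c hc hcA => ?_⟩
      by_contra hne
      have h1 := iip1_le2 hb hc hne
      have h2 := hbA.size_eq
      have h3 := hcA.size_eq
      omega
    · obtain ⟨A1, hA1⟩ := iip1_ex A (by omega)
      exact ⟨A1, hA1, fun b hb hbA => absurd ⟨b, hb, hbA⟩ hex⟩
  obtain ⟨t2, ht2⟩ := iip1_ex (nd T) (by rw [size_nd]; omega)
  obtain ⟨T2, rfl⟩ : ∃ T2, t2 = nd T2 := ⟨br t2, (nd_br t2).symm⟩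
  have hA1s := hA1.size_eq
  have hsum2 : (T2.map size).sum + 1 = m := by
    have h1 := ht2.size_eq
    rw [size_nd, size_nd] at h1
    omega
  have hlt2 : ∀ b ∈ T2, size b < size A := by
    intro x hx
    rcases iip1_inv ht2 with ⟨s, h1, h2⟩ | ⟨b, b', s, hb, h1, h2⟩
    · have e1 := nd_inj h1
      have e2 := nd_inj h2
      subst e2
      exact hlt x (by rw [e1]; exact Multiset.mem_cons_of_mem hx)
    · have e1 := nd_inj h1
      have e2 := nd_inj h2
      rw [e2] at hx
      rcases Multiset.mem_cons.1 hx with rfl | hx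
      · have h3 := hb.size_eq
        have h4 := hlt b (by rw [e1]; exact Multiset.mem_cons_self _ _)
        omega
      · exact hlt x (by rw [e1]; exact Multiset.mem_cons_of_mem hx)
  have hs1 : size (nd (A1 ::ₘ T)) + 1 = 2 * m := by
    rw [size_nd, Multiset.map_cons, Multiset.sum_cons]
    omega
  have hs2 : size (nd (A ::ₘ T2)) + 1 = 2 * m := by
    rw [size_nd, Multiset.map_cons, Multiset.sum_cons]
    omega
  have hsm1 : ∀ b ∈ A1 ::ₘ T, size b < size A := by
    intro b hb
    rcases Multiset.mem_cons.1 hb with rfl | hb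
    · omega
    · exact hlt b hb
  have hc1 : Cen (nd (A1 ::ₘ T)) := by
    intro b hb
    rw [br_nd] at hb
    have := hsm1 b hb
    omega
  have hc2 : Cen (nd (A ::ₘ T2)) := by
    intro b hb
    rw [br_nd] at hb
    rcases Multiset.mem_cons.1 hb with rfl | hb
    · omega
    · have := hlt2 b hb
      omega
  refine ⟨nd (A1 ::ₘ T), nd (A ::ₘ T2), Att.step T A1 A hA1, iip1_cons A ht2, ?_, ?_⟩
  · intro hfr
    rcases cen2 _ _ hfr hc1 hc2 with h | ⟨B, s, -, -, h⟩
    · have h1 : A ∈ A1 ::ₘ T := by
        rw [nd_inj h]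
        exact Multiset.mem_cons_self _ _
      exact absurd (hsm1 A h1) (lt_irrefl _)
    · omega
  · intro h h1 h2 hc hd1 hd2 hf1 hf2
    have hsz : size h = 2 * m := by
      have e1 := hd1.size_eq
      have e2 := hf1.size_eq
      omega
    rcases evenv m h h1 h2 _ _ hsz (by omega) hc hc1 hc2 hd1 hd2 hf1 hf2 with
      ⟨hb, hD1, hD2⟩ | ⟨L, R, hL, hR, -, hC1, -⟩
    · -- `A` is a branch of `h`
      have hAh : A ∈ br h := by
        rcases iip1_inv hD2 with ⟨s, e1, e2⟩ | ⟨b, b', s, hbb, e1, e2⟩
        · rw [e1, br_nd, ← nd_inj e2]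
          exact Multiset.mem_cons_of_mem (Multiset.mem_cons_self _ _)
        · have e3 := nd_inj e2
          have h3 : A ∈ b' ::ₘ s := by
            rw [← e3]
            exact Multiset.mem_cons_self _ _
          rcases Multiset.mem_cons.1 h3 with h4 | h4
          · exfalso
            have h5 := hbb.size_eq
            have h6 := hb b (by rw [e1, br_nd]; exact Multiset.mem_cons_self _ _)
            rw [← h4] at h5
            omega
          · rw [e1, br_nd]
            exact Multiset.mem_cons_of_mem h4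
      rcases iip1_inv hD1 with ⟨s, e1, e2⟩ | ⟨b, b', s, hbb, e1, e2⟩
      · exfalso
        rw [e1, br_nd] at hAh
        rcases Multiset.mem_cons.1 hAh with h4 | h4
        · rw [h4, size_zero] at hA
          omega
        · rw [← nd_inj e2] at h4
          exact absurd (hsm1 A h4) (lt_irrefl _)
      · have e3 := nd_inj e2
        have hAb : A = b := by
          rw [e1, br_nd] at hAh
          rcases Multiset.mem_cons.1 hAh with h4 | h4
          · exact h4
          · have h5 : A ∈ A1 ::ₘ T := by
              rw [e3]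
              exact Multiset.mem_cons_of_mem h4
            exact absurd (hsm1 A h5) (lt_irrefl _)
        subst hAb
        have hb' : b' = A1 := by
          have h4 : b' ∈ A1 ::ₘ T := by
            rw [e3]
            exact Multiset.mem_cons_self _ _
          rcases Multiset.mem_cons.1 h4 with h5 | h5
          · exact h5
          · exact hA1c b' h5 hbb
        subst hb'
        have h6 : T = s := (Multiset.cons_inj_right _).1 e3
        rw [e1, ← h6]
        exact Fr.refl' _
    · exfalso
      rcases hC1 with ⟨L1, hL1, e⟩ | ⟨R1, hR1, e⟩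
      · have h3 : L1 ∈ A1 ::ₘ T := by
          rw [nd_inj e]
          exact Multiset.mem_cons_self _ _
        have h4 := hsm1 L1 h3
        have h5 := hL1.size_eq
        omega
      · have h3 : R1 ∈ A1 ::ₘ T := by
          rw [nd_inj e]
          exact Multiset.mem_cons_self _ _
        have h4 := hsm1 R1 h3
        have h5 := hR1.size_eq
        omega

end Pool.Agent.N203.DR
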