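import Pool.Agent.N203.DR.Stm

/-!
# Project DR: S_IIp2 (helper826)

Two branches with `m - 1` vertices and a leaf: the cards are the deletion of the leaf and a suitable
deletion in one of the two large branches.
-/

set_option autoImplicit false

namespace Pool.Agent.N203.DR

open Multiset

theorem iip2_inv {t' t : RT} (h : Del t' t) : (∃ s, t = nd (nd 0 ::ₘ s) ∧ t' = nd s) ∨
    ∃ b b' s, Del b' b ∧ t = nd (b ::ₘ s) ∧ t' = nd (b' ::ₘ s) := by
  cases h with
  | root s => exact Or.inl ⟨s, rfl, rfl⟩
  | step s b b' h => exact Or.inr ⟨b', b, s, h, rfl, rfl⟩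

theorem iip2_one {b : RT} (h : size b < 2) : b = nd 0 := by
  rw [← nd_br b]
  congr 1
  rcases (br b).empty_or_exists_mem with h0 | ⟨c, hc⟩
  · exact h0
  · exfalso
    have h1 := size_eq b
    have h2 : size c ≤ ((br b).map size).sum :=
      Multiset.single_le_sum (fun _ _ => Nat.zero_le _) _ (Multiset.mem_map_of_mem size hc)
    have h3 := size_pos c
    omega

theorem iip2_exists (t : RT) : 2 ≤ size t → ∃ t', Del t' t := by
  refine RT.ind (P := fun t => 2 ≤ size t → ∃ t', Del t' t) (fun s ih hs => ?_) t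
  rcases s.empty_or_exists_mem with rfl | ⟨b, hb⟩
  · simp at hs
  · obtain ⟨s', rfl⟩ := Multiset.exists_cons_of_mem hb
    by_cases hb2 : 2 ≤ size b
    · obtain ⟨b', hb'⟩ := ih b hb hb2
      exact ⟨nd (b' ::ₘ s'), Att.step s' b' b hb'⟩
    · rw [iip2_one (by omega : size b < 2)]
      exact ⟨nd s', Att.root s'⟩

theorem iip2_path (k : ℕ) : Del (P k) (P (k + 1)) := by
  induction k with
  | zero => exact Att.root 0
  | succ k ih => exact Att.step 0 (P k) (P (k + 1)) ih

theorem iip2_crd_symm {L R a : RT} (h : Crd L R a) : Crd R L a := by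
  rcases h with h | h
  · exact Or.inr h
  · exact Or.inl h

/-- two halves are impossible -/
theorem iip2_beta (pth : S_PTH) {m : ℕ} {B B' B2 : RT} (hm : 10 ≤ m) (hB : size B + 1 = m)
    (hB' : size B' + 1 = m) (hne : B' ≠ P (m - 2)) (hd : Del B2 B) (hn : nd {B2} ≠ B') {L R : RT}
    (h1 : ∃ L1, Del L1 L ∧ nd {B, B'} = nd (L1 ::ₘ br R)) (hL : size L = m) (hR : size R = m)
    (h2 : Crd L R (nd {B2, B', nd 0})) : False := by
  have hB2 : size B = size B2 + 1 := hd.size_eq
  obtain ⟨L1, hL1, e1⟩ := h1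
  have e1' : (B ::ₘ {B'} : Multiset RT) = L1 ::ₘ br R := nd_inj e1
  have hcard : card (br R) = 1 := by
    have := congrArg card e1'
    simp at this
    omega
  have hcases : (L1 = B ∧ br R = {B'}) ∨ (L1 = B' ∧ br R = {B}) := by
    have hmem : L1 ∈ (B ::ₘ {B'} : Multiset RT) := e1' ▸ Multiset.mem_cons_self _ _
    rw [Multiset.mem_cons, Multiset.mem_singleton] at hmem
    rcases hmem with h | h
    · left
      subst h
      exact ⟨rfl, ((Multiset.cons_inj_right _).1 e1').symm⟩
    · right
      subst h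
      refine ⟨rfl, ?_⟩
      have e2 : (L1 ::ₘ {B} : Multiset RT) = L1 ::ₘ br R := by
        rw [← e1']
        exact Multiset.cons_swap _ _ _
      exact ((Multiset.cons_inj_right _).1 e2).symm
  rcases h2 with ⟨L2, hL2, e2⟩ | ⟨R2, hR2, e2⟩
  · have e2' := congrArg card (nd_inj e2)
    simp at e2'
    omega
  · have e2' : (B2 ::ₘ B' ::ₘ {nd 0} : Multiset RT) = R2 ::ₘ br L := nd_inj e2
    have hsR2 : size R = size R2 + 1 := hR2.size_eq
    have hmem : R2 ∈ (B2 ::ₘ B' ::ₘ {nd 0} : Multiset RT) := e2' ▸ Multiset.mem_cons_self _ _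
    rw [Multiset.mem_cons, Multiset.mem_cons, Multiset.mem_singleton] at hmem
    have hR2B : R2 = B' := by
      rcases hmem with h | h | h
      · rw [h] at hsR2
        omega
      · exact h
      · rw [h, size_zero] at hsR2
        omega
    subst hR2B
    have hbL : br L = B2 ::ₘ {nd 0} := by
      rw [Multiset.cons_swap] at e2'
      exact ((Multiset.cons_inj_right _).1 e2').symm
    rcases hcases with ⟨hL1B, hbR⟩ | ⟨hL1B, hbR⟩
    · have e3 : R = nd {R2} := by rw [← nd_br R, hbR]
      rw [e3] at hR2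
      have := pth R2 hR2
      apply hne
      rw [this]
      congr 1
      omega
    · subst hL1B
      have e3 : R = nd {B} := by rw [← nd_br R, hbR]
      have e4 : L = nd (B2 ::ₘ {nd 0}) := by rw [← nd_br L, hbL]
      rw [e3] at hR2
      rw [e4] at hL1
      -- `L1 = nd {B3}`
      have h5 : card (br L1) = 1 := by
        rcases iip2_inv hR2 with ⟨s, q1, q2⟩ | ⟨b, b', s, q0, q1, q2⟩
        · exfalso
          have q3 := nd_inj q1
          have q4 : nd 0 ∈ ({B} : Multiset RT) := q3 ▸ Multiset.mem_cons_self _ _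
          rw [Multiset.mem_singleton] at q4
          rw [← q4, size_zero] at hB
          omega
        · have q3 := congrArg card (nd_inj q1)
          rw [Multiset.card_singleton, Multiset.card_cons] at q3
          rw [q2, br_nd, Multiset.card_cons]
          omega
      rcases iip2_inv hL1 with ⟨s, q1, q2⟩ | ⟨b, b', s, q0, q1, q2⟩
      · have q3 := nd_inj q1
        rw [show (B2 ::ₘ {nd 0} : Multiset RT) = nd 0 ::ₘ {B2} from Multiset.cons_swap _ _ _] at q3
        have q4 := (Multiset.cons_inj_right _).1 q3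
        apply hn
        rw [q2, ← q4]
      · have q3 := congrArg card (nd_inj q1)
        rw [Multiset.card_cons, Multiset.card_singleton, Multiset.card_cons] at q3
        rw [q2, br_nd, Multiset.card_cons] at h5
        omega

/-- the main lemma -/
theorem iip2_core (cen2 : S_CEN2) (evenv : S_EVENV) (pth : S_PTH) {m : ℕ} {B B' B2 : RT} (hm : 10 ≤ m)
    (hB : size B + 1 = m) (hB' : size B' + 1 = m) (hne : B' ≠ P (m - 2)) (hd : Del B2 B)
    (hn : nd {B2} ≠ B') : LL (nd {B, B', nd 0}) (nd {B, B'}) (nd {B2, B', nd 0}) := by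
  have hB2 : size B = size B2 + 1 := hd.size_eq
  have et : ({B, B', nd 0} : Multiset RT) = nd 0 ::ₘ {B, B'} := by
    change B ::ₘ B' ::ₘ {nd 0} = nd 0 ::ₘ B ::ₘ {B'}
    rw [show (B' ::ₘ {nd 0} : Multiset RT) = nd 0 ::ₘ {B'} from Multiset.cons_swap _ _ _,
      Multiset.cons_swap]
  have s1 : size (nd {B, B'}) = 2 * m - 1 := by
    simp
    omega
  have s2 : size (nd {B2, B', nd 0}) = 2 * m - 1 := by
    simp
    omega
  have c1 : Cen (nd {B, B'}) := by
    intro b hb
    rw [s1]
    simp at hb
    rcases hb with rfl | rfl <;> omega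
  have c2 : Cen (nd {B2, B', nd 0}) := by
    intro b hb
    rw [s2]
    simp only [br_nd, Multiset.insert_eq_cons, Multiset.mem_cons, Multiset.mem_singleton] at hb
    rcases hb with rfl | rfl | rfl
    · omega
    · omega
    · rw [size_zero]
      omega
  refine ⟨?_, ?_, ?_, ?_⟩
  · rw [et]
    exact Att.root _
  · exact Att.step (B' ::ₘ {nd 0}) B2 B hd
  · intro hF
    rcases cen2 _ _ hF c1 c2 with h | ⟨A, s, -, -, h⟩
    · have := congrArg card (nd_inj h)
      simp at this
    · rw [s1] at h
      omega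
  · intro h h1 h2 hc hd1 hd2 hf1 hf2
    have hs : size h = 2 * m := by
      rw [hd1.size_eq, hf1.size_eq, s1]
      omega
    rcases evenv m h h1 h2 _ _ hs (by omega) hc c1 c2 hd1 hd2 hf1 hf2 with ⟨hb, k1, -⟩ | ⟨L, R, hL, hR, -, k1, k2⟩
    · rcases iip2_inv k1 with ⟨s, q1, q2⟩ | ⟨b, b', s, q0, q1, q2⟩
      · rw [q1, ← nd_inj q2, ← et]
        exact Fr.refl' _
      · exfalso
        have q3 : b' ∈ (B ::ₘ {B'} : Multiset RT) := by
          rw [show (B ::ₘ {B'} : Multiset RT) = b' ::ₘ s from nd_inj q2]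
          exact Multiset.mem_cons_self _ _
        have q4 := hb b (by rw [q1, br_nd]; exact Multiset.mem_cons_self _ _)
        have q5 : size b = size b' + 1 := q0.size_eq
        rw [Multiset.mem_cons, Multiset.mem_singleton] at q3
        rcases q3 with rfl | rfl <;> omega
    · exfalso
      rcases k1 with k1 | k1
      · exact iip2_beta pth hm hB hB' hne hd hn k1 hL hR k2
      · exact iip2_beta pth hm hB hB' hne hd hn k1 hR hL (iip2_crd_symm k2)

theorem holds_IIp2 (cen2 : S_CEN2) (evenv : S_EVENV) (pth : S_PTH) (pth2 : S_PTH2) : S_IIp2 := by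
  intro m A A' hm hA hA' hne
  have eP : P (m - 2) = nd {P (m - 3)} := by
    have : m - 2 = (m - 3) + 1 := by omega
    rw [this]
    rfl
  have esw : ({A, A', nd 0} : Multiset RT) = {A', A, nd 0} := Multiset.cons_swap _ _ _
  by_cases hp : A' = P (m - 2)
  · rw [esw]
    refine ⟨_, _, iip2_core cen2 evenv pth (B2 := P (m - 3)) hm hA' hA hne ?_ ?_⟩
    · rw [hp]
      have : m - 2 = (m - 3) + 1 := by omega
      rw [this]
      exact iip2_path _
    · rw [← eP]
      exact hne.symm
  · by_cases hx : ∃ A2, Del A2 A ∧ nd {A2} ≠ A'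
    · obtain ⟨A2, h1, h2⟩ := hx
      exact ⟨_, _, iip2_core cen2 evenv pth hm hA hA' hp h1 h2⟩
    · by_cases hy : ∃ A2, Del A2 A' ∧ nd {A2} ≠ A
      · obtain ⟨A2, h1, h2⟩ := hy
        rw [esw]
        exact ⟨_, _, iip2_core cen2 evenv pth hm hA' hA hne h1 h2⟩
      · exfalso
        push Not at hx hy
        obtain ⟨A2, h1⟩ := iip2_exists A (by omega)
        have h2 := hx A2 h1
        have h3 : size A = size A2 + 1 := h1.size_eq
        obtain ⟨D, h4⟩ := iip2_exists A2 (by omega)
        have h5 : Del (nd {D}) A' := by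
          rw [← h2]
          exact Att.step 0 D A2 h4
        have h6 := hy _ h5
        have h7 := pth2 A2 D (by rw [h6]; exact h1) h4
        apply hp
        rw [← h2, eP, h7]
        congr 2
        congr 1
        omega

end Pool.Agent.N203.DR
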