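import Pool.Agent.N203.DR.Stm

/-!
# The code of a rooted graph is invariant under isomorphisms
-/

set_option autoImplicit false

namespace Pool.Agent.N203.DR

open Multiset

private theorem inv_val {V V' : Type} [Fintype V] [Fintype V'] (e : V ≃ V') (p : V → Prop)
    (p' : V' → Prop) [DecidablePred p] [DecidablePred p'] (h : ∀ w, p' (e w) ↔ p w) :
    (Finset.univ.filter p').val = ((Finset.univ.filter p).val.map e) := by
  have h1 : (Finset.univ.filter p' : Finset V') = (Finset.univ.filter p).map e.toEmbedding := by
    ext x
    simp only [Finset.mem_filter, Finset.mem_univ, true_and, Finset.mem_map, Equiv.coe_toEmbedding]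
    constructor
    · intro hx
      refine ⟨e.symm x, ?_, by simp⟩
      rw [← h]
      simpa using hx
    · rintro ⟨a, ha, rfl⟩
      exact (h a).2 ha
  rw [h1]
  rfl

open Classical in
private theorem inv_cod {V V' : Type} [Fintype V] [Fintype V'] (G : SimpleGraph V)
    (G' : SimpleGraph V') (e : G ≃g G') (k : ℕ) :
    ∀ p v : V, cod G' k (e p) (e v) = cod G k p v := by
  induction k with
  | zero => intro p v; rfl
  | succ k ih =>
    intro p v
    rw [cod, cod]
    rw [inv_val e.toEquiv (fun w => G.Adj v w ∧ w ≠ p) (fun w => G'.Adj (e v) w ∧ w ≠ e p)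
      (fun w => by
        change G'.Adj (e v) (e w) ∧ e w ≠ e p ↔ _
        rw [e.map_rel_iff, e.injective.ne_iff]), Multiset.map_map]
    congr 1
    apply Multiset.map_congr rfl
    intro w _
    exact ih v w

open Classical in
theorem holds_INV : S_INV := by
  intro V V' _ _ G G' e r
  rw [code, code]
  rw [inv_val e.toEquiv (fun w => G.Adj r w) (fun w => G'.Adj (e r) w)
    (fun w => by
      change G'.Adj (e r) (e w) ↔ _
      rw [e.map_rel_iff]), Multiset.map_map, ← Fintype.card_congr e.toEquiv]
  congr 1
  apply Multiset.map_congr rfl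
  intro w _
  exact inv_cod G G' e _ r w

end Pool.Agent.N203.DR
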