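import Pool.Agent.N203.DR.Stm

/-!
# Trees with the same code are isomorphic (helper278)
-/

set_option autoImplicit false

namespace Pool.Agent.N203.DR

open Multiset

/-- matching of two finite sets with the same multiset of labels -/
private theorem iso_match {V V' : Type} (c : V → RT) (c' : V' → RT) (s : Finset V) :
    ∀ s' : Finset V', s.val.map c = s'.val.map c' →
    ∃ M : V → V' → Prop, (∀ x y, M x y → x ∈ s ∧ y ∈ s' ∧ c x = c' y) ∧
      (∀ x ∈ s, ∃ y, M x y) ∧ (∀ y ∈ s', ∃ x, M x y) ∧
      (∀ x y y', M x y → M x y' → y = y') ∧ (∀ x x' y, M x y → M x' y → x = x') := by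
  classical
  induction s using Finset.induction_on with
  | empty =>
    intro s' h
    have hs' : s' = ∅ := by
      have h1 : s'.val.map c' = 0 := by rw [← h]; simp
      have h2 := Multiset.map_eq_zero.mp h1
      exact Finset.val_eq_zero.mp h2
    subst hs'
    exact ⟨fun _ _ => False, by simp, by simp, by simp, by simp, by simp⟩
  | insert a s ha ih =>
    intro s' h
    rw [Finset.insert_val_of_notMem ha, Multiset.map_cons] at h
    have h1 : c a ∈ s'.val.map c' := by rw [← h]; exact Multiset.mem_cons_self _ _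
    obtain ⟨b, hb, hbc⟩ := Multiset.mem_map.mp h1
    have hb' : b ∈ s' := hb
    have h2 : s'.val = b ::ₘ (s'.erase b).val := by
      rw [Finset.erase_val]
      exact (Multiset.cons_erase hb).symm
    rw [h2, Multiset.map_cons, hbc] at h
    have h3 := (Multiset.cons_inj_right _).mp h
    obtain ⟨M, m1, m2, m3, m4, m5⟩ := ih (s'.erase b) h3
    refine ⟨fun x y => M x y ∨ (x = a ∧ y = b), ?_, ?_, ?_, ?_, ?_⟩
    · rintro x y (hM | ⟨rfl, rfl⟩)
      · obtain ⟨k1, k2, k3⟩ := m1 x y hM
        exact ⟨Finset.mem_insert_of_mem k1, Finset.mem_of_mem_erase k2, k3⟩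
      · exact ⟨Finset.mem_insert_self _ _, hb', hbc.symm⟩
    · intro x hx
      rcases Finset.mem_insert.mp hx with rfl | hx
      · exact ⟨b, Or.inr ⟨rfl, rfl⟩⟩
      · obtain ⟨y, hy⟩ := m2 x hx
        exact ⟨y, Or.inl hy⟩
    · intro y hy
      by_cases hyb : y = b
      · exact ⟨a, Or.inr ⟨rfl, hyb⟩⟩
      · obtain ⟨x, hx⟩ := m3 y (Finset.mem_erase.mpr ⟨hyb, hy⟩)
        exact ⟨x, Or.inl hx⟩
    · rintro x y y' (h4 | ⟨h4, h4'⟩) (h5 | ⟨h5, h5'⟩)
      · exact m4 x y y' h4 h5
      · exact absurd (h5 ▸ (m1 x y h4).1) ha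
      · exact absurd (h4 ▸ (m1 x y' h5).1) ha
      · rw [h4', h5']
    · rintro x x' y (h4 | ⟨h4, h4'⟩) (h5 | ⟨h5, h5'⟩)
      · exact m5 x x' y h4 h5
      · exact absurd (h5' ▸ (m1 x y h4).2.1) (Finset.notMem_erase _ _)
      · exact absurd (h4' ▸ (m1 x' y h5).2.1) (Finset.notMem_erase _ _)
      · rw [h4, h5]

open Classical in
/-- rooted tree: `Ch w x` says that `x` is a child of `w`, and `c` is the code of the part above -/
private structure IsoRt (V : Type) [Fintype V] (r : V) (l : V → ℕ) (Ch : V → V → Prop)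
    (c : V → RT) : Prop where
  lt : ∀ w x, Ch w x → l w < l x
  ex : ∀ x, x ≠ r → ∃ w, Ch w x
  un : ∀ w w' x, Ch w x → Ch w' x → w = w'
  rt : ∀ w, ¬ Ch w r
  hc : ∀ w, br (c w) = (Finset.univ.filter fun x => Ch w x).val.map c

/-- the relation given by the root and a choice of matchings of the children -/
private inductive IsoR {V V' : Type} (r : V) (r' : V') (M : V → V' → V → V' → Prop) :
    V → V' → Prop
  | root : IsoR r r' M r r'
  | step (w : V) (w' : V') (x : V) (x' : V') : IsoR r r' M w w' → M w w' x x' → IsoR r r' M x x'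

private theorem IsoR.swap {V V' : Type} {r : V} {r' : V'} {M : V → V' → V → V' → Prop} {x : V}
    {x' : V'} (h : IsoR r r' M x x') : IsoR r' r (fun w' w x' x => M w w' x x') x' x := by
  induction h with
  | root => exact IsoR.root
  | step w w' x x' _ hM ih => exact IsoR.step w' w x' x ih hM

private theorem iso_rel {V V' : Type} [Fintype V] [Fintype V'] {r : V} {r' : V'} {l : V → ℕ}
    {Ch : V → V → Prop} {Ch' : V' → V' → Prop} {c : V → RT} {c' : V' → RT}
    (H : IsoRt V r l Ch c) (M : V → V' → V → V' → Prop)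
    (hM1 : ∀ w w', c w = c' w' → ∀ x y, M w w' x y → Ch w x ∧ Ch' w' y ∧ c x = c' y)
    (hM2 : ∀ w w', c w = c' w' → ∀ x, Ch w x → ∃ y, M w w' x y)
    (hM3 : ∀ w w', c w = c' w' → ∀ x y y', M w w' x y → M w w' x y' → y = y')
    (h : c r = c' r') :
    (∀ x x', IsoR r r' M x x' → c x = c' x') ∧ (∀ x, ∃ x', IsoR r r' M x x') ∧
    (∀ x y y', IsoR r r' M x y → IsoR r r' M x y' → y = y') := by
  have hcc : ∀ x x', IsoR r r' M x x' → c x = c' x' := by
    intro x x' hR
    induction hR with
    | root => exact h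
    | step w w' x x' _ hM ih => exact (hM1 w w' ih x x' hM).2.2
  refine ⟨hcc, ?_, ?_⟩
  · intro x
    induction hn : l x using Nat.strong_induction_on generalizing x with
    | _ n ih =>
      by_cases hx : x = r
      · subst hx; exact ⟨r', IsoR.root⟩
      · obtain ⟨w, hw⟩ := H.ex x hx
        obtain ⟨w', hw'⟩ := ih (l w) (hn ▸ H.lt w x hw) w rfl
        obtain ⟨y, hy⟩ := hM2 w w' (hcc w w' hw') x hw
        exact ⟨y, IsoR.step w w' x y hw' hy⟩
  · intro x
    induction hn : l x using Nat.strong_induction_on generalizing x with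
    | _ n ih =>
      intro y y' h1 h2
      cases h1 with
      | root =>
        cases h2 with
        | root => rfl
        | step w w' _ _ hw hM => exact absurd (hM1 w w' (hcc w w' hw) _ _ hM).1 (H.rt w)
      | step w w' _ _ hw hM =>
        have k1 := hM1 w w' (hcc w w' hw) _ _ hM
        cases h2 with
        | root => exact absurd k1.1 (H.rt w)
        | step u u' _ _ hu hM' =>
          have k2 := hM1 u u' (hcc u u' hu) _ _ hM'
          have e1 : w = u := H.un w u x k1.1 k2.1
          subst e1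
          have e2 : w' = u' := ih (l w) (hn ▸ H.lt w x k1.1) w rfl w' u' hw hu
          subst e2
          exact hM3 w w' (hcc w w' hw) x y y' hM hM'

private theorem iso_abs {V V' : Type} [Fintype V] [Fintype V'] {r : V} {r' : V'} {l : V → ℕ}
    {l' : V' → ℕ} {Ch : V → V → Prop} {Ch' : V' → V' → Prop} {c : V → RT} {c' : V' → RT}
    (H : IsoRt V r l Ch c) (H' : IsoRt V' r' l' Ch' c') (h : c r = c' r') :
    ∃ e : V ≃ V', ∀ x y, Ch x y ↔ Ch' (e x) (e y) := by
  classical
  have hm : ∀ (w : V) (w' : V'), ∃ M : V → V' → Prop, c w = c' w' →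
      (∀ x y, M x y → Ch w x ∧ Ch' w' y ∧ c x = c' y) ∧
      (∀ x, Ch w x → ∃ y, M x y) ∧ (∀ y, Ch' w' y → ∃ x, M x y) ∧
      (∀ x y y', M x y → M x y' → y = y') ∧ (∀ x x' y, M x y → M x' y → x = x') := by
    intro w w'
    by_cases hw : c w = c' w'
    · have h1 : (Finset.univ.filter fun x => Ch w x).val.map c =
          (Finset.univ.filter fun x => Ch' w' x).val.map c' := by
        rw [← H.hc w, ← H'.hc w', hw]
      obtain ⟨M, m1, m2, m3, m4, m5⟩ := iso_match c c' _ _ h1
      refine ⟨M, fun _ => ⟨?_, ?_, ?_, m4, m5⟩⟩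
      · intro x y hM
        obtain ⟨k1, k2, k3⟩ := m1 x y hM
        exact ⟨(Finset.mem_filter.mp k1).2, (Finset.mem_filter.mp k2).2, k3⟩
      · intro x hx
        exact m2 x (Finset.mem_filter.mpr ⟨Finset.mem_univ _, hx⟩)
      · intro y hy
        exact m3 y (Finset.mem_filter.mpr ⟨Finset.mem_univ _, hy⟩)
    · exact ⟨fun _ _ => False, fun hh => absurd hh hw⟩
  choose M hM using hm
  obtain ⟨a1, a2, a3⟩ := iso_rel (Ch' := Ch') H M (fun w w' hw => (hM w w' hw).1)
    (fun w w' hw => (hM w w' hw).2.1) (fun w w' hw => (hM w w' hw).2.2.2.1) h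
  obtain ⟨_, b2, b3⟩ := iso_rel (Ch' := Ch) H' (fun w' w x' x => M w w' x x')
    (fun w' w hw x' x hx => by
      obtain ⟨k1, k2, k3⟩ := (hM w w' hw.symm).1 x x' hx
      exact ⟨k2, k1, k3.symm⟩)
    (fun w' w hw => (hM w w' hw.symm).2.2.1)
    (fun w' w hw x' x1 x2 h1 h2 => (hM w w' hw.symm).2.2.2.2 x1 x2 x' h1 h2) h.symm
  choose f hf using a2
  choose g hg using b2
  have hfg : ∀ x, g (f x) = x := fun x => b3 (f x) (g (f x)) x (hg (f x)) (hf x).swap
  have hgf : ∀ y, f (g y) = y := fun y => a3 (g y) (f (g y)) y (hf (g y)) (hg y).swap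
  have key : ∀ x y, Ch x y → Ch' (f x) (f y) := by
    intro x y hxy
    have hy := hf y
    cases hy with
    | root => exact absurd hxy (H.rt x)
    | step w w' _ _ hw hMw =>
      have k := (hM w w' (a1 w w' hw)).1 _ _ hMw
      have e1 : w = x := H.un w x y k.1 hxy
      subst e1
      have e2 : w' = f w := a3 w w' (f w) hw (hf w)
      rw [← e2]
      exact k.2.1
  have key' : ∀ x y, Ch' (f x) (f y) → Ch x y := by
    intro x y hxy
    by_cases hy : y = r
    · subst hy
      have e : f y = r' := a3 y (f y) r' (hf y) IsoR.root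
      rw [e] at hxy
      exact absurd hxy (H'.rt _)
    · obtain ⟨w, hw⟩ := H.ex y hy
      have h2 := key w y hw
      have h3 : f w = f x := H'.un _ _ _ h2 hxy
      have h4 : w = x := by rw [← hfg w, h3, hfg x]
      rw [← h4]; exact hw
  exact ⟨⟨f, g, hfg, hgf⟩, fun x y => ⟨key x y, key' x y⟩⟩

private theorem iso_parent_un {V : Type} {T : SimpleGraph V} (hT : T.IsTree) (r w w' x : V)
    (h1 : T.Adj w x) (h2 : T.dist r x = T.dist r w + 1) (h3 : T.Adj w' x)
    (h4 : T.dist r x = T.dist r w' + 1) : w = w' := by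
  obtain ⟨p, hp, hp'⟩ := (hT.connected r x).exists_path_of_dist
  have key : ∀ w : V, T.Adj w x → T.dist r x = T.dist r w + 1 → w = p.penultimate := by
    intro w hw hd
    obtain ⟨q, hq, hq'⟩ := (hT.connected r w).exists_path_of_dist
    have hx : x ∉ q.support := by
      intro hx
      have := hT.isAcyclic.path_concat hp hq hw.symm hx
      rw [this, SimpleGraph.Walk.length_concat] at hq'
      omega
    exact hT.isAcyclic.eq_penultimate_of_adj_end hp hw.symm
      (hT.isAcyclic.mem_support_of_ne_mem_support_of_adj_of_isPath hp hq hw.symm hx)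
  rw [key w h1 h2, key w' h3 h4]

private theorem iso_dist_lt {V : Type} [Fintype V] {T : SimpleGraph V} (hT : T.IsTree) (r x : V) :
    T.dist r x < Fintype.card V := by
  obtain ⟨p, hp, hp'⟩ := (hT.connected r x).exists_path_of_dist
  rw [← hp']
  exact hp.length_lt

private theorem iso_parent_ex {V : Type} {T : SimpleGraph V} (hT : T.IsTree) (r x : V)
    (hx : x ≠ r) : ∃ w, T.Adj w x ∧ T.dist r x = T.dist r w + 1 := by
  obtain ⟨p, hp, hp'⟩ := (hT.connected r x).exists_path_of_dist
  have hnil : ¬ p.Nil := SimpleGraph.Walk.not_nil_of_ne hx.symm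
  have hadj : T.Adj p.penultimate x := p.adj_penultimate hnil
  refine ⟨p.penultimate, hadj, ?_⟩
  have h1 : T.dist r p.penultimate ≤ p.dropLast.length := SimpleGraph.dist_le _
  have h2 : p.dropLast.length + 1 = p.length := SimpleGraph.Walk.length_dropLast_add_one hnil
  rcases hT.dist_eq_dist_add_one_of_adj r hadj with h | h
  · omega
  · exact h

private theorem iso_tree {V : Type} [Fintype V] (T : SimpleGraph V) (r : V) (hT : T.IsTree) :
    ∃ c : V → RT, c r = code T r ∧
      IsoRt V r (fun x => T.dist r x) (fun w x => T.Adj w x ∧ T.dist r x = T.dist r w + 1) c := by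
  classical
  have hroot : ∀ w, ¬ (T.Adj w r ∧ T.dist r r = T.dist r w + 1) := by
    rintro w ⟨_, h⟩
    rw [SimpleGraph.dist_self] at h
    omega
  set c : V → RT := fun x =>
    if h : ∃ w, T.Adj w x ∧ T.dist r x = T.dist r w + 1 then
      cod T (Fintype.card V + 1 - T.dist r x) h.choose x else code T r with hc
  have c_root : c r = code T r := by
    rw [hc]
    simp only
    rw [dif_neg]
    rintro ⟨w, hw⟩
    exact hroot w hw
  have c_step : ∀ w x, T.Adj w x → T.dist r x = T.dist r w + 1 →
      c x = cod T (Fintype.card V - T.dist r w) w x := by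
    intro w x h1 h2
    have hex : ∃ w, T.Adj w x ∧ T.dist r x = T.dist r w + 1 := ⟨w, h1, h2⟩
    have e : hex.choose = w :=
      iso_parent_un hT r _ _ x hex.choose_spec.1 hex.choose_spec.2 h1 h2
    rw [hc]
    simp only
    rw [dif_pos hex, e, h2]
    congr 1
    omega
  refine ⟨c, c_root, ?_, ?_, ?_, hroot, ?_⟩
  · rintro w x ⟨_, h⟩
    show T.dist r w < T.dist r x
    omega
  · intro x hx
    exact iso_parent_ex hT r x hx
  · rintro w w' x ⟨h1, h2⟩ ⟨h3, h4⟩
    exact iso_parent_un hT r w w' x h1 h2 h3 h4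
  · intro w
    by_cases hw : w = r
    · subst hw
      rw [c_root]
      unfold code
      rw [br_nd]
      have e : (Finset.univ.filter fun x => T.Adj w x) =
          (Finset.univ.filter fun x => T.Adj w x ∧ T.dist w x = T.dist w w + 1) := by
        apply Finset.filter_congr
        intro x _
        constructor
        · intro h
          refine ⟨h, ?_⟩
          rw [SimpleGraph.dist_self, SimpleGraph.dist_eq_one_iff_adj.mpr h]
        · exact fun h => h.1
      rw [e]
      trans (Multiset.map c (Finset.univ.filter fun x =>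
        T.Adj w x ∧ T.dist w x = T.dist w w + 1).val)
      · apply Multiset.map_congr rfl
        intro x hx
        have hx' := (Finset.mem_filter.mp hx).2
        rw [c_step w x hx'.1 hx'.2, SimpleGraph.dist_self, Nat.sub_zero]
      · congr
    · obtain ⟨p, hp1, hp2⟩ := iso_parent_ex hT r w hw
      rw [c_step p w hp1 hp2]
      have hlt := iso_dist_lt hT r w
      obtain ⟨k, hk⟩ : ∃ k, Fintype.card V - T.dist r p = k + 1 :=
        ⟨Fintype.card V - T.dist r p - 1, by omega⟩
      rw [hk]
      unfold cod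
      rw [br_nd]
      have e : (Finset.univ.filter fun x => T.Adj w x ∧ x ≠ p) =
          (Finset.univ.filter fun x => T.Adj w x ∧ T.dist r x = T.dist r w + 1) := by
        apply Finset.filter_congr
        intro x _
        constructor
        · rintro ⟨h, hne⟩
          refine ⟨h, ?_⟩
          rcases hT.dist_eq_dist_add_one_of_adj r h with h' | h'
          · exact absurd (iso_parent_un hT r x p w h.symm h' hp1 hp2) hne
          · exact h'
        · rintro ⟨h, h'⟩
          refine ⟨h, ?_⟩
          rintro rfl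
          omega
      rw [e]
      trans (Multiset.map c (Finset.univ.filter fun x =>
        T.Adj w x ∧ T.dist r x = T.dist r w + 1).val)
      · apply Multiset.map_congr rfl
        intro x hx
        have hx' := (Finset.mem_filter.mp hx).2
        rw [c_step w x hx'.1 hx'.2]
        congr 1
        omega
      · congr

/-- trees with the same code are isomorphic -/
theorem holds_ISO : S_ISO := by
  intro V V' _ _ T T' r r' hT hT' h
  obtain ⟨c, hc, H⟩ := iso_tree T r hT
  obtain ⟨c', hc', H'⟩ := iso_tree T' r' hT'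
  obtain ⟨e, he⟩ := iso_abs H H' (by rw [hc, hc', h])
  refine ⟨⟨e, ?_⟩⟩
  intro a b
  have hadj : ∀ {W : Type} (G : SimpleGraph W) (s : W), G.IsTree → ∀ x y : W, G.Adj x y ↔
      (G.Adj x y ∧ G.dist s y = G.dist s x + 1) ∨ (G.Adj y x ∧ G.dist s x = G.dist s y + 1) := by
    intro W G s hG x y
    constructor
    · intro hxy
      rcases hG.dist_eq_dist_add_one_of_adj s hxy with h' | h'
      · exact Or.inr ⟨hxy.symm, h'⟩
      · exact Or.inl ⟨hxy, h'⟩
    · rintro (h' | h')
      · exact h'.1
      · exact h'.1.symm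
  rw [hadj T r hT a b, hadj T' r' hT' (e a) (e b), he a b, he b a]

end Pool.Agent.N203.DR
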