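import Pool.Agent.N203.DR.Stm

set_option autoImplicit false

namespace Pool.Agent.N203.DR

open Multiset

theorem ic_br {a t : RT} (h : Del a t) : ∀ b ∈ br a, ∃ b' ∈ br t, size b ≤ size b' := by
  unfold Del at h
  cases h with
  | root s =>
    intro b hb
    rw [br_nd] at hb
    exact ⟨b, by rw [br_nd]; exact Multiset.mem_cons_of_mem hb, le_rfl⟩
  | step s b0 b0' h =>
    intro b hb
    rw [br_nd, Multiset.mem_cons] at hb
    rcases hb with rfl | hb
    · refine ⟨b0', by rw [br_nd]; exact Multiset.mem_cons_self _ _, ?_⟩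
      have := h.size_eq; omega
    · exact ⟨b, by rw [br_nd]; exact Multiset.mem_cons_of_mem hb, le_rfl⟩

theorem holds_Ic (cen2 : S_CEN2) (oddv : S_ODDV) (evenv : S_EVENV) : S_I := by
  intro t a1 a2 ht ⟨d1, d2, hne, huniq⟩
  have s1 := d1.size_eq
  have s2 := d2.size_eq
  have b1 : ∀ b ∈ br a1, 2 * size b + 3 ≤ size t := fun b hb => by
    obtain ⟨b', hb', hle⟩ := ic_br d1 b hb
    have := ht b' hb'; omega
  have b2 : ∀ b ∈ br a2, 2 * size b + 3 ≤ size t := fun b hb => by
    obtain ⟨b', hb', hle⟩ := ic_br d2 b hb
    have := ht b' hb'; omega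
  have c1 : Cen a1 := fun b hb => by have := b1 b hb; omega
  have c2 : Cen a2 := fun b hb => by have := b2 b hb; omega
  have hpos := DR.size_pos a1
  refine ⟨d1, d2, ?_, ?_⟩
  · intro hf
    rcases cen2 a1 a2 hf c1 c2 with h | ⟨A, s, h, -, h2⟩
    · exact hne h
    · have := b1 A (by rw [h, br_nd]; exact Multiset.mem_cons_self _ _)
      omega
  · intro h h1 h2 hc e1 e2 f1 f2
    have hs : size h = size t := by
      have := e1.size_eq
      have := f1.size_eq
      omega
    rcases Nat.even_or_odd' (size t) with ⟨m, hm | hm⟩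
    · have hm2 : 2 ≤ m := by
        by_contra hlt
        have h0 : br t = 0 := by
          rcases Multiset.empty_or_exists_mem (br t) with h | ⟨b, hb⟩
          · exact h
          · have := ht b hb; omega
        have := DR.size_eq t
        rw [h0] at this
        simp at this
        omega
      rcases evenv m h h1 h2 a1 a2 (by omega) hm2 hc c1 c2 e1 e2 f1 f2 with ⟨-, k1, k2⟩ |
        ⟨L, R, hL, hR, -, k1, -⟩
      · rw [huniq h k1 k2]; exact Fr.refl' _
      · exfalso
        rcases k1 with ⟨L1, hd, he⟩ | ⟨R1, hd, he⟩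
        · have := b1 L1 (by rw [he, br_nd]; exact Multiset.mem_cons_self _ _)
          have := hd.size_eq
          omega
        · have := b1 R1 (by rw [he, br_nd]; exact Multiset.mem_cons_self _ _)
          have := hd.size_eq
          omega
    · have key : ∀ a h', (∀ b ∈ br a, 2 * size b + 3 ≤ size t) → Cen a → Del h' h → Fr h' a →
          Del a h := by
        intro a h' hb hca hd hf
        rcases oddv m h h' a (by omega) hc hca hd hf with k | ⟨W, s, hW, he, -⟩
        · exact k
        · exfalso
          have := hb W (by rw [he, br_nd]; exact Multiset.mem_cons_self _ _)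
          omega
      rw [huniq h (key a1 h1 b1 c1 e1 f1) (key a2 h2 b2 c2 e2 f2)]
      exact Fr.refl' _

end Pool.Agent.N203.DR
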