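import Pool.Agent.N203.DR.Stm

/-!
# A tree with a leaf attached, seen from a vertex which is not a leaf
-/

set_option autoImplicit false

namespace Pool.Agent.N203.DR

open Multiset

theorem lfdel_fr {u X t : RT} (h : Pos u X t) : Fr (nd (X ::ₘ br u)) t := by
  induction h with
  | root c s =>
    have h1 := Stp.mk (nd s) (br c)
    rw [nd_br, br_nd] at h1
    exact Fr.of h1
  | step c X s t _ ih =>
    have h1 := Stp.mk (nd (X ::ₘ s)) (br c)
    rw [nd_br, br_nd, Multiset.cons_swap] at h1
    rw [br_nd] at ih
    exact Fr.trans' (Fr.of h1) ih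

theorem lfdel_att {G u X t : RT} (h : Pos u X t) :
    ∀ u0, Att G u0 u → ∃ t0, Pos u0 X t0 ∧ Att G t0 t := by
  induction h with
  | root c s =>
    intro u0 h0
    exact ⟨nd (u0 ::ₘ s), Pos.root u0 s, Att.step s u0 c h0⟩
  | step c X s t _ ih =>
    intro u0 h0
    obtain ⟨t0, h1, h2⟩ := ih (nd (u0 ::ₘ s)) (Att.step s u0 c h0)
    exact ⟨t0, Pos.step u0 X s t0 h1, h2⟩

theorem lfdel_pos {u E h : RT} (hp : Pos u E h) (hu : u = nd 0) : ∃ h', Del h' h ∧ Fr h' E := by
  cases hp with
  | root c s =>
    subst hu
    exact ⟨nd s, Att.root s, Fr.refl' _⟩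
  | step c X s t hp =>
    subst hu
    obtain ⟨t0, h1, h2⟩ := lfdel_att hp (nd s) (Att.root (G := nd 0) s)
    have h3 := lfdel_fr h1
    rw [br_nd] at h3
    exact ⟨t0, h2, h3.symm'⟩

/-- if `h` is a rooted form, with the root of degree at least two, of the tree obtained from `E` by attaching a
leaf to its root, then some leaf deletion of `h` is `E`, as a free tree -/
theorem holds_LFDEL (pos : S_POS) : S_LFDEL := by
  intro E h hfr hc
  rcases pos _ _ hfr with h1 | ⟨X, s, h1, h2⟩
  · subst h1
    rw [br_nd, Multiset.card_singleton] at hc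
    omega
  · have h3 := nd_inj h1
    have h4 : card s = 0 := by
      have h5 := congrArg card h3
      rw [Multiset.card_singleton, Multiset.card_cons] at h5
      omega
    have h5 : s = 0 := Multiset.card_eq_zero.1 h4
    subst h5
    have h6 : E = X := by
      have : E ∈ (X ::ₘ (0 : Multiset RT)) := by rw [← h3]; exact Multiset.mem_singleton_self E
      simpa using this
    subst h6
    exact lfdel_pos h2 rfl

end Pool.Agent.N203.DR
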