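import Pool.Agent.N203.DR.Stm

/-!
# Project DR, leaf LLD
-/

set_option autoImplicit false

namespace Pool.Agent.N203.DR

open Multiset

private theorem lld_sing {h B : RT} (hf : fc (br h) = fc {B}) : ∃ E, br h = {E} ∧ Fr E B := by
  have hf' : fc (br h) = ({(Quot.mk Stp B : FT)} : Multiset FT) :=
    hf.trans (Multiset.map_singleton _ _)
  obtain ⟨E, hE, hEB⟩ := Multiset.map_eq_singleton.1 hf'
  exact ⟨E, hE, mk_eq.1 hEB⟩

private theorem lld_card {h : RT} (hc : Cen h) (hs : 3 ≤ size h) : 2 ≤ card (br h) := by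
  by_contra hlt
  have hlt' : card (br h) < 2 := not_le.1 hlt
  have h01 : card (br h) = 0 ∨ card (br h) = 1 := by omega
  rcases h01 with h0 | h1
  · rw [Multiset.card_eq_zero] at h0
    rw [DR.size_eq, h0] at hs
    simp at hs
  · obtain ⟨b, hb⟩ := Multiset.card_eq_one.1 h1
    have h2 := hc b (by rw [hb]; exact Multiset.mem_singleton_self b)
    have h3 : size h = 1 + size b := by
      rw [DR.size_eq h, hb, Multiset.map_singleton, Multiset.sum_singleton]
    omega

theorem holds_LLD (cen1 : S_CEN1) (dellf : S_DELLF) (lfdel : S_LFDEL) : S_LLD := by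
  intro t a1 a2 ht hLL
  obtain ⟨hd1, hd2, hne, huniq⟩ := hLL
  obtain ⟨B1, hB1, hT1⟩ := dellf (nd 0) a1 t hd1
  obtain ⟨B2, hB2, hT2⟩ := dellf (nd 0) a2 t hd2
  rw [br_nd] at hT1 hT2
  refine ⟨nd {B1}, nd {B2}, hT1.symm', hT1.trans' hT2.symm', ?_, Or.inl ?_, ?_⟩
  · intro he
    have he' := nd_inj he
    rw [Multiset.singleton_inj] at he'
    apply hne
    have := hB1.symm'
    rw [he'] at this
    exact this.trans' hB2
  · rw [br_nd, Multiset.card_singleton]
  · intro h1 h2 hh hf1 hf2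
    rw [br_nd] at hf1 hf2
    obtain ⟨E1, hE1, hEB1⟩ := lld_sing hf1
    obtain ⟨E2, hE2, hEB2⟩ := lld_sing hf2
    obtain ⟨h, hh1, hcen⟩ := cen1 h1
    have e1 : nd {E1} = h1 := by rw [← hE1, nd_br]
    have e2 : nd {E2} = h2 := by rw [← hE2, nd_br]
    have hs : 3 ≤ size h := by
      have s1 : size h1 = size h := hh1.size_eq
      have s2 : size h1 = 1 + size E1 := by
        rw [← e1, size_nd, Multiset.map_singleton, Multiset.sum_singleton]
      have s3 : size E1 = size B1 := hEB1.size_eq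
      have s4 : size (nd (B1 ::ₘ 0)) = size t := hT1.size_eq
      rw [size_nd, Multiset.map_cons, Multiset.sum_cons, Multiset.map_zero, Multiset.sum_zero] at s4
      omega
    have hcard := lld_card hcen hs
    obtain ⟨h1', hdel1, hfr1⟩ := lfdel E1 h (by rw [e1]; exact hh1) hcard
    obtain ⟨h2', hdel2, hfr2⟩ := lfdel E2 h (by rw [e2]; exact hh.symm'.trans' hh1) hcard
    have key : Fr t h := huniq h h1' h2' hcen hdel1 hdel2
      ((hfr1.trans' hEB1).trans' hB1) ((hfr2.trans' hEB2).trans' hB2)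
    exact (hT1.trans' key).trans' hh1.symm'

end Pool.Agent.N203.DR
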