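import Pool.Agent.N203.DR.Stm

set_option autoImplicit false

/-!
# Deleting a leaf of a tree with an odd number of vertices
-/

namespace Pool.Agent.N203.DR

open Multiset

private theorem oddv_br {G t t' : RT} (h : Att G t t') (hG : G = nd 0) :
    ∀ b ∈ br t, ∃ b' ∈ br t', size b ≤ size b' := by
  induction h with
  | root s =>
    intro b hb
    rw [br_nd] at hb
    exact ⟨b, by rw [br_nd]; exact mem_cons_of_mem hb, le_rfl⟩
  | step s c c' hc _ =>
    intro b hb
    rw [br_nd, mem_cons] at hb
    rcases hb with rfl | hb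
    · refine ⟨c', by rw [br_nd]; exact mem_cons_self _ _, ?_⟩
      have := hc.size_eq
      omega
    · exact ⟨b, by rw [br_nd]; exact mem_cons_of_mem hb, le_rfl⟩

theorem holds_ODDV (cen2 : S_CEN2) : S_ODDV := by
  intro m h h' a hs hh ha hd hf
  have hsz : size h' = 2 * m := by
    have := Del.size_eq hd
    omega
  have hc' : Cen h' := by
    intro b hb
    obtain ⟨b', hb', hle⟩ := oddv_br hd rfl b hb
    have := hh b' hb'
    omega
  rcases cen2 h' a hf hc' ha with rfl | ⟨A, s, h1, h2, h3⟩
  · exact Or.inl hd
  · right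
    refine ⟨nd s, br A, ?_, h2, ?_⟩
    · rw [h1, size_nd, Multiset.map_cons, Multiset.sum_cons] at hsz
      rw [h1, size_nd, Multiset.map_cons, Multiset.sum_cons] at h3
      rw [size_nd]
      omega
    · rw [nd_br, br_nd, ← h1]
      exact hd

end Pool.Agent.N203.DR
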