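import Pool.Agent.N203.DR.Stm

/-!
# The branch towards the centroid (`S_OFF`)
-/

set_option autoImplicit false

namespace Pool.Agent.N203.DR

open Multiset

private theorem off_pos {u X t : RT} (h : Pos u X t) : ∃ b ∈ br t, size u ≤ size b := by
  induction h with
  | root c s =>
    refine ⟨c, ?_, le_rfl⟩
    rw [br_nd]
    exact mem_cons_self c s
  | step c X s t _ ih =>
    obtain ⟨b, hb, hs⟩ := ih
    refine ⟨b, hb, le_trans ?_ hs⟩
    rw [size_nd, map_cons, sum_cons]
    omega

/-- every vertex different from the centroid `c` has a branch which contains `c` and everything but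
one branch of `c` -/
theorem holds_OFF (pos : S_POS) : S_OFF := by
  intro c t σ h hσ
  rcases pos c t h with h1 | ⟨X, s, hc, hp⟩
  · exact Or.inl h1
  · right
    obtain ⟨b, hb, hs⟩ := off_pos hp
    refine ⟨b, hb, ?_⟩
    have hX : size X ≤ σ := hσ X (by rw [hc, br_nd]; exact mem_cons_self X s)
    have h2 : size c = size X + size (nd s) := by
      rw [hc, size_nd, size_nd, map_cons, sum_cons]
      omega
    omega

end Pool.Agent.N203.DR
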