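import Pool.Agent.N203.DR.Stm

/-!
# DR/PFR: the trees which are paths

Author: helper488 (project DR of helper203, page MP_b148a6_co).
-/

set_option autoImplicit false

namespace Pool.Agent.N203.DR

open Multiset

private theorem pfr_single {X : RT} {s : Multiset RT} {k : ℕ} (h : nd (X ::ₘ s) = P k) :
    ∃ j, X = P j ∧ s = 0 := by
  cases k with
  | zero =>
    have h1 : X ::ₘ s = 0 := nd_inj h
    exact absurd h1 (Multiset.cons_ne_zero)
  | succ k =>
    have h1 : X ::ₘ s = {P k} := nd_inj h
    have h2 : s = 0 := by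
      have := congrArg card h1
      rw [card_cons, card_singleton] at this
      exact card_eq_zero.1 (by omega)
    subst h2
    refine ⟨k, ?_, rfl⟩
    have h3 : X ∈ ({P k} : Multiset RT) := by rw [← h1]; exact mem_cons_self _ _
    exact mem_singleton.1 h3

private theorem pfr_pos : ∀ c X t : RT, Pos c X t → ∀ i j : ℕ, c = P i → X = P j →
    card (br t) ≤ 2 ∧ ∀ b ∈ br t, ∃ m, b = P m := by
  intro c X t h
  induction h with
  | root c s =>
    intro i j hc hX
    rw [br_nd]
    cases j with
    | zero =>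
      have h1 : s = 0 := nd_inj hX
      subst h1
      refine ⟨by simp, fun b hb => ?_⟩
      rw [mem_cons] at hb
      rcases hb with rfl | hb
      · exact ⟨i, hc⟩
      · exact absurd hb (notMem_zero _)
    | succ j =>
      have h1 : s = {P j} := nd_inj hX
      subst h1
      refine ⟨by simp, fun b hb => ?_⟩
      rw [mem_cons, mem_singleton] at hb
      rcases hb with rfl | rfl
      · exact ⟨i, hc⟩
      · exact ⟨j, rfl⟩
  | step c X s t _ ih =>
    intro i j hc hX
    obtain ⟨j', hj', hs⟩ := pfr_single hX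
    subst hs
    subst hc
    exact ih (i + 1) j' rfl hj'

theorem holds_PFR (pos : S_POS) : S_PFR := by
  intro k t h
  have key : card (br t) ≤ 2 ∧ ∀ b ∈ br t, ∃ m, b = P m := by
    rcases pos (P k) t h with rfl | ⟨X, s, hk, hp⟩
    · cases k with
      | zero =>
        show card (br (nd 0)) ≤ 2 ∧ ∀ b ∈ br (nd 0), ∃ m, b = P m
        rw [br_nd]
        exact ⟨by simp, fun b hb => absurd hb (notMem_zero _)⟩
      | succ k =>
        show card (br (nd {P k})) ≤ 2 ∧ ∀ b ∈ br (nd {P k}), ∃ m, b = P m
        rw [br_nd]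
        exact ⟨by simp, fun b hb => ⟨k, mem_singleton.1 hb⟩⟩
    · obtain ⟨j, hX, hs⟩ := pfr_single hk.symm
      subst hs
      exact pfr_pos _ _ _ hp 0 j rfl hX
  refine ⟨key.1, fun b hb => ?_⟩
  obtain ⟨m, rfl⟩ := key.2 b hb
  rw [size_P]
  rfl

end Pool.Agent.N203.DR
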