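import Pool.Agent.N203.DR.Stm

set_option autoImplicit false

/-! # Re-rooted trees and positions (leaf POS) -/

namespace Pool.Agent.N203.DR

open Multiset

private theorem pos_step {u X t : RT} (h : Pos u X t) :
    ∀ {t' : RT}, Stp t t' → t' = nd (X ::ₘ br u) ∨ Pos u X t' := by
  induction h with
  | root u s =>
    intro t' hs
    generalize ht : nd (u ::ₘ s) = t at hs
    cases hs with
    | mk A r =>
      have h1 := nd_inj ht
      rcases Multiset.cons_eq_cons.1 h1 with ⟨h2, h3⟩ | ⟨_, cs, h2, h3⟩
      · subst h2; subst h3
        exact Or.inl rfl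
      · subst h2; subst h3
        right
        apply Pos.step
        have h4 := Pos.root (nd (u ::ₘ cs)) (br A)
        rwa [nd_br] at h4
  | step u X s t h ih =>
    intro t' hs
    rcases ih hs with h1 | h1
    · right
      rw [h1, br_nd, Multiset.cons_swap]
      exact Pos.root u (X ::ₘ s)
    · right
      exact Pos.step u X s t' h1

theorem holds_POS : S_POS := by
  intro c t h
  induction h with
  | refl => exact Or.inl rfl
  | tail _ hs ih =>
    rcases ih with h1 | ⟨X, s, h1, h2⟩
    · subst h1
      cases hs with
      | mk A s =>
        right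
        refine ⟨A, s, rfl, ?_⟩
        have h4 := Pos.root (nd s) (br A)
        rwa [nd_br] at h4
    · rcases pos_step h2 hs with h3 | h3
      · left
        rw [h3, br_nd, h1]
      · exact Or.inr ⟨X, s, h1, h3⟩

end Pool.Agent.N203.DR
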