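import Pool.Agent.N203.DR.Stm

/-!
# Project DR, part PTH: a tree obtained from itself by prolonging the root is a path
-/

set_option autoImplicit false

namespace Pool.Agent.N203.DR

open Multiset

private theorem pth_inv {G t t' : RT} (h : Att G t t') :
    (∃ s, t = nd s ∧ t' = nd (G ::ₘ s)) ∨
    ∃ (s : Multiset RT) (b b' : RT), t = nd (b ::ₘ s) ∧ t' = nd (b' ::ₘ s) ∧ Att G b b' := by
  cases h with
  | root s => exact Or.inl ⟨s, rfl, rfl⟩
  | step s b b' hb => exact Or.inr ⟨s, b, b', rfl, rfl, hb⟩

private theorem pth_single {a b : RT} {s : Multiset RT} (h : ({a} : Multiset RT) = b ::ₘ s) :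
    s = 0 ∧ a = b := by
  have h1 : card ({a} : Multiset RT) = card (b ::ₘ s) := by rw [h]
  rw [card_singleton, card_cons] at h1
  have h2 : s = 0 := card_eq_zero.1 (by omega)
  subst h2
  refine ⟨rfl, ?_⟩
  rw [cons_zero] at h
  exact singleton_inj.1 h

theorem holds_PTH : S_PTH := by
  intro A
  refine RT.ind (P := fun A => Del A (nd {A}) → A = P (size A - 1)) ?_ A
  intro s ih h
  rcases pth_inv h with ⟨s1, h1, h2⟩ | ⟨s1, b, b', h1, h2, h3⟩
  · obtain ⟨h4, h5⟩ := pth_single (nd_inj h2)
    rw [h5, size_zero]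
    rfl
  · obtain ⟨h4, h5⟩ := pth_single (nd_inj h2)
    subst h4
    subst h5
    have h6 : s = {b} := nd_inj h1
    subst h6
    have h7 : b = P (size b - 1) := ih b (mem_singleton_self b) h3
    have h8 : size (nd {b}) - 1 = (size b - 1) + 1 := by
      have := size_pos b
      rw [size_nd, map_singleton, sum_singleton]
      omega
    rw [h8]
    show nd {b} = nd {P (size b - 1)}
    rw [← h7]

end Pool.Agent.N203.DR
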