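import Pool.Agent.N203.DR.Stm

/-!
# Project DR, leaf PTH2 (helper657)
-/

set_option autoImplicit false

namespace Pool.Agent.N203.DR

open Multiset

private theorem pth2_inv0 {G t' t : RT} (h : Att G t' t) (ht : t = nd 0) : False := by
  cases h with
  | root s => exact Multiset.cons_ne_zero (nd_inj ht)
  | step s b b' hb => exact Multiset.cons_ne_zero (nd_inj ht)

private theorem pth2_inv {G t' t b : RT} (h : Att G t' t) (ht : t = nd {b}) :
    (b = G ∧ t' = nd 0) ∨ ∃ b', Att G b' b ∧ t' = nd {b'} := by
  cases h with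
  | root s =>
    left
    have h1 := nd_inj ht
    have h2 : s = 0 := by
      have := congrArg Multiset.card h1
      rw [Multiset.card_cons, Multiset.card_singleton] at this
      exact Multiset.card_eq_zero.1 (by omega)
    subst h2
    have h3 : G = b := Multiset.singleton_inj.1 h1
    exact ⟨h3.symm, rfl⟩
  | step s c c' hc =>
    right
    have h1 := nd_inj ht
    have h2 : s = 0 := by
      have := congrArg Multiset.card h1
      rw [Multiset.card_cons, Multiset.card_singleton] at this
      exact Multiset.card_eq_zero.1 (by omega)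
    subst h2
    have h3 : c' = b := Multiset.singleton_inj.1 h1
    exact ⟨c, h3 ▸ hc, rfl⟩

private theorem pth2_path (k : ℕ) : ∀ t' : RT, Del t' (P k) → ∃ j, t' = P j := by
  induction k with
  | zero => intro t' h; exact (pth2_inv0 h rfl).elim
  | succ k ih =>
    intro t' h
    rcases pth2_inv h rfl with ⟨_, h2⟩ | ⟨b', h1, h2⟩
    · exact ⟨0, h2⟩
    · obtain ⟨j, rfl⟩ := ih b' h1
      exact ⟨j + 1, h2⟩

private theorem pth2_main (n : ℕ) : ∀ C D : RT, size D ≤ n → Del C (nd {nd {D}}) → Del D C →
    ∃ k, C = P k := by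
  induction n with
  | zero => intro C D h; have := size_pos D; omega
  | succ n ih =>
    intro C D hn h1 h2
    rcases pth2_inv h1 rfl with ⟨h3, _⟩ | ⟨F, h3, rfl⟩
    · exact (Multiset.singleton_ne_zero D (nd_inj h3)).elim
    · rcases pth2_inv h3 rfl with ⟨h4, rfl⟩ | ⟨D', h4, rfl⟩
      · exact ⟨1, rfl⟩
      · have h5 : size D = size D' + 1 := Del.size_eq h4
        obtain ⟨k, hk⟩ := ih D D' (by omega) h2 h4
        have h6 : Del D' (P k) := hk ▸ h4
        obtain ⟨j, rfl⟩ := pth2_path k D' h6
        exact ⟨j + 2, rfl⟩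

theorem holds_PTH2 : S_PTH2 := by
  intro C D h1 h2
  obtain ⟨k, rfl⟩ := pth2_main (size D) C D le_rfl h1 h2
  rw [size_P, Nat.add_sub_cancel]

end Pool.Agent.N203.DR
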