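import Pool.Agent.N203.DR.Stm

/-!
# Every rooted tree is exceptional or determined by two of its leaf deletions (helper945)
-/

set_option autoImplicit false

namespace Pool.Agent.N203.DR

open Multiset

/-- `X` is what remains of the branch `x` after the deletion of a leaf -/
def r2_Dl (X : Multiset RT) (x : RT) : Prop := (X = 0 ∧ x = nd 0) ∨ ∃ x', X = {x'} ∧ Del x' x

theorem r2_inv {t' t : RT} (h : Del t' t) : ∃ (X : Multiset RT) (x : RT) (w : Multiset RT),
    r2_Dl X x ∧ t' = nd (X + w) ∧ t = nd (x ::ₘ w) := by
  cases h with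
  | root s => exact ⟨0, nd 0, s, Or.inl ⟨rfl, rfl⟩, by rw [zero_add], rfl⟩
  | step s b b' h => exact ⟨{b}, b', s, Or.inr ⟨b, rfl, h⟩, by rw [singleton_add], rfl⟩

theorem r2_mk {X : Multiset RT} {x : RT} (w : Multiset RT) (h : r2_Dl X x) :
    Del (nd (X + w)) (nd (x ::ₘ w)) := by
  rcases h with ⟨rfl, rfl⟩ | ⟨x', rfl, h⟩
  · rw [zero_add]; exact Att.root w
  · rw [singleton_add]; exact Att.step w x' x h

theorem r2_size {X : Multiset RT} {x : RT} (h : r2_Dl X x) : (X.map size).sum + 1 = size x := by
  rcases h with ⟨rfl, rfl⟩ | ⟨x', rfl, h⟩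
  · simp
  · rw [h.size_eq]; simp

theorem r2_mem {X : Multiset RT} {x a : RT} (h : r2_Dl X x) (ha : a ∈ X) :
    size x = size a + 1 ∧ X = {a} ∧ Del a x := by
  rcases h with ⟨rfl, rfl⟩ | ⟨x', rfl, h⟩
  · simp at ha
  · rw [mem_singleton] at ha
    subst ha
    exact ⟨h.size_eq, rfl, h⟩

theorem r2_nm {X : Multiset RT} {x : RT} (h : r2_Dl X x) : x ∉ X := fun hx => by
  have := (r2_mem h hx).1
  omega

theorem r2_ex (x : RT) : ∃ X, r2_Dl X x := by
  induction x using RT.ind with
  | h s ih =>
    rcases Multiset.empty_or_exists_mem s with rfl | ⟨b, hb⟩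
    · exact ⟨0, Or.inl ⟨rfl, rfl⟩⟩
    · obtain ⟨s', rfl⟩ := Multiset.exists_cons_of_mem hb
      obtain ⟨X, hX⟩ := ih b hb
      exact ⟨{nd (X + s')}, Or.inr ⟨_, rfl, r2_mk s' hX⟩⟩

/-- two deletions in two different branches -/
theorem r2_core {C1 C2 : RT} {D1 D2 : Multiset RT} (U : Multiset RT) (hC : C1 ≠ C2)
    (h1 : r2_Dl D1 C1) (h2 : r2_Dl D2 C2) (hs : size C2 ≤ size C1) (hD : D1 ≠ D2)
    (hd : Del C2 C1 → D1 = {C2}) :
    RDet (nd (C1 ::ₘ C2 ::ₘ U)) (nd (D1 + (C2 ::ₘ U))) (nd (D2 + (C1 ::ₘ U))) := by
  refine ⟨r2_mk _ h1, ?_, ?_, ?_⟩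
  · rw [Multiset.cons_swap]
    exact r2_mk _ h2
  · intro h
    have e := nd_inj h
    have e2 : D1 + {C2} = D2 + {C1} := by
      have : (D1 + {C2}) + U = (D2 + {C1}) + U := by
        rw [add_assoc, singleton_add, e, add_assoc, singleton_add]
      exact add_right_cancel this
    have h3 : C1 ∈ D1 + {C2} := by rw [e2]; simp
    rw [mem_add, mem_singleton] at h3
    rcases h3 with h3 | h3
    · exact r2_nm h1 h3
    · exact hC h3
  · intro h k1 k2
    obtain ⟨X, x, w, hX, e1, rfl⟩ := r2_inv k1
    obtain ⟨Y, y, v, hY, e2, e3⟩ := r2_inv k2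
    replace e1 := nd_inj e1
    replace e2 := nd_inj e2
    replace e3 := nd_inj e3
    have key : D1 + {C2} + {x} + Y = D2 + {C1} + {y} + X := by
      have : (D1 + {C2} + {x} + Y) + U = (D2 + {C1} + {y} + X) + U := by
        calc (D1 + {C2} + {x} + Y) + U = (D1 + (C2 ::ₘ U)) + {x} + Y := by
              rw [← singleton_add C2 U]; abel
          _ = (x ::ₘ w) + X + Y := by rw [e1, ← singleton_add x w]; abel
          _ = (Y + v) + {y} + X := by rw [e3, ← singleton_add y v]; abel
          _ = (D2 + {C1} + {y} + X) + U := by rw [← e2, ← singleton_add C1 U]; abel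
      exact add_right_cancel this
    have goal1 : D1 + {x} = {C1} + X → nd (x ::ₘ w) = nd (C1 ::ₘ C2 ::ₘ U) := by
      intro g
      congr 1
      have : (x ::ₘ w) + X = (C1 ::ₘ C2 ::ₘ U) + X := by
        calc (x ::ₘ w) + X = (X + w) + {x} := by rw [← singleton_add x w]; abel
          _ = (D1 + {x}) + (C2 ::ₘ U) := by rw [← e1]; abel
          _ = (C1 ::ₘ C2 ::ₘ U) + X := by rw [g, ← singleton_add C1]; abel
      exact add_right_cancel this
    have m1 : C1 ∈ D1 + {C2} + {x} + Y := by rw [key]; simp
    simp only [mem_add, mem_singleton] at m1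
    rcases m1 with ((m1 | m1) | m1) | m1
    · exact absurd m1 (r2_nm h1)
    · exact absurd m1 hC
    · subst m1
      have key2 : D1 + {C2} + Y = D2 + {y} + X := by
        have : (D1 + {C2} + Y) + {C1} = (D2 + {y} + X) + {C1} := by
          calc (D1 + {C2} + Y) + {C1} = D1 + {C2} + {C1} + Y := by abel
            _ = D2 + {C1} + {y} + X := key
            _ = (D2 + {y} + X) + {C1} := by abel
        exact add_right_cancel this
      have m2 : C2 ∈ D2 + {y} + X := by rw [← key2]; simp
      simp only [mem_add, mem_singleton] at m2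
      rcases m2 with (m2 | m2) | m2
      · exact absurd m2 (r2_nm h2)
      · subst m2
        have key3 : D1 + Y = D2 + X := by
          have : (D1 + Y) + {C2} = (D2 + X) + {C2} := by
            calc (D1 + Y) + {C2} = D1 + {C2} + Y := by abel
              _ = D2 + {C2} + X := key2
              _ = (D2 + X) + {C2} := by abel
          exact add_right_cancel this
        apply goal1
        rcases h1 with ⟨rfl, rfl⟩ | ⟨d1, rfl, h1⟩
        · rcases hX with ⟨rfl, -⟩ | ⟨x', rfl, hX⟩
          · rw [add_comm]
          · have := hX.size_eq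
            have := size_pos x'
            rw [size_zero] at *
            omega
        · have m3 : d1 ∈ D2 + X := by rw [← key3]; simp
          rw [mem_add] at m3
          rcases m3 with m3 | m3
          · exact absurd (r2_mem h2 m3).2.1.symm hD
          · rw [(r2_mem hX m3).2.1, add_comm]
      · apply goal1
        rw [hd (r2_mem hX m2).2.2, (r2_mem hX m2).2.1, add_comm]
    · exfalso
      have a1 := r2_mem hY m1
      have m2 : y ∈ D1 + {C2} + {x} + Y := by rw [key]; simp
      simp only [mem_add, mem_singleton] at m2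
      rcases m2 with ((m2 | m2) | m2) | m2
      · have := (r2_mem h1 m2).1
        omega
      · subst m2
        omega
      · subst m2
        have key2 : D1 + {C2} = D2 + X := by
          have : (D1 + {C2}) + ({y} + {C1}) = (D2 + X) + ({y} + {C1}) := by
            calc (D1 + {C2}) + ({y} + {C1}) = D1 + {C2} + {y} + Y := by rw [a1.2.1]; abel
              _ = D2 + {C1} + {y} + X := key
              _ = (D2 + X) + ({y} + {C1}) := by abel
          exact add_right_cancel this
        have m3 : C2 ∈ D2 + X := by rw [← key2]; simp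
        rw [mem_add] at m3
        rcases m3 with m3 | m3
        · exact r2_nm h2 m3
        · rw [(r2_mem hX m3).2.1] at key2
          exact hD (add_right_cancel key2)
      · exact r2_nm hY m2

theorem r2_unif {b b1 b2 : RT} (n : ℕ) (h : RDet b b1 b2) :
    RDet (nd (replicate (n + 1) b)) (nd (b1 ::ₘ replicate n b)) (nd (b2 ::ₘ replicate n b)) := by
  obtain ⟨k1, k2, k3, k4⟩ := h
  rw [replicate_succ]
  refine ⟨Att.step _ _ _ k1, Att.step _ _ _ k2, ?_, ?_⟩
  · intro e
    have e1 := nd_inj e
    rw [Multiset.cons_inj_left] at e1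
    exact k3 e1
  · intro h j1 j2
    obtain ⟨X, x, w, hX, e1, rfl⟩ := r2_inv j1
    obtain ⟨Y, y, v, hY, e2, e3⟩ := r2_inv j2
    replace e1 := nd_inj e1
    replace e2 := nd_inj e2
    replace e3 := nd_inj e3
    have s1 := k1.size_eq
    have s2 := k2.size_eq
    set R := replicate n b with hR
    have key : {b1} + {x} + Y = {b2} + {y} + X := by
      have : ({b1} + {x} + Y) + R = ({b2} + {y} + X) + R := by
        calc ({b1} + {x} + Y) + R = (b1 ::ₘ R) + {x} + Y := by
              rw [← singleton_add b1 R]; abel
          _ = (x ::ₘ w) + X + Y := by rw [e1, ← singleton_add x w]; abel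
          _ = (Y + v) + {y} + X := by rw [e3, ← singleton_add y v]; abel
          _ = ({b2} + {y} + X) + R := by rw [← e2, ← singleton_add b2 R]; abel
      exact add_right_cancel this
    have m1 : b1 ∈ {b2} + {y} + X := by rw [← key]; simp
    simp only [mem_add, mem_singleton] at m1
    rcases m1 with (m1 | m1) | m1
    · exact absurd m1 k3
    · exfalso
      subst m1
      have key2 : {x} + Y = {b2} + X := by
        have : ({x} + Y) + {b1} = ({b2} + X) + {b1} := by
          calc ({x} + Y) + {b1} = {b1} + {x} + Y := by abel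
            _ = {b2} + {b1} + X := key
            _ = ({b2} + X) + {b1} := by abel
        exact add_right_cancel this
      have m2 : b2 ∈ {x} + Y := by rw [key2]; simp
      simp only [mem_add, mem_singleton] at m2
      rcases m2 with m2 | m2
      · subst m2
        have key3 : Y = X := add_left_cancel key2
        rcases hX with ⟨rfl, hx⟩ | ⟨x', rfl, hX⟩
        · rcases hY with ⟨-, hy⟩ | ⟨y', hy, -⟩
          · exact k3 (hy.trans hx.symm)
          · rw [key3] at hy
            exact absurd hy.symm (singleton_ne_zero y')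
        · have m3 : x' ∈ b1 ::ₘ R := by rw [e1]; simp
          rw [mem_cons] at m3
          have s3 := hX.size_eq
          rcases m3 with m3 | m3
          · rw [m3] at s3
            omega
          · rw [eq_of_mem_replicate m3] at s3
            omega
      · have := (r2_mem hY m2).1
        omega
    · have a1 := r2_mem hX m1
      have key2 : {x} + Y = {b2} + {y} := by
        have : ({x} + Y) + {b1} = ({b2} + {y}) + {b1} := by
          calc ({x} + Y) + {b1} = {b1} + {x} + Y := by abel
            _ = {b2} + {y} + {b1} := by rw [key, a1.2.1]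
            _ = ({b2} + {y}) + {b1} := by abel
        exact add_right_cancel this
      have m2 : b2 ∈ {x} + Y := by rw [key2]; simp
      simp only [mem_add, mem_singleton] at m2
      rcases m2 with m2 | m2
      · have := a1.1
        rw [← m2] at this
        omega
      · have a2 := r2_mem hY m2
        rw [a2.2.1, add_comm] at key2
        have e4 : x = y := by
          have := add_left_cancel key2
          exact singleton_inj.1 this
        subst e4
        have e5 := k4 x a1.2.2 a2.2.2
        rw [e5]
        congr 2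
        have e6 : b1 ::ₘ R = b1 ::ₘ w := by rw [e1, a1.2.1, singleton_add]
        exact ((Multiset.cons_inj_right b1).1 e6).symm

theorem holds_R2 (hom : S_HOM) : S_R2 := by
  intro t
  induction t using RT.ind with
  | h s ih =>
    by_cases hu : ∀ a ∈ s, ∀ b ∈ s, a = b
    · rcases Multiset.empty_or_exists_mem s with rfl | ⟨b, hb⟩
      · exact Or.inl Ex.zero
      · have hs : s = replicate (card s) b := by
          rw [eq_replicate]
          exact ⟨rfl, fun a ha => hu a ha b hb⟩
        rcases ih b hb with h | ⟨b1, b2, h⟩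
        · left
          rw [hs]
          exact Ex.rep _ _ h
        · right
          obtain ⟨n, hn⟩ : ∃ n, card s = n + 1 :=
            ⟨card s - 1, by have := card_pos_iff_exists_mem.2 ⟨b, hb⟩; omega⟩
          rw [hs, hn]
          exact ⟨_, _, r2_unif n h⟩
    · push Not at hu
      -- a good pair of branches is enough
      have good : ∀ (C1 C2 : RT) (D1 D2 : Multiset RT), C1 ∈ s → C2 ∈ s → C1 ≠ C2 →
          r2_Dl D1 C1 → r2_Dl D2 C2 → size C2 ≤ size C1 → D1 ≠ D2 → (Del C2 C1 → D1 = {C2}) →
          ∃ a1 a2, RDet (nd s) a1 a2 := by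
        intro C1 C2 D1 D2 m1 m2 hC h1 h2 hs hD hd
        obtain ⟨s', rfl⟩ := Multiset.exists_cons_of_mem m1
        rw [mem_cons] at m2
        have m3 : C2 ∈ s' := m2.resolve_left (Ne.symm hC)
        obtain ⟨U, rfl⟩ := Multiset.exists_cons_of_mem m3
        exact ⟨_, _, r2_core U hC h1 h2 hs hD hd⟩
      have gt : ∀ C1 C2 : RT, C1 ∈ s → C2 ∈ s → size C2 < size C1 →
          ∃ a1 a2, RDet (nd s) a1 a2 := by
        intro C1 C2 m1 m2 hlt
        have hC : C1 ≠ C2 := by
          rintro rfl
          omega
        obtain ⟨D2, h2⟩ := r2_ex C2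
        have hne : ∀ D1, r2_Dl D1 C1 → D1 ≠ D2 := by
          rintro D1 h1 rfl
          have := r2_size h1
          have := r2_size h2
          omega
        by_cases hd : Del C2 C1
        · have h1 : r2_Dl {C2} C1 := Or.inr ⟨C2, rfl, hd⟩
          exact good C1 C2 {C2} D2 m1 m2 hC h1 h2 hlt.le (hne _ h1) fun _ => rfl
        · obtain ⟨D1, h1⟩ := r2_ex C1
          exact good C1 C2 D1 D2 m1 m2 hC h1 h2 hlt.le (hne _ h1) fun h => absurd h hd
      by_cases hsz : ∀ a ∈ s, ∀ b ∈ s, size a = size b
      · by_cases hex : ∃ C1 C2 : RT, C1 ∈ s ∧ C2 ∈ s ∧ C1 ≠ C2 ∧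
            ∃ d1 d2, Del d1 C1 ∧ Del d2 C2 ∧ d1 ≠ d2
        · right
          obtain ⟨C1, C2, m1, m2, hC, d1, d2, h1, h2, hd⟩ := hex
          have e := hsz C1 m1 C2 m2
          refine good C1 C2 {d1} {d2} m1 m2 hC (Or.inr ⟨d1, rfl, h1⟩) (Or.inr ⟨d2, rfl, h2⟩)
            (by omega) (fun h => hd (singleton_inj.1 h)) fun h => ?_
          have := h.size_eq
          omega
        · left
          push Not at hex
          obtain ⟨C1, m1, C2, m2, hC⟩ := hu
          have H : ∀ a ∈ s, ∀ b ∈ s, a ≠ b →
              ∃ k, (a = P (k + 2) ∧ b = Yc k) ∨ (a = Yc k ∧ b = P (k + 2)) :=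
            fun a ha b hb hab => hom a b (hsz a ha b hb) hab fun D1 D2 g1 g2 =>
              hex a b ha hb hab D1 D2 g1 g2
          obtain ⟨k, hk⟩ := H C1 m1 C2 m2 hC
          have sC : size C1 = k + 3 := by
            rcases hk with ⟨rfl, -⟩ | ⟨rfl, -⟩
            · rw [size_P]
            · rw [size_Yc]
          refine Ex.mix k s fun b hb => ?_
          by_cases hbC : b = C1
          · rw [hbC]
            rcases hk with ⟨rfl, -⟩ | ⟨rfl, -⟩
            · exact Or.inl rfl
            · exact Or.inr rfl
          · obtain ⟨k', hk'⟩ := H b hb C1 m1 hbC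
            have sb : size b = k + 3 := (hsz b hb C1 m1).trans sC
            rcases hk' with ⟨rfl, -⟩ | ⟨rfl, -⟩
            · rw [size_P] at sb
              left
              congr 1
              omega
            · rw [size_Yc] at sb
              right
              congr 1
              omega
      · right
        push Not at hsz
        obtain ⟨a, ha, b, hb, hab⟩ := hsz
        rcases lt_or_gt_of_ne hab with h | h
        · exact gt b a hb ha h
        · exact gt a b ha hb h

end Pool.Agent.N203.DR
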