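import Pool.Agent.N203.DR.Stm

set_option autoImplicit false

namespace Pool.Agent.N203.DR

open Multiset

private theorem real_filter {V : Type} [Fintype V] (P : V → Prop) [DecidablePred P] (v : V)
    [DecidablePred fun w => P w ∧ w ≠ v] (hv : P v) :
    (Finset.univ.filter P).val = v ::ₘ (Finset.univ.filter fun w => P w ∧ w ≠ v).val := by
  classical
  refine (Multiset.Nodup.ext (Finset.nodup _) (Multiset.nodup_cons.mpr ⟨?_, Finset.nodup _⟩)).mpr ?_
  · intro h
    have := (Finset.mem_filter.mp (Finset.mem_val.mp h)).2.2
    exact this rfl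
  · intro a
    rw [Multiset.mem_cons, Finset.mem_val, Finset.mem_val, Finset.mem_filter, Finset.mem_filter]
    constructor
    · rintro ⟨-, h⟩
      by_cases ha : a = v
      · exact Or.inl ha
      · exact Or.inr ⟨Finset.mem_univ _, h, ha⟩
    · rintro (rfl | ⟨-, h, -⟩)
      · exact ⟨Finset.mem_univ _, hv⟩
      · exact ⟨Finset.mem_univ _, h⟩

theorem holds_REAL (fuel : S_FUEL) : S_REAL := by
  intro V _ G u t hG hst
  classical
  set n := Fintype.card V with hn
  generalize hc : code G u = c at hst
  cases hst with
  | mk A s =>
    have hc' : Multiset.map (fun w => cod G (Fintype.card V) u w)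
        (Finset.univ.filter fun w => G.Adj u w).val = A ::ₘ s := by
      have h := nd_inj hc
      rw [← h]
    have hA : A ∈ Multiset.map (fun w => cod G (Fintype.card V) u w)
        (Finset.univ.filter fun w => G.Adj u w).val := by
      rw [hc']
      exact Multiset.mem_cons_self _ _
    rw [Multiset.mem_map] at hA
    obtain ⟨v, hv, rfl⟩ := hA
    have huv : G.Adj u v := (Finset.mem_filter.mp (Finset.mem_val.mp hv)).2
    rw [real_filter (fun w => G.Adj u w) v huv, Multiset.map_cons, Multiset.cons_inj_right] at hc'
    refine ⟨v, huv, ?_⟩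
    have e1 : cod G (Fintype.card V) v u = nd s := by
      rw [← fuel V G v u (Fintype.card V) hG huv.symm (by omega), ← hc']
      rw [cod]
    have e2 : br (cod G (Fintype.card V) u v) = Multiset.map (fun w => cod G (Fintype.card V) v w)
        (Finset.univ.filter fun w => G.Adj v w ∧ w ≠ u).val := by
      rw [← fuel V G u v (Fintype.card V) hG huv (by omega), cod, br_nd]
    have e3 : code G v = nd (Multiset.map (fun w => cod G (Fintype.card V) v w)
        (Finset.univ.filter fun w => G.Adj v w).val) := by
      rw [code]
    rw [e3, real_filter (fun w => G.Adj v w) u huv.symm, Multiset.map_cons, e1, e2]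

end Pool.Agent.N203.DR
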