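import Pool.Agent.N203.DR.Stm

/-!
# DR/ROOT: the codes at adjacent vertices (helper935)
-/

set_option autoImplicit false

namespace Pool.Agent.N203.DR

open Multiset

open Classical in
private theorem root_split {V : Type} [Fintype V] (G : SimpleGraph V) {u v : V} (h : G.Adj u v) :
    (Finset.univ.filter fun w => G.Adj u w).val =
      v ::ₘ (Finset.univ.filter fun w => G.Adj u w ∧ w ≠ v).val := by
  have e : (Finset.univ.filter fun w => G.Adj u w) =
      Finset.cons v (Finset.univ.filter fun w => G.Adj u w ∧ w ≠ v) (by simp) := by
    ext w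
    simp only [Finset.mem_filter, Finset.mem_univ, true_and, Finset.mem_cons]
    constructor
    · intro hw
      by_cases hv : w = v
      · exact Or.inl hv
      · exact Or.inr ⟨hw, hv⟩
    · rintro (rfl | hw)
      · exact h
      · exact hw.1
  rw [e]
  rfl

open Classical in
private theorem root_code {V : Type} [Fintype V] (G : SimpleGraph V) {u v : V} (h : G.Adj u v) :
    code G u = nd (cod G (Fintype.card V) u v ::ₘ
      (Finset.univ.filter fun w => G.Adj u w ∧ w ≠ v).val.map
        fun w => cod G (Fintype.card V) u w) := by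
  unfold code
  rw [root_split G h, Multiset.map_cons]

open Classical in
private theorem root_cod {V : Type} [Fintype V] (fuel : S_FUEL) (G : SimpleGraph V)
    (hG : G.IsAcyclic) (u v : V) :
    cod G (Fintype.card V) u v = nd ((Finset.univ.filter fun w => G.Adj v w ∧ w ≠ u).val.map
        fun w => cod G (Fintype.card V) v w) := by
  obtain ⟨n, hn⟩ : ∃ n, Fintype.card V = n + 1 := by
    have : 0 < Fintype.card V := Fintype.card_pos_iff.2 ⟨u⟩
    exact ⟨Fintype.card V - 1, by omega⟩
  rw [hn]
  show nd ((Finset.univ.filter fun w => G.Adj v w ∧ w ≠ u).val.map fun w => cod G n v w) = _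
  congr 1
  refine Multiset.map_congr rfl fun w hw => ?_
  have hw' : G.Adj v w := ((Finset.mem_filter.1 hw).2).1
  exact (fuel V G v w n hG hw' (by omega)).symm

theorem holds_ROOT (fuel : S_FUEL) : S_ROOT := by
  intro V _ G u v hG h
  have h1 := root_code G h
  have h2 := root_code G h.symm
  have h3 := root_cod fuel G hG u v
  have h4 := root_cod fuel G hG v u
  rw [h4] at h2
  rw [h1, h2]
  have h6 := congrArg br h3
  rw [br_nd] at h6
  rw [← h6]
  exact Stp.mk _ _

end Pool.Agent.N203.DR
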