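import Pool.Agent.N203.DR.Stm

set_option autoImplicit false

namespace Pool.Agent.N203.DR

open Multiset

private theorem sel_inv {t' t : RT} (h : Del t' t) : (∃ s, t = nd (nd 0 ::ₘ s) ∧ t' = nd s) ∨
    ∃ b b' s, Del b' b ∧ t = nd (b ::ₘ s) ∧ t' = nd (b' ::ₘ s) := by
  unfold Del at h
  cases h with
  | root s => exact Or.inl ⟨s, rfl, rfl⟩
  | step s b b' hb => exact Or.inr ⟨b', b, s, hb, rfl, rfl⟩

private theorem sel_root (s : Multiset RT) : Del (nd s) (nd (nd 0 ::ₘ s)) := Att.root s

private theorem sel_step {b b' : RT} (s : Multiset RT) (h : Del b' b) : Del (nd (b' ::ₘ s)) (nd (b ::ₘ s)) :=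
  Att.step s b' b h

private theorem sel_step1 {b b' : RT} (h : Del b' b) : Del (nd {b'}) (nd {b}) :=
  sel_step 0 h

private theorem sel_nd0 (t : RT) (h : Del t (nd 0)) : False := by
  have h1 := h.size_eq
  have h2 := size_pos t
  rw [size_zero] at h1
  omega

private theorem sel_ex (A : RT) : A ≠ nd 0 → ∃ A1, Del A1 A := by
  induction A using RT.ind with
  | h s ih =>
    intro hA
    have hs : s ≠ 0 := fun h => hA (by rw [h])
    obtain ⟨b, hb⟩ := Multiset.exists_mem_of_ne_zero hs
    obtain ⟨s', rfl⟩ := Multiset.exists_cons_of_mem hb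
    by_cases h0 : b = nd 0
    · subst h0
      exact ⟨_, sel_root s'⟩
    · obtain ⟨b1, h1⟩ := ih b hb h0
      exact ⟨_, sel_step s' h1⟩

private theorem sel_cons_eq {a b : RT} {s : Multiset RT} (h : ({a} : Multiset RT) = b ::ₘ s) : a = b ∧ s = 0 := by
  have h1 : (a ::ₘ (0 : Multiset RT)) = b ::ₘ s := h
  rcases Multiset.cons_eq_cons.1 h1 with ⟨h2, h3⟩ | ⟨_, cs, h2, _⟩
  · exact ⟨h2, h3.symm⟩
  · exact absurd h2.symm (Multiset.cons_ne_zero)

private theorem sel_pair_eq {a c b : RT} {s : Multiset RT} (h : ({a, c} : Multiset RT) = b ::ₘ s) :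
    (a = b ∧ s = {c}) ∨ (c = b ∧ s = {a}) := by
  have h1 : (a ::ₘ ({c} : Multiset RT)) = b ::ₘ s := h
  rcases Multiset.cons_eq_cons.1 h1 with ⟨h2, h3⟩ | ⟨_, cs, h2, h3⟩
  · exact Or.inl ⟨h2, h3.symm⟩
  · obtain ⟨h4, h5⟩ := sel_cons_eq h2
    subst h5
    exact Or.inr ⟨h4, h3⟩

private theorem sel_one_two {a b c : RT} (h : nd {a} = nd {b, c}) : False := by
  have h1 := congrArg Multiset.card (nd_inj h)
  simp at h1

theorem holds_SEL (pth : S_PTH) : S_SEL := by
  intro A
  induction hn : size A using Nat.strong_induction_on generalizing A with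
  | _ n ih =>
    intro hP hD
    by_cases h1 : ∃ A', A = nd {A'}
    · obtain ⟨A', rfl⟩ := h1
      have hs : size A' < n := by
        rw [← hn, size_nd]
        simp
      have hP' : ∀ k, A' ≠ P k := fun k h => hP (k + 1) (by rw [h]; rfl)
      have hD' : ∀ k, ¬ Del (P k) A' := fun k h => hD (k + 1) (sel_step1 h)
      obtain ⟨B, hB, g1, g2⟩ := ih (size A') hs A' rfl hP' hD'
      refine ⟨nd {B}, sel_step1 hB, ?_, fun E hE => (sel_one_two hE).elim⟩
      intro A2 X hA2 hX1 hX2
      have e2 : A2 = A' := by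
        have := nd_inj hA2
        exact (Multiset.singleton_inj.1 this).symm
      subst e2
      rcases sel_inv hX2 with ⟨s, rfl, h3⟩ | ⟨b, b', s, hb, rfl, h3⟩
      · have h4 : s = {B} := (nd_inj h3).symm
        subst h4
        exfalso
        rcases sel_inv hX1 with ⟨s, h5, h6⟩ | ⟨b, b', s, hb, h5, h6⟩
        · have h7 : ({B} : Multiset RT) = s := (Multiset.cons_inj_right _).1 (nd_inj h5)
          subst h7
          rw [h6] at hB
          have h8 := pth B hB
          exact hP' (size B - 1 + 1) (by rw [h6]; exact congrArg (fun z => nd {z}) h8)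
        · rcases sel_pair_eq (nd_inj h5) with ⟨h7, h8⟩ | ⟨h7, h8⟩
          · rw [← h7] at hb
            exact sel_nd0 _ hb
          · subst h8
            rw [← h7] at hb
            exact g2 b' h6 hb
      · obtain ⟨h4, h5⟩ := sel_cons_eq (nd_inj h3)
        subst h4 h5
        rcases sel_inv hX1 with ⟨s, h5, h6⟩ | ⟨c, c', s, hc, h5, h6⟩
        · obtain ⟨h7, h8⟩ := sel_cons_eq (nd_inj h5)
          subst h8
          exact (hP' 0 h6).elim
        · obtain ⟨h7, h8⟩ := sel_cons_eq (nd_inj h5)
          subst h8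
          rw [← h7] at hc
          have h9 := g1 c' b h6 hc hb
          rw [h9]
          rfl
    · by_cases h2 : ∃ E, A = nd {E, nd 0}
      · obtain ⟨E, rfl⟩ := h2
        have hpc : (nd {E, nd 0} : RT) = nd (nd 0 ::ₘ {E}) := by
          rw [Multiset.pair_comm]
          rfl
        refine ⟨nd {E}, by rw [hpc]; exact sel_root _, fun A' X hA' => (sel_one_two hA'.symm).elim, ?_⟩
        intro E' hE' hd
        have e1 : E' = E := by
          have h3 := nd_inj hE'
          rw [Multiset.pair_comm, Multiset.pair_comm E'] at h3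
          have h4 : ({E} : Multiset RT) = {E'} := (Multiset.cons_inj_right _).1 h3
          exact (Multiset.singleton_inj.1 h4).symm
        subst e1
        have h3 := pth E' hd
        refine hD (size E' - 1 + 1) ?_
        rw [hpc]
        have h4 : P (size E' - 1 + 1) = nd {E'} := (congrArg (fun z => nd {z}) h3).symm
        rw [h4]
        exact sel_root _
      · have h0 : A ≠ nd 0 := hP 0
        obtain ⟨A1, hA1⟩ := sel_ex A h0
        exact ⟨A1, hA1, fun A' X hA' => (h1 ⟨A', hA'⟩).elim, fun E hE => (h2 ⟨E, hE⟩).elim⟩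

end Pool.Agent.N203.DR
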