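import Pool.Agent.N203.DR.Stm

set_option autoImplicit false
set_option linter.unusedSectionVars false

namespace Pool.Agent.N203.DR

open Multiset

section

variable {V : Type} [Fintype V]

open Classical in
/-- the vertices which are reached from `v` by paths of length at most `k` which avoid `p` -/
private noncomputable def size_B (G : SimpleGraph V) (k : ℕ) (p v : V) : Finset V :=
  Finset.univ.filter fun w => ∃ q : G.Walk v w, q.IsPath ∧ p ∉ q.support ∧ q.length ≤ k

open Classical in
private theorem size_mem {G : SimpleGraph V} {k : ℕ} {p v w : V} :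
    w ∈ size_B G k p v ↔ ∃ q : G.Walk v w, q.IsPath ∧ p ∉ q.support ∧ q.length ≤ k := by
  unfold size_B
  simp

private theorem size_snd {G : SimpleGraph V} (hG : G.IsAcyclic) {v u u' w : V} (h : G.Adj v u)
    (h' : G.Adj v u') (q : G.Walk u w) (q' : G.Walk u' w) (hq : q.IsPath) (hq' : q'.IsPath)
    (hv : v ∉ q.support) (hv' : v ∉ q'.support) : u = u' := by
  have h1 : (SimpleGraph.Walk.cons h q).IsPath := by
    rw [SimpleGraph.Walk.cons_isPath_iff]
    exact ⟨hq, hv⟩
  have h2 : (SimpleGraph.Walk.cons h' q').IsPath := by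
    rw [SimpleGraph.Walk.cons_isPath_iff]
    exact ⟨hq', hv'⟩
  have h3 := (hG.subsingleton_path v w).elim ⟨_, h1⟩ ⟨_, h2⟩
  have h4 := congrArg (fun p : G.Path v w => p.1.snd) h3
  simpa using h4

private theorem size_disj {G : SimpleGraph V} (hG : G.IsAcyclic) (k : ℕ) {v u u' : V}
    (h : G.Adj v u) (h' : G.Adj v u') (hne : u ≠ u') :
    Disjoint (size_B G k v u) (size_B G k v u') := by
  rw [Finset.disjoint_left]
  intro w hw hw'
  obtain ⟨q, hq, hv, -⟩ := size_mem.1 hw
  obtain ⟨q', hq', hv', -⟩ := size_mem.1 hw'
  exact hne (size_snd hG h h' q q' hq hq' hv hv')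

private theorem size_avoid {G : SimpleGraph V} (hG : G.IsAcyclic) {p v u w : V} (hp : G.Adj p v)
    (h : G.Adj v u) (hne : u ≠ p) (q : G.Walk u w) (hq : q.IsPath) (hv : v ∉ q.support) :
    p ∉ q.support := by
  classical
  intro hpq
  refine hne (size_snd hG h hp.symm (q.takeUntil p hpq) SimpleGraph.Walk.nil
    (hq.takeUntil hpq) SimpleGraph.Walk.IsPath.nil ?_ ?_)
  · intro hc
    exact hv (SimpleGraph.Walk.support_takeUntil_subset_support q hpq hc)
  · rw [SimpleGraph.Walk.support_nil, List.mem_singleton]
    exact hp.ne.symm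

open Classical in
private theorem size_cod {G : SimpleGraph V} (hG : G.IsAcyclic) : ∀ (k : ℕ) (p v : V),
    G.Adj p v → size (cod G k p v) = (size_B G k p v).card
  | 0, p, v, hp => by
    have h : size_B G 0 p v = {v} := by
      ext w
      rw [size_mem, Finset.mem_singleton]
      constructor
      · rintro ⟨q, -, -, h⟩
        exact (SimpleGraph.Walk.eq_of_length_eq_zero (Nat.le_zero.1 h)).symm
      · rintro rfl
        refine ⟨SimpleGraph.Walk.nil, SimpleGraph.Walk.IsPath.nil, ?_, le_refl _⟩
        rw [SimpleGraph.Walk.support_nil, List.mem_singleton]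
        exact hp.ne
    rw [h, cod, size_zero, Finset.card_singleton]
  | k + 1, p, v, hp => by
    have h : size_B G (k + 1) p v = insert v
        ((Finset.univ.filter fun w => G.Adj v w ∧ w ≠ p).biUnion fun u => size_B G k v u) := by
      ext w
      rw [size_mem, Finset.mem_insert, Finset.mem_biUnion]
      constructor
      · rintro ⟨q, hq, hpq, h⟩
        cases q with
        | nil => exact Or.inl rfl
        | cons h1 q1 =>
          rename_i u
          rw [SimpleGraph.Walk.cons_isPath_iff] at hq
          rw [SimpleGraph.Walk.support_cons, List.mem_cons, not_or] at hpq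
          rw [SimpleGraph.Walk.length_cons] at h
          refine Or.inr ⟨u, ?_, size_mem.2 ⟨q1, hq.1, hq.2, by omega⟩⟩
          rw [Finset.mem_filter]
          refine ⟨Finset.mem_univ _, h1, ?_⟩
          rintro rfl
          exact hpq.2 q1.start_mem_support
      · rintro (rfl | ⟨u, hu, hw⟩)
        · refine ⟨SimpleGraph.Walk.nil, SimpleGraph.Walk.IsPath.nil, ?_, Nat.zero_le _⟩
          rw [SimpleGraph.Walk.support_nil, List.mem_singleton]
          exact hp.ne
        · rw [Finset.mem_filter] at hu
          obtain ⟨q, hq, hv, hl⟩ := size_mem.1 hw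
          refine ⟨SimpleGraph.Walk.cons hu.2.1 q, ?_, ?_, ?_⟩
          · rw [SimpleGraph.Walk.cons_isPath_iff]
            exact ⟨hq, hv⟩
          · rw [SimpleGraph.Walk.support_cons, List.mem_cons, not_or]
            exact ⟨hp.ne, size_avoid hG hp hu.2.1 hu.2.2 q hq hv⟩
          · rw [SimpleGraph.Walk.length_cons]
            omega
    rw [h, Finset.card_insert_of_notMem, Finset.card_biUnion, cod, size_nd, Multiset.map_map,
      add_comm]
    · congr 1
      change ((Finset.univ.filter fun w => G.Adj v w ∧ w ≠ p).val.map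
        (size ∘ fun w => cod G k v w)).sum = _
      rw [Finset.sum_eq_multiset_sum]
      congr 1
      apply Multiset.map_congr rfl
      intro u hu
      have hu' : u ∈ Finset.univ.filter fun w => G.Adj v w ∧ w ≠ p := hu
      rw [Finset.mem_filter] at hu'
      exact size_cod hG k v u hu'.2.1
    · intro u hu u' hu' hne
      rw [Finset.mem_coe, Finset.mem_filter] at hu hu'
      exact size_disj hG k hu.2.1 hu'.2.1 hne
    · rw [Finset.mem_biUnion]
      rintro ⟨u, -, hu⟩
      obtain ⟨q, -, hv, -⟩ := size_mem.1 hu
      exact hv q.end_mem_support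

end

open Classical in
theorem holds_SIZE : S_SIZE := by
  intro V _ G r hG
  have h : {v : V | G.Reachable r v} = ((insert r
      ((Finset.univ.filter fun w => G.Adj r w).biUnion fun u => size_B G (Fintype.card V) r u) :
        Finset V) : Set V) := by
    ext w
    rw [Set.mem_ofPred_eq, Finset.mem_coe, Finset.mem_insert, Finset.mem_biUnion]
    constructor
    · rintro ⟨q0⟩
      obtain ⟨q, hq⟩ := q0.toPath
      cases q with
      | nil => exact Or.inl rfl
      | cons h1 q1 =>
        rename_i u
        rw [SimpleGraph.Walk.cons_isPath_iff] at hq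
        refine Or.inr ⟨u, ?_, size_mem.2 ⟨q1, hq.1, hq.2, hq.1.length_lt.le⟩⟩
        rw [Finset.mem_filter]
        exact ⟨Finset.mem_univ _, h1⟩
    · rintro (rfl | ⟨u, hu, hw⟩)
      · exact SimpleGraph.Reachable.refl _
      · rw [Finset.mem_filter] at hu
        obtain ⟨q, -, -, -⟩ := size_mem.1 hw
        exact ⟨SimpleGraph.Walk.cons hu.2 q⟩
  rw [h, Set.ncard_coe_finset, Finset.card_insert_of_notMem, Finset.card_biUnion, code, size_nd,
    Multiset.map_map, add_comm]
  · congr 1
    change ((Finset.univ.filter fun w => G.Adj r w).val.map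
      (size ∘ fun w => cod G (Fintype.card V) r w)).sum = _
    rw [Finset.sum_eq_multiset_sum]
    congr 1
    apply Multiset.map_congr rfl
    intro u hu
    have hu' : u ∈ Finset.univ.filter fun w => G.Adj r w := hu
    rw [Finset.mem_filter] at hu'
    exact size_cod hG _ r u hu'.2
  · intro u hu u' hu' hne
    rw [Finset.mem_coe, Finset.mem_filter] at hu hu'
    exact size_disj hG _ hu.2 hu'.2 hne
  · rw [Finset.mem_biUnion]
    rintro ⟨u, -, hu⟩
    obtain ⟨q, -, hv, -⟩ := size_mem.1 hu
    exact hv q.end_mem_support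

end Pool.Agent.N203.DR
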