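import Pool.Agent.N203.DR.Stm

/-!
# The spiders with three legs: only one vertex of degree three
-/

set_option autoImplicit false

namespace Pool.Agent.N203.DR

open Multiset

private theorem spi_br (j : ℕ) : card (br (P j)) ≤ 1 ∧ ∀ X ∈ br (P j), ∃ i, X = P i := by
  cases j with
  | zero =>
    have h : br (P 0) = 0 := br_nd 0
    rw [h]
    exact ⟨by simp, fun X hX => absurd hX (Multiset.notMem_zero X)⟩
  | succ j =>
    have h : br (P (j + 1)) = {P j} := br_nd {P j}
    rw [h]
    exact ⟨by simp, fun X hX => ⟨j, Multiset.mem_singleton.1 hX⟩⟩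

private theorem spi_pos {u X t : RT} (h : Pos u X t) : ∀ j, X = P j → card (br t) ≤ 2 := by
  induction h with
  | root c s =>
    intro j hj
    have h1 := (spi_br j).1
    rw [← hj, br_nd] at h1
    rw [br_nd, Multiset.card_cons]
    omega
  | step c X s t _ ih =>
    intro j hj
    have h1 := (spi_br j).2 X
    rw [← hj, br_nd] at h1
    obtain ⟨i, hi⟩ := h1 (Multiset.mem_cons_self X s)
    exact ih i hi

theorem holds_SPI (pos : S_POS) : S_SPI := by
  intro a b c t hf hc
  rcases pos _ t hf with h | ⟨X, s, h, hp⟩
  · exact h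
  · exfalso
    have h1 := nd_inj h
    have hX : X ∈ ({P a, P b, P c} : Multiset RT) := by
      rw [h1]
      exact Multiset.mem_cons_self X s
    have h2 : ∃ j, X = P j := by
      simp only [Multiset.insert_eq_cons, Multiset.mem_cons, Multiset.mem_singleton] at hX
      rcases hX with h | h | h
      · exact ⟨a, h⟩
      · exact ⟨b, h⟩
      · exact ⟨c, h⟩
    obtain ⟨j, hj⟩ := h2
    have h3 := spi_pos hp j hj
    omega

end Pool.Agent.N203.DR
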