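import Pool.Agent.N203.DR.Stm

/-!
# Exceptional trees with at least three branches at the root (helper953)
-/

set_option autoImplicit false

namespace Pool.Agent.N203.DR

open Multiset

/-- the number of vertices of a free tree -/
def x1_fsz : FT → ℕ := Quot.lift size fun _ _ h => Stp.size_eq h

theorem x1_map (s : Multiset RT) : (fc s).map x1_fsz = s.map size := by
  unfold fc
  rw [Multiset.map_map]
  rfl

theorem x1_mem {s s' : Multiset RT} (h : fc s = fc s') {w : ℕ} (hs : ∀ b ∈ s', size b = w) :
    ∀ b ∈ s, size b = w := by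
  intro b hb
  have h1 : size b ∈ s.map size := Multiset.mem_map_of_mem size hb
  rw [← x1_map, h, x1_map, Multiset.mem_map] at h1
  obtain ⟨b', hb', he⟩ := h1
  rw [← he]
  exact hs b' hb'

theorem x1_card {s s' : Multiset RT} (h : fc s = fc s') : card s = card s' := by
  have h1 := congrArg card h
  unfold fc at h1
  rwa [Multiset.card_map, Multiset.card_map] at h1

theorem x1_sum {s : Multiset RT} {w : ℕ} (hs : ∀ b ∈ s, size b = w) :
    (s.map size).sum = card s * w := by
  rw [Multiset.map_congr rfl hs, Multiset.map_const', Multiset.sum_replicate, smul_eq_mul]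

theorem x1_size {s s' : Multiset RT} (h : fc s = fc s') : size (nd s) = size (nd s') := by
  rw [size_nd, size_nd, ← x1_map, h, x1_map]

theorem x1_lt {b t : RT} (h : b ∈ br t) : size b < size t := by
  rw [size_eq t]
  have := Multiset.le_sum_of_mem (Multiset.mem_map_of_mem size h)
  omega

theorem holds_X1 (off : S_OFF) (cen2 : S_CEN2) (exd : S_EXD) (exb : S_EXB) : S_X1 := by
  intro t ht hd _
  obtain ⟨hex, w, hw⟩ := exb t ht
  obtain ⟨C, hC⟩ : ∃ C, C ∈ br t := by
    rw [← Multiset.card_pos_iff_exists_mem]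
    omega
  obtain ⟨s, hs⟩ := Multiset.exists_cons_of_mem hC
  obtain rfl : t = nd (C ::ₘ s) := by rw [← hs, nd_br]
  rw [br_nd] at hex hw hd
  have hCw : size C = w := hw C (mem_cons_self C s)
  have hw0 : 0 < w := by
    rw [← hCw]
    exact size_pos C
  have hsw : ∀ b ∈ s, size b = w := fun b hb => hw b (mem_cons_of_mem hb)
  have hk : 2 ≤ card s := by
    rw [card_cons] at hd
    omega
  have hsz : size (nd s) = 1 + card s * w := by rw [size_nd, x1_sum hsw]
  have hN : size (nd (C ::ₘ s)) = 1 + w + card s * w := by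
    rw [size_nd, map_cons, sum_cons, x1_sum hsw, hCw]
    omega
  have h2w : 2 * w ≤ card s * w := Nat.mul_le_mul_right w hk
  refine ⟨nd (C ::ₘ s), nd (nd s ::ₘ br C), Fr.refl' _, Fr.of (Stp.mk C s), ?_,
    Or.inr (Or.inr ?_), ?_⟩
  · intro h
    have h1 : nd s ∈ C ::ₘ s := by
      rw [nd_inj h]
      exact mem_cons_self _ _
    have h3 := hw _ h1
    omega
  · intro a ha b hb
    rw [br_nd] at ha hb
    have h1 := hw a ha
    rw [mem_cons] at hb
    rcases hb with rfl | hb
    · omega
    · have h3 := x1_lt hb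
      omega
  · intro h1 h2 h12 hf1 hf2
    rw [br_nd] at hf1 hf2
    have a1 : ∀ b ∈ br h1, size b = w := x1_mem hf1 hw
    have a2 : card (br h1) = card s + 1 := by rw [x1_card hf1, card_cons]
    have a3 : size h1 = 1 + w + card s * w := by rw [← nd_br h1, x1_size hf1, hN]
    have hf2' : (br h2).map (Quot.mk Stp) = (Quot.mk Stp (nd s) : FT) ::ₘ fc (br C) := by
      have h3 : fc (nd s ::ₘ br C) = (Quot.mk Stp (nd s) : FT) ::ₘ fc (br C) :=
        Multiset.map_cons _ _ _
      rw [← h3]
      exact hf2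
    obtain ⟨B, hB, hB1, hB2⟩ := (Multiset.map_eq_cons (Quot.mk Stp) (br h2) (fc (br C))
      (Quot.mk Stp (nd s))).mpr hf2'
    obtain ⟨Z, hZ⟩ : ∃ Z, Z = (br h2).erase B := ⟨_, rfl⟩
    rw [← hZ] at hB2
    have hB3 : Fr B (nd s) := mk_eq.mp hB1
    have hZC : fc Z = fc (br C) := hB2
    have hg : Stp h2 (nd (nd Z ::ₘ br B)) := by
      have h3 := Stp.mk B Z
      rwa [hZ, Multiset.cons_erase hB, nd_br, ← hZ] at h3
    have hg1 : Fr h1 (nd (nd Z ::ₘ br B)) := h12.trans' (Fr.of hg)
    have hZs : size (nd Z) = w := by rw [x1_size hZC, nd_br, hCw]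
    have hBs : size B = 1 + card s * w := by rw [hB3.size_eq, hsz]
    have hgh : nd (nd Z ::ₘ br B) = h1 := by
      rcases off h1 _ w hg1 (fun b hb => (a1 b hb).le) with h3 | ⟨b, hb, h3⟩
      · exact h3
      · exfalso
        rw [br_nd, mem_cons] at hb
        rcases hb with rfl | hb
        · omega
        · have h4 := x1_lt hb
          omega
    have hbr : br h1 = nd Z ::ₘ br B := by rw [← hgh, br_nd]
    have b1 : ∀ b ∈ br B, size b = w := fun b hb => a1 b (by rw [hbr]; exact mem_cons_of_mem hb)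
    have hcB : Cen B := by
      intro b hb
      rw [b1 b hb, hBs]
      omega
    have hcs : Cen (nd s) := by
      intro b hb
      rw [br_nd] at hb
      rw [hsw b hb, hsz]
      omega
    have hBe : B = nd s := by
      rcases cen2 B (nd s) hB3 hcB hcs with h3 | ⟨A, s', h3, -, h4⟩
      · exact h3
      · exfalso
        have h5 : size A = w := b1 A (by rw [h3, br_nd]; exact mem_cons_self _ _)
        omega
    have h6 : fc (nd Z ::ₘ s) = fc (C ::ₘ s) := by
      rw [← hf1, hbr, hBe, br_nd]
    unfold fc at h6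
    rw [Multiset.map_cons, Multiset.map_cons, Multiset.cons_inj_left] at h6
    have h7 : nd Z = C := exd C Z (hex C (mem_cons_self _ _)) (mk_eq.mp h6) hZC
    have h8 : h1 = nd (C ::ₘ s) := by
      rw [← nd_br h1, hbr, h7, hBe, br_nd]
    rw [h8]
    exact Fr.refl' _

end Pool.Agent.N203.DR
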