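import Pool.Agent.N203.DR.Stm

/-!
# Project DR, leaf X2 (helper390)
-/

set_option autoImplicit false

namespace Pool.Agent.N203.DR

open Multiset

/-- the free tree of a rooted tree -/
private def x2_q (t : RT) : FT := Quot.mk Stp t

private theorem x2_fc (s : Multiset RT) : fc s = s.map x2_q := rfl

private theorem x2_fc_cons (b : RT) (s : Multiset RT) : fc (b ::ₘ s) = x2_q b ::ₘ fc s :=
  Multiset.map_cons _ _ _

private theorem x2_eq {a b : RT} (h : x2_q a = x2_q b) : Fr a b := mk_eq.1 h

/-- the size of a free tree -/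
private def x2_fs : FT → ℕ := Quot.lift size fun _ _ h => h.size_eq

private theorem x2_map (s : Multiset RT) : (fc s).map x2_fs = s.map size := by
  rw [x2_fc, Multiset.map_map]
  rfl

private theorem x2_sum {s s' : Multiset RT} (h : fc s = fc s') : size (nd s) = size (nd s') := by
  rw [size_nd, size_nd, ← x2_map s, ← x2_map s', h]

private theorem x2_br_lt {b t : RT} (h : b ∈ br t) : size b < size t := by
  have h1 : size b ≤ ((br t).map size).sum :=
    Multiset.single_le_sum (fun _ _ => Nat.zero_le _) _ (Multiset.mem_map_of_mem size h)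
  rw [size_eq t]
  omega

private theorem x2_cons {s : Multiset RT} {a : FT} {w : Multiset FT} (h : fc s = a ::ₘ w) :
    ∃ (b : RT) (s' : Multiset RT), s = b ::ₘ s' ∧ x2_q b = a ∧ fc s' = w := by
  have h1 : a ∈ fc s := by
    rw [h]
    exact Multiset.mem_cons_self a w
  rw [x2_fc] at h1
  obtain ⟨b, hb, hba⟩ := Multiset.mem_map.1 h1
  obtain ⟨s', rfl⟩ := Multiset.exists_cons_of_mem hb
  refine ⟨b, s', rfl, hba, ?_⟩
  have h2 : x2_q b ::ₘ fc s' = a ::ₘ w := by
    rw [← h, x2_fc_cons]
  rw [hba] at h2
  exact (Multiset.cons_inj_right a).1 h2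

private theorem x2_zero {s : Multiset RT} (h : fc s = 0) : s = 0 := Multiset.map_eq_zero.1 h

theorem holds_X2 (off : S_OFF) (hpg : S_HPG) (exd : S_EXD) (_exb : S_EXB) : S_X2 := by
  intro A hA hm
  have hst : Stp (nd {A, A}) (nd (nd {A} ::ₘ br A)) := Stp.mk A {A}
  have hsz : size (nd {A}) = size A + 1 := by
    rw [size_nd, Multiset.map_singleton, Multiset.sum_singleton, Nat.add_comm]
  refine ⟨nd {A, A}, nd (nd {A} ::ₘ br A), Fr.refl' _, Fr.of hst, ?_, Or.inr (Or.inr ?_), ?_⟩
  · intro h
    have h1 := nd_inj h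
    have h2 : nd {A} ∈ ({A, A} : Multiset RT) := by
      rw [h1]
      exact Multiset.mem_cons_self _ _
    have h3 : nd {A} = A := by simpa using h2
    have h4 := congrArg size h3
    omega
  · intro a ha b hb
    rw [br_nd] at ha hb
    have h1 : a = A := by simpa using ha
    rw [h1]
    rcases Multiset.mem_cons.1 hb with rfl | hb
    · omega
    · have h2 := x2_br_lt hb
      omega
  · intro h1 h2 h12 e1 e2
    rw [br_nd] at e1 e2
    have e1' : fc (br h1) = x2_q A ::ₘ {x2_q A} := by
      rw [e1]
      rfl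
    have e2' : fc (br h2) = x2_q (nd {A}) ::ₘ fc (br A) := by
      rw [e2, x2_fc_cons]
    obtain ⟨B, Z, hBZ, hB, hZ⟩ := x2_cons e2'
    have hBF : Fr B (nd {A}) := x2_eq hB
    have hBs : size B = size A + 1 := by rw [hBF.size_eq, hsz]
    have hZs : size (nd Z) = size A := by rw [x2_sum hZ, nd_br]
    have hg : Fr h1 (nd (nd Z ::ₘ br B)) := by
      refine h12.trans' ?_
      rw [← nd_br h2, hBZ]
      exact Fr.of (Stp.mk B Z)
    have hs1 : ∀ b ∈ br h1, size b = size A := by
      intro b hb
      have h3 : x2_q b ∈ fc (br h1) := Multiset.mem_map_of_mem x2_q hb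
      rw [e1'] at h3
      have h4 : x2_q b = x2_q A := by simpa using h3
      exact (x2_eq h4).size_eq
    have hh1 : size h1 = 2 * size A + 1 := by
      have h3 : ((br h1).map size).sum = size A + size A := by
        rw [← x2_map, e1']
        rfl
      rw [size_eq h1, h3]
      omega
    have hgh : nd (nd Z ::ₘ br B) = h1 := by
      rcases off h1 _ (size A) hg (fun b hb => (hs1 b hb).le) with h3 | ⟨b, hb, h3⟩
      · exact h3
      · exfalso
        rw [br_nd] at hb
        rcases Multiset.mem_cons.1 hb with rfl | hb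
        · omega
        · have h4 := x2_br_lt hb
          omega
    have e3 : x2_q (nd Z) ::ₘ fc (br B) = x2_q A ::ₘ {x2_q A} := by
      rw [← e1', ← hgh, br_nd, x2_fc_cons]
    have hZA : x2_q (nd Z) = x2_q A := by
      have h3 : x2_q (nd Z) ∈ (x2_q A ::ₘ {x2_q A} : Multiset FT) := by
        rw [← e3]
        exact Multiset.mem_cons_self _ _
      simpa using h3
    rw [hZA] at e3
    have e4 : fc (br B) = x2_q A ::ₘ 0 := (Multiset.cons_inj_right _).1 e3
    obtain ⟨X, s, hs, hX, hs0⟩ := x2_cons e4
    rw [x2_zero hs0] at hs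
    have hXA : X = A := by
      refine hpg (nd 0) X A (x2_eq hX) ?_
      have h3 : Fr (nd (X ::ₘ 0)) (nd {A}) := by
        rw [← hs, nd_br]
        exact hBF
      rw [br_nd]
      exact h3
    have hZA' : nd Z = A := exd A Z hA (x2_eq hZA) hZ
    have h5 : h1 = nd {A, A} := by
      rw [← hgh, hZA', hs, hXA]
      rfl
    rw [h5]
    exact Fr.refl' _

end Pool.Agent.N203.DR
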