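import Pool.Agent.N203.DR.Stm

/-!
# Project DR (helper203), part X3a (helper82)
-/

set_option autoImplicit false

namespace Pool.Agent.N203.DR

open Multiset

private def x3aSz : FT → ℕ := Quot.lift size fun _ _ h => h.size_eq

private theorem x3a_fc_size {s s' : Multiset RT} (h : fc s = fc s') :
    s.map size = s'.map size := by
  have e : ∀ s : Multiset RT, s.map size = (fc s).map x3aSz := by
    intro s
    unfold fc
    rw [Multiset.map_map]
    rfl
  rw [e s, e s', h]

private theorem x3a_fc_cons {s : Multiset RT} {a : RT} {t : Multiset RT}
    (h : fc s = fc (a ::ₘ t)) : ∃ (b : RT) (s' : Multiset RT), s = b ::ₘ s' ∧ Fr b a ∧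
      fc s' = fc t := by
  classical
  unfold fc at h
  rw [Multiset.map_cons] at h
  obtain ⟨b, hb, h1, h2⟩ := (Multiset.map_eq_cons _ _ _ _).2 h
  exact ⟨b, s.erase b, (Multiset.cons_erase hb).symm, mk_eq.1 h1, h2⟩

private theorem x3a_fc_zero {s : Multiset RT} (h : fc s = fc 0) : s = 0 := by
  unfold fc at h
  rw [Multiset.map_zero] at h
  exact Multiset.map_eq_zero.1 h

private theorem x3a_mem_lt {t b : RT} (h : b ∈ br t) : size b + 1 ≤ size t := by
  rw [size_eq t]
  have := Multiset.single_le_sum (s := (br t).map size) (fun _ _ => Nat.zero_le _) (size b)
    (Multiset.mem_map_of_mem _ h)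
  omega

private theorem x3a_PB {u X t : RT} (h : Pos u X t) :
    t = nd (u ::ₘ br X) ∨ ∃ b ∈ br t, size u + 1 ≤ size b := by
  induction h with
  | root c s =>
    left
    rw [br_nd]
  | step c X s t _ ih =>
    right
    rcases ih with h | ⟨b, hb, h⟩
    · refine ⟨nd (c ::ₘ s), ?_, ?_⟩
      · rw [h, br_nd]
        exact Multiset.mem_cons_self _ _
      · rw [size_nd, Multiset.map_cons, Multiset.sum_cons]
        omega
    · refine ⟨b, hb, ?_⟩
      rw [size_nd, Multiset.map_cons, Multiset.sum_cons] at h
      omega

/-- a branch at the end of a path with two edges is determined -/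
private theorem x3a_two (hpg : S_HPG) {X Y : RT} (h : Fr X Y)
    (h' : Fr (nd {nd {X}}) (nd {nd {Y}})) : X = Y := by
  have e : ∀ X : RT, Stp (nd {nd {X}}) (nd (X ::ₘ br (nd {nd 0}))) := by
    intro X
    have := Stp.mk (nd {X}) 0
    rw [br_nd] at this ⊢
    rw [show (X ::ₘ ({nd 0} : Multiset RT)) = nd 0 ::ₘ {X} by
      rw [← Multiset.cons_zero, ← Multiset.cons_zero X, Multiset.cons_swap]]
    exact this
  exact hpg (nd {nd 0}) X Y h
    (((Fr.of (e X)).symm'.trans' h').trans' (Fr.of (e Y)))

theorem holds_X3a (pos : S_POS) (hpg : S_HPG) (exd : S_EXD) (exb : S_EXB) (cen2 : S_CEN2) :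
    S_X3a := by
  intro A hA hc hm
  obtain ⟨A', hA'⟩ := Multiset.card_eq_one.1 hc
  have eA : A = nd {A'} := by rw [← nd_br A, hA']
  have hexA' : Ex A' := (exb A hA).1 A' (by rw [hA']; exact Multiset.mem_singleton_self _)
  have hsA : size A = size A' + 1 := by
    rw [eA, size_nd, Multiset.map_singleton, Multiset.sum_singleton]
    omega
  have hsnA : size (nd {A}) = size A + 1 := by
    rw [size_nd, Multiset.map_singleton, Multiset.sum_singleton]
    omega
  refine ⟨nd {A, A'}, nd (nd {A} ::ₘ br A'), ?_, ?_, ?_, ?_, ?_⟩
  · rw [hA']
    exact Fr.refl' _
  · have := Stp.mk A' {A}
    rw [show ({A, A'} : Multiset RT) = A' ::ₘ {A} from Multiset.pair_comm A A']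
    exact Fr.of this
  · intro h
    have h1 := nd_inj h
    have h2 : nd {A} ∈ ({A, A'} : Multiset RT) := by
      rw [h1]
      exact Multiset.mem_cons_self _ _
    rw [Multiset.insert_eq_cons, Multiset.mem_cons, Multiset.mem_singleton] at h2
    rcases h2 with h2 | h2
    · rw [h2] at hsnA
      omega
    · rw [h2] at hsnA
      omega
  · right
    right
    intro a ha b hb
    rw [br_nd, Multiset.insert_eq_cons, Multiset.mem_cons, Multiset.mem_singleton] at ha
    rw [br_nd, Multiset.mem_cons] at hb
    rcases hb with rfl | hb
    · rcases ha with rfl | rfl <;> omega
    · have := x3a_mem_lt hb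
      rcases ha with rfl | rfl <;> omega
  · intro h1 h2 h12 hf1 hf2
    rw [br_nd] at hf1 hf2
    -- the branches of `h1`
    obtain ⟨B, s1, hs1, hBA, hf1'⟩ := x3a_fc_cons hf1
    rw [← Multiset.cons_zero A'] at hf1'
    obtain ⟨B', s1', hs1', hB'A', hf1''⟩ := x3a_fc_cons hf1'
    have hs10 := x3a_fc_zero hf1''
    subst hs10
    subst hs1'
    have eh1 : h1 = nd (B ::ₘ B' ::ₘ 0) := by rw [← hs1, nd_br]
    -- the branches of `h2`
    obtain ⟨U, Z, hs2, hUA, hfZ⟩ := x3a_fc_cons hf2
    have sB := hBA.size_eq
    have sB' := hB'A'.size_eq
    have sU := hUA.size_eq
    have sZ : (Z.map size).sum + 1 = size A' := by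
      rw [x3a_fc_size hfZ, size_eq A']
      omega
    have hmemZ : ∀ b ∈ Z, size b + 1 ≤ size A' := by
      intro b hb
      have := Multiset.single_le_sum (s := Z.map size) (fun _ _ => Nat.zero_le _) (size b)
        (Multiset.mem_map_of_mem _ hb)
      omega
    have hmem2 : ∀ b ∈ br h2, size b ≤ size A + 1 := by
      intro b hb
      rw [hs2, Multiset.mem_cons] at hb
      rcases hb with rfl | hb
      · omega
      · have := hmemZ b hb
        omega
    have hU2 : U ∈ br h2 := by
      rw [hs2]
      exact Multiset.mem_cons_self _ _
    -- the conclusion from `B = A`, `B' = A'`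
    have fin : B = A → B' = A' → Fr (nd {A, A'}) h1 := by
      rintro rfl rfl
      rw [eh1, Multiset.cons_zero]
      exact Fr.refl' _
    rcases pos h1 h2 h12 with h | ⟨X, s, hX, hpos⟩
    · exfalso
      rw [h, eh1, br_nd, Multiset.mem_cons, Multiset.mem_cons] at hU2
      rcases hU2 with hU2 | hU2 | hU2
      · rw [hU2] at sU
        omega
      · rw [hU2] at sU
        omega
      · simp at hU2
    · rw [eh1] at hX
      have hX' := nd_inj hX
      have hXs : (X = B ∧ s = {B'}) ∨ (X = B' ∧ s = {B}) := by
        have h3 : X ∈ B ::ₘ B' ::ₘ (0 : Multiset RT) := by
          rw [hX']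
          exact Multiset.mem_cons_self _ _
        rw [Multiset.mem_cons, Multiset.mem_cons] at h3
        rcases h3 with h3 | h3 | h3
        · left
          refine ⟨h3, ?_⟩
          rw [h3] at hX'
          exact ((Multiset.cons_inj_right B).1 hX').symm
        · right
          refine ⟨h3, ?_⟩
          rw [h3, Multiset.cons_swap] at hX'
          exact ((Multiset.cons_inj_right B').1 hX').symm
        · simp at h3
      rcases hXs with ⟨rfl, rfl⟩ | ⟨rfl, rfl⟩
      · -- the position is in the branch `B`
        have hsu : size (nd {B'}) = size A := by
          rw [size_nd, Multiset.map_singleton, Multiset.sum_singleton]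
          omega
        cases hpos with
        | root c s =>
          exfalso
          rw [br_nd, Multiset.mem_cons] at hU2
          rcases hU2 with hU2 | hU2
          · rw [hU2] at sU
            omega
          · have h4 : size U + 1 ≤ size (nd s) := x3a_mem_lt (by rw [br_nd]; exact hU2)
            omega
        | step c X2 s2 t hpos2 =>
          have hsu2 : size (nd (nd {B'} ::ₘ s2)) = size A + 1 + (s2.map size).sum := by
            rw [size_nd, Multiset.map_cons, Multiset.sum_cons, hsu]
            omega
          rcases x3a_PB hpos2 with h5 | ⟨b, hb, h5⟩
          · have h6 : nd (nd {B'} ::ₘ s2) ∈ br h2 := by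
              rw [h5, br_nd]
              exact Multiset.mem_cons_self _ _
            have h7 := hmem2 _ h6
            have h8 : (s2.map size).sum = 0 := by omega
            have hs20 : s2 = 0 := by
              rw [Multiset.eq_zero_iff_forall_notMem]
              intro b hb
              have := Multiset.single_le_sum (s := s2.map size) (fun _ _ => Nat.zero_le _)
                (size b) (Multiset.mem_map_of_mem _ hb)
              have := size_pos b
              omega
            subst hs20
            rw [Multiset.cons_zero] at h5 hsu2 hBA sB
            have sX2 : size X2 = size A' := by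
              rw [size_nd, Multiset.map_singleton, Multiset.sum_singleton] at sB
              omega
            have hUe : U = nd {nd {B'}} := by
              rw [h5, br_nd, Multiset.mem_cons] at hU2
              rcases hU2 with hU2 | hU2
              · exact hU2
              · exfalso
                have := x3a_mem_lt hU2
                omega
            have hZe : Z = br X2 := by
              have h9 : br h2 = nd {nd {B'}} ::ₘ br X2 := by rw [h5, br_nd]
              rw [hs2, hUe] at h9
              exact (Multiset.cons_inj_right _).1 h9
            -- `B' = A'`
            have hB' : B' = A' := by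
              rw [hUe, eA] at hUA
              exact x3a_two hpg hB'A' hUA
            -- `X2 = A'`
            have hX2 : X2 = A' := by
              rw [eA] at hBA
              rw [hZe] at hfZ
              rcases Nat.lt_or_ge (card (br A')) 2 with hk | hk
              · have hk' : card (br A') = 0 ∨ card (br A') = 1 := by omega
                rcases hk' with hk' | hk'
                · exfalso
                  rw [Multiset.card_eq_zero] at hk'
                  rw [size_eq A', hk'] at hsA
                  simp at hsA
                  omega
                · obtain ⟨A2, hA2⟩ := Multiset.card_eq_one.1 hk'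
                  rw [hA2, ← Multiset.cons_zero] at hfZ
                  obtain ⟨Z', s3, hs3, hZ', hf3⟩ := x3a_fc_cons hfZ
                  have hs30 := x3a_fc_zero hf3
                  subst hs30
                  have e1 : X2 = nd {Z'} := by rw [← nd_br X2, hs3, Multiset.cons_zero]
                  have e2 : A' = nd {A2} := by rw [← nd_br A', hA2]
                  rw [e1, e2] at hBA ⊢
                  rw [x3a_two hpg hZ' hBA]
              · obtain ⟨w, hw⟩ := (exb A' hexA').2
                have hw2 : ∀ b ∈ br X2, size b = w := by
                  intro b hb
                  have h9 : size b ∈ (br A').map size := by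
                    rw [← x3a_fc_size hfZ]
                    exact Multiset.mem_map_of_mem _ hb
                  obtain ⟨b', hb', h10⟩ := Multiset.mem_map.1 h9
                  rw [← h10]
                  exact hw b' hb'
                have hsum : size A' = 1 + card (br A') * w := by
                  rw [size_eq A']
                  congr 1
                  rw [Multiset.map_congr rfl hw, Multiset.map_const', Multiset.sum_replicate,
                    smul_eq_mul]
                have hk2 : 2 * w ≤ card (br A') * w := Nat.mul_le_mul_right w hk
                have st1 := Stp.mk X2 0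
                have st2 := Stp.mk A' 0
                rw [Multiset.cons_zero] at st1 st2
                have hfr : Fr (nd (nd 0 ::ₘ br X2)) (nd (nd 0 ::ₘ br A')) :=
                  ((Fr.of st1).symm'.trans' hBA).trans' (Fr.of st2)
                have s1 : size (nd (nd 0 ::ₘ br X2)) = size A' + 1 := by
                  rw [size_nd, Multiset.map_cons, Multiset.sum_cons, size_zero, ← sX2, size_eq X2]
                  omega
                have s2 : size (nd (nd 0 ::ₘ br A')) = size A' + 1 := by
                  rw [size_nd, Multiset.map_cons, Multiset.sum_cons, size_zero, size_eq A']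
                  omega
                have c1 : Cen (nd (nd 0 ::ₘ br X2)) := by
                  intro b hb
                  rw [br_nd, Multiset.mem_cons] at hb
                  rw [s1]
                  rcases hb with rfl | hb
                  · rw [size_zero]
                    omega
                  · rw [hw2 b hb]
                    omega
                have c2 : Cen (nd (nd 0 ::ₘ br A')) := by
                  intro b hb
                  rw [br_nd, Multiset.mem_cons] at hb
                  rw [s2]
                  rcases hb with rfl | hb
                  · rw [size_zero]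
                    omega
                  · rw [hw b hb]
                    omega
                rcases cen2 _ _ hfr c1 c2 with h9 | ⟨D, s4, h9, _, h10⟩
                · exact br_inj ((Multiset.cons_inj_right _).1 (nd_inj h9))
                · exfalso
                  have h11 : D ∈ nd 0 ::ₘ br X2 := by
                    rw [nd_inj h9]
                    exact Multiset.mem_cons_self _ _
                  rw [Multiset.mem_cons] at h11
                  rw [s1] at h10
                  rcases h11 with rfl | h11
                  · rw [size_zero] at h10
                    omega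
                  · rw [hw2 D h11] at h10
                    omega
            rw [eh1, Multiset.cons_zero, Multiset.cons_zero, hX2, hB', eA]
            exact Fr.refl' _
          · exfalso
            have := hmem2 b hb
            omega
      · -- the position is in the branch `B'`
        have hsu : size (nd {B}) = size A + 1 := by
          rw [size_nd, Multiset.map_singleton, Multiset.sum_singleton]
          omega
        rcases x3a_PB hpos with h5 | ⟨b, hb, h5⟩
        · have hUe : U = nd {B} := by
            rw [h5, br_nd, Multiset.mem_cons] at hU2
            rcases hU2 with hU2 | hU2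
            · exact hU2
            · exfalso
              have := x3a_mem_lt hU2
              omega
          have hZe : Z = br X := by
            have h9 : br h2 = nd {B} ::ₘ br X := by rw [h5, br_nd]
            rw [hs2, hUe] at h9
            exact (Multiset.cons_inj_right _).1 h9
          apply fin
          · rw [hUe] at hUA
            refine hpg (nd 0) B A hBA ?_
            rw [br_nd, Multiset.cons_zero, Multiset.cons_zero]
            exact hUA
          · rw [hZe] at hfZ
            have := exd A' (br X) hexA' (by rw [nd_br]; exact hB'A') hfZ
            rwa [nd_br] at this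
        · exfalso
          have := hmem2 b hb
          omega

end Pool.Agent.N203.DR
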