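import Pool.Agent.N203.DR.Stm

/-!
# The exceptional trees made of two copies of `A` joined at the roots, `A` with at least three branches
-/

set_option autoImplicit false

namespace Pool.Agent.N203.DR

open Multiset

private theorem x3b_msize {s s' : Multiset RT} (h : fc s = fc s') : s.map size = s'.map size := by
  have key : ∀ r : Multiset RT,
      r.map size = (fc r).map (Quot.lift size (fun _ _ h => Stp.size_eq h)) := by
    intro r
    exact (Multiset.map_map (Quot.lift size (fun _ _ h => Stp.size_eq h)) (Quot.mk Stp) r).symm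
  rw [key s, key s', h]

private theorem x3b_cons {s : Multiset RT} {a : RT} {r : Multiset RT} (h : fc s = fc (a ::ₘ r)) :
    ∃ b s', s = b ::ₘ s' ∧ Fr b a ∧ fc s' = fc r := by
  classical
  unfold fc at h
  rw [Multiset.map_cons] at h
  obtain ⟨b, hb, h1, h2⟩ := (Multiset.map_eq_cons _ _ _ _).2 h
  exact ⟨b, s.erase b, (Multiset.cons_erase hb).symm, mk_eq.1 h1, h2⟩

private theorem x3b_att {G t t' : RT} (h : Att G t t') : t' = nd (G ::ₘ br t) ∨
    ∃ b b' r, br t = b ::ₘ r ∧ t' = nd (b' ::ₘ r) ∧ Att G b b' := by
  cases h with
  | root s => left; rw [br_nd]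
  | step s b b' h => right; exact ⟨b, b', s, br_nd _, rfl, h⟩

private theorem x3b_sum {s : Multiset RT} {w : ℕ} (h : ∀ b ∈ s, size b = w) :
    (s.map size).sum = card s * w := by
  rw [Multiset.map_congr rfl h, Multiset.map_const', Multiset.sum_replicate, smul_eq_mul]

private theorem x3b_size {s s' : Multiset RT} {w : ℕ} (h : fc s = fc s')
    (hw : ∀ b ∈ s', size b = w) : ∀ b ∈ s, size b = w := by
  intro b hb
  have h1 : size b ∈ s.map size := Multiset.mem_map_of_mem _ hb
  rw [x3b_msize h, Multiset.mem_map] at h1
  obtain ⟨c, hc, hcb⟩ := h1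
  rw [← hcb, hw c hc]

theorem holds_X3b (off : S_OFF) (attfr : S_ATTFR) (cen2 : S_CEN2) (exd : S_EXD) (exb : S_EXB) :
    S_X3b := by
  intro A hA hd hm
  obtain ⟨hbE, w, hw⟩ := exb A hA
  have hne : br A ≠ 0 := by
    intro h
    rw [h, card_zero] at hd
    omega
  obtain ⟨A1, hA1⟩ := Multiset.exists_mem_of_ne_zero hne
  obtain ⟨U, hU⟩ := Multiset.exists_cons_of_mem hA1
  obtain ⟨m, hmm⟩ : ∃ m, size A = m := ⟨_, rfl⟩
  obtain ⟨d, hdd⟩ : ∃ d, card (br A) = d := ⟨_, rfl⟩
  rw [hmm] at hm
  rw [hdd] at hd
  have hw0 : 0 < w := by rw [← hw A1 hA1]; exact size_pos _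
  have hsA : m = 1 + d * w := by rw [← hmm, size_eq A, x3b_sum hw, hdd]
  have hdw : 3 * w ≤ d * w := Nat.mul_le_mul_right w hd
  have hUw : ∀ b ∈ U, size b = w := fun b hb => hw b (by rw [hU]; exact Multiset.mem_cons_of_mem hb)
  have hcU : card U + 1 = d := by rw [← hdd, hU, card_cons]
  have hcUw : card U * w + w = d * w := by rw [← hcU]; ring
  have hsU : size (nd U) + w = m := by
    rw [size_nd, x3b_sum hUw]; omega
  have hAe : nd (A1 ::ₘ U) = A := by rw [← hU, nd_br]
  have hsAU : size (nd (A ::ₘ U)) + w = 2 * m := by
    rw [size_nd, Multiset.map_cons, Multiset.sum_cons, x3b_sum hUw, hmm]; omega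
  have hA1w : size A1 = w := hw A1 hA1
  have hbr1 : ∀ b ∈ br A1, size b < w := by
    intro b hb
    rw [← hA1w, size_eq A1]
    obtain ⟨r, hr⟩ := Multiset.exists_cons_of_mem hb
    rw [hr, Multiset.map_cons, Multiset.sum_cons]
    omega
  refine ⟨nd (A ::ₘ br A), nd (nd (A ::ₘ U) ::ₘ br A1), Fr.refl' _, ?_, ?_, ?_, ?_⟩
  · -- the same free tree
    apply Fr.of
    have := Stp.mk A1 (A ::ₘ U)
    rwa [Multiset.cons_swap, ← hU] at this
  · -- different
    intro h
    have h1 := nd_inj h
    have h2 : nd (A ::ₘ U) ∈ A ::ₘ br A := by rw [h1]; exact Multiset.mem_cons_self _ _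
    rcases Multiset.mem_cons.1 h2 with h3 | h3
    · have := congrArg size h3
      omega
    · have := hw _ h3
      omega
  · -- different sizes
    right; right
    intro a ha b hb hab
    rw [br_nd] at ha hb
    have ha' : size a = m ∨ size a = w := by
      rcases Multiset.mem_cons.1 ha with h | h
      · left; rw [h, hmm]
      · right; exact hw a h
    have hb' : size b + w = 2 * m ∨ size b < w := by
      rcases Multiset.mem_cons.1 hb with h | h
      · left; rw [h, hsAU]
      · right; exact hbr1 b h
    omega
  · -- determination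
    intro h1 h2 hfr hc1 hc2
    rw [br_nd] at hc1 hc2
    obtain ⟨B, Y, hBY, hBA, hY⟩ := x3b_cons hc1
    obtain ⟨D, Z, hDZ, hDA, hZ⟩ := x3b_cons hc2
    have hh1 : h1 = nd (B ::ₘ Y) := by rw [← hBY, nd_br]
    have hh2 : h2 = nd (D ::ₘ Z) := by rw [← hDZ, nd_br]
    have hBm : size B = m := by rw [hBA.size_eq, hmm]
    have hYw : ∀ b ∈ Y, size b = w := x3b_size hY hw
    have hYd : card Y = d := by
      have := congrArg card hY
      unfold fc at this
      rwa [card_map, card_map, hdd] at this
    have hsh1 : size h1 = 2 * m := by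
      rw [hh1, size_nd, Multiset.map_cons, Multiset.sum_cons, x3b_sum hYw, hYd, hBm]; omega
    have hsZ : size (nd Z) = w := by
      rw [size_nd, x3b_msize hZ, ← size_eq, hA1w]
    have hsY : size (nd Y) = m := by
      rw [size_nd, x3b_sum hYw, hYd]; omega
    have hDc : Fr D (nd (nd U ::ₘ br A)) := hDA.trans' (Fr.of (Stp.mk A U))
    obtain ⟨c', hatt, hfrc⟩ := attfr (nd Z) D _ hDc
    rw [br_nd, ← hh2] at hfrc
    have hf : Fr h1 c' := hfr.trans' hfrc
    have hsc : size c' = 2 * m := by rw [← hf.size_eq, hsh1]
    have hcen1 : Cen h1 := by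
      intro b hb
      rw [hBY] at hb
      rw [hsh1]
      rcases Multiset.mem_cons.1 hb with h | h
      · rw [h, hBm]
      · rw [hYw b h]; omega
    -- the two centroid forms
    have hkey : Cen c' → c' = h1 ∨ c' = nd (nd Y ::ₘ br B) := by
      intro hc
      rcases cen2 h1 c' hf hcen1 hc with h | ⟨A', s, e1, e2, e3⟩
      · left; exact h.symm
      · right
        have hA's : size A' = m := by omega
        have h3 : A' ∈ B ::ₘ Y := by
          rw [← hBY, e1, br_nd]; exact Multiset.mem_cons_self _ _
        have h4 : A' = B := by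
          rcases Multiset.mem_cons.1 h3 with h | h
          · exact h
          · have := hYw _ h
            omega
        have h5 : B ::ₘ Y = A' ::ₘ s := by rw [← hBY, e1, br_nd]
        rw [h4] at h5
        have h6 : Y = s := (Multiset.cons_inj_right B).1 h5
        rw [e2, h4, h6]
    have hbig : Cen c' → ∃ b ∈ br c', size b = m := by
      intro hc
      rcases hkey hc with h | h
      · exact ⟨B, by rw [h, hBY]; exact Multiset.mem_cons_self _ _, hBm⟩
      · exact ⟨nd Y, by rw [h, br_nd]; exact Multiset.mem_cons_self _ _, hsY⟩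
    have hmain : ∃ V, Att (nd Z) (nd U) V ∧ c' = nd (V ::ₘ br A) := by
      rcases x3b_att hatt with h | ⟨b, b', r, hb, hcb, hatb⟩
      · -- attached at the root
        exfalso
        rw [br_nd] at h
        have hbs : ∀ b ∈ br c', size b = w ∨ size b + w = m := by
          intro b hb
          rw [h, br_nd] at hb
          rcases Multiset.mem_cons.1 hb with h' | h'
          · left; rw [h', hsZ]
          · rcases Multiset.mem_cons.1 h' with h'' | h''
            · right; rw [h'', hsU]
            · left; exact hw b h''
        have hc : Cen c' := by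
          intro b hb
          rw [hsc]
          rcases hbs b hb with h' | h' <;> omega
        obtain ⟨b, hb, hbm⟩ := hbig hc
        rcases hbs b hb with h' | h' <;> omega
      · rw [br_nd] at hb
        have hbm : b ∈ nd U ::ₘ br A := by rw [hb]; exact Multiset.mem_cons_self _ _
        rcases Multiset.mem_cons.1 hbm with hbU | hbA
        · refine ⟨b', hbU ▸ hatb, ?_⟩
          rw [hbU] at hb
          rw [hcb, ← (Multiset.cons_inj_right _).1 hb]
        · exfalso
          have hb' : size b' = 2 * w := by rw [hatb.size_eq, hw b hbA, hsZ]; omega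
          have hbs : ∀ x ∈ br c', size x = 2 * w ∨ size x = w ∨ size x + w = m := by
            intro x hx
            rw [hcb, br_nd] at hx
            rcases Multiset.mem_cons.1 hx with h' | h'
            · left; rw [h', hb']
            · have hx2 : x ∈ nd U ::ₘ br A := by rw [hb]; exact Multiset.mem_cons_of_mem h'
              rcases Multiset.mem_cons.1 hx2 with h'' | h''
              · right; right; rw [h'', hsU]
              · right; left; exact hw x h''
          have hc : Cen c' := by
            intro x hx
            rw [hsc]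
            rcases hbs x hx with h' | h' | h' <;> omega
          obtain ⟨x, hx, hxm⟩ := hbig hc
          rcases hbs x hx with h' | h' | h' <;> omega
    obtain ⟨V, hattV, hcV⟩ := hmain
    have hsV : size V = m := by rw [hattV.size_eq, hsZ, hsU]
    have hcen : Cen c' := by
      intro b hb
      rw [hsc]
      rw [hcV, br_nd] at hb
      rcases Multiset.mem_cons.1 hb with h | h
      · rw [h, hsV]
      · rw [hw b h]; omega
    have hVs : ∀ b ∈ br V, size b ≤ 2 * w := by
      intro b hb
      rcases x3b_att hattV with h | ⟨k, k', u, hk, hVk, hatk⟩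
      · rw [h, br_nd, br_nd] at hb
        rcases Multiset.mem_cons.1 hb with h' | h'
        · rw [h', hsZ]; omega
        · rw [hUw b h']; omega
      · rw [br_nd] at hk
        rw [hVk, br_nd] at hb
        rcases Multiset.mem_cons.1 hb with h' | h'
        · rw [h', hatk.size_eq, hUw k (by rw [hk]; exact Multiset.mem_cons_self _ _), hsZ]; omega
        · rw [hUw b (by rw [hk]; exact Multiset.mem_cons_of_mem h')]; omega
    rcases hkey hcen with h | h
    · -- `V = B`
      have h1' : V ::ₘ br A = B ::ₘ Y := by rw [← hBY, ← h, hcV, br_nd]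
      have hBmem : B ∈ V ::ₘ br A := by rw [h1']; exact Multiset.mem_cons_self _ _
      have hBV : B = V := by
        rcases Multiset.mem_cons.1 hBmem with h' | h'
        · exact h'
        · have := hw _ h'
          omega
      have hAV : Fr A V := by rw [← hBV]; exact hBA.symm'
      have hVA : V = A := by
        rcases off A V w hAV (fun b hb => (hw b hb).le) with h' | ⟨b, hb, hle⟩
        · exact h'
        · have := hVs b hb
          omega
      rw [← h, hcV, hVA]
      exact Fr.refl' _
    · -- `B = A`
      have h1' : V ::ₘ br A = nd Y ::ₘ br B := by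
        have h2' := h
        rw [hcV] at h2'
        exact nd_inj h2'
      have hYm : nd Y ∈ V ::ₘ br A := by rw [h1']; exact Multiset.mem_cons_self _ _
      have hYV : nd Y = V := by
        rcases Multiset.mem_cons.1 hYm with h' | h'
        · exact h'
        · have := hw _ h'
          omega
      rw [hYV] at h1'
      have hAB : A = B := br_inj ((Multiset.cons_inj_right _).1 h1')
      have hbrV : br V = Y := by rw [← hYV, br_nd]
      have hVA : V = A := by
        rcases x3b_att hattV with h' | ⟨k, k', u, hk, hVk, hatk⟩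
        · rw [br_nd] at h'
          have e : fc (nd Z ::ₘ U) = fc (A1 ::ₘ U) := by
            rw [← hU, ← hY, ← hbrV, h', br_nd]
          unfold fc at e
          rw [Multiset.map_cons, Multiset.map_cons, Multiset.cons_inj_left] at e
          have := exd A1 Z (hbE A1 hA1) (mk_eq.1 e) hZ
          rw [h', this, hAe]
        · exfalso
          rw [br_nd] at hk
          have e1 : k' ∈ Y := by rw [← hbrV, hVk, br_nd]; exact Multiset.mem_cons_self _ _
          have e2 := hYw k' e1
          rw [hatk.size_eq, hUw k (by rw [hk]; exact Multiset.mem_cons_self _ _), hsZ] at e2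
          omega
      rw [hh1, ← hAB, ← hbrV, hVA]
      exact Fr.refl' _

end Pool.Agent.N203.DR
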