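import Pool.Agent.N203.DR.Stm

/-!
# DR/X3c (helper530)
-/

set_option autoImplicit false

namespace Pool.Agent.N203.DR

open Multiset

private theorem x3c_inv {G t c1 : RT} (h : Att G t c1) :
    c1 = nd (G ::ₘ br t) ∨ ∃ (b : RT) (s1 : Multiset RT) (b' : RT),
      br t = b ::ₘ s1 ∧ Att G b b' ∧ c1 = nd (b' ::ₘ s1) := by
  cases h with
  | root s => left; rw [br_nd]
  | step s b b' h => right; exact ⟨b, s, b', by rw [br_nd], h, rfl⟩

private theorem x3c_two {x y b : RT} {s : Multiset RT} (h : (x ::ₘ y ::ₘ 0 : Multiset RT) = b ::ₘ s) :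
    (b = x ∧ s = y ::ₘ 0) ∨ (b = y ∧ s = x ::ₘ 0) := by
  have hb : b ∈ (x ::ₘ y ::ₘ 0 : Multiset RT) := by rw [h]; exact Multiset.mem_cons_self b s
  rcases Multiset.mem_cons.1 hb with rfl | hb
  · exact Or.inl ⟨rfl, ((Multiset.cons_inj_right _).1 h).symm⟩
  · rcases Multiset.mem_cons.1 hb with rfl | hb
    · rw [Multiset.cons_swap] at h
      exact Or.inr ⟨rfl, ((Multiset.cons_inj_right _).1 h).symm⟩
    · exact absurd hb (Multiset.notMem_zero _)

private theorem x3c_three {x y z b : RT} {s : Multiset RT}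
    (h : (x ::ₘ y ::ₘ z ::ₘ 0 : Multiset RT) = b ::ₘ s) :
    (b = x ∧ s = y ::ₘ z ::ₘ 0) ∨ (b = y ∧ s = x ::ₘ z ::ₘ 0) ∨ (b = z ∧ s = x ::ₘ y ::ₘ 0) := by
  have hb : b ∈ (x ::ₘ y ::ₘ z ::ₘ 0 : Multiset RT) := by
    rw [h]; exact Multiset.mem_cons_self b s
  rcases Multiset.mem_cons.1 hb with rfl | hb
  · exact Or.inl ⟨rfl, ((Multiset.cons_inj_right _).1 h).symm⟩
  · rcases Multiset.mem_cons.1 hb with rfl | hb
    · rw [Multiset.cons_swap] at h
      exact Or.inr (Or.inl ⟨rfl, ((Multiset.cons_inj_right _).1 h).symm⟩)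
    · rcases Multiset.mem_cons.1 hb with rfl | hb
      · rw [Multiset.cons_swap y, Multiset.cons_swap x] at h
        exact Or.inr (Or.inr ⟨rfl, ((Multiset.cons_inj_right _).1 h).symm⟩)
      · exact absurd hb (Multiset.notMem_zero _)

/-- the size of a free tree -/
private def x3c_sz : FT → ℕ := Quot.lift size fun _ _ h => h.size_eq

private def x3c_mk : RT → FT := fun a => Quot.mk Stp a

private theorem x3c_fc (s : Multiset RT) : fc s = s.map x3c_mk := rfl

private theorem x3c_map {s s' : Multiset RT} (h : fc s = fc s') : s.map size = s'.map size := by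
  have h1 := congrArg (Multiset.map x3c_sz) h
  rw [x3c_fc, x3c_fc, Multiset.map_map, Multiset.map_map] at h1
  exact h1

private theorem x3c_size {s s' : Multiset RT} (h : fc s = fc s') : size (nd s) = size (nd s') := by
  rw [size_nd, size_nd, x3c_map h]

private theorem x3c_cons {s s' : Multiset RT} {B : RT} (h : fc s = fc (B ::ₘ s')) :
    ∃ (D : RT) (Y : Multiset RT), s = D ::ₘ Y ∧ Fr D B ∧ fc Y = fc s' := by
  classical
  rw [x3c_fc, x3c_fc, Multiset.map_cons] at h
  obtain ⟨D, hD, h1, h2⟩ := (Multiset.map_eq_cons _ _ _ _).2 h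
  exact ⟨D, s.erase D, (Multiset.cons_erase hD).symm, mk_eq.1 h1, h2⟩

private theorem x3c_ex {A A1 A2 : RT} (hA : Ex A) (h : br A = A1 ::ₘ A2 ::ₘ 0) :
    A1 = A2 ∨ ∃ k, A1 = P (k + 2) ∨ A1 = Yc k := by
  cases hA with
  | zero => rw [br_nd] at h; exact absurd h (Multiset.zero_ne_cons)
  | rep n b _ =>
    rw [br_nd] at h
    left
    have h1 : A1 ∈ replicate n b := by rw [h]; simp
    have h2 : A2 ∈ replicate n b := by rw [h]; simp
    rw [Multiset.eq_of_mem_replicate h1, Multiset.eq_of_mem_replicate h2]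
  | mix k s hs =>
    rw [br_nd] at h
    right
    exact ⟨k, hs A1 (by rw [h]; simp)⟩

theorem holds_X3c (attfr : S_ATTFR) (cen2 : S_CEN2) (exd : S_EXD) (exb : S_EXB) : S_X3c := by
  intro A hA hcard hsz
  obtain ⟨A1, A2, hbr⟩ := Multiset.card_eq_two.1 hcard
  have hbr : br A = A1 ::ₘ A2 ::ₘ 0 := hbr
  obtain ⟨hExA, w, hw⟩ := exb A hA
  have hEx1 : Ex A1 := hExA A1 (by rw [hbr]; simp)
  have hw1 : size A1 = w := hw A1 (by rw [hbr]; simp)
  have hw2 : size A2 = w := hw A2 (by rw [hbr]; simp)
  have hAs : size A = 2 * w + 1 := by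
    rw [size_eq, hbr]; simp [hw1, hw2]; omega
  have hw5 : 5 ≤ w := by omega
  obtain ⟨hExZ, v, hv⟩ := exb A1 hEx1
  have hne : br A1 ≠ 0 := by
    intro h0
    have := size_eq A1
    rw [h0, hw1] at this
    simp at this
    omega
  obtain ⟨Z1, hZ1⟩ := Multiset.exists_mem_of_ne_zero hne
  obtain ⟨V, hV⟩ := Multiset.exists_cons_of_mem hZ1
  have hZs : size Z1 = v := hv Z1 hZ1
  have hExZ1 : Ex Z1 := hExZ Z1 hZ1
  have hv1 : 1 ≤ v := by have := size_pos Z1; omega
  have hwV : size (nd V) + v = w := by
    have h1 := size_eq A1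
    rw [hV, hw1] at h1
    rw [size_nd]
    simp only [Multiset.map_cons, Multiset.sum_cons, hZs] at h1
    omega
  have hvw : v < w := by have := size_pos (nd V); omega
  set B1 : RT := nd (A ::ₘ A2 ::ₘ 0) with hB1
  have hB1s : size B1 = 3 * w + 2 := by
    rw [hB1, size_nd]; simp [hAs, hw2]; omega
  set t : RT := nd (A ::ₘ br A) with ht
  have hts : size t = 4 * w + 2 := by
    rw [ht, size_nd, hbr]; simp [hAs, hw1, hw2]; omega
  have hFr1 : Fr t (nd (B1 ::ₘ br A1)) := by
    have h1 := Stp.mk A1 (A ::ₘ A2 ::ₘ 0)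
    rw [Multiset.cons_swap, ← hbr] at h1
    exact Fr.of h1
  refine ⟨nd (B1 ::ₘ br A1), nd (nd (B1 ::ₘ V) ::ₘ br Z1), hFr1, ?_⟩
  have hFr12 : Fr (nd (B1 ::ₘ br A1)) (nd (nd (B1 ::ₘ V) ::ₘ br Z1)) := by
    have h1 := Stp.mk Z1 (B1 ::ₘ V)
    rw [Multiset.cons_swap, ← hV] at h1
    exact Fr.of h1
  have hB2s : size (nd (B1 ::ₘ V)) + v = 4 * w + 2 := by
    have h1 : size (nd (B1 ::ₘ V)) = size B1 + size (nd V) := by
      rw [size_nd (B1 ::ₘ V), size_nd V, Multiset.map_cons, Multiset.sum_cons]; omega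
    rw [h1, hB1s]; omega
  have hthird : ∀ a ∈ br (nd (B1 ::ₘ br A1)), ∀ b ∈ br (nd (nd (B1 ::ₘ V) ::ₘ br Z1)),
      size a ≠ size b := by
    intro a ha b hb
    rw [br_nd] at ha hb
    have hbZ : ∀ b ∈ br Z1, size b < v := by
      intro b hb
      rw [← hZs, size_eq Z1]
      have h2 := Multiset.le_sum_of_mem (Multiset.mem_map_of_mem size hb)
      omega
    rcases Multiset.mem_cons.1 ha with rfl | ha <;> rcases Multiset.mem_cons.1 hb with rfl | hb
    · omega
    · have := hbZ b hb; omega
    · have := hv a ha; omega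
    · have := hbZ b hb; have := hv a ha; omega
  refine ⟨hFr12, ?_, Or.inr (Or.inr hthird), ?_⟩
  · intro h0
    exact hthird B1 (by rw [br_nd]; exact Multiset.mem_cons_self _ _) B1
      (by rw [← h0, br_nd]; exact Multiset.mem_cons_self _ _) rfl
  intro h1 h2 h12 hf1 hf2
  rw [br_nd] at hf1 hf2
  obtain ⟨D, Y, hD, hDF, hY⟩ := x3c_cons hf1
  obtain ⟨D', Y', hD', hDF', hY'⟩ := x3c_cons hf2
  have hYs : size (nd Y) = w := by rw [x3c_size hY, nd_br, hw1]
  have hYs' : size (nd Y') = v := by rw [x3c_size hY', nd_br, hZs]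
  have hg1 : Fr B1 (nd (nd (A2 ::ₘ 0) ::ₘ A1 ::ₘ A2 ::ₘ 0)) := by
    have h3 := Stp.mk A (A2 ::ₘ 0)
    rw [hbr] at h3
    exact Fr.of h3
  have hg2 : Fr (nd (B1 ::ₘ V)) (nd (nd (nd V ::ₘ A2 ::ₘ 0) ::ₘ A1 ::ₘ A2 ::ₘ 0)) := by
    have h3 := Stp.mk B1 V
    have h4 := Stp.mk A (nd V ::ₘ A2 ::ₘ 0)
    have e : (nd V ::ₘ br B1) = A ::ₘ nd V ::ₘ A2 ::ₘ 0 := by
      rw [hB1, br_nd, Multiset.cons_swap]
    rw [e] at h3
    rw [hbr] at h4
    exact (Fr.of h3).trans' (Fr.of h4)
  obtain ⟨c1, hat1, hc1⟩ := attfr (nd Y) D _ (hDF.trans' hg1)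
  obtain ⟨c2, hat2, hc2⟩ := attfr (nd Y') D' _ (hDF'.trans' hg2)
  rw [br_nd, ← hD, nd_br] at hc1
  rw [br_nd, ← hD', nd_br] at hc2
  have hc12 : Fr c1 c2 := (hc1.symm'.trans' h12).trans' hc2
  -- it is enough to show that `c1 = t`
  suffices hgoal : c1 = t by
    rw [hgoal] at hc1
    exact hFr1.symm'.trans' hc1.symm'
  have htt : t = nd (A ::ₘ A1 ::ₘ A2 ::ₘ 0) := by rw [ht, hbr]
  -- sizes
  have sL : size (nd (A2 ::ₘ 0)) = w + 1 := by rw [size_nd]; simp [hw2]; omega
  have sB : size (nd (nd V ::ₘ A2 ::ₘ 0)) + v = 2 * w + 1 := by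
    rw [size_nd]
    simp only [Multiset.map_cons, Multiset.sum_cons, Multiset.map_zero, Multiset.sum_zero, hw2]
    omega
  -- the shapes of `c1` and `c2`
  have shape1 : (∃ K, Att (nd Y) (nd (A2 ::ₘ 0)) K ∧ size K = 2 * w + 1 ∧
        c1 = nd (K ::ₘ A1 ::ₘ A2 ::ₘ 0)) ∨
      c1 = nd (nd Y ::ₘ nd (A2 ::ₘ 0) ::ₘ A1 ::ₘ A2 ::ₘ 0) ∨
      ∃ X Aj, size X = 2 * w ∧ size Aj = w ∧ c1 = nd (X ::ₘ nd (A2 ::ₘ 0) ::ₘ Aj ::ₘ 0) := by
    rcases x3c_inv hat1 with h3 | ⟨b, s1, b', hb, hat, h3⟩
    · rw [br_nd] at h3; exact Or.inr (Or.inl h3)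
    · rw [br_nd] at hb
      have hs := hat.size_eq
      rcases x3c_three hb with ⟨rfl, rfl⟩ | ⟨rfl, rfl⟩ | ⟨rfl, rfl⟩
      · exact Or.inl ⟨b', hat, by omega, h3⟩
      · exact Or.inr (Or.inr ⟨b', A2, by omega, hw2, h3⟩)
      · exact Or.inr (Or.inr ⟨b', A1, by omega, hw1, h3⟩)
  have shape2 : (∃ K, Att (nd Y') (nd (nd V ::ₘ A2 ::ₘ 0)) K ∧ size K = 2 * w + 1 ∧
        c2 = nd (K ::ₘ A1 ::ₘ A2 ::ₘ 0)) ∨
      c2 = nd (nd Y' ::ₘ nd (nd V ::ₘ A2 ::ₘ 0) ::ₘ A1 ::ₘ A2 ::ₘ 0) ∨
      ∃ X Ai Aj, Att (nd Y') Ai X ∧ (Ai = A1 ∨ Ai = A2) ∧ size X = w + v ∧ size Aj = w ∧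
        c2 = nd (X ::ₘ nd (nd V ::ₘ A2 ::ₘ 0) ::ₘ Aj ::ₘ 0) := by
    rcases x3c_inv hat2 with h3 | ⟨b, s1, b', hb, hat, h3⟩
    · rw [br_nd] at h3; exact Or.inr (Or.inl h3)
    · rw [br_nd] at hb
      have hs := hat.size_eq
      rcases x3c_three hb with ⟨rfl, rfl⟩ | ⟨rfl, rfl⟩ | ⟨rfl, rfl⟩
      · exact Or.inl ⟨b', hat, by omega, h3⟩
      · exact Or.inr (Or.inr ⟨b', b, A2, hat, Or.inl rfl, by omega, hw2, h3⟩)
      · exact Or.inr (Or.inr ⟨b', b, A1, hat, Or.inr rfl, by omega, hw1, h3⟩)
  have hs1 : size c1 = 4 * w + 2 := by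
    rw [hat1.size_eq, size_nd, hYs]; simp [sL, hw1, hw2]; omega
  have hs2 : size c2 = 4 * w + 2 := by rw [← hc12.size_eq, hs1]
  have hcen1 : Cen c1 := by
    intro b hb
    rw [hs1]
    rcases shape1 with ⟨K, -, hK, rfl⟩ | rfl | ⟨X, Aj, hX, hAj, rfl⟩ <;>
    · rw [br_nd] at hb
      simp only [Multiset.mem_cons, Multiset.notMem_zero, or_false] at hb
      rcases hb with rfl | rfl | rfl | rfl <;> omega
  have hcen2 : Cen c2 := by
    intro b hb
    rw [hs2]
    rcases shape2 with ⟨K, -, hK, rfl⟩ | rfl | ⟨X, Ai, Aj, -, -, hX, hAj, rfl⟩ <;>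
    · rw [br_nd] at hb
      simp only [Multiset.mem_cons, Multiset.notMem_zero, or_false] at hb
      rcases hb with rfl | rfl | rfl | rfl <;> omega
  have hLY : size (nd Y) = w := hYs
  rcases cen2 c1 c2 hc12 hcen1 hcen2 with hcc | ⟨X, s, e1, e2, hX⟩
  · rcases shape1 with ⟨K, hK, hKs, rfl⟩ | rfl | ⟨X1, Aj1, hX1, hAj1, rfl⟩
    · rcases shape2 with ⟨K', hK', hKs', rfl⟩ | rfl | ⟨X2, Ai, Aj, hat, hAi, hX2, hAj, rfl⟩
      · -- the main case
        have hKK : K = K' := by
          have h3 := nd_inj hcc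
          exact ((Multiset.cons_inj_left _).1 h3)
        subst hKK
        have key : nd Y = A1 := by
          rcases x3c_inv hK with h3 | ⟨b, s1, b', hb, hatb, h3⟩
          · rw [br_nd] at h3
            rcases x3c_inv hK' with h4 | ⟨b, s1, b', hb, hatb, h4⟩
            · rw [br_nd] at h4
              rw [h3] at h4
              have h5 := congrArg Multiset.card (nd_inj h4)
              simp at h5
            · rw [br_nd] at hb
              have hs := hatb.size_eq
              rw [h3] at h4
              have h5 := nd_inj h4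
              rcases x3c_two hb with ⟨rfl, rfl⟩ | ⟨rfl, rfl⟩
              · have h6 : nd Y = b' := (Multiset.cons_inj_left _).1 h5
                rw [← h6] at hatb
                rcases x3c_inv hatb with h7 | ⟨b2, s2, b2', hb2, -, h7⟩
                · rw [br_nd] at h7
                  have h8 := nd_inj h7
                  have h9 : fc (nd Y' ::ₘ V) = fc (Z1 ::ₘ V) := by rw [← h8, hY, hV]
                  have h10 : Fr (nd Y') Z1 := by
                    rw [x3c_fc, x3c_fc, Multiset.map_cons, Multiset.map_cons] at h9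
                    exact mk_eq.1 ((Multiset.cons_inj_left _).1 h9)
                  have h11 : nd Y' = Z1 := exd Z1 Y' hExZ1 h10 hY'
                  rw [h8, h11, ← hV, nd_br]
                · exfalso
                  rw [br_nd] at hb2
                  have h8 := nd_inj h7
                  have c1' := congrArg Multiset.card hY
                  rw [x3c_fc, x3c_fc, Multiset.card_map, Multiset.card_map, hV, h8, hb2] at c1'
                  simp at c1'
              · exfalso
                have h6 : b' ∈ nd Y ::ₘ b ::ₘ 0 := by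
                  rw [h5]; exact Multiset.mem_cons_self _ _
                simp only [Multiset.mem_cons, Multiset.notMem_zero, or_false] at h6
                rcases h6 with rfl | rfl <;> omega
          · exfalso
            rw [br_nd] at hb
            have hs1 : s1 = 0 := by
              have := congrArg Multiset.card hb
              simp at this
              exact this
            subst hs1
            rcases x3c_inv hK' with h4 | ⟨b2, s2, b2', hb2, -, h4⟩
            · rw [br_nd] at h4
              rw [h3] at h4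
              have h5 := congrArg Multiset.card (nd_inj h4)
              simp at h5
            · rw [br_nd] at hb2
              rw [h3] at h4
              have h5 := congrArg Multiset.card (nd_inj h4)
              have h6 := congrArg Multiset.card hb2
              simp only [Multiset.card_cons, Multiset.card_zero] at h5 h6
              omega
        rw [htt]
        have hKA : K = A := by
          have h3 := hK.size_eq
          rcases x3c_inv hK with h3 | ⟨b, s1, b', hb, hatb, h3⟩
          · rw [br_nd, key, ← hbr, nd_br] at h3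
            exact h3
          · exfalso
            -- `K` has one branch, but then it is not possible as above
            rw [br_nd] at hb
            have hs1 : s1 = 0 := by
              have := congrArg Multiset.card hb
              simp at this
              exact this
            subst hs1
            rcases x3c_inv hK' with h4 | ⟨b2, s2, b2', hb2, -, h4⟩
            · rw [br_nd] at h4
              rw [h3] at h4
              have h5 := congrArg Multiset.card (nd_inj h4)
              simp at h5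
            · rw [br_nd] at hb2
              rw [h3] at h4
              have h5 := congrArg Multiset.card (nd_inj h4)
              have h6 := congrArg Multiset.card hb2
              simp only [Multiset.card_cons, Multiset.card_zero] at h5 h6
              omega
        rw [hKA]
      · exfalso
        have h3 := congrArg Multiset.card (nd_inj hcc)
        simp at h3
      · exfalso
        have h3 := nd_inj hcc
        have h4 : K ∈ (X2 ::ₘ nd (nd V ::ₘ A2 ::ₘ 0) ::ₘ Aj ::ₘ 0 : Multiset RT) := by
          rw [← h3]; exact Multiset.mem_cons_self _ _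
        simp only [Multiset.mem_cons, Multiset.notMem_zero, or_false] at h4
        rcases h4 with rfl | rfl | rfl <;> omega
    · exfalso
      rcases shape2 with ⟨K', hK', hKs', rfl⟩ | rfl | ⟨X2, Ai, Aj, hat, hAi, hX2, hAj, rfl⟩
      · have h3 := congrArg Multiset.card (nd_inj hcc)
        simp at h3
      · have h3 := nd_inj hcc
        have h4 : nd Y' ∈ (nd Y ::ₘ nd (A2 ::ₘ 0) ::ₘ A1 ::ₘ A2 ::ₘ 0 : Multiset RT) := by
          rw [h3]; exact Multiset.mem_cons_self _ _
        simp only [Multiset.mem_cons, Multiset.notMem_zero, or_false] at h4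
        rcases h4 with h4 | h4 | h4 | h4 <;> (have h5 := congrArg size h4; omega)
      · have h3 := congrArg Multiset.card (nd_inj hcc)
        simp at h3
    · exfalso
      rcases shape2 with ⟨K', hK', hKs', rfl⟩ | rfl | ⟨X2, Ai, Aj, hat, hAi, hX2, hAj, rfl⟩
      · have h3 := nd_inj hcc
        have h4 : K' ∈ (X1 ::ₘ nd (A2 ::ₘ 0) ::ₘ Aj1 ::ₘ 0 : Multiset RT) := by
          rw [h3]; exact Multiset.mem_cons_self _ _
        simp only [Multiset.mem_cons, Multiset.notMem_zero, or_false] at h4
        rcases h4 with rfl | rfl | rfl <;> omega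
      · have h3 := congrArg Multiset.card (nd_inj hcc)
        simp at h3
      · have h3 := nd_inj hcc
        have h4 : X2 ∈ (X1 ::ₘ nd (A2 ::ₘ 0) ::ₘ Aj1 ::ₘ 0 : Multiset RT) := by
          rw [h3]; exact Multiset.mem_cons_self _ _
        simp only [Multiset.mem_cons, Multiset.notMem_zero, or_false] at h4
        rcases h4 with h4 | h4 | h4
        · have h5 := congrArg size h4; omega
        · have h5 := congrArg size h4
          have hv' : v = 1 := by omega
          have hAis : size Ai = w := by rcases hAi with rfl | rfl <;> assumption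
          rcases x3c_inv hat with h6 | ⟨b, s1, b', hb, hatb, h6⟩
          · rw [h4] at h6
            have h7 := congrArg Multiset.card (nd_inj h6)
            simp at h7
            have h8 := size_eq Ai
            rw [h7] at h8
            simp at h8
            omega
          · rw [h4] at h6
            have h7 := congrArg Multiset.card (nd_inj h6)
            simp at h7
            subst h7
            have h8 := size_eq Ai
            rw [hb] at h8
            simp at h8
            have hbA : b ∈ br Ai := by rw [hb]; simp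
            have hAA1 : Ai = A1 → False := by
              rintro rfl
              have := hv b hbA
              omega
            rcases hAi with h9 | h9
            · exact hAA1 h9
            · rcases x3c_ex hA hbr with h10 | ⟨k, h10 | h10⟩
              · exact hAA1 (h9.trans h10.symm)
              · have h11 : P (k + 1) ∈ br A1 := by rw [h10]; simp [P]
                have h12 := hv _ h11
                rw [size_P] at h12
                omega
              · cases k with
                | zero =>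
                  rw [h10, size_Yc] at hw1
                  omega
                | succ k =>
                  have h11 : Yc k ∈ br A1 := by rw [h10]; simp [Yc]
                  have h12 := hv _ h11
                  rw [size_Yc] at h12
                  omega
        · have h5 := congrArg size h4; omega
  · have hX' : size X = 2 * w + 1 := by omega
    rcases shape1 with ⟨K, hK, hKs, rfl⟩ | rfl | ⟨X1, Aj1, hX1, hAj1, rfl⟩
    · have h3 := nd_inj e1
      rcases x3c_three h3 with ⟨rfl, rfl⟩ | ⟨rfl, -⟩ | ⟨rfl, -⟩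
      · have hAn : nd (A1 ::ₘ A2 ::ₘ 0) = A := by rw [← hbr, nd_br]
        rw [hAn] at e2
        rcases shape2 with ⟨K', hK', hKs', rfl⟩ | rfl | ⟨X2, Ai, Aj, hat, hAi, hX2, hAj, rfl⟩
        · have h4 := nd_inj e2
          rcases x3c_three h4 with ⟨-, h5⟩ | ⟨h5, -⟩ | ⟨h5, -⟩
          · have h6 : X = A := by rw [← nd_br X, h5, hAn]
            rw [htt, h6]
          · exfalso; have h6 := congrArg size h5; omega
          · exfalso; have h6 := congrArg size h5; omega
        · exfalso
          have h4 : A ∈ (nd Y' ::ₘ nd (nd V ::ₘ A2 ::ₘ 0) ::ₘ A1 ::ₘ A2 ::ₘ 0 : Multiset RT) := by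
            rw [nd_inj e2]; exact Multiset.mem_cons_self _ _
          simp only [Multiset.mem_cons, Multiset.notMem_zero, or_false] at h4
          rcases h4 with h4 | h4 | h4 | h4 <;> (have h5 := congrArg size h4; omega)
        · exfalso
          have h4 : A ∈ (X2 ::ₘ nd (nd V ::ₘ A2 ::ₘ 0) ::ₘ Aj ::ₘ 0 : Multiset RT) := by
            rw [nd_inj e2]; exact Multiset.mem_cons_self _ _
          simp only [Multiset.mem_cons, Multiset.notMem_zero, or_false] at h4
          rcases h4 with h4 | h4 | h4 <;> (have h5 := congrArg size h4; omega)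
      · exfalso; omega
      · exfalso; omega
    · exfalso
      have h4 : X ∈ (nd Y ::ₘ nd (A2 ::ₘ 0) ::ₘ A1 ::ₘ A2 ::ₘ 0 : Multiset RT) := by
        rw [nd_inj e1]; exact Multiset.mem_cons_self _ _
      simp only [Multiset.mem_cons, Multiset.notMem_zero, or_false] at h4
      rcases h4 with h4 | h4 | h4 | h4 <;> (have h5 := congrArg size h4; omega)
    · exfalso
      have h4 : X ∈ (X1 ::ₘ nd (A2 ::ₘ 0) ::ₘ Aj1 ::ₘ 0 : Multiset RT) := by
        rw [nd_inj e1]; exact Multiset.mem_cons_self _ _
      simp only [Multiset.mem_cons, Multiset.notMem_zero, or_false] at h4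
      rcases h4 with h4 | h4 | h4 <;> (have h5 := congrArg size h4; omega)

end Pool.Agent.N203.DR
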