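import Pool.Agent.N203.DR.Stm

set_option autoImplicit false

namespace Pool.Agent.N203.DR

open Multiset

private theorem x4_map_cons {α β : Type} (f : α → β) (s : Multiset α) (b : β) (t : Multiset β)
    (h : s.map f = b ::ₘ t) : ∃ a s', s = a ::ₘ s' ∧ f a = b ∧ s'.map f = t := by
  classical
  have hb : b ∈ s.map f := by rw [h]; exact Multiset.mem_cons_self b t
  obtain ⟨a, ha, hab⟩ := Multiset.mem_map.1 hb
  obtain ⟨s', rfl⟩ := Multiset.exists_cons_of_mem ha
  refine ⟨a, s', rfl, hab, ?_⟩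
  rw [Multiset.map_cons, hab] at h
  exact (Multiset.cons_inj_right b).1 h

private theorem x4_del {t' t : RT} (h : Del t' t) :
    (∃ s, t = nd (nd 0 ::ₘ s) ∧ t' = nd s) ∨
      (∃ b b' s, Del b' b ∧ t = nd (b ::ₘ s) ∧ t' = nd (b' ::ₘ s)) := by
  unfold Del at h
  cases h with
  | root s => exact Or.inl ⟨s, rfl, rfl⟩
  | step s b b' h => exact Or.inr ⟨b', b, s, h, rfl, rfl⟩

private theorem x4_path : ∀ j k : ℕ, Fr (nd {P j, P k}) (P (j + k + 2)) := by
  intro j
  induction j with
  | zero =>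
    intro k
    have h := Stp.mk (nd 0) {P k}
    rw [br_nd] at h
    have e : P (0 + k + 2) = nd (nd {P k} ::ₘ 0) := by
      rw [Nat.zero_add]; rfl
    rw [e]
    exact Fr.of h
  | succ j ih =>
    intro k
    have h := Stp.mk (nd {P j}) {P k}
    rw [br_nd] at h
    have h2 := ih (k + 1)
    have e : P (j + 1 + k + 2) = P (j + (k + 1) + 2) := by
      congr 1; omega
    rw [e]
    have e2 : (nd (nd {P k} ::ₘ {P j}) : RT) = nd {P j, P (k + 1)} := by
      rw [nd_eq_nd]
      exact Multiset.pair_comm _ _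
    rw [e2] at h
    exact Fr.trans' (Fr.of h) h2

private theorem x4_one {x : RT} (h : size x = 1) : x = nd 0 := by
  rw [size_eq] at h
  have h0 : ((br x).map size).sum = 0 := by omega
  rw [← nd_br x]
  congr 1
  rw [Multiset.eq_zero_iff_forall_notMem]
  intro a ha
  obtain ⟨s', hs'⟩ := Multiset.exists_cons_of_mem ha
  rw [hs', Multiset.map_cons, Multiset.sum_cons] at h0
  have := size_pos a
  omega

theorem holds_X4 (pfr : S_PFR) (lfdel : S_LFDEL) : S_X4 := by
  intro j k _
  refine ⟨nd {nd 0, P j, P k}, nd {nd {P j, P k}}, Fr.refl' _, ?_, ?_, ?_, ?_⟩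
  · have h := Stp.mk (nd 0) {P j, P k}
    rw [br_nd] at h
    exact Fr.of h
  · intro h
    have h1 := congrArg card (nd_inj h)
    simp at h1
  · right; left
    simp
  · intro h1 h2 hfr e1 e2
    rw [br_nd] at e1 e2
    unfold fc at e1 e2
    obtain ⟨x, s1, hx, hxx, hs1⟩ := x4_map_cons _ _ _ _
      (e1.trans (by rw [Multiset.insert_eq_cons, Multiset.map_cons]))
    obtain ⟨y, s2, hy, hyy, hs2⟩ := x4_map_cons _ _ _ _
      (hs1.trans (by rw [Multiset.insert_eq_cons, Multiset.map_cons]))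
    obtain ⟨z, hz, hzz⟩ := Multiset.map_eq_singleton.1
      (hs2.trans (Multiset.map_singleton _ _))
    obtain ⟨E, hE, hEE⟩ := Multiset.map_eq_singleton.1
      (e2.trans (Multiset.map_singleton _ _))
    subst hz
    subst hy
    have hx1 : x = nd 0 := by
      apply x4_one
      have := (mk_eq.1 hxx).size_eq
      rw [this]; exact size_zero
    subst hx1
    have hy1 := (mk_eq.1 hyy).size_eq
    have hz1 := (mk_eq.1 hzz).size_eq
    have hE1 := mk_eq.1 hEE
    have h2e : h2 = nd {E} := by rw [← nd_br h2, hE]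
    have h1e : h1 = nd (nd 0 ::ₘ y ::ₘ {z}) := by rw [← nd_br h1, hx]
    have hc : 2 ≤ card (br h1) := by rw [hx]; simp
    obtain ⟨h', hd, hf⟩ := lfdel E h1 (by rw [← h2e]; exact hfr.symm') hc
    have hp : Fr (P (j + k + 2)) h' :=
      ((hf.trans' hE1).trans' (x4_path j k)).symm'
    obtain ⟨p1, p2⟩ := pfr _ _ hp
    rcases x4_del hd with ⟨s, hs, hs'⟩ | ⟨b, b', s, _, hs, hs'⟩
    · rw [h1e] at hs
      have hs3 := (Multiset.cons_inj_right _).1 (nd_inj hs)
      rw [hs', br_nd, ← hs3] at p2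
      have hy2 := p2 y (by simp)
      have hz2 := p2 z (by simp)
      rw [hy1, size_P] at hy2
      rw [hz1, size_P] at hz2
      rw [h1e, hy2, hz2]
      exact Fr.refl' _
    · rw [h1e] at hs
      have hs3 := congrArg card (nd_inj hs)
      rw [hs', br_nd] at p1
      simp at hs3 p1
      omega

end Pool.Agent.N203.DR
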