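import Pool.Agent.N203.DR.Stm

/-!
# DR/X4r (helper491)
-/

set_option autoImplicit false

namespace Pool.Agent.N203.DR

open Multiset

private theorem x4r_inv {t' t : RT} (h : Del t' t) :
    (∃ s, t' = nd s ∧ t = nd (nd 0 ::ₘ s)) ∨
      ∃ s b b', Del b b' ∧ t' = nd (b ::ₘ s) ∧ t = nd (b' ::ₘ s) := by
  unfold Del at h
  cases h with
  | root s => exact Or.inl ⟨s, rfl, rfl⟩
  | step s b b' h => exact Or.inr ⟨s, b, b', h, rfl, rfl⟩

private theorem x4r_br (l : ℕ) : br (P (l + 1)) = {P l} := by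
  rw [P, br_nd]

private theorem x4r_claim (i : ℕ) : ∀ A : RT, Del (P i) A → A ≠ P (i + 1) → ∀ l : ℕ,
    ∃ j k, Fr (nd (A ::ₘ br (P l))) (nd {nd 0, P j, P k}) := by
  induction i with
  | zero =>
    intro A h hA l
    exfalso
    rcases x4r_inv h with ⟨s, h1, h2⟩ | ⟨s, b, b', -, h1, -⟩
    · rw [P] at h1
      have hs := nd_inj h1
      apply hA
      rw [h2, ← hs, P, P]
      rfl
    · rw [P] at h1
      have hs := nd_inj h1
      exact Multiset.zero_ne_cons hs
  | succ i ih =>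
    intro A h hA l
    rcases x4r_inv h with ⟨s, h1, h2⟩ | ⟨s, b, b', hb, h1, h2⟩
    · rw [P] at h1
      have hs := nd_inj h1
      subst hs
      refine ⟨i, l, ?_⟩
      have h3 := Stp.mk A (br (P l))
      rw [nd_br, h2, br_nd] at h3
      rw [h2]
      refine Fr.trans' (Fr.of h3) ?_
      have h4 : (P l ::ₘ nd 0 ::ₘ {P i} : Multiset RT) = {nd 0, P i, P l} := by
        rw [Multiset.cons_swap]
        show nd 0 ::ₘ P l ::ₘ {P i} = nd 0 ::ₘ P i ::ₘ {P l}
        congr 1
        exact Multiset.pair_comm _ _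
      rw [h4]
      exact Fr.refl' _
    · rw [P] at h1
      have hs := nd_inj h1
      have hs2 : b = P i ∧ s = 0 := by
        have h5 := (Multiset.singleton_eq_cons_iff _).1 hs
        exact ⟨h5.1.symm, h5.2⟩
      obtain ⟨rfl, rfl⟩ := hs2
      have hb' : b' ≠ P (i + 1) := by
        rintro rfl
        apply hA
        rw [h2]
        rfl
      obtain ⟨j, k, hjk⟩ := ih b' hb hb' (l + 1)
      refine ⟨j, k, Fr.trans' ?_ hjk⟩
      have h3 := Stp.mk A (br (P l))
      rw [nd_br, h2, br_nd] at h3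
      rw [h2, x4r_br]
      refine Fr.of ?_
      have h4 : (P l ::ₘ b' ::ₘ 0 : Multiset RT) = b' ::ₘ {P l} := by
        rw [Multiset.cons_swap]
        rfl
      rw [h4] at h3
      exact h3

private theorem x4r_size {i l j k : ℕ} {A : RT} (h : Del (P i) A)
    (hf : Fr (nd (A ::ₘ br (P l))) (nd {nd 0, P j, P k})) : i + l = j + k + 1 := by
  have h1 := hf.size_eq
  have h2 := Del.size_eq h
  have h3 := size_eq (P l)
  rw [size_P] at h2 h3
  have h4 : ({nd 0, P j, P k} : Multiset RT) = nd 0 ::ₘ P j ::ₘ P k ::ₘ 0 := rfl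
  rw [h4] at h1
  simp only [size_nd, Multiset.map_cons, Multiset.sum_cons, size_P, Multiset.map_zero,
    Multiset.sum_zero] at h1
  omega

theorem holds_X4r : S_X4r := by
  intro m A hm hA hne hdel
  obtain ⟨i, rfl⟩ : ∃ i, m = i + 2 := ⟨m - 2, by omega⟩
  have e1 : i + 2 - 2 = i := by omega
  have e2 : i + 2 - 1 = i + 1 := by omega
  rw [e1] at hdel
  rw [e2] at hne ⊢
  constructor
  · obtain ⟨j, k, h⟩ := x4r_claim i A hdel hne (i + 2)
    refine ⟨j, k, ?_, ?_⟩
    · have := x4r_size hdel h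
      omega
    · rw [x4r_br] at h
      exact h
  · obtain ⟨j, k, h⟩ := x4r_claim i A hdel hne (i + 1)
    refine ⟨j, k, ?_, ?_⟩
    · have := x4r_size hdel h
      omega
    · refine Fr.trans' (Fr.of ?_) h
      have h3 := Stp.mk (P (i + 1)) (br A)
      rwa [nd_br] at h3

end Pool.Agent.N203.DR
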