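import Pool.Agent.N203.DR.Stm

/-!
# The exceptional tree with an even number of vertices (`S_X5`)

Two copies of `L = [P (m - 3), •]` joined at their roots: the card at a leaf next to a root and the
card at the second vertex of the long leg determine the tree.
-/

set_option autoImplicit false

namespace Pool.Agent.N203.DR

open Multiset

private theorem x5_att (G : RT) (s : Multiset RT) (t' : RT) (h : Att G (nd s) t') :
    t' = nd (G ::ₘ s) ∨ ∃ b b' s', s = b ::ₘ s' ∧ Att G b b' ∧ t' = nd (b' ::ₘ s') := by
  generalize hx : nd s = x at h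
  cases h with
  | root s0 => left; rw [nd_inj hx]
  | step s0 b b' hb => right; exact ⟨b, b', s0, nd_inj hx, hb, rfl⟩

private theorem x5_del (t' : RT) (s : Multiset RT) (h : Del t' (nd s)) :
    (∃ s', s = nd 0 ::ₘ s' ∧ t' = nd s') ∨
      ∃ b b' s', s = b ::ₘ s' ∧ Del b' b ∧ t' = nd (b' ::ₘ s') := by
  unfold Del at h
  generalize hx : nd s = x at h
  cases h with
  | root s0 => left; exact ⟨s0, nd_inj hx, rfl⟩
  | step s0 b b' hb => right; exact ⟨b', b, s0, nd_inj hx, hb, rfl⟩

private theorem x5_del0 (b : RT) : ¬ Del b (nd 0) := by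
  intro h
  have := Del.size_eq h
  rw [size_zero] at this
  have := size_pos b
  omega

private theorem x5_two {a b x : RT} {s : Multiset RT} (h : ({a, b} : Multiset RT) = x ::ₘ s) :
    (x = a ∧ s = {b}) ∨ (x = b ∧ s = {a}) := by
  rw [insert_eq_cons, cons_eq_cons] at h
  rcases h with ⟨rfl, rfl⟩ | ⟨_, cs, h1, rfl⟩
  · exact Or.inl ⟨rfl, rfl⟩
  · have : ({b} : Multiset RT) = b ::ₘ 0 := rfl
    rw [this, cons_eq_cons] at h1
    rcases h1 with ⟨rfl, rfl⟩ | ⟨_, ds, h2, _⟩
    · exact Or.inr ⟨rfl, rfl⟩
    · simp at h2

private theorem x5_three {a b c x : RT} {s : Multiset RT}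
    (h : ({a, b, c} : Multiset RT) = x ::ₘ s) :
    (x = a ∧ s = {b, c}) ∨ (x = b ∧ s = {a, c}) ∨ (x = c ∧ s = {a, b}) := by
  rw [insert_eq_cons, cons_eq_cons] at h
  rcases h with ⟨rfl, rfl⟩ | ⟨_, cs, h1, rfl⟩
  · exact Or.inl ⟨rfl, rfl⟩
  · rcases x5_two h1 with ⟨rfl, rfl⟩ | ⟨rfl, rfl⟩
    · exact Or.inr (Or.inl ⟨rfl, rfl⟩)
    · exact Or.inr (Or.inr ⟨rfl, rfl⟩)

private theorem x5_sz {k : ℕ} {h' b : RT} (h : h' = nd {P (k + 8), P (k + 7), P 0})
    (hb : b ∈ br h') : size b = k + 9 ∨ size b = k + 8 ∨ size b = 1 := by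
  subst h
  rw [br_nd] at hb
  simp only [insert_eq_cons, mem_cons, mem_singleton] at hb
  rcases hb with rfl | rfl | rfl
  · left; rw [size_P]
  · right; left; rw [size_P]
  · right; right; rw [size_P]

private theorem x5_fc_card (s : Multiset RT) : card (fc s) = card s := card_map _ _

/-- the free tree underlying a rooted tree -/
private def x5mk (a : RT) : FT := Quot.mk Stp a

private theorem x5_mk {a b : RT} (h : x5mk a = x5mk b) : Fr a b := mk_eq.1 h

private theorem x5_fc_cons (a : RT) (s : Multiset RT) : fc (a ::ₘ s) = x5mk a ::ₘ fc s :=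
  map_cons _ _ _

private theorem x5_fc_one (a : RT) : fc {a} = {x5mk a} := rfl

/-- the attached limb is a path -/
private theorem x5_main (lfdel : S_LFDEL) (spi : S_SPI) (k : ℕ) (E z c2' : RT)
    (hE : Fr E (nd {P (k + 8), P (k + 7), P 0})) (hz : size z = k + 6)
    (hatt : Att (nd {z}) (nd {nd {nd 0, nd 0}, P (k + 7), nd 0}) c2')
    (hfr : Fr (nd {E}) c2') :
    c2' = nd {nd {P (k + 7), nd 0}, P (k + 7), nd 0} := by
  have hY : size (nd {nd 0, nd 0}) = 3 := by simp
  have hG : size (nd {z}) = k + 7 := by simp [hz]; omega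
  have hGG : size (nd {nd {z}}) = k + 8 := by simp [hz]; omega
  have hP7 : size (P (k + 7)) = k + 8 := size_P _
  have hn0 : size (nd 0) = 1 := size_zero
  have hsp : ∀ h' : RT, Fr h' E → 3 ≤ card (br h') → h' = nd {P (k + 8), P (k + 7), P 0} := by
    intro h' hh hc
    exact spi _ _ _ h' (hE.symm'.trans' hh.symm') hc
  have hst : ∀ (A : RT) (s : Multiset RT), Fr (nd (A ::ₘ s)) E → 3 ≤ 1 + card (br A) →
      nd (nd s ::ₘ br A) = nd {P (k + 8), P (k + 7), P 0} := by
    intro A s hh hc
    refine hsp _ ((Fr.of (Stp.mk A s)).symm'.trans' hh) ?_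
    rw [br_nd, card_cons]
    omega
  rcases x5_att _ _ _ hatt with h | ⟨b, b', s', hs, hb, rfl⟩
  · -- at the centre
    subst h
    exfalso
    obtain ⟨h', hd, hf⟩ := lfdel E _ hfr (by simp)
    rcases x5_del _ _ hd with ⟨s', hs', rfl⟩ | ⟨b, b', s', hs', hb, rfl⟩
    · have hcard : card s' = 3 := by
        have := congrArg card hs'
        simp at this
        omega
      have he := hsp _ hf (by rw [br_nd]; omega)
      have hmem : nd {nd 0, nd 0} ∈ s' := by
        have : nd {nd 0, nd 0} ∈ nd 0 ::ₘ s' := by rw [← hs']; simp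
        rw [mem_cons] at this
        rcases this with h | h
        · have := congrArg size h
          rw [hY, hn0] at this
          omega
        · exact h
      have := x5_sz he (b := nd {nd 0, nd 0}) (by rw [br_nd]; exact hmem)
      rw [hY] at this
      omega
    · have hcard : card s' = 3 := by
        have := congrArg card hs'
        simp at this
        omega
      have he := hsp _ hf (by rw [br_nd, card_cons]; omega)
      have := congrArg (fun x => card (br x)) he
      simp [hcard] at this
  · rcases x5_three hs with ⟨rfl, rfl⟩ | ⟨rfl, rfl⟩ | ⟨rfl, rfl⟩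
    · -- in the branch with two leaves
      rcases x5_att _ _ _ hb with h | ⟨a, a', u, hu, ha, rfl⟩
      · -- at the root of this branch
        subst h
        exfalso
        have hZ : size (nd (nd {z} ::ₘ {nd 0, nd 0})) = k + 10 := by
          simp [hz]; omega
        obtain ⟨h', hd, hf⟩ := lfdel E _ hfr (by simp)
        rcases x5_del _ _ hd with ⟨s', hs', rfl⟩ | ⟨b, b', s', hs', hb', rfl⟩
        · rcases x5_three hs' with ⟨h, _⟩ | ⟨h, _⟩ | ⟨_, rfl⟩
          · have := congrArg size h
            rw [hn0] at this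
            omega
          · have := congrArg size h
            rw [hn0] at this
            omega
          · have := hst _ _ hf (by simp)
            have := congrArg (fun x => card (br x)) this
            simp at this
        · rcases x5_three hs' with ⟨rfl, rfl⟩ | ⟨rfl, rfl⟩ | ⟨rfl, _⟩
          · have he := hsp _ hf (by simp)
            have he' := nd_inj he
            have h8 : b' = P (k + 8) := by
              have e1 : (b' ::ₘ {P (k + 7), nd 0} : Multiset RT) = P (k + 8) ::ₘ {P (k + 7), P 0} :=
                he'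
              exact (cons_inj_left _).1 e1
            subst h8
            -- the deletion leaves at least two branches
            rcases x5_del _ _ hb' with ⟨v, hv, hv'⟩ | ⟨e, e', v, hv, he2, hv'⟩
            · have h1 := congrArg (fun x => card (br x)) hv'
              have h2 := congrArg card hv
              simp [P] at h1 h2
              omega
            · have h1 := congrArg (fun x => card (br x)) hv'
              have h2 := congrArg card hv
              simp [P] at h1
              rw [h1] at h2
              simp at h2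
          · have he := hsp _ hf (by simp)
            have := x5_sz he (b := nd (nd {z} ::ₘ {nd 0, nd 0})) (by rw [br_nd]; simp)
            omega
          · exact x5_del0 _ hb'
      · -- at a leaf of this branch
        have hh : a = nd 0 ∧ u = {nd 0} := by
          rcases x5_two hu with ⟨h1, h2⟩ | ⟨h1, h2⟩ <;> exact ⟨h1, h2⟩
        obtain ⟨rfl, rfl⟩ := hh
        have ha' : a' = nd {nd {z}} := by
          rcases x5_att _ _ _ ha with h | ⟨e, e', v, hv, _⟩
          · rw [h]; rfl
          · simp at hv
        subst ha'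
        have hZ : size (nd (nd {nd {z}} ::ₘ {nd 0})) = k + 10 := by
          simp [hz]; omega
        -- enough
        suffices hP : nd {nd {z}} = P (k + 7) by
          rw [hP]; rfl
        obtain ⟨h', hd, hf⟩ := lfdel E _ hfr (by simp)
        rcases x5_del _ _ hd with ⟨s', hs', rfl⟩ | ⟨b, b', s', hs', hb', rfl⟩
        · rcases x5_three hs' with ⟨h, _⟩ | ⟨h, _⟩ | ⟨_, rfl⟩
          · have := congrArg size h
            rw [hn0] at this
            omega
          · have := congrArg size h
            rw [hn0] at this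
            omega
          · have h3 := nd_inj (hst _ _ hf (by simp))
            rw [br_nd] at h3
            have e1 : (P (k + 8) ::ₘ nd {nd {z}} ::ₘ {P 0} : Multiset RT) =
              P (k + 8) ::ₘ P (k + 7) ::ₘ {P 0} := h3
            exact (cons_inj_left _).1 ((cons_inj_right _).1 e1)
        · rcases x5_three hs' with ⟨rfl, rfl⟩ | ⟨rfl, rfl⟩ | ⟨rfl, _⟩
          · have he' := nd_inj (hsp _ hf (by simp))
            have h8 : b' = P (k + 8) := by
              have e1 : (b' ::ₘ {P (k + 7), nd 0} : Multiset RT) = P (k + 8) ::ₘ {P (k + 7), P 0} :=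
                he'
              exact (cons_inj_left _).1 e1
            subst h8
            rcases x5_del _ _ hb' with ⟨v, hv, hv'⟩ | ⟨e, e', v, hv, he2, hv'⟩
            · have e2 : ({nd {nd {z}}, nd 0} : Multiset RT) = nd 0 ::ₘ v := hv
              rcases x5_two e2 with ⟨h, _⟩ | ⟨_, rfl⟩
              · have := congrArg size h
                rw [hn0] at this
                omega
              · have h9 : nd {P (k + 7)} = nd {nd {nd {z}}} := hv'
                exact (singleton_inj.1 (nd_inj h9)).symm
            · exfalso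
              have h1 := congrArg (fun x => card (br x)) hv'
              have h2 := congrArg card hv
              simp [P] at h1
              rw [h1] at h2
              simp at h2
          · exfalso
            have he := hsp _ hf (by simp)
            have := x5_sz he (b := nd (nd {nd {z}} ::ₘ {nd 0})) (by rw [br_nd]; simp)
            omega
          · exact absurd hb' (x5_del0 _)
    · -- in the path
      exfalso
      have hX : size b' = 2 * k + 15 := by
        rw [Att.size_eq hb, hP7, hG]; omega
      obtain ⟨h', hd, hf⟩ := lfdel E _ hfr (by simp)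
      have hd' : Del h' (nd {b', nd {nd 0, nd 0}, nd 0}) := hd
      rcases x5_del _ _ hd' with ⟨s', hs', rfl⟩ | ⟨c, c', s', hs', hc', rfl⟩
      · rcases x5_three hs' with ⟨h, _⟩ | ⟨h, _⟩ | ⟨_, rfl⟩
        · have := congrArg size h
          rw [hn0] at this
          omega
        · have := congrArg size h
          rw [hn0] at this
          omega
        · have hf' : Fr (nd (nd {nd 0, nd 0} ::ₘ {b'})) E := by
            have e1 : (nd {nd 0, nd 0} ::ₘ {b'} : Multiset RT) = {b', nd {nd 0, nd 0}} := by
              rw [insert_eq_cons]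
              exact cons_swap _ _ _
            rw [e1]; exact hf
          have h3 := hst _ _ hf' (by simp)
          have h4 := nd_inj h3
          rw [br_nd] at h4
          have h5 : P (k + 7) ∈ (nd {b'} ::ₘ {nd 0, nd 0} : Multiset RT) := by
            rw [h4]; simp
          simp only [insert_eq_cons, mem_cons, mem_singleton] at h5
          have h6 : size (nd {b'}) = 2 * k + 16 := by simp [hX]; omega
          rcases h5 with h5 | h5 | h5
          · have := congrArg size h5
            omega
          · have := congrArg size h5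
            omega
          · have := congrArg size h5
            omega
      · rcases x5_three hs' with ⟨rfl, rfl⟩ | ⟨rfl, rfl⟩ | ⟨rfl, _⟩
        · have he := hsp _ hf (by simp)
          have := x5_sz he (b := nd {nd 0, nd 0}) (by rw [br_nd]; simp)
          omega
        · have he := hsp _ hf (by simp)
          have := x5_sz he (b := c') (by rw [br_nd]; simp)
          have := Del.size_eq hc'
          omega
        · exact x5_del0 _ hc'
    · -- at the leaf
      exfalso
      have hb2 : b' = nd {nd {z}} := by
        rcases x5_att _ _ _ hb with h | ⟨e, e', v, hv, _⟩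
        · rw [h]; rfl
        · simp at hv
      subst hb2
      obtain ⟨h', hd, hf⟩ := lfdel E _ hfr (by simp)
      have hd' : Del h' (nd {nd {nd {z}}, nd {nd 0, nd 0}, P (k + 7)}) := hd
      rcases x5_del _ _ hd' with ⟨s', hs', rfl⟩ | ⟨c, c', s', hs', hc', rfl⟩
      · rcases x5_three hs' with ⟨h, _⟩ | ⟨h, _⟩ | ⟨h, _⟩
        all_goals
          have := congrArg size h
          rw [hn0] at this
          omega
      · rcases x5_three hs' with ⟨rfl, rfl⟩ | ⟨rfl, rfl⟩ | ⟨rfl, rfl⟩
        · have he := hsp _ hf (by simp)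
          have := x5_sz he (b := nd {nd 0, nd 0}) (by rw [br_nd]; simp)
          omega
        · have he := hsp _ hf (by simp)
          have := x5_sz he (b := c') (by rw [br_nd]; simp)
          have := Del.size_eq hc'
          omega
        · have he := hsp _ hf (by simp)
          have := x5_sz he (b := nd {nd 0, nd 0}) (by rw [br_nd]; simp)
          omega

theorem holds_X5 (attfr : S_ATTFR) (lfdel : S_LFDEL) (spi : S_SPI) (_cen2 : S_CEN2) : S_X5 := by
  intro m hm
  obtain ⟨k, rfl⟩ : ∃ k, m = k + 10 := ⟨m - 10, by omega⟩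
  have e3 : k + 10 - 3 = k + 7 := by omega
  rw [e3]
  -- the steps of re-rooting
  have hA : Fr (nd (nd {P (k + 7), nd 0} ::ₘ {P (k + 7), nd 0}))
      (nd {nd {nd {P (k + 7), nd 0}, P (k + 7)}}) := by
    have e1 : (nd {P (k + 7), nd 0} ::ₘ {P (k + 7), nd 0} : Multiset RT) =
        nd 0 ::ₘ {nd {P (k + 7), nd 0}, P (k + 7)} := by
      simp only [insert_eq_cons]
      rw [← singleton_add, ← singleton_add, ← singleton_add, ← singleton_add]
      abel
    rw [e1]
    have := Stp.mk (nd 0) {nd {P (k + 7), nd 0}, P (k + 7)}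
    rw [br_nd] at this
    exact Fr.of this
  have hB : Fr (nd (nd {P (k + 7), nd 0} ::ₘ {P (k + 7), nd 0}))
      (nd {nd {nd {nd {P (k + 7), nd 0}, nd 0}}, P (k + 5)}) := by
    have e1 : (nd {P (k + 7), nd 0} ::ₘ {P (k + 7), nd 0} : Multiset RT) =
        P (k + 7) ::ₘ {nd {P (k + 7), nd 0}, nd 0} := by
      simp only [insert_eq_cons]
      exact cons_swap _ _ _
    rw [e1]
    have h1 := Stp.mk (P (k + 7)) {nd {P (k + 7), nd 0}, nd 0}
    have e2 : br (P (k + 7)) = {P (k + 6)} := br_nd _
    rw [e2] at h1
    have h2 := Stp.mk (P (k + 6)) {nd {nd {P (k + 7), nd 0}, nd 0}}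
    have e4 : br (P (k + 6)) = {P (k + 5)} := br_nd _
    rw [e4] at h2
    refine (Fr.of h1).trans' ?_
    have e5 : (nd {nd {P (k + 7), nd 0}, nd 0} ::ₘ {P (k + 6)} : Multiset RT) =
        P (k + 6) ::ₘ {nd {nd {P (k + 7), nd 0}, nd 0}} := by
      exact cons_swap _ _ _
    rw [e5]
    exact Fr.of h2
  refine ⟨_, _, hA, hA.symm'.trans' hB, ?_, Or.inl (by simp), ?_⟩
  · intro h
    have := congrArg (fun x => card (br x)) h
    simp at this
  intro h1 h2 h12 hf1 hf2
  rw [br_nd] at hf1 hf2
  -- the two cards
  have hbr1 : ∃ E, br h1 = {E} ∧ Fr E (nd {nd {P (k + 7), nd 0}, P (k + 7)}) := by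
    have hc : card (br h1) = 1 := by
      have := congrArg card hf1
      rw [x5_fc_card, x5_fc_card] at this
      simpa using this
    obtain ⟨E, hE⟩ := card_eq_one.1 hc
    refine ⟨E, hE, ?_⟩
    rw [hE, x5_fc_one, x5_fc_one] at hf1
    exact x5_mk (singleton_inj.1 hf1)
  obtain ⟨E, hE1, hE2⟩ := hbr1
  have hbr2 : ∃ Q z, br h2 = {Q, z} ∧ Fr Q (nd {nd {nd {P (k + 7), nd 0}, nd 0}}) ∧
      Fr z (P (k + 5)) := by
    have hc : card (br h2) = 2 := by
      have := congrArg card hf2
      rw [x5_fc_card, x5_fc_card] at this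
      simpa using this
    obtain ⟨x, y, hxy⟩ := card_eq_two.1 hc
    rw [hxy] at hf2
    simp only [insert_eq_cons, x5_fc_cons, x5_fc_one] at hf2
    rw [cons_eq_cons] at hf2
    rcases hf2 with ⟨h3, h4⟩ | ⟨_, cs, h3, h4⟩
    · refine ⟨x, y, hxy, x5_mk h3, x5_mk ?_⟩
      exact singleton_inj.1 h4
    · refine ⟨y, x, ?_, ?_, ?_⟩
      · rw [hxy]; exact cons_swap _ _ _
      · have hcs : cs = 0 := by
          have := congrArg card h3
          simpa using this
        rw [hcs] at h3
        exact x5_mk (singleton_inj.1 h3)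
      · have hcs : cs = 0 := by
          have := congrArg card h3
          simpa using this
        rw [hcs] at h4
        exact x5_mk (singleton_inj.1 h4).symm
  obtain ⟨Q, z, hQz, hQ, hz⟩ := hbr2
  have hE3 : Fr E (nd {P (k + 8), P (k + 7), P 0}) := by
    refine hE2.trans' ?_
    have := Stp.mk (nd {P (k + 7), nd 0}) {P (k + 7)}
    rw [br_nd] at this
    exact Fr.of this
  have hQ3 : Fr Q (nd {nd {nd 0, nd 0}, P (k + 7), nd 0}) := by
    refine hQ.trans' ?_
    have s1 := Stp.mk (nd {nd {P (k + 7), nd 0}, nd 0}) 0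
    rw [br_nd] at s1
    refine (Fr.of s1).trans' ?_
    have s2 := Stp.mk (nd {P (k + 7), nd 0}) {nd 0, nd 0}
    rw [br_nd] at s2
    have e5 : (nd 0 ::ₘ {nd {P (k + 7), nd 0}, nd 0} : Multiset RT) =
        nd {P (k + 7), nd 0} ::ₘ {nd 0, nd 0} := by
      simp only [insert_eq_cons]
      exact cons_swap _ _ _
    rw [e5]
    exact Fr.of s2
  obtain ⟨c2', hatt, hfr⟩ := attfr (nd {z}) Q _ hQ3
  have hh2 : nd (Q ::ₘ br (nd {z})) = h2 := by
    rw [br_nd, ← nd_br h2, hQz]
    rfl
  rw [hh2] at hfr
  have hh1 : nd {E} = h1 := by rw [← nd_br h1, hE1]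
  have hsz : size z = k + 6 := by rw [hz.size_eq, size_P]
  have hfin := x5_main lfdel spi k E z c2' hE3 hsz hatt (by rw [hh1]; exact h12.trans' hfr)
  refine hA.symm'.trans' ?_
  refine Fr.trans' ?_ (h12.trans' hfr).symm'
  rw [hfin]
  exact Fr.refl' _

end Pool.Agent.N203.DR
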