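import Pool.Agent.N203.DR.Stm

/-!
# The exceptional tree of `X6` (helper123)
-/

set_option autoImplicit false

namespace Pool.Agent.N203.DR

open Multiset

private theorem x6_del {t' t : RT} (h : Del t' t) :
    (∃ s, t' = nd s ∧ t = nd (nd 0 ::ₘ s)) ∨
    ∃ s b b', Del b b' ∧ t' = nd (b ::ₘ s) ∧ t = nd (b' ::ₘ s) := by
  unfold Del at h
  cases h with
  | root s => exact Or.inl ⟨s, rfl, rfl⟩
  | step s b b' h => exact Or.inr ⟨s, b, b', h, rfl, rfl⟩

private theorem x6_P (k : ℕ) : Del (P k) (P (k + 1)) := by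
  induction k with
  | zero => exact Att.root 0
  | succ k ih => exact Att.step 0 _ _ ih

theorem holds_X6 (cen2 : S_CEN2) (oddv : S_ODDV) : S_X6 := by
  intro m hm
  obtain ⟨A, hA⟩ : ∃ A, A = nd {P (m - 3), nd 0} := ⟨_, rfl⟩
  obtain ⟨B3, hB3⟩ : ∃ B, B = P (m - 3) := ⟨_, rfl⟩
  obtain ⟨B2, hB2⟩ : ∃ B, B = P (m - 2) := ⟨_, rfl⟩
  obtain ⟨B1, hB1⟩ : ∃ B, B = P (m - 1) := ⟨_, rfl⟩
  have s3 : size B3 = m - 2 := by rw [hB3, size_P]; omega
  have s2 : size B2 = m - 1 := by rw [hB2, size_P]; omega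
  have s1 : size B1 = m := by rw [hB1, size_P]; omega
  have s0 : size (nd 0) = 1 := size_zero
  have e1 : B1 = nd {B2} := by
    rw [hB1, hB2, show m - 1 = (m - 2) + 1 by omega]
    rfl
  have d32 : Del B3 B2 := by
    rw [hB3, hB2, show m - 2 = (m - 3) + 1 by omega]
    exact x6_P _
  rw [← hA, ← hB2]
  rw [← hB3] at hA
  have hA' : A = nd (B3 ::ₘ {nd 0}) := hA
  have sA : size A = m := by
    rw [hA', size_nd, map_cons, sum_cons, map_singleton, sum_singleton, s3, s0]
    omega
  have cA : card (br A) = 2 := by rw [hA', br_nd, card_cons, card_singleton]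
  have cP : ∀ k, card (br (P k)) ≤ 1 := by
    intro k
    cases k with
    | zero => simp [P]
    | succ k => simp [P]
  have hA3 : A ≠ B3 := fun h => by
    have := cP (m - 3)
    rw [← hB3, ← h, cA] at this
    omega
  have hA1 : A ≠ B1 := fun h => by
    have := cP (m - 1)
    rw [← hB1, ← h, cA] at this
    omega
  have hA0 : A ≠ nd 0 := fun h => by
    rw [h, br_nd, card_zero] at cA
    omega
  obtain ⟨a1, ha1⟩ : ∃ a, a = nd (A ::ₘ B3 ::ₘ {nd 0}) := ⟨_, rfl⟩
  obtain ⟨a2, ha2⟩ : ∃ a, a = nd (A ::ₘ {B2}) := ⟨_, rfl⟩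
  have ht : nd {A, B2, nd 0} = nd (A ::ₘ B2 ::ₘ {nd 0}) := rfl
  rw [ht]
  have sa1 : size a1 = 2 * m := by
    rw [ha1, size_nd, map_cons, sum_cons, map_cons, sum_cons, map_singleton, sum_singleton, sA,
      s3, s0]
    omega
  have sa2 : size a2 = 2 * m := by
    rw [ha2, size_nd, map_cons, sum_cons, map_singleton, sum_singleton, sA, s2]
    omega
  have c1 : Cen a1 := by
    intro b hb
    rw [ha1, br_nd, mem_cons, mem_cons, mem_singleton] at hb
    rw [sa1]
    rcases hb with rfl | rfl | rfl <;> omega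
  have c2 : Cen a2 := by
    intro b hb
    rw [ha2, br_nd, mem_cons, mem_singleton] at hb
    rw [sa2]
    rcases hb with rfl | rfl <;> omega
  have key1 : ∀ (W : RT) (s : Multiset RT), size W = m → a1 = nd (W ::ₘ s) →
      W = A ∧ s = B3 ::ₘ {nd 0} := by
    intro W s hW h
    rw [ha1] at h
    have h1 := nd_inj h
    have h2 : W ∈ A ::ₘ B3 ::ₘ {nd 0} := by rw [h1]; exact mem_cons_self _ _
    rw [mem_cons, mem_cons, mem_singleton] at h2
    rcases h2 with rfl | rfl | rfl
    · exact ⟨rfl, ((cons_inj_right _).1 h1).symm⟩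
    · omega
    · omega
  have key2 : ∀ (W : RT) (s : Multiset RT), size W = m → a2 = nd (W ::ₘ s) →
      W = A ∧ s = {B2} := by
    intro W s hW h
    rw [ha2] at h
    have h1 := nd_inj h
    have h2 : W ∈ A ::ₘ {B2} := by rw [h1]; exact mem_cons_self _ _
    rw [mem_cons, mem_singleton] at h2
    rcases h2 with rfl | rfl
    · exact ⟨rfl, ((cons_inj_right _).1 h1).symm⟩
    · omega
  have flip1 : nd (nd (B3 ::ₘ {nd 0}) ::ₘ br A) = a1 := by
    rw [← hA', ha1]
    congr 2
    rw [hA', br_nd]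
  refine ⟨a1, a2, ?_, ?_, ?_, ?_⟩
  · rw [ha1, cons_swap A B3, cons_swap A B2]
    exact Att.step _ _ _ d32
  · have : A ::ₘ B2 ::ₘ {nd 0} = nd 0 ::ₘ A ::ₘ {B2} := by
      rw [← singleton_add, ← singleton_add, ← singleton_add, ← singleton_add]
      ac_rfl
    rw [this, ha2]
    exact Att.root _
  · intro hfr
    rcases cen2 a1 a2 hfr c1 c2 with h | ⟨W, s, h1, h2, h3⟩
    · rw [ha1, ha2] at h
      have := congrArg card (nd_inj h)
      simp at this
    · obtain ⟨rfl, rfl⟩ := key1 W s (by omega) h1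
      rw [flip1, ha1, ha2] at h2
      have := congrArg card (nd_inj h2)
      simp at this
  · intro h h1 h2 hc d1 d2 f1 f2
    have sh : size h = 2 * m + 1 := by rw [d1.size_eq, f1.size_eq, sa1]
    have D1 : Del a1 h := by
      rcases oddv m h h1 a1 sh hc c1 d1 f1 with D | ⟨W, s, hW, h3, D⟩
      · exact D
      · obtain ⟨rfl, rfl⟩ := key1 W s hW h3
        rwa [flip1] at D
    have hcard : 3 ≤ card (br h) ∧ A ∈ br h := by
      rcases x6_del D1 with ⟨s, h3, h4⟩ | ⟨s, b, b', D, h3, h4⟩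
      · rw [ha1] at h3
        rw [h4, br_nd, ← nd_inj h3]
        simp
      · rw [ha1] at h3
        have h5 := nd_inj h3
        have h6 : card (b' ::ₘ s) = 3 := by
          rw [card_cons, ← card_cons b s, ← h5]
          simp
        have h7 : A ∈ b ::ₘ s := by rw [← h5]; exact mem_cons_self _ _
        rw [h4, br_nd]
        refine ⟨by omega, ?_⟩
        rcases mem_cons.1 h7 with h8 | h8
        · exfalso
          have h9 := hc b' (by rw [h4, br_nd]; exact mem_cons_self _ _)
          rw [D.size_eq, ← h8, sA, sh] at h9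
          omega
        · exact mem_cons_of_mem h8
    obtain ⟨hc3, hAm⟩ := hcard
    rcases oddv m h h2 a2 sh hc c2 d2 f2 with D | ⟨W, s, hW, h3, D⟩
    · rcases x6_del D with ⟨s, h3, h4⟩ | ⟨s, b, b', D, h3, h4⟩
      · rw [ha2] at h3
        rw [h4, ← nd_inj h3]
        have : A ::ₘ B2 ::ₘ {nd 0} = nd 0 ::ₘ A ::ₘ {B2} := by
          rw [← singleton_add, ← singleton_add, ← singleton_add, ← singleton_add]
          ac_rfl
        rw [this]
        exact Fr.refl' _
      · exfalso
        rw [ha2] at h3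
        have h5 := congrArg card (nd_inj h3)
        rw [h4, br_nd] at hc3
        simp at h5 hc3
        omega
    · exfalso
      obtain ⟨rfl, rfl⟩ := key2 W s hW h3
      rw [← e1] at D
      have hbr : br W = B3 ::ₘ {nd 0} := by rw [hA', br_nd]
      rw [hbr] at D
      have hno : W ∉ B1 ::ₘ B3 ::ₘ {nd 0} := by
        rw [mem_cons, mem_cons, mem_singleton]
        rintro (h | h | h)
        · exact hA1 h
        · exact hA3 h
        · exact hA0 h
      rcases x6_del D with ⟨s, h3, h4⟩ | ⟨s, b, b', D, h3, h4⟩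
      · rw [h4, br_nd, ← nd_inj h3, mem_cons] at hAm
        rcases hAm with h | h
        · exact hA0 h
        · exact hno h
      · have h5 := nd_inj h3
        rw [h4, br_nd, mem_cons] at hAm
        rcases hAm with h | h
        · have h6 : b ∈ B1 ::ₘ B3 ::ₘ {nd 0} := by rw [h5]; exact mem_cons_self _ _
          have h7 := D.size_eq
          rw [← h, sA] at h7
          rw [mem_cons, mem_cons, mem_singleton] at h6
          rcases h6 with rfl | rfl | rfl <;> omega
        · exact hno (by rw [h5]; exact mem_cons_of_mem h)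

end Pool.Agent.N203.DR
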