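import Pool.Agent.N203.DR.Defs

/-!
# Statements of the parts of the project
-/

set_option autoImplicit false

namespace Pool.Agent.N203.DR

open Multiset

/-! ## Free trees and centroids -/

def S_POS : Prop := ∀ c t : RT, Fr c t →
  t = c ∨ ∃ (X : RT) (s : Multiset RT), c = nd (X ::ₘ s) ∧ Pos (nd s) X t

def S_CEN1 : Prop := ∀ t : RT, ∃ c, Fr t c ∧ Cen c

def S_CEN2 : Prop := ∀ c c' : RT, Fr c c' → Cen c → Cen c' →
  c = c' ∨ ∃ (A : RT) (s : Multiset RT), c = nd (A ::ₘ s) ∧ c' = nd (nd s ::ₘ br A) ∧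
    2 * size A = size c

def S_OFF : Prop := ∀ (c t : RT) (σ : ℕ), Fr c t → (∀ b ∈ br c, size b ≤ σ) →
  t = c ∨ ∃ b ∈ br t, size c ≤ size b + σ

def S_ATTFR : Prop := ∀ G B c : RT, Fr B c → ∃ c', Att G c c' ∧ Fr (nd (B ::ₘ br G)) c'

def S_DELLF : Prop := ∀ G c c' : RT, Att G c c' → ∃ B, Fr B c ∧ Fr (nd (B ::ₘ br G)) c'

def S_LFDEL : Prop := ∀ E h : RT, Fr (nd {E}) h → 2 ≤ card (br h) → ∃ h', Del h' h ∧ Fr h' E

def S_HPG : Prop := ∀ G X X' : RT, Fr X X' → Fr (nd (X ::ₘ br G)) (nd (X' ::ₘ br G)) → X = X'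

def S_EXD : Prop := ∀ (C : RT) (s : Multiset RT), Ex C → Fr (nd s) C → fc s = fc (br C) → nd s = C

/-- the card `a` (a centroid-rooted code of it) of the tree `h` with `2 m + 1` vertices rooted at
its centroid -/
def Alt (m : ℕ) (a h : RT) : Prop :=
  Del a h ∨ ∃ (W : RT) (s : Multiset RT), size W = m ∧ a = nd (W ::ₘ s) ∧ Del (nd (nd s ::ₘ br W)) h

def S_ODDV : Prop := ∀ (m : ℕ) (h h' a : RT), size h = 2 * m + 1 → Cen h → Cen a → Del h' h →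
  Fr h' a → Alt m a h

/-- the card `a` of the tree with `2 m` vertices made of two halves `L`, `R` whose roots are
joined -/
def Crd (L R a : RT) : Prop :=
  (∃ L1, Del L1 L ∧ a = nd (L1 ::ₘ br R)) ∨ ∃ R1, Del R1 R ∧ a = nd (R1 ::ₘ br L)

def S_EVENV : Prop := ∀ (m : ℕ) (h h1 h2 a1 a2 : RT), size h = 2 * m → 2 ≤ m → Cen h → Cen a1 →
  Cen a2 → Del h1 h → Del h2 h → Fr h1 a1 → Fr h2 a2 →
  ((∀ b ∈ br h, size b < m) ∧ Del a1 h ∧ Del a2 h) ∨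
  ∃ L R : RT, size L = m ∧ size R = m ∧ h = nd (R ::ₘ br L) ∧ Crd L R a1 ∧ Crd L R a2

def S_LLD : Prop := ∀ t a1 a2 : RT, 3 ≤ size t → LL t a1 a2 → ∃ t1 t2, Fr t t1 ∧ Det t1 t2

/-! ## Paths and exceptional trees -/

def S_PTH : Prop := ∀ A : RT, Del A (nd {A}) → A = P (size A - 1)

def S_PTH2 : Prop := ∀ C D : RT, Del C (nd {nd {D}}) → Del D C → C = P (size C - 1)

def S_HOM : Prop := ∀ C1 C2 : RT, size C1 = size C2 → C1 ≠ C2 →
  (∀ D1 D2, Del D1 C1 → Del D2 C2 → D1 = D2) →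
  ∃ k, (C1 = P (k + 2) ∧ C2 = Yc k) ∨ (C1 = Yc k ∧ C2 = P (k + 2))

def S_SEL : Prop := ∀ A : RT, (∀ k, A ≠ P k) → (∀ k, ¬ Del (P k) A) →
  ∃ A1, Del A1 A ∧ (∀ A' X, A = nd {A'} → Del A' X → Del A1 X → X = A) ∧
    ∀ E, A = nd {E, nd 0} → ¬ Del E A1

def S_SPI : Prop := ∀ (a b c : ℕ) (t : RT), Fr (nd {P a, P b, P c}) t → 3 ≤ card (br t) →
  t = nd {P a, P b, P c}

def S_PFR : Prop := ∀ (k : ℕ) (t : RT), Fr (P k) t →
  card (br t) ≤ 2 ∧ ∀ b ∈ br t, b = P (size b - 1)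

def S_EXB : Prop := ∀ t : RT, Ex t → (∀ b ∈ br t, Ex b) ∧ ∃ w, ∀ b ∈ br t, size b = w

/-! ## Two leaf cards -/

def S_R2 : Prop := ∀ t : RT, Ex t ∨ ∃ a1 a2, RDet t a1 a2

def S_I : Prop := ∀ t a1 a2 : RT, (∀ b ∈ br t, 2 * size b + 3 ≤ size t) → RDet t a1 a2 → LL t a1 a2

/-- even number of vertices, one branch `A` with `m - 1` vertices, all others smaller -/
def S_IIp1 : Prop := ∀ (m : ℕ) (A C : RT) (S : Multiset RT), 10 ≤ m → size A + 1 = m →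
  size (nd (A ::ₘ C ::ₘ S)) = 2 * m → (∀ b ∈ C ::ₘ S, size b < size A) →
  ∃ a1 a2, LL (nd (A ::ₘ C ::ₘ S)) a1 a2

def S_IIp2 : Prop := ∀ (m : ℕ) (A A' : RT), 10 ≤ m → size A + 1 = m → size A' + 1 = m →
  A ≠ P (m - 2) → ∃ a1 a2, LL (nd {A, A', nd 0}) a1 a2

/-- odd number of vertices, a branch `A` with `m` vertices, at least two other branches -/
def S_II1 : Prop := ∀ (m : ℕ) (A : RT) (S : Multiset RT), 10 ≤ m → size A = m →
  size (nd S) = m + 1 → 2 ≤ card S → (∀ C, S ≠ {C, nd 0}) → ∃ a1 a2, LL (nd (A ::ₘ S)) a1 a2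

def S_II1s : Prop := ∀ (m : ℕ) (A C : RT), 10 ≤ m → size A = m → size C + 1 = m →
  ¬ (A = nd {P (m - 3), nd 0} ∧ C = P (m - 2)) → ∃ a1 a2, LL (nd {A, C, nd 0}) a1 a2

def S_X6 : Prop := ∀ m : ℕ, 10 ≤ m →
  ∃ a1 a2, LL (nd {nd {P (m - 3), nd 0}, P (m - 2), nd 0}) a1 a2

def S_II2 : Prop := ∀ (m : ℕ) (A C : RT), 10 ≤ m → size A = m → size C = m → A ≠ C →
  A ≠ P (m - 1) → C ≠ P (m - 1) → ∃ a1 a2, LL (nd {A, C}) a1 a2

def S_II2e : Prop := ∀ (m : ℕ) (A a1 a2 : RT), 10 ≤ m → size A = m → RDet A a1 a2 →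
  LL (nd {A, A}) (nd {a1, A}) (nd {A, a2})

def S_II2p : Prop := ∀ (m : ℕ) (A : RT), 10 ≤ m → size A = m → A ≠ P (m - 1) →
  ¬ Del (P (m - 2)) A → ∃ a1 a2, LL (nd {A, P (m - 1)}) a1 a2

def S_III : Prop := ∀ (m : ℕ) (L R : RT), 10 ≤ m → size L = m → size R = m → L ≠ R →
  L ≠ P (m - 1) → R ≠ P (m - 1) → ∃ a1 a2, LL (nd (R ::ₘ br L)) a1 a2

def S_IIIe : Prop := ∀ (m : ℕ) (L : RT), 10 ≤ m → size L = m → ¬ Ex L →
  L ≠ nd {P (m - 3), nd 0} → S_R2 → ∃ a1 a2, LL (nd (L ::ₘ br L)) a1 a2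

def S_IIIp : Prop := ∀ (m : ℕ) (L : RT), 10 ≤ m → size L = m → L ≠ P (m - 1) →
  ¬ Del (P (m - 2)) L → ∃ a1 a2, LL (nd (P (m - 1) ::ₘ br L)) a1 a2

/-! ## The exceptional trees -/

def S_X1 : Prop := ∀ t : RT, Ex t → 3 ≤ card (br t) → 10 ≤ size t → ∃ t1 t2, Fr t t1 ∧ Det t1 t2

def S_X2 : Prop := ∀ A : RT, Ex A → 10 ≤ size A → ∃ t1 t2, Fr (nd {A, A}) t1 ∧ Det t1 t2

def S_X3a : Prop := ∀ A : RT, Ex A → card (br A) = 1 → 10 ≤ size A →
  ∃ t1 t2, Fr (nd (A ::ₘ br A)) t1 ∧ Det t1 t2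

def S_X3b : Prop := ∀ A : RT, Ex A → 3 ≤ card (br A) → 10 ≤ size A →
  ∃ t1 t2, Fr (nd (A ::ₘ br A)) t1 ∧ Det t1 t2

def S_X3c : Prop := ∀ A : RT, Ex A → card (br A) = 2 → 10 ≤ size A →
  ∃ t1 t2, Fr (nd (A ::ₘ br A)) t1 ∧ Det t1 t2

def S_X4 : Prop := ∀ j k : ℕ, 3 ≤ j + k →
  ∃ t1 t2, Fr (nd {nd 0, P j, P k}) t1 ∧ Det t1 t2

/-- path plus a leaf, joined to a path: re-rooted at the branching vertex -/
def S_X4r : Prop := ∀ (m : ℕ) (A : RT), 3 ≤ m → size A = m → A ≠ P (m - 1) → Del (P (m - 2)) A →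
  (∃ j k, m ≤ j + k + 3 ∧ Fr (nd {A, P (m - 1)}) (nd {nd 0, P j, P k})) ∧
  (∃ j k, m ≤ j + k + 3 ∧ Fr (nd (P (m - 1) ::ₘ br A)) (nd {nd 0, P j, P k}))

def S_X5 : Prop := ∀ m : ℕ, 10 ≤ m →
  ∃ t1 t2, Fr (nd (nd {P (m - 3), nd 0} ::ₘ {P (m - 3), nd 0})) t1 ∧ Det t1 t2

/-! ## Graphs -/

open Classical in
/-- code of the part of the graph at `v`, looking away from `p`, up to depth `k` -/
noncomputable def cod {V : Type} [Fintype V] (G : SimpleGraph V) : ℕ → V → V → RT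
  | 0, _, _ => nd 0
  | k + 1, p, v => nd ((Finset.univ.filter fun w => G.Adj v w ∧ w ≠ p).val.map fun w => cod G k v w)

open Classical in
/-- code of (the component of `r` in) the graph `G`, rooted at `r` -/
noncomputable def code {V : Type} [Fintype V] (G : SimpleGraph V) (r : V) : RT :=
  nd ((Finset.univ.filter fun w => G.Adj r w).val.map fun w => cod G (Fintype.card V) r w)

def S_FUEL : Prop := ∀ (V : Type) [Fintype V] (G : SimpleGraph V) (p v : V) (k : ℕ), G.IsAcyclic →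
  G.Adj p v → Fintype.card V ≤ k + 1 → cod G (k + 1) p v = cod G k p v

def S_ISO : Prop := ∀ (V V' : Type) [Fintype V] [Fintype V'] (T : SimpleGraph V)
  (T' : SimpleGraph V') (r : V) (r' : V'), T.IsTree → T'.IsTree → code T r = code T' r' →
  Nonempty (T ≃g T')

def S_INV : Prop := ∀ (V V' : Type) [Fintype V] [Fintype V'] (G : SimpleGraph V)
  (G' : SimpleGraph V') (e : G ≃g G') (r : V), code G' (e r) = code G r

def S_ROOT : Prop := ∀ (V : Type) [Fintype V] (G : SimpleGraph V) (u v : V), G.IsAcyclic →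
  G.Adj u v → Stp (code G u) (code G v)

def S_REAL : Prop := ∀ (V : Type) [Fintype V] (G : SimpleGraph V) (u : V) (t : RT), G.IsAcyclic →
  Stp (code G u) t → ∃ v, G.Adj u v ∧ code G v = t

def S_SIZE : Prop := ∀ (V : Type) [Fintype V] (G : SimpleGraph V) (r : V), G.IsAcyclic →
  size (code G r) = {v : V | G.Reachable r v}.ncard

open Classical in
/-- the free trees of the components of a forest -/
noncomputable def cc {V : Type} [Fintype V] (F : SimpleGraph V) : Multiset FT :=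
  (Finset.univ : Finset F.ConnectedComponent).val.map fun c => Quot.mk Stp (code F c.out)

def S_CCI : Prop := ∀ (V V' : Type) [Fintype V] [Fintype V'] (F : SimpleGraph V)
  (F' : SimpleGraph V'), F.IsAcyclic → Nonempty (F ≃g F') → cc F = cc F'

open Classical in
def S_CCX : Prop := ∀ (V : Type) [Fintype V] (T : SimpleGraph V) (x : V), T.IsTree →
  cc (T.induce ({x}ᶜ : Set V)) = fc (br (code T x))

/-- the graph `H` is a tree -/
def S_CONN : Prop := ∀ (n : ℕ) (T H : SimpleGraph (Fin n)) (u v x y : Fin n), T.IsTree → x ≠ y →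
  Nonempty (T.induce ({u}ᶜ : Set (Fin n)) ≃g H.induce ({x}ᶜ : Set (Fin n))) →
  (T.neighborSet u).ncard = (H.neighborSet x).ncard →
  Nonempty (T.induce ({v}ᶜ : Set (Fin n)) ≃g H.induce ({y}ᶜ : Set (Fin n))) →
  (T.neighborSet v).ncard = (H.neighborSet y).ncard →
  (card (br (code T u)) = 1 ∨ card (br (code T v)) = 1 ∨
    ∀ a ∈ br (code T u), ∀ b ∈ br (code T v), size a ≠ size b) →
  H.IsTree

end Pool.Agent.N203.DR
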